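import Pool.Agent.W_MP_790ce2_lc.CorA

/-!
# MP_790ce2_lc : a native form of the Cantor–Bernstein theorem
-/

universe u v

namespace SYM

open IM (BSet)
open IM.BSet
open ZFM
open Cardinal Ordinal Order
open scoped Cardinal Ordinal

variable {D : Type u} [CompleteBooleanAlgebra D] {S : SymSys D}

section native
variable (S) in
/-- the truth value of `ξ ∈ X` -/
noncomputable def cbB (X : BSet D) (ξ : Ordinal.{u}) : D := bmem (chkO D ξ) X

open Classical in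
/-- the truth value of `η ∈ C`, `C = {h^n ζ : ζ ∉ X}` -/
noncomputable def cbC (X : BSet D) (l : Ordinal.{u}) (h : Ordinal.{u} → Ordinal.{u}) (η : Ordinal.{u}) : D :=
  ⨆ q : ℕ × Set.Iio l, if h^[q.1] q.2.1 = η then (cbB X q.2.1)ᶜ else ⊥

open Classical in
/-- the truth value of `[ξ = η]` -/
noncomputable def cbE (D : Type u) [CompleteBooleanAlgebra D] (ξ η : Ordinal.{u}) : D := if ξ = η then ⊤ else ⊥

/-- the graph of the bijection -/
noncomputable def cbW (X : BSet D) (l : Ordinal.{u}) (h : Ordinal.{u} → Ordinal.{u}) (ξ η : Ordinal.{u}) : D :=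
  (cbC X l h η ⊓ cbE D ξ (h η)) ⊔ ((cbC X l h η)ᶜ ⊓ cbE D ξ η)

variable {X : BSet D} {l : Ordinal.{u}} {h : Ordinal.{u} → Ordinal.{u}}

theorem cbE_self (ξ : Ordinal.{u}) : cbE D ξ ξ = ⊤ := by
  unfold cbE
  rw [if_pos rfl]

theorem eq_of_cbE {G : Gen S} {ξ η : Ordinal.{u}} (hE : G.lam (cbE D ξ η)) : ξ = η := by
  unfold cbE at hE
  by_contra hne
  rw [if_neg hne] at hE
  exact G.uf.bot hE

theorem cb_iter (hm : ∀ ξ < l, h ξ < l) (n : ℕ) : ∀ ζ < l, h^[n] ζ < l := by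
  induction n with
  | zero => exact fun ζ hζ => hζ
  | succ n ih =>
    intro ζ hζ
    rw [Function.iterate_succ_apply']
    exact hm _ (ih ζ hζ)

theorem cbB_compl_le {η : Ordinal.{u}} (n : ℕ) {ζ : Ordinal.{u}} (hζ : ζ < l) (hh : h^[n] ζ = η) :
    (cbB X ζ)ᶜ ≤ cbC X l h η := by
  classical
  unfold cbC
  refine le_trans ?_ (le_iSup (fun q : ℕ × Set.Iio l =>
    if h^[q.1] q.2.1 = η then (cbB X q.2.1)ᶜ else ⊥) (n, ⟨ζ, hζ⟩))
  simp only
  rw [if_pos hh]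

theorem cbC_le_succ (η : Ordinal.{u}) : cbC X l h η ≤ cbC X l h (h η) := by
  classical
  unfold cbC
  refine iSup_le fun q => ?_
  by_cases hq : h^[q.1] q.2.1 = η
  · rw [if_pos hq]
    exact cbB_compl_le (q.1 + 1) q.2.2 (by rw [Function.iterate_succ_apply', hq])
  · rw [if_neg hq]
    exact bot_le

/-- every element of `X` has a preimage -/
theorem cbB_le (hm : ∀ ξ < l, h ξ < l) {ξ : Ordinal.{u}} (hξ : ξ < l) :
    cbB X ξ ≤ ⨆ η : Set.Iio l, cbW X l h ξ η.1 := by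
  classical
  have h1 : (cbC X l h ξ)ᶜ ≤ ⨆ η : Set.Iio l, cbW X l h ξ η.1 := by
    refine le_trans ?_ (le_iSup (fun η : Set.Iio l => cbW X l h ξ η.1) ⟨ξ, hξ⟩)
    unfold cbW
    refine le_trans ?_ le_sup_right
    rw [cbE_self, inf_top_eq]
  have h2 : cbB X ξ ⊓ cbC X l h ξ ≤ ⨆ η : Set.Iio l, cbW X l h ξ η.1 := by
    unfold cbC
    rw [inf_iSup_eq]
    refine iSup_le fun q => ?_
    obtain ⟨n, ζ, hζ⟩ := q
    simp only
    by_cases hq : h^[n] ζ = ξ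
    · rw [if_pos hq]
      rcases n with _ | n
      · rw [Function.iterate_zero_apply] at hq
        rw [hq, inf_compl_eq_bot]
        exact bot_le
      · rw [Function.iterate_succ_apply'] at hq
        have hη : h^[n] ζ < l := cb_iter hm n ζ hζ
        refine le_trans inf_le_right (le_trans ?_
          (le_iSup (fun η : Set.Iio l => cbW X l h ξ η.1) ⟨h^[n] ζ, hη⟩))
        unfold cbW
        refine le_trans ?_ le_sup_left
        simp only
        rw [hq, cbE_self, inf_top_eq]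
        exact cbB_compl_le n hζ rfl
    · rw [if_neg hq, inf_bot_eq]
      exact bot_le
  calc cbB X ξ = cbB X ξ ⊓ (cbC X l h ξ ⊔ (cbC X l h ξ)ᶜ) := by rw [sup_compl_eq_top, inf_top_eq]
    _ = (cbB X ξ ⊓ cbC X l h ξ) ⊔ (cbB X ξ ⊓ (cbC X l h ξ)ᶜ) := inf_sup_left _ _ _
    _ ≤ ⨆ η : Set.Iio l, cbW X l h ξ η.1 := sup_le h2 (inf_le_right.trans h1)

/-- every ordinal has an image -/
theorem cbW_col (hm : ∀ ξ < l, h ξ < l) {η : Ordinal.{u}} (hη : η < l) :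
    (⊤ : D) ≤ ⨆ ξ : Set.Iio l, cbW X l h ξ.1 η := by
  rw [← sup_compl_eq_top (x := cbC X l h η)]
  refine sup_le ?_ ?_
  · refine le_trans ?_ (le_iSup (fun ξ : Set.Iio l => cbW X l h ξ.1 η) ⟨h η, hm η hη⟩)
    unfold cbW
    refine le_trans ?_ le_sup_left
    simp only
    rw [cbE_self, inf_top_eq]
  · refine le_trans ?_ (le_iSup (fun ξ : Set.Iio l => cbW X l h ξ.1 η) ⟨η, hη⟩)
    unfold cbW
    refine le_trans ?_ le_sup_right
    simp only
    rw [cbE_self, inf_top_eq]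

theorem lam_cbW {G : Gen S} {ξ η : Ordinal.{u}} (hw : G.lam (cbW X l h ξ η)) :
    (G.lam (cbC X l h η) ∧ ξ = h η) ∨ (¬ G.lam (cbC X l h η) ∧ ξ = η) := by
  unfold cbW at hw
  rcases G.uf.sup_iff.1 hw with h1 | h1
  · have h2 := G.uf.inf_iff.1 h1
    exact Or.inl ⟨h2.1, eq_of_cbE h2.2⟩
  · have h2 := G.uf.inf_iff.1 h1
    exact Or.inr ⟨G.uf.compl_iff.1 h2.1, eq_of_cbE h2.2⟩

theorem cb_fix {i : S.ι} (hX : S.Sup i X) (ξ η : Ordinal.{u}) : S.Fix i (cbW X l h ξ η) := by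
  classical
  have hE : ∀ ξ η : Ordinal.{u}, S.Fix i (cbE D ξ η) := by
    intro ξ η
    unfold cbE
    split_ifs
    · exact Fix.top
    · exact Fix.bot
  have hC : S.Fix i (cbC X l h η) := by
    unfold cbC
    refine Fix.iSup fun q => ?_
    by_cases hq : h^[q.1] q.2.1 = η
    · rw [if_pos hq]
      exact Fix.compl (fix_bmem (sup_chkO i _) hX)
    · rw [if_neg hq]
      exact Fix.bot
  exact Fix.sup (Fix.inf hC (hE _ _)) (Fix.inf (Fix.compl hC) (hE _ _))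

/-- the components of a pair whose name belongs to the model -/
theorem prB_mem {G : Gen S} {x y : BSet D} (hp : prB x y ∈ G.N) : x ∈ G.N ∧ y ∈ G.N := by
  have hc : ∀ a b : BSet D, upB a b ∈ G.N → a ∈ G.N ∧ b ∈ G.N := by
    intro a b hab
    have hct : Countable (upB a b).ty := inferInstanceAs (Countable (ULift.{u} Bool))
    exact ⟨G.cl _ hab hct (ULift.up true), G.cl _ hab hct (ULift.up false)⟩
  have h1 := (hc _ _ hp).2
  exact hc _ _ h1

end native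

/-- Let `b ξ = ⟦ξ̌ ∈ X⟧` and `h : l → l` an injection of the universe with `⟦h(ξ)ˇ ∈ X⟧ = ⊤` below `a` for all `ξ < l`. Then below
`a` there is a bijection from `X` to `l`.

PROOF.  Let `C = {η : ∃ n ζ, h^n ζ = η, ζ ∉ X}`, i.e. `cD η = ⨆ n, ⨆ ζ < l, [h^n ζ = η] (b ζ)ᶜ`. The bijection `φ : l → X` is
`φ(η) = h(η)` if `η ∈ C`, `φ(η) = η` otherwise. Its inverse is given by the name `relN l l w`,
`w ξ η = (cD η ⊓ [ξ = h η]) ⊔ ((cD η)ᶜ ⊓ [ξ = η])`. In a model containing `a`, `X`, `ľ` and this name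
(`Gen.pull` for the statement ''there is a bijection from `X` to `l`''):
if `η ∉ C` then `η ∈ X` (`n = 0`), so `φ(η) ∈ X`; `h(η) ∈ X` for all `η`. Injective: if `η ∈ C`, `η' ∉ C`, `h η = η'` then
`η' ∈ C`. Surjective: if `ξ ∈ X ∖ C` then `φ(ξ) = ξ`; if `ξ ∈ X ∩ C`, `ξ = h^n ζ` with `ζ ∉ X`, then `n ≥ 1` and
`ξ = φ(h^(n-1) ζ)`. The statements about all `ξ < l` are needed only for `ξ` with `G.O ξ`; to see that the name of
`h^(n-1) ζ` is in the model use a formula about the model: `exists_of_iSup_relN` (each row and each column has supremum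
above the required truth value). -/
theorem Gen.exists_bij {G : Gen S} {X : BSet D} (hX : X ∈ G.N) {l : Ordinal.{u}} (hl : G.O l)
    (hs : Sub G.E (G.val X) (G.ord l)) (h : Ordinal.{u} → Ordinal.{u}) (hi : Set.InjOn h (Set.Iio l))
    (hm : ∀ ξ < l, h ξ < l) (ha : G.lam (⨅ ξ : Set.Iio l, bmem (chkO D (h ξ.1)) X)) :
    ∃ f, IsBij G.E f (G.val X) (G.ord l) := by
  classical
  obtain ⟨i, hiX⟩ : ∃ i, S.Sup i X := ((HS_def S X).1 (Gen.hsN hX)).1
  have hw : ∀ j, (![X, chkO D l] : Fin 2 → BSet D) j ∈ G.N := by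
    intro j
    refine Fin.cases ?_ (fun j => ?_) j
    · exact hX
    · refine Fin.cases ?_ (fun j => j.elim0) j
      exact hl
  obtain ⟨φs, hφs⟩ := Sub.fo.{0} (k := 2) 0 1
  have hlos : G.lam (tvS S φs ![X, chkO D l]) :=
    (Gen.los φs _ hw).1 ((hφs _ _ _).1 hs)
  have hHS : S.HS (relN l l (cbW X l h)) := HS_relN l l fun ξ _ η _ => cb_fix hiX ξ η
  have key := Gen.pull (G := G) (R := fun T E v => ∃ f, IsBij E f (v 0) (v 1))
    (FO.ex (R := fun T E f v => IsBij E f (v 0) (v 1)) (IsBij.fo 0 (Fin.succ 0) (Fin.succ 1)))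
    (w := ![X, chkO D l]) hw (G.uf.inf ha hlos) {relN l l (cbW X l h)} (Set.countable_singleton _)
    (by
      intro x hx
      rw [Set.mem_singleton_iff.1 hx]
      exact hHS) ?_
  · exact key
  intro G' hw' hN0 hd'
  have hX' : X ∈ G'.N := hw' 0
  have hl' : G'.O l := hw' 1
  have hR' : relN l l (cbW X l h) ∈ G'.N := hN0 (Set.mem_singleton _)
  obtain ⟨hd1, hd2⟩ := G'.uf.inf_iff.1 hd'
  have hs' : Sub G'.E (G'.val X) (G'.ord l) := (hφs _ _ _).2 ((Gen.los φs _ hw').2 hd2)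
  have hbh : ∀ η < l, G'.lam (cbB X (h η)) := fun η hη =>
    G'.uf.mono (iInf_le (fun ξ : Set.Iio l => bmem (chkO D (h ξ.1)) X) ⟨η, hη⟩) hd1
  -- the elements of the graph
  have hmem : ∀ {ξ η : Ordinal.{u}}, η < l → G'.lam (cbW X l h ξ η) → G'.lam (cbB X ξ) := by
    intro ξ η hη hwl
    rcases lam_cbW hwl with ⟨-, h2⟩ | ⟨h1, h2⟩
    · rw [h2]; exact hbh η hη
    · rw [h2]
      by_contra hn
      exact h1 (G'.uf.mono (cbB_compl_le (X := X) (h := h) 0 hη rfl) (G'.uf.compl_iff.2 hn))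
  have hXo : ∀ {ξ : Ordinal.{u}}, G'.O ξ → (G'.E (G'.ord ξ) (G'.val X) ↔ G'.lam (cbB X ξ)) :=
    fun hξ => Gen.E_val hξ hX'
  have happ : ∀ {x y : G'.M}, App G'.E (G'.val (relN l l (cbW X l h))) x y ↔
      ∃ ξ < l, ∃ η < l, G'.O ξ ∧ G'.O η ∧ x = G'.ord ξ ∧ y = G'.ord η ∧ G'.lam (cbW X l h ξ η) :=
    fun {x y} => Gen.app_relN hR'
  have huniq : ∀ {ξ η η' : Ordinal.{u}}, η < l → η' < l → G'.lam (cbW X l h ξ η) →
      G'.lam (cbW X l h ξ η') → η = η' := by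
    intro ξ η η' hη hη' h1 h2
    rcases lam_cbW h1 with ⟨c1, e1⟩ | ⟨c1, e1⟩ <;> rcases lam_cbW h2 with ⟨c2, e2⟩ | ⟨c2, e2⟩
    · exact hi hη hη' (e1.symm.trans e2)
    · exfalso
      apply c2
      rw [← e2, e1]
      exact G'.uf.mono (cbC_le_succ η) c1
    · exfalso
      apply c1
      rw [← e1, e2]
      exact G'.uf.mono (cbC_le_succ η') c2
    · exact e1.symm.trans e2
  have huniq' : ∀ {ξ ξ' η : Ordinal.{u}}, G'.lam (cbW X l h ξ η) →
      G'.lam (cbW X l h ξ' η) → ξ = ξ' := by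
    intro ξ ξ' η h1 h2
    rcases lam_cbW h1 with ⟨c1, e1⟩ | ⟨c1, e1⟩ <;> rcases lam_cbW h2 with ⟨c2, e2⟩ | ⟨c2, e2⟩
    · exact e1.trans e2.symm
    · exact absurd c1 c2
    · exact absurd c2 c1
    · exact e1.trans e2.symm
  show ∃ f, IsBij G'.E f (G'.val X) (G'.ord l)
  refine ⟨G'.val (relN l l (cbW X l h)), ⟨⟨⟨?_, ?_⟩, ?_⟩, ?_⟩⟩
  · intro p hp
    obtain ⟨bb, hb1, rfl, hb2⟩ := (Gen.mem_iff hR').1 hp
    obtain ⟨h1, h2⟩ := prB_mem hb1
    refine ⟨G'.ord (tp bb.1), G'.ord (tp bb.2), ?_, Gen.isPair_val h1 h2⟩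
    exact (hXo h1).2 (hmem (tp_lt bb.2) hb2)
  · intro x hx
    obtain ⟨ξ, hξl, hξ, rfl⟩ := (Gen.mem_ord hl').1 (hs' x hx)
    have h1 := G'.uf.mono (cbB_le (X := X) hm hξl) ((hXo hξ).1 hx)
    obtain ⟨η, hηl, hη, h2⟩ := Gen.exists_of_iSup_relN hR' hξl hξ h1
    refine ⟨G'.ord η, happ.2 ⟨ξ, hξl, η, hηl, hξ, hη, rfl, rfl, h2⟩, ?_⟩
    intro y hy
    obtain ⟨ξ', hξ'l, η', hη'l, hξ', hη', e1, e2, h3⟩ := happ.1 hy
    have e3 := (Gen.ord_inj hξ hξ').1 e1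
    rw [← e3] at h3
    rw [e2, huniq hη'l hηl h3 h2]
  · intro x y hy
    obtain ⟨ξ', hξ'l, η', hη'l, hξ', hη', e1, e2, h3⟩ := happ.1 hy
    rw [e2]
    exact (Gen.E_ord hη' hl').2 hη'l
  · intro y hy
    obtain ⟨η, hηl, hη, rfl⟩ := (Gen.mem_ord hl').1 hy
    obtain ⟨ξ, hξl, hξ, h2⟩ := Gen.exists_of_iSup_relN' hR' hηl hη
      (G'.uf.mono (cbW_col (X := X) hm hηl) G'.uf.top)
    refine ⟨G'.ord ξ, happ.2 ⟨ξ, hξl, η, hηl, hξ, hη, rfl, rfl, h2⟩, ?_⟩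
    intro x hx
    obtain ⟨ξ', hξ'l, η', hη'l, hξ', hη', e1, e2, h3⟩ := happ.1 hx
    have e3 := (Gen.ord_inj hη hη').1 e2
    rw [← e3] at h3
    rw [e1, huniq' h3 h2]

end SYM
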