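import Pool.Agent.W_MP_790ce2_lc.ZOrd

/-!
# MP_790ce2_lc : some facts about cardinals in models of ZF
-/

universe u v

namespace ZFM

/-- In ZF: a regular limit ordinal is a cardinal. (If `f` is a function on `β < κ` whose range contains `κ`, change the
values outside of `κ` to `∅`.) -/
theorem isCard_of_isReg {N : Type v} {E : N → N → Prop} (hZ : IsZF E) {κ : N} (ho : IsOrd E κ)
    (h0 : ∃ x, E x κ) (hl : ∀ x, E x κ → ∃ y, E y κ ∧ IsSucc E y x) (hr : IsReg E κ) : IsCard E κ := by
  refine ⟨ho, fun β f hβ hf hon => ?_⟩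
  obtain ⟨x0, hx0⟩ := h0
  obtain ⟨g, hg, hgR⟩ := hZ.exFun
    (R := fun x y => (App E f x y ∧ E y κ) ∨ (y = x0 ∧ ∀ z, App E f x z → ¬ E z κ)) (by (repeat' (first | assumption | (apply DefFun.comp; assumption) | apply IsNum.df | apply CarriesUniform.df | apply IsUltra.df | apply IsBij.df | apply IsCofOmega.df | apply IsAleph.df | apply IsAlephFun.df | apply IsReg.df | apply IsSuccCard.df | apply IsInfCard.df | apply IsCard.df | apply Maps.df | apply IsFun.df | apply App.df | apply IsOmega.df | apply IsNat.df | apply IsZS.df | apply IsOrd.df | apply IsTr.df | apply IsSucc.df | apply IsPair.df | apply IsUPair.df | apply IsEmp.df | apply Sub.df | exact DefFun.var _ | exact DefFun.const _ | apply Def.eq | apply Def.mem | apply Def.not | apply Def.and | apply Def.or | apply Def.iff | apply Def.imp | apply Def.exU | apply Def.ex | apply Def.all))) β (by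
      intro x hx
      obtain ⟨z, hz⟩ := hf.ex hx
      by_cases hzκ : E z κ
      · refine ⟨z, Or.inl ⟨hz, hzκ⟩, ?_⟩
        rintro y (⟨hy, _⟩ | ⟨_, hy⟩)
        · exact hf.val hZ hy hz
        · exact (hy z hz hzκ).elim
      · refine ⟨x0, Or.inr ⟨rfl, fun z' hz' h => hzκ (hf.val hZ hz' hz ▸ h)⟩, ?_⟩
        rintro y (⟨hy, hyκ⟩ | ⟨hy, _⟩)
        · exact (hzκ (hf.val hZ hy hz ▸ hyκ)).elim
        · exact hy)
  have hm : Maps E g β κ := by
    refine ⟨hg, fun x y hxy => ?_⟩
    rcases (hgR x (hg.dom hZ hxy) y).1 hxy with ⟨_, h⟩ | ⟨h, _⟩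
    · exact h
    · rw [h]; exact hx0
  obtain ⟨γ, hγ, hb⟩ := hr β g hβ hm
  obtain ⟨x, hx⟩ := hon γ hγ
  have hxβ : E x β := hf.dom hZ hx
  exact hZ.irrefl γ (hb x γ ((hgR x hxβ γ).2 (Or.inl ⟨hx, hγ⟩)))

/-- `ω` is regular. -/
private theorem isReg_of_isOmega {N : Type v} {E : N → N → Prop} (hZ : IsZF E) {w : N} (hw : IsOmega E w) :
    IsReg E w := by
  have key : ∀ n, IsNat E n → ∀ f, Maps E f n w → ∃ γ, E γ w ∧ ∀ x y, App E f x y → E y γ := by
    refine IsNat.ind hZ
      (P := fun n => ∀ f, Maps E f n w → ∃ γ, E γ w ∧ ∀ x y, App E f x y → E y γ) (by (repeat' (first | assumption | (apply DefFun.comp; assumption) | apply IsNum.df | apply CarriesUniform.df | apply IsUltra.df | apply IsBij.df | apply IsCofOmega.df | apply IsAleph.df | apply IsAlephFun.df | apply IsReg.df | apply IsSuccCard.df | apply IsInfCard.df | apply IsCard.df | apply Maps.df | apply IsFun.df | apply App.df | apply IsOmega.df | apply IsNat.df | apply IsZS.df | apply IsOrd.df | apply IsTr.df | apply IsSucc.df | apply IsPair.df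 | apply IsUPair.df | apply IsEmp.df | apply Sub.df | exact DefFun.var _ | exact DefFun.const _ | apply Def.eq | apply Def.mem | apply Def.not | apply Def.and | apply Def.or | apply Def.iff | apply Def.imp | apply Def.exU | apply Def.ex | apply Def.all))) ?_ ?_
    · intro z hz f hf
      obtain ⟨γ, hγ⟩ := hw.2.1
      exact ⟨γ, hγ, fun x y hxy => (hz x (hf.1.dom hZ hxy)).elim⟩
    · intro n m hn hm ih f hf
      have hsub : Sub E n m := fun z hz => (hm z).2 (Or.inl hz)
      obtain ⟨g, hg, hgR⟩ := hZ.exRestr hf.1 hsub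
      have hgm : Maps E g n w := by
        refine ⟨hg, fun x y hxy => ?_⟩
        exact hf.2 x y ((hgR x (hg.dom hZ hxy) y).1 hxy)
      obtain ⟨γ, hγ, hb⟩ := ih g hgm
      obtain ⟨a, ha⟩ := hf.1.ex hm.self
      obtain ⟨a', ha', hsa⟩ := hw.2.2.1 a (hf.2 _ _ ha)
      have hγo : IsOrd E γ := hw.1.mem hγ
      have hao : IsOrd E a' := hw.1.mem ha'
      -- the values of `f` are values of `g` or equal to `a`
      have hval : ∀ x y, App E f x y → E y γ ∨ y = a := by
        intro x y hxy
        rcases (hm x).1 (hf.1.dom hZ hxy) with h | h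
        · exact Or.inl (hb x y ((hgR x h y).2 hxy))
        · rw [h] at hxy
          exact Or.inr (hf.1.val hZ hxy ha)
      rcases hγo.tri hZ hao with h | h | h
      · refine ⟨a', ha', fun x y hxy => ?_⟩
        rcases hval x y hxy with h1 | h1
        · exact hao.trans h h1
        · rw [h1]; exact hsa.self
      · refine ⟨a', ha', fun x y hxy => ?_⟩
        rcases hval x y hxy with h1 | h1
        · rw [← h]; exact h1
        · rw [h1]; exact hsa.self
      · refine ⟨γ, hγ, fun x y hxy => ?_⟩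
        rcases hval x y hxy with h1 | h1
        · exact h1
        · rw [h1]; exact hγo.trans h hsa.self
  intro β f hβ hf
  exact key β ((hw.mem_iff hZ).1 hβ) f hf

/-- In ZF: `ω` is a cardinal: by induction on `n` no function from `n` is onto `ω`. -/
theorem isCard_of_isOmega {N : Type v} {E : N → N → Prop} (hZ : IsZF E) {w : N} (hw : IsOmega E w) : IsCard E w :=
  isCard_of_isReg hZ hw.1 hw.2.1 hw.2.2.1 (isReg_of_isOmega hZ hw)

/-- In ZF: if `κ` is a cardinal, `ω ∈ κ`, `U` is a set such that every element of `U` is in bijection with `κ`, then no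
`X ∈ U` is contained in the range of a function with domain `ω`. -/
theorem not_ctbl_of_uniform {N : Type v} {E : N → N → Prop} (hZ : IsZF E) {κ U X w f : N} (hκ : IsCard E κ)
    (hwκ : E w κ) (hU : ∀ X, E X U → ∃ f, IsBij E f X κ) (hX : E X U) (hf : IsFun E f w)
    (hr : ∀ x, E x X → ∃ n, App E f n x) : False := by
  obtain ⟨b, hb, hbb⟩ := hU X hX
  obtain ⟨g, hg, hgR⟩ := hZ.exFun
    (R := fun n y => (∃ x, App E f n x ∧ App E b x y) ∨ (y = w ∧ ∀ x, App E f n x → ¬ E x X)) (by (repeat' (first | assumption | (apply DefFun.comp; assumption) | apply IsNum.df | apply CarriesUniform.df | apply IsUltra.df | apply IsBij.df | apply IsCofOmega.df | apply IsAleph.df | apply IsAlephFun.df | apply IsReg.df | apply IsSuccCard.df | apply IsInfCard.df | apply IsCard.df | apply Maps.df | apply IsFun.df | apply App.df | apply IsOmega.df | apply IsNat.df | apply IsZS.df | apply IsOrd.df | apply IsTr.df | apply IsSucc.df | apply IsPair.df | apply IsUPair.df | apply IsEmp.df | apply Sub.df | exact DefFun.var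 _ | exact DefFun.const _ | apply Def.eq | apply Def.mem | apply Def.not | apply Def.and | apply Def.or | apply Def.iff | apply Def.imp | apply Def.exU | apply Def.ex | apply Def.all))) w (by
      intro n hn
      obtain ⟨x, hx⟩ := hf.ex hn
      by_cases hxX : E x X
      · obtain ⟨y, hy⟩ := hb.1.ex hxX
        refine ⟨y, Or.inl ⟨x, hx, hy⟩, ?_⟩
        rintro y' (⟨x', hx', hy'⟩ | ⟨_, h⟩)
        · have h1 : x' = x := hf.val hZ hx' hx
          rw [h1] at hy'
          exact hb.1.val hZ hy' hy
        · exact (h x hx hxX).elim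
      · refine ⟨w, Or.inr ⟨rfl, fun x' hx' h => hxX (hf.val hZ hx' hx ▸ h)⟩, ?_⟩
        rintro y' (⟨x', hx', hy'⟩ | ⟨h, _⟩)
        · have h1 : x' = x := hf.val hZ hx' hx
          rw [h1] at hy'
          exact (hxX (hb.1.dom hZ hy')).elim
        · exact h)
  refine hκ.2 w g hwκ hg fun y hy => ?_
  obtain ⟨x, hx, _⟩ := hbb y hy
  obtain ⟨n, hn⟩ := hr x (hb.1.dom hZ hx)
  exact ⟨n, (hgR n (hf.dom hZ hn) y).2 (Or.inl ⟨x, hn, hx⟩)⟩

end ZFM
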