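import Pool.Agent.W_MP_790ce2_lc.RelG
import Pool.Agent.W_MP_790ce2_lc.ZCard

/-!
# MP_790ce2_lc : native regularity and native surjections, and what they give in the generic models
-/

universe u v

namespace SYM

open IM (BSet)
open IM.BSet
open ZFM

variable {D : Type u} [CompleteBooleanAlgebra D] {S : SymSys D}

variable (S) in
/-- Native regularity of the ordinal `l`: symmetric names of functions from `β < l` to `l` are bounded. -/
def BReg (l : Ordinal.{u}) : Prop :=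
  ∀ (i : S.ι) (β : Ordinal.{u}) (w : Ordinal.{u} → Ordinal.{u} → D) (a : D), β < l → a ≠ ⊥ →
    (∀ ξ η, S.Fix i (w ξ η)) → (∀ ξ < β, a ≤ ⨆ η : Set.Iio l, w ξ η.1) →
    (∀ ξ < β, ∀ η < l, ∀ η' < l, η ≠ η' → a ⊓ (w ξ η ⊓ w ξ η') = ⊥) →
    ∃ a' ≤ a, a' ≠ ⊥ ∧ ∃ γ < l, ∀ ξ < β, ∀ η < l, γ ≤ η → a' ⊓ w ξ η = ⊥

variable (S) in
/-- Native surjection: a symmetric name of a partial function from `μ` onto `α`. -/
def BSur (μ α : Ordinal.{u}) : Prop :=
  ∃ (i : S.ι) (w : Ordinal.{u} → Ordinal.{u} → D), (∀ ξ η, S.Fix i (w ξ η)) ∧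
    (∀ ξ < μ, ∀ η < α, ∀ η' < α, η ≠ η' → w ξ η ⊓ w ξ η' = ⊥) ∧ ∀ η < α, (⨆ ξ : Set.Iio μ, w ξ.1 η) = ⊤

namespace Gen

variable {G : Gen S}

/-- the formula: the function `f` from `β` to `l` is unbounded -/
theorem cg_unbd_fo : FO.{0} (fun _ E (v : Fin 3 → _) => Maps E (v 0) (v 1) (v 2) ∧
    ¬ ∃ γ, E γ (v 2) ∧ ∀ x y, App E (v 0) x y → E y γ) := by
  refine FO.and (Maps.fo _ _ _) (FO.not (FO.ex
    (R := fun _ E γ v => E γ (v 2) ∧ ∀ x y, App E (v 0) x y → E y γ) (FO.and (FO.mem _ _) (FO.all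
      (R := fun _ E x w => ∀ y, App E (w 1) x y → E y (w 0)) (FO.all
      (R := fun _ E y w => App E (w 2) (w 0) y → E y (w 1)) (FO.imp (App.fo _ _ _) (FO.mem _ _)))))))

/-- Let `f : β̌ → ľ` be unbounded in `G`, `f = G.val f'`, `f'` with support `i`. Let `w ξ η = appD S f' ξ̌ η̌` and let
`a ∈ G.lam` be the truth value of `f'` is an unbounded function from `β̌` to `ľ` (`IsReg` negated, a formula). By
`Gen.le_iff` the assumptions of `BReg` hold; let `a'`, `γ` be given by `BReg`. In a model containing `a'` and the names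
`f', β̌, ľ, γ̌` the function is unbounded and bounded by `γ̌`. -/
theorem isReg_ord {l : Ordinal.{u}} (h : BReg S l) (hl : G.O l) : IsReg G.E (G.ord l) := by
  intro b f hb hf
  obtain ⟨β, hβl, hβ, rfl⟩ := (mem_ord hl).1 hb
  obtain ⟨f', hf', rfl⟩ := exists_name f
  by_contra hn
  obtain ⟨φ, hφ⟩ := cg_unbd_fo
  have hw : ∀ G' : Gen S, f' ∈ G'.N → G'.O β → G'.O l → ∀ i, (![f', chkO D β, chkO D l] : Fin 3 → BSet D) i ∈ G'.N := by
    intro G' h1 h2 h3 i
    refine Fin.cases h1 (fun i => ?_) i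
    refine Fin.cases h2 (fun i => ?_) i
    exact Fin.cases h3 (fun i => i.elim0) i
  have hmod : ∀ G' : Gen S, f' ∈ G'.N → G'.O β → G'.O l →
      (G'.lam (tvS S φ ![f', chkO D β, chkO D l]) ↔ Maps G'.E (G'.val f') (G'.ord β) (G'.ord l) ∧
        ¬ ∃ γ, G'.E γ (G'.ord l) ∧ ∀ x y, App G'.E (G'.val f') x y → G'.E y γ) := by
    intro G' h1 h2 h3
    rw [← los φ _ (hw G' h1 h2 h3)]
    exact (hφ G'.M G'.E fun i => G'.val ((![f', chkO D β, chkO D l] : Fin 3 → BSet D) i)).symm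
  have hla : G.lam (tvS S φ ![f', chkO D β, chkO D l]) := (hmod G hf' hβ hl).2 ⟨hf, hn⟩
  generalize tvS S φ ![f', chkO D β, chkO D l] = a at hmod hla
  have ha : a ≠ ⊥ := by
    rintro rfl
    exact G.uf.bot hla
  have hHS : S.HS f' := hsN hf'
  obtain ⟨⟨i, hi⟩, -⟩ := (HS_def S f').1 hHS
  have hcO : ∀ ξ : Ordinal.{u}, S.HS (chkO D ξ) := fun ξ => HS_chkO ξ
  obtain ⟨a', ha', ha'0, γ, hγ, hb'⟩ := h i β (fun ξ η => appD S f' (chkO D ξ) (chkO D η)) a hβl ha
    (fun ξ η => fix_appD hi ξ η) (by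
      intro ξ hξ
      refine (le_iff (S := S) {f', chkO D β, chkO D l, chkO D ξ} (Set.toFinite _).countable (by
        rintro x (rfl | rfl | rfl | rfl)
        · exact hHS
        · exact hcO _
        · exact hcO _
        · exact hcO _)).2 fun G' hN hlam => ?_
      have k1 : f' ∈ G'.N := hN (by simp)
      have k2 : G'.O β := hN (by simp)
      have k3 : G'.O l := hN (by simp)
      have k4 : G'.O ξ := hN (by simp)
      obtain ⟨hm, -⟩ := (hmod G' k1 k2 k3).1 hlam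
      obtain ⟨y, hy⟩ := hm.1.ex ((E_ord k4 k2).2 hξ)
      obtain ⟨η, hη, k5, rfl⟩ := (mem_ord k3).1 (hm.2 _ _ hy)
      exact G'.uf.mono (le_iSup (fun η : Set.Iio l => appD S f' (chkO D ξ) (chkO D η.1)) ⟨η, hη⟩)
        ((app_iff k1 k4 k5).1 hy)) (by
      intro ξ hξ η hη η' hη' hne
      rw [eq_bot_iff]
      refine (le_iff (S := S) {f', chkO D β, chkO D l, chkO D ξ, chkO D η, chkO D η'} (Set.toFinite _).countable (by
        rintro x (rfl | rfl | rfl | rfl | rfl | rfl)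
        · exact hHS
        · exact hcO _
        · exact hcO _
        · exact hcO _
        · exact hcO _
        · exact hcO _)).2 fun G' hN hlam => ?_
      have k1 : f' ∈ G'.N := hN (by simp)
      have k2 : G'.O β := hN (by simp)
      have k3 : G'.O l := hN (by simp)
      have k4 : G'.O ξ := hN (by simp)
      have k5 : G'.O η := hN (by simp)
      have k6 : G'.O η' := hN (by simp)
      obtain ⟨h1, h2⟩ := G'.uf.inf_iff.1 hlam
      obtain ⟨h3, h4⟩ := G'.uf.inf_iff.1 h2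
      obtain ⟨hm, -⟩ := (hmod G' k1 k2 k3).1 h1
      exact absurd ((ord_inj k5 k6).1 (hm.1.val G'.zf ((app_iff k1 k4 k5).2 h3) ((app_iff k1 k4 k6).2 h4))) hne)
  obtain ⟨G', hlam, hN⟩ := exists_gen S ha'0 {f', chkO D β, chkO D l, chkO D γ} (Set.toFinite _).countable (by
    rintro x (rfl | rfl | rfl | rfl)
    · exact hHS
    · exact hcO _
    · exact hcO _
    · exact hcO _)
  have k1 : f' ∈ G'.N := hN (by simp)
  have k2 : G'.O β := hN (by simp)
  have k3 : G'.O l := hN (by simp)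
  have k4 : G'.O γ := hN (by simp)
  obtain ⟨hm, hub⟩ := (hmod G' k1 k2 k3).1 (G'.uf.mono ha' hlam)
  refine hub ⟨G'.ord γ, (E_ord k4 k3).2 hγ, fun x y hxy => ?_⟩
  obtain ⟨ξ, hξ, k5, rfl⟩ := (mem_ord k2).1 (hm.1.dom G'.zf hxy)
  obtain ⟨η, hη, k6, rfl⟩ := (mem_ord k3).1 (hm.2 _ _ hxy)
  rw [E_ord k6 k4]
  by_contra hc
  have h1 := hb' ξ hξ η hη (not_lt.1 hc)
  have h2 := G'.uf.inf hlam ((app_iff k1 k5 k6).1 hxy)
  rw [h1] at h2
  exact G'.uf.bot h2

theorem isCard_ord {l : Ordinal.{u}} (h : BReg S l) (h0 : 0 < l) (hs : ∀ α < l, Order.succ α < l) (hl : G.O l) :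
    IsCard G.E (G.ord l) := by
  refine isCard_of_isReg G.zf (isOrd_ord hl) ⟨G.ord 0, (E_ord O_zero hl).2 h0⟩ (fun x hx => ?_) (isReg_ord h hl)
  obtain ⟨α, hα, hαO, rfl⟩ := (mem_ord hl).1 hx
  exact ⟨G.ord (Order.succ α), (E_ord (O_succ hαO) hl).2 (hs α hα), (isSucc_ord hαO (O_succ hαO)).2 rfl⟩

theorem cg_onto_fo : FO.{0} (fun _ E (v : Fin 3 → _) => IsFun E (v 0) (v 1) ∧ ∀ y, E y (v 2) → ∃ x, App E (v 0) x y) := by
  refine FO.and (IsFun.fo _ _) (FO.all (R := fun _ E y v => E y (v 2) → ∃ x, App E (v 0) x y)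
    (FO.imp (FO.mem _ _) (FO.ex (R := fun _ E x w => App E (w 1) x (w 0)) (App.fo _ _ _))))

/-- A limit of cardinals is a cardinal. -/
theorem isCard_ord_of_limit {l : Ordinal.{u}} (h : ∀ α < l, ∃ ν, α < ν ∧ ν < l ∧ ∀ G : Gen S, G.O ν → IsCard G.E (G.ord ν))
    (hl : G.O l) : IsCard G.E (G.ord l) := by
  refine ⟨isOrd_ord hl, fun b f hb hf hon => ?_⟩
  obtain ⟨β, hβl, hβ, rfl⟩ := (mem_ord hl).1 hb
  obtain ⟨f', hf', rfl⟩ := exists_name f
  obtain ⟨ν, hβν, hνl, hν⟩ := h β hβl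
  obtain ⟨G', h1, h2, -, h4, h5⟩ := extend (G := G) (k := 3)
    (R := fun _ E v => IsFun E (v 0) (v 1) ∧ ∀ y, E y (v 2) → ∃ x, App E (v 0) x y) cg_onto_fo
    (w := ![f', chkO D β, chkO D l]) (by
      intro i
      refine Fin.cases hf' (fun i => ?_) i
      refine Fin.cases hβ (fun i => ?_) i
      exact Fin.cases hl (fun i => i.elim0) i) ⟨hf, hon⟩ G.uf.top {chkO D ν} (Set.countable_singleton _) (by
      intro x hx
      rw [Set.mem_singleton_iff.1 hx]
      exact HS_chkO ν)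
  have k2 : G'.O β := h1 1
  have k3 : G'.O l := h1 2
  have k4 : G'.O ν := h2 (Set.mem_singleton _)
  refine (hν G' k4).2 (G'.ord β) (G'.val f') ((E_ord k2 k4).2 hβν) h4 fun y hy => ?_
  exact h5 y ((isOrd_ord k3).trans ((E_ord k4 k3).2 hνl) hy)

/-- `ω` is a cardinal: in ZF. -/
theorem isCard_omega : IsCard G.E (G.ord Ordinal.omega0) := isCard_of_isOmega G.zf (isOmega_iff.2 rfl)

theorem not_isCard_ord {μ α : Ordinal.{u}} (h : BSur S μ α) (hμ : μ < α) (hα : G.O α) : ¬ IsCard G.E (G.ord α) := by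
  intro hc
  obtain ⟨i, w, hfix, hdis, hsup⟩ := h
  obtain ⟨G', h1, h2, -, h4⟩ := extend (G := G) (k := 1) (R := fun _ E v => IsCard E (v 0)) (IsCard.fo 0)
    (w := fun _ => chkO D α) (fun _ => hα) hc G.uf.top {relN μ α w, chkO D μ} (Set.toFinite _).countable (by
      rintro x (rfl | rfl)
      · exact HS_relN (i := i) μ α fun ξ _ η _ => hfix ξ η
      · exact HS_chkO μ)
  have k1 : G'.O α := h1 0
  have k2 : relN μ α w ∈ G'.N := h2 (by simp)
  have k3 : G'.O μ := h2 (by simp)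
  have hval : ∀ x y y', App G'.E (G'.val (relN μ α w)) x y → App G'.E (G'.val (relN μ α w)) x y' → y = y' := by
    intro x y y' hy hy'
    obtain ⟨ξ, hξ, η, hη, k4, k5, rfl, rfl, h5⟩ := (app_relN k2).1 hy
    obtain ⟨ξ', -, η', hη', k6, k7, e, rfl, h6⟩ := (app_relN k2).1 hy'
    obtain rfl := (ord_inj k4 k6).1 e
    by_contra hne
    have h7 := G'.uf.inf h5 h6
    rw [hdis ξ hξ η hη η' hη' fun e => hne (by rw [e])] at h7
    exact G'.uf.bot h7
  generalize hr : G'.val (relN μ α w) = r at hval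
  obtain ⟨g, hg, hgR⟩ := G'.zf.exFun
    (R := fun x y => App G'.E r x y ∨ (y = G'.ord 0 ∧ ∀ z, ¬ App G'.E r x z)) (by (repeat' (first | assumption | (apply DefFun.comp; assumption) | apply IsCard.df | apply Maps.df | apply IsFun.df | apply App.df | apply IsOrd.df | apply IsEmp.df | apply Sub.df | exact DefFun.var _ | exact DefFun.const _ | apply Def.eq | apply Def.mem | apply Def.not | apply Def.and | apply Def.or | apply Def.iff | apply Def.imp | apply Def.exU | apply Def.ex | apply Def.all))) (G'.ord μ) (by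
      intro x _
      by_cases hx : ∃ z, App G'.E r x z
      · obtain ⟨z, hz⟩ := hx
        refine ⟨z, Or.inl hz, ?_⟩
        rintro y (hy | ⟨-, hy⟩)
        · exact hval x y z hy hz
        · exact absurd hz (hy z)
      · refine ⟨G'.ord 0, Or.inr ⟨rfl, fun z hz => hx ⟨z, hz⟩⟩, ?_⟩
        rintro y (hy | ⟨hy, -⟩)
        · exact absurd ⟨y, hy⟩ hx
        · exact hy)
  refine h4.2 (G'.ord μ) g ((E_ord k3 k1).2 hμ) hg fun y hy => ?_
  obtain ⟨η, hη, k5, rfl⟩ := (mem_ord k1).1 hy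
  have hl : G'.lam (⨆ ξ : Set.Iio μ, w ξ.1 η) := by
    rw [hsup η hη]
    exact G'.uf.top
  obtain ⟨ξ, hξ, k6, h6⟩ := exists_of_iSup_relN' k2 hη k5 hl
  refine ⟨G'.ord ξ, (hgR _ ((E_ord k6 k3).2 hξ) _).2 (Or.inl ?_)⟩
  rw [← hr]
  exact (app_relN k2).2 ⟨ξ, hξ, η, hη, k6, k5, rfl, rfl, h6⟩

theorem isInfCard_iff {α : Ordinal.{u}} (hα : G.O α) :
    IsInfCard G.E (G.ord α) ↔ IsCard G.E (G.ord α) ∧ Ordinal.omega0 ≤ α := by
  unfold IsInfCard
  refine and_congr_right fun _ => ⟨fun h => ?_, fun h w hw => ?_⟩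
  · rcases h _ (isOmega_iff.2 rfl) with h1 | h1
    · rw [(ord_inj hα O_omega0).1 h1]
    · exact ((E_ord O_omega0 hα).1 h1).le
  · rw [isOmega_iff.1 hw]
    rcases h.eq_or_lt with h1 | h1
    · exact Or.inl (by rw [h1])
    · exact Or.inr ((E_ord O_omega0 hα).2 h1)

end Gen

/-- Surjections of the universe are native surjections. -/
theorem BSur_of_card {μ α : Ordinal.{u}} (h : α.card ≤ μ.card) : BSur S μ α := by
  classical
  rw [← Cardinal.mk_toType, ← Cardinal.mk_toType] at h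
  obtain ⟨g⟩ := h
  refine ⟨S.ne.some, fun ξ η => if ∃ j : α.ToType, tp j = η ∧ tp (g j) = ξ then ⊤ else ⊥, ?_, ?_, ?_⟩
  · intro ξ η
    beta_reduce
    split_ifs with h
    · exact Fix.top
    · exact Fix.bot
  · intro ξ _ η _ η' _ hne
    beta_reduce
    split_ifs with h1 h2
    · obtain ⟨j, rfl, hj⟩ := h1
      obtain ⟨j', rfl, hj'⟩ := h2
      have e : g j = g j' := tp_inj (hj.trans hj'.symm)
      exact absurd (by rw [g.injective e]) hne
    · rw [inf_bot_eq]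
    · rw [bot_inf_eq]
    · rw [bot_inf_eq]
  · intro η hη
    obtain ⟨j, rfl⟩ := exists_tp hη
    rw [eq_top_iff]
    refine le_trans (le_of_eq ?_) (le_iSup (fun ξ : Set.Iio μ =>
      if ∃ j' : α.ToType, tp j' = tp j ∧ tp (g j') = ξ.1 then (⊤ : D) else ⊥) ⟨tp (g j), tp_lt _⟩)
    exact (if_pos ⟨j, rfl, rfl⟩).symm

end SYM
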