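import Pool.Agent.W_MP_790ce2_lc.Fml

/-!
# MP_790ce2_lc : first-order definability of the set-theoretic notions
For each notion `X` there are the lemmas `X.fo` (uniformly first-order) and `X.df` (definable with parameters).
-/

namespace ZFM
universe u

/-- `n` is a natural number -/
def IsNat {M : Type u} (E : M → M → Prop) (n : M) : Prop := IsOrd E n ∧ IsZS E n ∧ ∀ m, E m n → IsZS E m

/-- `x` is the natural number `n` -/
def IsNum {M : Type u} (E : M → M → Prop) : ℕ → M → Prop
  | 0, x => IsEmp E x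
  | n + 1, x => ∃ y, IsNum E n y ∧ IsSucc E x y

section
variable {k : ℕ}

theorem Sub.fo (a b : Fin k) : FO.{u} (fun _ E v => Sub E (v a) (v b)) := by
  unfold Sub; (repeat' (first | exact FO.eq _ _ | exact FO.mem _ _ | apply FO.not | apply FO.and | apply FO.or | apply FO.iff | apply FO.imp | apply FO.exU | apply FO.ex | apply FO.all))

theorem IsEmp.fo (a : Fin k) : FO.{u} (fun _ E v => IsEmp E (v a)) := by
  unfold IsEmp; (repeat' (first | exact Sub.fo _ _ | exact FO.eq _ _ | exact FO.mem _ _ | apply FO.not | apply FO.and | apply FO.or | apply FO.iff | apply FO.imp | apply FO.exU | apply FO.ex | apply FO.all))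

theorem IsUPair.fo (a b c : Fin k) : FO.{u} (fun _ E v => IsUPair E (v a) (v b) (v c)) := by
  unfold IsUPair; (repeat' (first | exact IsEmp.fo _ | exact Sub.fo _ _ | exact FO.eq _ _ | exact FO.mem _ _ | apply FO.not | apply FO.and | apply FO.or | apply FO.iff | apply FO.imp | apply FO.exU | apply FO.ex | apply FO.all))

theorem IsPair.fo (a b c : Fin k) : FO.{u} (fun _ E v => IsPair E (v a) (v b) (v c)) := by
  unfold IsPair; (repeat' (first | exact IsUPair.fo _ _ _ | exact IsEmp.fo _ | exact Sub.fo _ _ | exact FO.eq _ _ | exact FO.mem _ _ | apply FO.not | apply FO.and | apply FO.or | apply FO.iff | apply FO.imp | apply FO.exU | apply FO.ex | apply FO.all))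

theorem IsSucc.fo (a b : Fin k) : FO.{u} (fun _ E v => IsSucc E (v a) (v b)) := by
  unfold IsSucc; (repeat' (first | exact IsPair.fo _ _ _ | exact IsUPair.fo _ _ _ | exact IsEmp.fo _ | exact Sub.fo _ _ | exact FO.eq _ _ | exact FO.mem _ _ | apply FO.not | apply FO.and | apply FO.or | apply FO.iff | apply FO.imp | apply FO.exU | apply FO.ex | apply FO.all))

theorem IsTr.fo (a : Fin k) : FO.{u} (fun _ E v => IsTr E (v a)) := by
  unfold IsTr; (repeat' (first | exact IsSucc.fo _ _ | exact IsPair.fo _ _ _ | exact IsUPair.fo _ _ _ | exact IsEmp.fo _ | exact Sub.fo _ _ | exact FO.eq _ _ | exact FO.mem _ _ | apply FO.not | apply FO.and | apply FO.or | apply FO.iff | apply FO.imp | apply FO.exU | apply FO.ex | apply FO.all))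

theorem IsOrd.fo (a : Fin k) : FO.{u} (fun _ E v => IsOrd E (v a)) := by
  unfold IsOrd; (repeat' (first | exact IsTr.fo _ | exact IsSucc.fo _ _ | exact IsPair.fo _ _ _ | exact IsUPair.fo _ _ _ | exact IsEmp.fo _ | exact Sub.fo _ _ | exact FO.eq _ _ | exact FO.mem _ _ | apply FO.not | apply FO.and | apply FO.or | apply FO.iff | apply FO.imp | apply FO.exU | apply FO.ex | apply FO.all))

theorem IsZS.fo (a : Fin k) : FO.{u} (fun _ E v => IsZS E (v a)) := by
  unfold IsZS; (repeat' (first | exact IsOrd.fo _ | exact IsTr.fo _ | exact IsSucc.fo _ _ | exact IsPair.fo _ _ _ | exact IsUPair.fo _ _ _ | exact IsEmp.fo _ | exact Sub.fo _ _ | exact FO.eq _ _ | exact FO.mem _ _ | apply FO.not | apply FO.and | apply FO.or | apply FO.iff | apply FO.imp | apply FO.exU | apply FO.ex | apply FO.all))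

theorem IsNat.fo (a : Fin k) : FO.{u} (fun _ E v => IsNat E (v a)) := by
  unfold IsNat; (repeat' (first | exact IsZS.fo _ | exact IsOrd.fo _ | exact IsTr.fo _ | exact IsSucc.fo _ _ | exact IsPair.fo _ _ _ | exact IsUPair.fo _ _ _ | exact IsEmp.fo _ | exact Sub.fo _ _ | exact FO.eq _ _ | exact FO.mem _ _ | apply FO.not | apply FO.and | apply FO.or | apply FO.iff | apply FO.imp | apply FO.exU | apply FO.ex | apply FO.all))

theorem IsOmega.fo (a : Fin k) : FO.{u} (fun _ E v => IsOmega E (v a)) := by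
  unfold IsOmega; (repeat' (first | exact IsNat.fo _ | exact IsZS.fo _ | exact IsOrd.fo _ | exact IsTr.fo _ | exact IsSucc.fo _ _ | exact IsPair.fo _ _ _ | exact IsUPair.fo _ _ _ | exact IsEmp.fo _ | exact Sub.fo _ _ | exact FO.eq _ _ | exact FO.mem _ _ | apply FO.not | apply FO.and | apply FO.or | apply FO.iff | apply FO.imp | apply FO.exU | apply FO.ex | apply FO.all))

theorem App.fo (a b c : Fin k) : FO.{u} (fun _ E v => App E (v a) (v b) (v c)) := by
  unfold App; (repeat' (first | exact IsOmega.fo _ | exact IsNat.fo _ | exact IsZS.fo _ | exact IsOrd.fo _ | exact IsTr.fo _ | exact IsSucc.fo _ _ | exact IsPair.fo _ _ _ | exact IsUPair.fo _ _ _ | exact IsEmp.fo _ | exact Sub.fo _ _ | exact FO.eq _ _ | exact FO.mem _ _ | apply FO.not | apply FO.and | apply FO.or | apply FO.iff | apply FO.imp | apply FO.exU | apply FO.ex | apply FO.all))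

theorem IsFun.fo (a b : Fin k) : FO.{u} (fun _ E v => IsFun E (v a) (v b)) := by
  unfold IsFun; (repeat' (first | exact App.fo _ _ _ | exact IsOmega.fo _ | exact IsNat.fo _ | exact IsZS.fo _ | exact IsOrd.fo _ | exact IsTr.fo _ | exact IsSucc.fo _ _ | exact IsPair.fo _ _ _ | exact IsUPair.fo _ _ _ | exact IsEmp.fo _ | exact Sub.fo _ _ | exact FO.eq _ _ | exact FO.mem _ _ | apply FO.not | apply FO.and | apply FO.or | apply FO.iff | apply FO.imp | apply FO.exU | apply FO.ex | apply FO.all))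

theorem Maps.fo (a b c : Fin k) : FO.{u} (fun _ E v => Maps E (v a) (v b) (v c)) := by
  unfold Maps; (repeat' (first | exact IsFun.fo _ _ | exact App.fo _ _ _ | exact IsOmega.fo _ | exact IsNat.fo _ | exact IsZS.fo _ | exact IsOrd.fo _ | exact IsTr.fo _ | exact IsSucc.fo _ _ | exact IsPair.fo _ _ _ | exact IsUPair.fo _ _ _ | exact IsEmp.fo _ | exact Sub.fo _ _ | exact FO.eq _ _ | exact FO.mem _ _ | apply FO.not | apply FO.and | apply FO.or | apply FO.iff | apply FO.imp | apply FO.exU | apply FO.ex | apply FO.all))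

theorem IsCard.fo (a : Fin k) : FO.{u} (fun _ E v => IsCard E (v a)) := by
  unfold IsCard; (repeat' (first | exact Maps.fo _ _ _ | exact IsFun.fo _ _ | exact App.fo _ _ _ | exact IsOmega.fo _ | exact IsNat.fo _ | exact IsZS.fo _ | exact IsOrd.fo _ | exact IsTr.fo _ | exact IsSucc.fo _ _ | exact IsPair.fo _ _ _ | exact IsUPair.fo _ _ _ | exact IsEmp.fo _ | exact Sub.fo _ _ | exact FO.eq _ _ | exact FO.mem _ _ | apply FO.not | apply FO.and | apply FO.or | apply FO.iff | apply FO.imp | apply FO.exU | apply FO.ex | apply FO.all))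

theorem IsInfCard.fo (a : Fin k) : FO.{u} (fun _ E v => IsInfCard E (v a)) := by
  unfold IsInfCard; (repeat' (first | exact IsCard.fo _ | exact Maps.fo _ _ _ | exact IsFun.fo _ _ | exact App.fo _ _ _ | exact IsOmega.fo _ | exact IsNat.fo _ | exact IsZS.fo _ | exact IsOrd.fo _ | exact IsTr.fo _ | exact IsSucc.fo _ _ | exact IsPair.fo _ _ _ | exact IsUPair.fo _ _ _ | exact IsEmp.fo _ | exact Sub.fo _ _ | exact FO.eq _ _ | exact FO.mem _ _ | apply FO.not | apply FO.and | apply FO.or | apply FO.iff | apply FO.imp | apply FO.exU | apply FO.ex | apply FO.all))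

theorem IsSuccCard.fo (a b : Fin k) : FO.{u} (fun _ E v => IsSuccCard E (v a) (v b)) := by
  unfold IsSuccCard; (repeat' (first | exact IsInfCard.fo _ | exact IsCard.fo _ | exact Maps.fo _ _ _ | exact IsFun.fo _ _ | exact App.fo _ _ _ | exact IsOmega.fo _ | exact IsNat.fo _ | exact IsZS.fo _ | exact IsOrd.fo _ | exact IsTr.fo _ | exact IsSucc.fo _ _ | exact IsPair.fo _ _ _ | exact IsUPair.fo _ _ _ | exact IsEmp.fo _ | exact Sub.fo _ _ | exact FO.eq _ _ | exact FO.mem _ _ | apply FO.not | apply FO.and | apply FO.or | apply FO.iff | apply FO.imp | apply FO.exU | apply FO.ex | apply FO.all))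

theorem IsReg.fo (a : Fin k) : FO.{u} (fun _ E v => IsReg E (v a)) := by
  unfold IsReg; (repeat' (first | exact IsSuccCard.fo _ _ | exact IsInfCard.fo _ | exact IsCard.fo _ | exact Maps.fo _ _ _ | exact IsFun.fo _ _ | exact App.fo _ _ _ | exact IsOmega.fo _ | exact IsNat.fo _ | exact IsZS.fo _ | exact IsOrd.fo _ | exact IsTr.fo _ | exact IsSucc.fo _ _ | exact IsPair.fo _ _ _ | exact IsUPair.fo _ _ _ | exact IsEmp.fo _ | exact Sub.fo _ _ | exact FO.eq _ _ | exact FO.mem _ _ | apply FO.not | apply FO.and | apply FO.or | apply FO.iff | apply FO.imp | apply FO.exU | apply FO.ex | apply FO.all))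

theorem IsAlephFun.fo (a b : Fin k) : FO.{u} (fun _ E v => IsAlephFun E (v a) (v b)) := by
  unfold IsAlephFun; (repeat' (first | exact IsReg.fo _ | exact IsSuccCard.fo _ _ | exact IsInfCard.fo _ | exact IsCard.fo _ | exact Maps.fo _ _ _ | exact IsFun.fo _ _ | exact App.fo _ _ _ | exact IsOmega.fo _ | exact IsNat.fo _ | exact IsZS.fo _ | exact IsOrd.fo _ | exact IsTr.fo _ | exact IsSucc.fo _ _ | exact IsPair.fo _ _ _ | exact IsUPair.fo _ _ _ | exact IsEmp.fo _ | exact Sub.fo _ _ | exact FO.eq _ _ | exact FO.mem _ _ | apply FO.not | apply FO.and | apply FO.or | apply FO.iff | apply FO.imp | apply FO.exU | apply FO.ex | apply FO.all))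

theorem IsAleph.fo (a b : Fin k) : FO.{u} (fun _ E v => IsAleph E (v a) (v b)) := by
  unfold IsAleph; (repeat' (first | exact IsAlephFun.fo _ _ | exact IsReg.fo _ | exact IsSuccCard.fo _ _ | exact IsInfCard.fo _ | exact IsCard.fo _ | exact Maps.fo _ _ _ | exact IsFun.fo _ _ | exact App.fo _ _ _ | exact IsOmega.fo _ | exact IsNat.fo _ | exact IsZS.fo _ | exact IsOrd.fo _ | exact IsTr.fo _ | exact IsSucc.fo _ _ | exact IsPair.fo _ _ _ | exact IsUPair.fo _ _ _ | exact IsEmp.fo _ | exact Sub.fo _ _ | exact FO.eq _ _ | exact FO.mem _ _ | apply FO.not | apply FO.and | apply FO.or | apply FO.iff | apply FO.imp | apply FO.exU | apply FO.ex | apply FO.all))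

theorem IsCofOmega.fo (a : Fin k) : FO.{u} (fun _ E v => IsCofOmega E (v a)) := by
  unfold IsCofOmega; (repeat' (first | exact IsAleph.fo _ _ | exact IsAlephFun.fo _ _ | exact IsReg.fo _ | exact IsSuccCard.fo _ _ | exact IsInfCard.fo _ | exact IsCard.fo _ | exact Maps.fo _ _ _ | exact IsFun.fo _ _ | exact App.fo _ _ _ | exact IsOmega.fo _ | exact IsNat.fo _ | exact IsZS.fo _ | exact IsOrd.fo _ | exact IsTr.fo _ | exact IsSucc.fo _ _ | exact IsPair.fo _ _ _ | exact IsUPair.fo _ _ _ | exact IsEmp.fo _ | exact Sub.fo _ _ | exact FO.eq _ _ | exact FO.mem _ _ | apply FO.not | apply FO.and | apply FO.or | apply FO.iff | apply FO.imp | apply FO.exU | apply FO.ex | apply FO.all))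

theorem IsBij.fo (a b c : Fin k) : FO.{u} (fun _ E v => IsBij E (v a) (v b) (v c)) := by
  unfold IsBij; (repeat' (first | exact IsCofOmega.fo _ | exact IsAleph.fo _ _ | exact IsAlephFun.fo _ _ | exact IsReg.fo _ | exact IsSuccCard.fo _ _ | exact IsInfCard.fo _ | exact IsCard.fo _ | exact Maps.fo _ _ _ | exact IsFun.fo _ _ | exact App.fo _ _ _ | exact IsOmega.fo _ | exact IsNat.fo _ | exact IsZS.fo _ | exact IsOrd.fo _ | exact IsTr.fo _ | exact IsSucc.fo _ _ | exact IsPair.fo _ _ _ | exact IsUPair.fo _ _ _ | exact IsEmp.fo _ | exact Sub.fo _ _ | exact FO.eq _ _ | exact FO.mem _ _ | apply FO.not | apply FO.and | apply FO.or | apply FO.iff | apply FO.imp | apply FO.exU | apply FO.ex | apply FO.all))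

theorem IsUltra.fo (a b : Fin k) : FO.{u} (fun _ E v => IsUltra E (v a) (v b)) := by
  unfold IsUltra; (repeat' (first | exact IsBij.fo _ _ _ | exact IsCofOmega.fo _ | exact IsAleph.fo _ _ | exact IsAlephFun.fo _ _ | exact IsReg.fo _ | exact IsSuccCard.fo _ _ | exact IsInfCard.fo _ | exact IsCard.fo _ | exact Maps.fo _ _ _ | exact IsFun.fo _ _ | exact App.fo _ _ _ | exact IsOmega.fo _ | exact IsNat.fo _ | exact IsZS.fo _ | exact IsOrd.fo _ | exact IsTr.fo _ | exact IsSucc.fo _ _ | exact IsPair.fo _ _ _ | exact IsUPair.fo _ _ _ | exact IsEmp.fo _ | exact Sub.fo _ _ | exact FO.eq _ _ | exact FO.mem _ _ | apply FO.not | apply FO.and | apply FO.or | apply FO.iff | apply FO.imp | apply FO.exU | apply FO.ex | apply FO.all))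

theorem CarriesUniform.fo (a : Fin k) : FO.{u} (fun _ E v => CarriesUniform E (v a)) := by
  unfold CarriesUniform; (repeat' (first | exact IsUltra.fo _ _ | exact IsBij.fo _ _ _ | exact IsCofOmega.fo _ | exact IsAleph.fo _ _ | exact IsAlephFun.fo _ _ | exact IsReg.fo _ | exact IsSuccCard.fo _ _ | exact IsInfCard.fo _ | exact IsCard.fo _ | exact Maps.fo _ _ _ | exact IsFun.fo _ _ | exact App.fo _ _ _ | exact IsOmega.fo _ | exact IsNat.fo _ | exact IsZS.fo _ | exact IsOrd.fo _ | exact IsTr.fo _ | exact IsSucc.fo _ _ | exact IsPair.fo _ _ _ | exact IsUPair.fo _ _ _ | exact IsEmp.fo _ | exact Sub.fo _ _ | exact FO.eq _ _ | exact FO.mem _ _ | apply FO.not | apply FO.and | apply FO.or | apply FO.iff | apply FO.imp | apply FO.exU | apply FO.ex | apply FO.all))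

theorem IsNum.fo (n : ℕ) (a : Fin k) : FO.{u} (fun _ E v => IsNum E n (v a)) := by
  induction n generalizing k with
  | zero => exact IsEmp.fo _
  | succ n ih => unfold IsNum; exact FO.ex (R := fun T E x v => IsNum E n x ∧ IsSucc E (v a) x) ((ih _).and (IsSucc.fo _ _))

end

/-! ### definability with parameters -/

section
variable {N : Type u} {E : N → N → Prop} {k : ℕ}

theorem Sub.df {f g : (Fin k → N) → N} (hf : DefFun E f) (hg : DefFun E g) :
    Def E (fun v => Sub E (f v) (g v)) :=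
  Def.fo2 (R := fun _ E a b => Sub E a b) (Sub.fo 0 1) hf hg

theorem IsEmp.df {f : (Fin k → N) → N} (hf : DefFun E f) :
    Def E (fun v => IsEmp E (f v)) :=
  Def.fo1 (R := fun _ E a => IsEmp E a) (IsEmp.fo 0) hf

theorem IsUPair.df {f g l : (Fin k → N) → N} (hf : DefFun E f) (hg : DefFun E g) (hl : DefFun E l) :
    Def E (fun v => IsUPair E (f v) (g v) (l v)) :=
  Def.fo3 (R := fun _ E a b c => IsUPair E a b c) (IsUPair.fo 0 1 2) hf hg hl

theorem IsPair.df {f g l : (Fin k → N) → N} (hf : DefFun E f) (hg : DefFun E g) (hl : DefFun E l) :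
    Def E (fun v => IsPair E (f v) (g v) (l v)) :=
  Def.fo3 (R := fun _ E a b c => IsPair E a b c) (IsPair.fo 0 1 2) hf hg hl

theorem IsSucc.df {f g : (Fin k → N) → N} (hf : DefFun E f) (hg : DefFun E g) :
    Def E (fun v => IsSucc E (f v) (g v)) :=
  Def.fo2 (R := fun _ E a b => IsSucc E a b) (IsSucc.fo 0 1) hf hg

theorem IsTr.df {f : (Fin k → N) → N} (hf : DefFun E f) :
    Def E (fun v => IsTr E (f v)) :=
  Def.fo1 (R := fun _ E a => IsTr E a) (IsTr.fo 0) hf

theorem IsOrd.df {f : (Fin k → N) → N} (hf : DefFun E f) :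
    Def E (fun v => IsOrd E (f v)) :=
  Def.fo1 (R := fun _ E a => IsOrd E a) (IsOrd.fo 0) hf

theorem IsZS.df {f : (Fin k → N) → N} (hf : DefFun E f) :
    Def E (fun v => IsZS E (f v)) :=
  Def.fo1 (R := fun _ E a => IsZS E a) (IsZS.fo 0) hf

theorem IsNat.df {f : (Fin k → N) → N} (hf : DefFun E f) :
    Def E (fun v => IsNat E (f v)) :=
  Def.fo1 (R := fun _ E a => IsNat E a) (IsNat.fo 0) hf

theorem IsOmega.df {f : (Fin k → N) → N} (hf : DefFun E f) :
    Def E (fun v => IsOmega E (f v)) :=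
  Def.fo1 (R := fun _ E a => IsOmega E a) (IsOmega.fo 0) hf

theorem App.df {f g l : (Fin k → N) → N} (hf : DefFun E f) (hg : DefFun E g) (hl : DefFun E l) :
    Def E (fun v => App E (f v) (g v) (l v)) :=
  Def.fo3 (R := fun _ E a b c => App E a b c) (App.fo 0 1 2) hf hg hl

theorem IsFun.df {f g : (Fin k → N) → N} (hf : DefFun E f) (hg : DefFun E g) :
    Def E (fun v => IsFun E (f v) (g v)) :=
  Def.fo2 (R := fun _ E a b => IsFun E a b) (IsFun.fo 0 1) hf hg

theorem Maps.df {f g l : (Fin k → N) → N} (hf : DefFun E f) (hg : DefFun E g) (hl : DefFun E l) :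
    Def E (fun v => Maps E (f v) (g v) (l v)) :=
  Def.fo3 (R := fun _ E a b c => Maps E a b c) (Maps.fo 0 1 2) hf hg hl

theorem IsCard.df {f : (Fin k → N) → N} (hf : DefFun E f) :
    Def E (fun v => IsCard E (f v)) :=
  Def.fo1 (R := fun _ E a => IsCard E a) (IsCard.fo 0) hf

theorem IsInfCard.df {f : (Fin k → N) → N} (hf : DefFun E f) :
    Def E (fun v => IsInfCard E (f v)) :=
  Def.fo1 (R := fun _ E a => IsInfCard E a) (IsInfCard.fo 0) hf

theorem IsSuccCard.df {f g : (Fin k → N) → N} (hf : DefFun E f) (hg : DefFun E g) :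
    Def E (fun v => IsSuccCard E (f v) (g v)) :=
  Def.fo2 (R := fun _ E a b => IsSuccCard E a b) (IsSuccCard.fo 0 1) hf hg

theorem IsReg.df {f : (Fin k → N) → N} (hf : DefFun E f) :
    Def E (fun v => IsReg E (f v)) :=
  Def.fo1 (R := fun _ E a => IsReg E a) (IsReg.fo 0) hf

theorem IsAlephFun.df {f g : (Fin k → N) → N} (hf : DefFun E f) (hg : DefFun E g) :
    Def E (fun v => IsAlephFun E (f v) (g v)) :=
  Def.fo2 (R := fun _ E a b => IsAlephFun E a b) (IsAlephFun.fo 0 1) hf hg

theorem IsAleph.df {f g : (Fin k → N) → N} (hf : DefFun E f) (hg : DefFun E g) :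
    Def E (fun v => IsAleph E (f v) (g v)) :=
  Def.fo2 (R := fun _ E a b => IsAleph E a b) (IsAleph.fo 0 1) hf hg

theorem IsCofOmega.df {f : (Fin k → N) → N} (hf : DefFun E f) :
    Def E (fun v => IsCofOmega E (f v)) :=
  Def.fo1 (R := fun _ E a => IsCofOmega E a) (IsCofOmega.fo 0) hf

theorem IsBij.df {f g l : (Fin k → N) → N} (hf : DefFun E f) (hg : DefFun E g) (hl : DefFun E l) :
    Def E (fun v => IsBij E (f v) (g v) (l v)) :=
  Def.fo3 (R := fun _ E a b c => IsBij E a b c) (IsBij.fo 0 1 2) hf hg hl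

theorem IsUltra.df {f g : (Fin k → N) → N} (hf : DefFun E f) (hg : DefFun E g) :
    Def E (fun v => IsUltra E (f v) (g v)) :=
  Def.fo2 (R := fun _ E a b => IsUltra E a b) (IsUltra.fo 0 1) hf hg

theorem CarriesUniform.df {f : (Fin k → N) → N} (hf : DefFun E f) :
    Def E (fun v => CarriesUniform E (f v)) :=
  Def.fo1 (R := fun _ E a => CarriesUniform E a) (CarriesUniform.fo 0) hf

theorem IsNum.df (m : ℕ) {f : (Fin k → N) → N} (hf : DefFun E f) :
    Def E (fun v => IsNum E m (f v)) :=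
  Def.fo1 (R := fun _ E a => IsNum E m a) (IsNum.fo m 0) hf

end

end ZFM
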