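import Pool.Agent.W_MP_0bf392_lc.Mix
import Pool.Agent.W_MP_790ce2_lc.Notions

/-!
# MP_790ce2_lc : symmetric systems, hereditarily symmetric names, truth values

`D` is a complete Boolean algebra, `BSet D` the Boolean-valued sets (names) over `D`.
-/

universe u v

namespace SYM

open IM (BSet)
open IM.BSet
open ZFM (Fml Sat)

variable {D : Type u} [CompleteBooleanAlgebra D]

/-- The action of an automorphism of `D` on the names. -/
def actB (f : D ≃o D) : BSet D → BSet D
  | .mk α A B => .mk α (fun a => actB f (A a)) fun a => f (B a)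

theorem actB_def (f : D ≃o D) (x : BSet D) :
    actB f x = .mk x.ty (fun a => actB f (x.fn a)) fun a => f (x.wt a) := by
  cases x; rfl

theorem map_beq (f : D ≃o D) (x y : BSet D) : f (beq x y) = beq (actB f x) (actB f y) := by
  induction x generalizing y with
  | mk α A B ih =>
    rcases y with ⟨β, A', B'⟩
    rw [actB, actB, beq, beq, map_inf, f.map_iInf, f.map_iInf]
    simp only [map_sup, map_compl', f.map_iSup, map_inf, ih]

theorem map_bmem (f : D ≃o D) (x y : BSet D) : f (bmem x y) = bmem (actB f x) (actB f y) := by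
  rcases y with ⟨β, A', B'⟩
  rw [actB, bmem, bmem, f.map_iSup]
  simp only [map_inf, map_beq]
  rfl

/-- A symmetric system: a group `G` acting on `D` and a directed family of normal subgroups `K i`. -/
structure SymSys (D : Type u) [CompleteBooleanAlgebra D] where
  G : Type u
  grp : Group G
  act : G → (D ≃o D)
  act_one : ∀ d, act 1 d = d
  act_mul : ∀ g h d, act (g * h) d = act g (act h d)
  ι : Type u
  ne : Nonempty ι
  K : ι → Set G
  one_mem : ∀ i, 1 ∈ K i
  mul_mem : ∀ i g h, g ∈ K i → h ∈ K i → g * h ∈ K i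
  inv_mem : ∀ i g, g ∈ K i → g⁻¹ ∈ K i
  norm : ∀ i g h, h ∈ K i → g * h * g⁻¹ ∈ K i
  dir : ∀ i j, ∃ k, K k ⊆ K i ∧ K k ⊆ K j

attribute [instance] SymSys.grp SymSys.ne

variable (S : SymSys D)

/-- The action of the group on the names. -/
def SymSys.ac (g : S.G) (x : BSet D) : BSet D := actB (S.act g) x

/-- `d` is fixed by all elements of `K i`. -/
def SymSys.Fix (i : S.ι) (d : D) : Prop := ∀ g ∈ S.K i, S.act g d = d

/-- The name `x` is fixed (up to Boolean equality) by all elements of `K i`. -/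
def SymSys.Sup (i : S.ι) (x : BSet D) : Prop := ∀ g ∈ S.K i, beq (S.ac g x) x = ⊤

/-- Hereditarily symmetric names. -/
def SymSys.HS : BSet D → Prop
  | .mk α A B => (∃ i, S.Sup i (.mk α A B)) ∧ ∀ a, SymSys.HS (A a)

theorem HS_def (x : BSet D) : S.HS x ↔ (∃ i, S.Sup i x) ∧ ∀ a, S.HS (x.fn a) := by
  rcases x with ⟨α, A, B⟩
  rw [SymSys.HS]
  rfl

variable {S}

theorem ac_def (g : S.G) (x : BSet D) :
    S.ac g x = .mk x.ty (fun a => S.ac g (x.fn a)) fun a => S.act g (x.wt a) := actB_def _ _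

theorem act_beq (g : S.G) (x y : BSet D) : S.act g (beq x y) = beq (S.ac g x) (S.ac g y) :=
  map_beq _ _ _

theorem act_bmem (g : S.G) (x y : BSet D) : S.act g (bmem x y) = bmem (S.ac g x) (S.ac g y) :=
  map_bmem _ _ _

theorem act_inv_act (g : S.G) (d : D) : S.act g⁻¹ (S.act g d) = d := by
  rw [← S.act_mul, inv_mul_cancel, S.act_one]

theorem act_act_inv (g : S.G) (d : D) : S.act g (S.act g⁻¹ d) = d := by
  rw [← S.act_mul, mul_inv_cancel, S.act_one]

theorem ac_one (x : BSet D) : S.ac 1 x = x := by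
  induction x with
  | mk α A B ih =>
    rw [ac_def]
    have h1 : (fun a => S.ac 1 ((BSet.mk α A B).fn a)) = A := funext ih
    have h2 : (fun a => S.act 1 ((BSet.mk α A B).wt a)) = B := funext fun a => S.act_one _
    rw [h1, h2]
    rfl

theorem ac_mul (g h : S.G) (x : BSet D) : S.ac (g * h) x = S.ac g (S.ac h x) := by
  induction x with
  | mk α A B ih =>
    rw [ac_def, ac_def h, ac_def g]
    have h1 : (fun a => S.ac (g * h) ((BSet.mk α A B).fn a)) = fun a => S.ac g (S.ac h (A a)) :=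
      funext ih
    have h2 : (fun a => S.act (g * h) ((BSet.mk α A B).wt a)) = fun a => S.act g (S.act h (B a)) :=
      funext fun a => S.act_mul _ _ _
    rw [h1, h2]
    rfl

theorem sy_ac_inv (g : S.G) (x : BSet D) : S.ac g (S.ac g⁻¹ x) = x := by
  rw [← ac_mul, mul_inv_cancel, ac_one]

theorem sy_inv_ac (g : S.G) (x : BSet D) : S.ac g⁻¹ (S.ac g x) = x := by
  rw [← ac_mul, inv_mul_cancel, ac_one]

/-- The hereditarily symmetric names are invariant under the group. -/
theorem HS.ac {x : BSet D} (h : S.HS x) (g : S.G) : S.HS (S.ac g x) := by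
  induction x with
  | mk α A B ih =>
    obtain ⟨⟨i, hi⟩, hA⟩ := (HS_def S _).1 h
    rw [HS_def]
    refine ⟨⟨i, fun k hk => ?_⟩, fun a => ?_⟩
    · have h1 : g⁻¹ * k * g ∈ S.K i := by
        have h2 := S.norm i g⁻¹ k hk
        rwa [inv_inv] at h2
      have h3 := hi _ h1
      have h4 : S.ac k (S.ac g (.mk α A B)) = S.ac g (S.ac (g⁻¹ * k * g) (.mk α A B)) := by
        rw [← ac_mul, ← ac_mul]
        congr 1
        group
      rw [h4, ← act_beq, h3, map_top]
    · exact ih a (hA a)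

theorem HS_ac_iff {x : BSet D} (g : S.G) : S.HS (S.ac g x) ↔ S.HS x := by
  constructor
  · intro h
    have h1 := HS.ac h g⁻¹
    rwa [sy_inv_ac] at h1
  · intro h
    exact HS.ac h g

/-- Intersection of supports. -/
theorem exists_sup {k : ℕ} (w : Fin k → BSet D) (hw : ∀ j, S.HS (w j)) : ∃ i, ∀ j, S.Sup i (w j) := by
  induction k with
  | zero => exact ⟨Classical.choice S.ne, fun j => j.elim0⟩
  | succ k ih =>
    obtain ⟨i, hi⟩ := ih (fun j => w j.succ) fun j => hw j.succ
    obtain ⟨⟨i', hi'⟩, -⟩ := (HS_def S _).1 (hw 0)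
    obtain ⟨l, hl, hl'⟩ := S.dir i i'
    refine ⟨l, fun j => ?_⟩
    refine Fin.cases ?_ (fun j => ?_) j
    · exact fun g hg => hi' g (hl' hg)
    · exact fun g hg => hi j g (hl hg)

/-! ### Fixed elements of `D` -/

theorem Fix.compl {i : S.ι} {d : D} (h : S.Fix i d) : S.Fix i dᶜ := by
  intro g hg
  rw [map_compl', h g hg]

theorem Fix.inf {i : S.ι} {d e : D} (h : S.Fix i d) (h' : S.Fix i e) : S.Fix i (d ⊓ e) := by
  intro g hg
  rw [map_inf, h g hg, h' g hg]

theorem Fix.sup {i : S.ι} {d e : D} (h : S.Fix i d) (h' : S.Fix i e) : S.Fix i (d ⊔ e) := by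
  intro g hg
  rw [map_sup, h g hg, h' g hg]

theorem Fix.iSup {i : S.ι} {J : Sort v} {d : J → D} (h : ∀ j, S.Fix i (d j)) : S.Fix i (⨆ j, d j) := by
  intro g hg
  rw [OrderIso.map_iSup]
  exact iSup_congr fun j => h j g hg

theorem Fix.iInf {i : S.ι} {J : Sort v} {d : J → D} (h : ∀ j, S.Fix i (d j)) : S.Fix i (⨅ j, d j) := by
  intro g hg
  rw [OrderIso.map_iInf]
  exact iInf_congr fun j => h j g hg

theorem Fix.top {i : S.ι} : S.Fix i ⊤ := by
  intro g _
  exact map_top _

theorem Fix.bot {i : S.ι} : S.Fix i ⊥ := by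
  intro g _
  exact map_bot _

theorem Fix.mono {i k : S.ι} {d : D} (h : S.Fix i d) (hk : S.K k ⊆ S.K i) : S.Fix k d := by
  intro g hg
  exact h g (hk hg)

theorem Sup.mono {i k : S.ι} {x : BSet D} (h : S.Sup i x) (hk : S.K k ⊆ S.K i) : S.Sup k x := by
  intro g hg
  exact h g (hk hg)

theorem sy_beq_congr {x x' y y' : BSet D} (h : beq x x' = ⊤) (h' : beq y y' = ⊤) :
    beq x y = beq x' y' := by
  have key : ∀ {x x' y y' : BSet D}, beq x x' = ⊤ → beq y y' = ⊤ → beq x' y' ≤ beq x y := by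
    intro x x' y y' h h'
    calc beq x' y' = beq x x' ⊓ beq x' y' := by rw [h, top_inf_eq]
      _ ≤ beq x y' := beq_trans _ _ _
      _ = beq x y' ⊓ beq y' y := by rw [beq_symm y' y, h', inf_top_eq]
      _ ≤ beq x y := beq_trans _ _ _
  refine le_antisymm (key ?_ ?_) (key h h')
  · rw [beq_symm]; exact h
  · rw [beq_symm]; exact h'

theorem sy_bmem_congr {x x' y y' : BSet D} (h : beq x x' = ⊤) (h' : beq y y' = ⊤) :
    bmem x y = bmem x' y' := by
  have key : ∀ {x x' y y' : BSet D}, beq x x' = ⊤ → beq y y' = ⊤ → bmem x y ≤ bmem x' y' := by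
    intro x x' y y' h h'
    calc bmem x y = beq x x' ⊓ bmem x y := by rw [h, top_inf_eq]
      _ ≤ bmem x' y := bmem_congr_left _ _ _
      _ = beq y y' ⊓ bmem x' y := by rw [h', top_inf_eq]
      _ ≤ bmem x' y' := bmem_congr_right _ _ _
  refine le_antisymm (key h h') (key ?_ ?_)
  · rw [beq_symm]; exact h
  · rw [beq_symm]; exact h'

theorem fix_beq {i : S.ι} {x y : BSet D} (hx : S.Sup i x) (hy : S.Sup i y) : S.Fix i (beq x y) := by
  intro g hg
  rw [act_beq]
  exact sy_beq_congr (hx g hg) (hy g hg)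

theorem fix_bmem {i : S.ι} {x y : BSet D} (hx : S.Sup i x) (hy : S.Sup i y) : S.Fix i (bmem x y) := by
  intro g hg
  rw [act_bmem]
  exact sy_bmem_congr (hx g hg) (hy g hg)

/-! ### Names which are obviously symmetric -/

/-- A name whose translates have a membership function equal to the one of the name is symmetric. -/
theorem sup_of_bmem {i : S.ι} {x : BSet D}
    (h : ∀ g ∈ S.K i, ∀ z, bmem z (S.ac g x) ≤ bmem z x) : S.Sup i x := by
  intro g hg
  have h' : ∀ z, bmem z x ≤ bmem z (S.ac g x) := by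
    intro z
    have h1 := h g⁻¹ (S.inv_mem i g hg) (S.ac g⁻¹ z)
    have h2 := (S.act g).monotone h1
    rwa [act_bmem, act_bmem, sy_ac_inv, sy_ac_inv] at h2
  rw [eq_top_iff, le_beq_iff]
  refine ⟨fun z => ?_, fun z => ?_⟩
  · rw [top_inf_eq]
    exact h g hg z
  · rw [top_inf_eq]
    exact h' z

end SYM
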