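import Pool.Agent.BVM_h40.Generic
import Pool.Agent.W_MP_790ce2_lc.Sym

/-!
# MP_790ce2_lc : canonical names of ordinals
-/

universe u v

namespace SYM

open IM (BSet)
open IM.BSet
open BVM (rkLe rkEq)

variable {D : Type u} [CompleteBooleanAlgebra D]

/-- the ordinal of an element of `α.ToType` -/
noncomputable def tp {α : Ordinal.{u}} (i : α.ToType) : Ordinal.{u} := (Ordinal.ToType.toOrd i).1

theorem tp_lt {α : Ordinal.{u}} (i : α.ToType) : tp i < α := (Ordinal.ToType.toOrd i).2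

theorem exists_tp {α ξ : Ordinal.{u}} (h : ξ < α) : ∃ i : α.ToType, tp i = ξ := by
  refine ⟨Ordinal.ToType.mk ⟨ξ, h⟩, ?_⟩
  unfold tp Ordinal.ToType.toOrd
  rw [OrderIso.symm_apply_apply]

theorem tp_inj {α : Ordinal.{u}} {i j : α.ToType} (h : tp i = tp j) : i = j := by
  unfold tp at h
  exact Ordinal.ToType.mk.symm.injective (Subtype.ext h)

theorem iSup_tp {α : Ordinal.{u}} (f : Ordinal.{u} → D) :
    (⨆ i : α.ToType, f (tp i)) = ⨆ ξ : Set.Iio α, f ξ.1 := by
  apply le_antisymm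
  · exact iSup_le fun i => le_iSup (fun ξ : Set.Iio α => f ξ.1) ⟨tp i, tp_lt i⟩
  · refine iSup_le fun ξ => ?_
    obtain ⟨i, hi⟩ := exists_tp ξ.2
    rw [← hi]
    exact le_iSup (fun i : α.ToType => f (tp i)) i

variable (D) in
/-- the canonical name of the ordinal `α` -/
noncomputable def chkO (α : Ordinal.{u}) : BSet D :=
  .mk α.ToType (fun i => chkO (Ordinal.ToType.toOrd i).1) fun _ => ⊤
termination_by α
decreasing_by exact (Ordinal.ToType.toOrd i).2

theorem chkO_eq (α : Ordinal.{u}) : chkO D α = .mk α.ToType (fun i => chkO D (tp i)) fun _ => ⊤ := by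
  rw [chkO]; rfl

theorem bmem_chkO (x : BSet D) (α : Ordinal.{u}) :
    bmem x (chkO D α) = ⨆ ξ : Set.Iio α, beq x (chkO D ξ.1) := by
  rw [chkO_eq, ← iSup_tp (fun ξ => beq x (chkO D ξ))]
  change (⨆ i : α.ToType, ⊤ ⊓ beq x (chkO D (tp i))) = _
  simp only [top_inf_eq]

private theorem chk_mem_lt {α β : Ordinal.{u}} (h : α < β) :
    bmem (chkO D α) (chkO D β) = ⊤ := by
  rw [bmem_chkO, eq_top_iff, ← beq_refl (chkO D α)]
  exact le_iSup (fun ξ : Set.Iio β => beq (chkO D α) (chkO D ξ.1)) ⟨α, h⟩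

private theorem chk_eq_lt (α : Ordinal.{u}) : ∀ β : Ordinal.{u}, α < β →
    beq (chkO D α) (chkO D β) = ⊥ := by
  induction α using WellFoundedLT.induction with
  | ind α ih =>
    intro β h
    rw [eq_bot_iff]
    have h1 : beq (chkO D β) (chkO D α) ⊓ bmem (chkO D α) (chkO D β) ≤
        bmem (chkO D α) (chkO D α) := bmem_congr_right _ _ _
    rw [chk_mem_lt h, inf_top_eq, beq_symm] at h1
    refine h1.trans ?_
    rw [bmem_chkO]
    refine iSup_le fun ξ => ?_
    rw [beq_symm, ih ξ.1 ξ.2 α ξ.2]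

/-- different ordinals have different names: `⟦α̌ = β̌⟧ = ⊥` and `⟦α̌ ∈ β̌⟧ = ⊤` for `α < β`, `⊥` otherwise -/
theorem beq_chkO {α β : Ordinal.{u}} (h : α ≠ β) : beq (chkO D α) (chkO D β) = ⊥ := by
  rcases lt_or_gt_of_ne h with h1 | h1
  · exact chk_eq_lt α β h1
  · rw [beq_symm]
    exact chk_eq_lt β α h1

theorem bmem_chkO_of_lt {α β : Ordinal.{u}} (h : α < β) : bmem (chkO D α) (chkO D β) = ⊤ :=
  chk_mem_lt h

theorem bmem_chkO_of_le {α β : Ordinal.{u}} (h : β ≤ α) : bmem (chkO D α) (chkO D β) = ⊥ := by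
  rw [bmem_chkO, eq_bot_iff]
  refine iSup_le fun ξ => ?_
  rw [beq_chkO (ne_of_gt (lt_of_lt_of_le ξ.2 h))]

private theorem rkLe_chkO_eq (α o : Ordinal.{u}) :
    rkLe (chkO D α) o = ⨅ i : α.ToType, ⨆ k : Set.Iio o, rkLe (chkO D (tp i)) k.1 := by
  rw [BVM.rkLe_eq, chkO_eq]
  change (⨅ i : α.ToType, (⊤ : D)ᶜ ⊔ ⨆ k : Set.Iio o, rkLe (chkO D (tp i)) k.1) = _
  simp only [compl_top, bot_sup_eq]

private theorem rkLe_chkO_self (α : Ordinal.{u}) : rkLe (chkO D α) α = ⊤ := by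
  induction α using WellFoundedLT.induction with
  | ind α ih =>
    rw [rkLe_chkO_eq, iInf_eq_top]
    intro i
    rw [eq_top_iff, ← ih (tp i) (tp_lt i)]
    exact le_iSup (fun k : Set.Iio α => rkLe (chkO D (tp i)) k.1) ⟨tp i, tp_lt i⟩

private theorem rkLe_chkO_lt (o : Ordinal.{u}) : ∀ α : Ordinal.{u}, o < α →
    rkLe (chkO D α) o = ⊥ := by
  induction o using WellFoundedLT.induction with
  | ind o ih =>
    intro α h
    rw [eq_bot_iff, rkLe_chkO_eq]
    obtain ⟨i, hi⟩ := exists_tp h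
    refine (iInf_le _ i).trans ?_
    rw [hi]
    refine iSup_le fun k => ?_
    rw [ih k.1 k.2 o k.2]

/-- the rank of the name of `α` is `α` -/
theorem rkEq_chkO (α : Ordinal.{u}) : rkEq (chkO D α) α = ⊤ := by
  have h : (⨆ k : Set.Iio α, rkLe (chkO D α) k.1) = ⊥ := by
    rw [eq_bot_iff]
    refine iSup_le fun k => ?_
    rw [rkLe_chkO_lt k.1 α k.2]
  rw [BVM.rkEq, rkLe_chkO_self, h, compl_bot, inf_top_eq]

/-- an ordinal greater than the rank of the name `x` -/
noncomputable def bnd (x : BSet D) : Ordinal.{u} := Order.succ (BVM.exists_rkLe_top x).choose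

theorem exists_rkLe_bnd (x : BSet D) : ∃ o < bnd x, rkLe x o = ⊤ :=
  ⟨(BVM.exists_rkLe_top x).choose, Order.lt_succ _, (BVM.exists_rkLe_top x).choose_spec⟩

/-! ### Symmetry -/

variable {S : SymSys D}

theorem ac_chkO (g : S.G) (α : Ordinal.{u}) : S.ac g (chkO D α) = chkO D α := by
  induction α using WellFoundedLT.induction with
  | ind α ih =>
    rw [chkO_eq, ac_def]
    change BSet.mk α.ToType (fun i => S.ac g (chkO D (tp i))) (fun _ => S.act g ⊤) = _
    have h1 : (fun i : α.ToType => S.ac g (chkO D (tp i))) = fun i => chkO D (tp i) :=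
      funext fun i => ih (tp i) (tp_lt i)
    rw [h1, map_top]

private theorem sup_chkO_aux (i : S.ι) (α : Ordinal.{u}) : S.Sup i (chkO D α) := by
  intro g _
  rw [ac_chkO, beq_refl]

theorem HS_chkO (α : Ordinal.{u}) : S.HS (chkO D α) := by
  induction α using WellFoundedLT.induction with
  | ind α ih =>
    rw [HS_def]
    refine ⟨⟨S.ne.some, sup_chkO_aux _ _⟩, ?_⟩
    rw [chkO_eq]
    intro i
    exact ih (tp i) (tp_lt i)

theorem sup_chkO (i : S.ι) (α : Ordinal.{u}) : S.Sup i (chkO D α) :=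
  sup_chkO_aux i α

end SYM
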