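import Pool.Agent.W_MP_790ce2_lc.Core

/-!
# MP_790ce2_lc : the infinite cardinals of the model
-/

universe u v

namespace SYM

open IM (BSet)
open IM.BSet
open ZFM
open Cardinal Ordinal Order
open scoped Cardinal Ordinal

variable {D : Type u} [CompleteBooleanAlgebra D]

namespace Core

variable {κ : Cardinal.{u}} {S : SymSys D}

theorem isCard_of_MC (C : Core κ S) (α : Ordinal.{u}) :
    MC κ α → ∀ {G : Gen S}, G.O α → IsCard G.E (G.ord α) := by
  induction α using WellFoundedLT.induction with
  | ind α ih =>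
    intro h G hα
    rcases MC_cases C.inacc h with rfl | rfl | ⟨h1, h2, h3⟩ | h1
    · exact Gen.isCard_omega
    · exact Gen.isCard_ord C.reg1 (isSuccLimit_omega 1).bot_lt
        (fun β hβ => (isSuccLimit_omega 1).succ_lt hβ) hα
    · have hl : IsSuccLimit α := by
        rw [← h1]
        exact isSuccLimit_ord h2.aleph0_le
      have hr : BReg S α := by
        rcases h3 with ⟨h4, h5⟩ | h4
        · exact C.reg2 α h1 h2 h4 h5
        · exact C.reg3 α h1 h2 h4
      exact Gen.isCard_ord hr hl.bot_lt (fun β hβ => hl.succ_lt hβ) hα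
    · refine Gen.isCard_ord_of_limit (fun β hβ => ?_) hα
      obtain ⟨ν, hν, h2, h3⟩ := h1 β hβ
      exact ⟨ν, h2, h3, fun G' hG' => ih ν h3 hν hG'⟩

/-- The infinite cardinals of the model. (`MC_cases`, `MC_below`, `Gen.isCard_ord`, `Gen.isCard_ord_of_limit`,
`Gen.isCard_omega`, `Gen.not_isCard_ord`, `BSur_of_card`; for limits of the class use well-founded induction.) -/
theorem isInfCard_iff (C : Core κ S) {G : Gen S} {α : Ordinal.{u}} (hα : G.O α) :
    IsInfCard G.E (G.ord α) ↔ MC κ α := by
  rw [Gen.isInfCard_iff hα]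
  constructor
  · rintro ⟨h1, h2⟩
    by_contra hn
    obtain ⟨μ, hμ, -, h3⟩ := MC_below C.inacc h2 hn
    have hs : BSur S μ α := by
      rcases h3 with h3 | ⟨rfl, h3⟩ | ⟨rfl, h3⟩
      · exact BSur_of_card h3
      · exact C.sur1 α h3
      · exact C.sur2 α h3
    exact Gen.not_isCard_ord hs hμ hα h1
  · exact fun h => ⟨isCard_of_MC C α h hα, MC_omega0_le h⟩

end Core

end SYM
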