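import Pool.Agent.W_MP_790ce2_lc.CorA

/-!
# MP_790ce2_lc : the successor cardinals of the model are regular
-/

universe u v

namespace SYM

open IM (BSet)
open IM.BSet
open ZFM
open Cardinal Ordinal Order
open scoped Cardinal Ordinal

variable {D : Type u} [CompleteBooleanAlgebra D]

namespace Core

variable {κ : Cardinal.{u}} {S : SymSys D}

/-- Every successor cardinal of the model is regular: let `ν̌ = μ̌⁺` in `G`; by `isInfCard_iff` `MC κ ν` and
`ω ≤ μ < ν`. If `ν` is a limit of the class there is an element `ρ` of the class with `μ < ρ < ν`; in a model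
containing `μ̌, ν̌, ρ̌` in which `ν̌ = μ̌⁺` (`Gen.extend`) this is a contradiction. In the other cases of `MC_cases` use
`reg1`, `reg2`, `reg3` and `Gen.isReg_ord`. -/
theorem succReg (C : Core κ S) (G : Gen S) : SuccReg G.E := by
  intro a b ha hb
  obtain ⟨μ, hμ, rfl⟩ := Gen.isOrd_iff.1 ha.1.1
  obtain ⟨ν, hν, rfl⟩ := Gen.isOrd_iff.1 hb.1.1
  have hMμ : MC κ μ := (C.isInfCard_iff hμ).1 ha
  have hlt : μ < ν := (Gen.E_ord hμ hν).1 hb.2.1
  have hων : ω < ν := (MC_omega0_le hMμ).trans_lt hlt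
  have hI : IsInfCard G.E (G.ord ν) := (Gen.isInfCard_iff hν).2 ⟨hb.1, hων.le⟩
  have hMν : MC κ ν := (C.isInfCard_iff hν).1 hI
  rcases MC_cases C.inacc hMν with h | h | ⟨h1, h2, h3⟩ | h
  · exact absurd h hων.ne'
  · subst h
    exact Gen.isReg_ord C.reg1 hν
  · rcases h3 with ⟨h3, h4⟩ | h3
    · exact Gen.isReg_ord (C.reg2 ν h1 h2 h3 h4) hν
    · exact Gen.isReg_ord (C.reg3 ν h1 h2 h3) hν
  · exfalso
    obtain ⟨ρ, hρ, h1, h2⟩ := h μ hlt
    obtain ⟨G', hw, hN, -, hS⟩ := Gen.extend (G := G)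
      (R := fun _ E v => IsSuccCard E (v 0) (v 1)) (IsSuccCard.fo 0 1)
      (w := ![chkO D ν, chkO D μ]) (by
        intro i
        refine Fin.cases ?_ (fun i => ?_) i
        · exact hν
        · refine Fin.cases ?_ (fun i => i.elim0) i
          exact hμ) hb (d := ⊤) G.uf.top {chkO D ρ} (Set.countable_singleton _) (by
        rintro x rfl
        exact HS_chkO ρ)
    have hν' : G'.O ν := hw 0
    have hμ' : G'.O μ := hw 1
    have hρ' : G'.O ρ := hN rfl
    have hS' : IsSuccCard G'.E (G'.ord ν) (G'.ord μ) := hS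
    have hcρ := ((C.isInfCard_iff hρ').2 hρ).1
    rcases hS'.2.2 _ hcρ ((Gen.E_ord hμ' hρ').2 h1) with h5 | h5
    · exact h2.ne' ((Gen.ord_inj hν' hρ').1 h5)
    · exact absurd ((Gen.E_ord hν' hρ').1 h5) (not_lt.2 h2.le)

end Core

end SYM
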