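import Pool.Agent.W_MP_790ce2_lc.CorA

/-!
# MP_790ce2_lc : the alephs of the model
-/

universe u v

namespace SYM

open IM (BSet)
open IM.BSet
open ZFM
open Cardinal Ordinal Order
open scoped Cardinal Ordinal

variable {D : Type u} [CompleteBooleanAlgebra D]

namespace Core

variable {κ : Cardinal.{u}} {S : SymSys D}

open Classical in
/-- truth values of the function `ξ ↦ enO κ ξ` -/
noncomputable def enW (D : Type u) [CompleteBooleanAlgebra D] (κ : Cardinal.{u}) (ξ η : Ordinal.{u}) : D :=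
  if η = enO κ ξ then ⊤ else ⊥

theorem enW_self (ξ : Ordinal.{u}) : enW D κ ξ (enO κ ξ) = ⊤ := if_pos rfl

theorem lam_enW {G : Gen S} (ξ η : Ordinal.{u}) : G.lam (enW D κ ξ η) ↔ η = enO κ ξ := by
  unfold enW
  split_ifs with h
  · exact ⟨fun _ => h, fun _ => G.uf.top⟩
  · exact ⟨fun h' => (G.uf.bot h').elim, fun h' => (h h').elim⟩

theorem fix_enW (i : S.ι) (ξ η : Ordinal.{u}) : S.Fix i (enW D κ ξ η) := by
  unfold enW
  split_ifs
  · exact Fix.top
  · exact Fix.bot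

/-- the name of the function `ξ ↦ enO κ ξ`, `ξ ≤ δ` -/
noncomputable def enN (D : Type u) [CompleteBooleanAlgebra D] (κ : Cardinal.{u}) (δ : Ordinal.{u}) : BSet D :=
  relN (succ δ) (succ (enO κ δ)) (enW D κ)

theorem HS_enN (δ : Ordinal.{u}) : S.HS (enN D κ δ) :=
  HS_relN (i := Classical.choice S.ne) _ _ fun ξ _ η _ => fix_enW _ ξ η

theorem app_enN {G : Gen S} {δ : Ordinal.{u}} (h : enN D κ δ ∈ G.N) {x y : G.M} :
    App G.E (G.val (enN D κ δ)) x y ↔
      ∃ ξ ≤ δ, G.O ξ ∧ G.O (enO κ ξ) ∧ x = G.ord ξ ∧ y = G.ord (enO κ ξ) := by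
  refine (Gen.app_relN h).trans ?_
  constructor
  · rintro ⟨ξ, hξ, η, _, h1, h2, rfl, rfl, h3⟩
    rw [lam_enW] at h3
    subst h3
    exact ⟨ξ, lt_succ_iff.1 hξ, h1, h2, rfl, rfl⟩
  · rintro ⟨ξ, hξ, h1, h2, rfl, rfl⟩
    exact ⟨ξ, lt_succ_iff.2 hξ, enO κ ξ, lt_succ_iff.2 ((enO_strictMono κ).monotone hξ), h1, h2, rfl, rfl,
      (lam_enW _ _).2 rfl⟩

/-- the components of a pair in the model belong to the model -/
theorem mem_of_prB {G : Gen S} {x y : BSet D} (h : prB x y ∈ G.N) : x ∈ G.N ∧ y ∈ G.N := by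
  have h1 : upB x y ∈ G.N := by
    have := G.cl (prB x y) h (inferInstanceAs (Countable (ULift.{u} Bool))) ⟨false⟩
    exact this
  have h2 := G.cl (upB x y) h1 (inferInstanceAs (Countable (ULift.{u} Bool))) ⟨false⟩
  have h3 := G.cl (upB x y) h1 (inferInstanceAs (Countable (ULift.{u} Bool))) ⟨true⟩
  exact ⟨h3, h2⟩

theorem aleph_aux (C : Core κ S) {G : Gen S} {δ : Ordinal.{u}} (hδ : G.O δ) (h : G.O (enO κ δ))
    (hf : enN D κ δ ∈ G.N) : IsAleph G.E (G.ord δ) (G.ord (enO κ δ)) := by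
  have hs : G.O (succ δ) := Gen.O_succ hδ
  refine ⟨Gen.isOrd_ord hδ, G.val (enN D κ δ), G.ord (succ δ), (Gen.isSucc_ord hδ hs).2 rfl, ⟨⟨?_, ?_⟩, ?_⟩,
    (app_enN hf).2 ⟨δ, le_rfl, hδ, h, rfl, rfl⟩⟩
  · intro p hp
    obtain ⟨b, hb, rfl, -⟩ := (Gen.mem_iff hf).1 hp
    change prB (chkO D (tp b.1)) (chkO D (tp b.2)) ∈ G.N at hb
    obtain ⟨h1, h2⟩ := mem_of_prB hb
    refine ⟨G.ord (tp b.1), G.ord (tp b.2), ?_, Gen.isPair_val h1 h2⟩
    exact (Gen.E_ord h1 hs).2 (tp_lt b.1)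
  · intro x hx
    obtain ⟨ξ, hξ, hoξ, rfl⟩ := (Gen.mem_ord hs).1 hx
    obtain ⟨η, _, hoη, hη⟩ := Gen.exists_of_iSup_relN (G := G) (w := enW D κ) hf hξ hoξ (by
      have : (⨆ η : Set.Iio (succ (enO κ δ)), enW D κ ξ η.1) = ⊤ := by
        apply top_unique
        refine le_iSup_of_le ⟨enO κ ξ, lt_succ_iff.2 ((enO_strictMono κ).monotone (lt_succ_iff.1 hξ))⟩ ?_
        exact (enW_self ξ).ge
      rw [this]
      exact G.uf.top)
    rw [lam_enW] at hη
    subst hη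
    refine ⟨G.ord (enO κ ξ), (app_enN hf).2 ⟨ξ, lt_succ_iff.1 hξ, hoξ, hoη, rfl, rfl⟩, ?_⟩
    intro y hy
    obtain ⟨ξ', _, h1, _, h3, rfl⟩ := (app_enN hf).1 hy
    rw [(Gen.ord_inj hoξ h1).1 h3]
  · intro β ν hν
    obtain ⟨ξ, hξ, h1, h2, rfl, rfl⟩ := (app_enN hf).1 hν
    refine ⟨(C.isInfCard_iff h2).2 (enO_mem κ ξ), ?_, ?_⟩
    · intro γ ν hγ hν
      obtain ⟨ξ', _, h3, h4, rfl, rfl⟩ := (app_enN hf).1 hν
      exact (Gen.E_ord h4 h2).2 (enO_strictMono κ ((Gen.E_ord h3 h1).1 hγ))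
    · intro ν hν hlt
      obtain ⟨μ, hμ, rfl⟩ := Gen.isOrd_iff.1 hν.1.1
      have hMC := (C.isInfCard_iff hμ).1 hν
      have hle : enO κ ξ ≤ μ := by
        refine enO_le hMC fun η hη => ?_
        obtain ⟨G', hG', hN, -, hR⟩ := Gen.extend (G := G) (k := 4)
          (R := fun _ E v => ∀ γ ν, E γ (v 0) → App E (v 2) γ ν → E ν (v 1))
          (by (repeat' (first | exact App.fo _ _ _ | exact FO.eq _ _ | exact FO.mem _ _ | apply FO.imp | apply FO.all)))
          (w := ![chkO D ξ, chkO D μ, enN D κ δ, chkO D (enO κ ξ)])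
          (by intro i; fin_cases i; exacts [h1, hμ, hf, h2]) hlt (d := ⊤) G.uf.top
          {chkO D η, chkO D (enO κ η)} (Set.to_countable _) (by
            intro x hx
            rcases hx with rfl | rfl
            · exact HS_chkO _
            · exact HS_chkO _)
        have g1 : G'.O ξ := hG' 0
        have g2 : G'.O μ := hG' 1
        have g3 : enN D κ δ ∈ G'.N := hG' 2
        have g4 : G'.O η := hN (Set.mem_insert _ _)
        have g5 : G'.O (enO κ η) := hN (Set.mem_insert_of_mem _ rfl)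
        have := hR (G'.ord η) (G'.ord (enO κ η)) ((Gen.E_ord g4 g1).2 hη)
          ((app_enN g3).2 ⟨η, hη.le.trans hξ, g4, g5, rfl, rfl⟩)
        exact (Gen.E_ord g5 g2).1 this
      rcases hle.lt_or_eq with h5 | h5
      · exact Or.inr ((Gen.E_ord h2 hμ).2 h5)
      · exact Or.inl ((Gen.ord_inj h2 hμ).2 h5)

/-- `ℵ_δ` of the model is `enO κ δ`. The function is given by the name `relN (δ + 1) (enO κ δ + 1) w`,
`w ξ η = ⊤` if `η = enO κ ξ` and `⊥` otherwise (`Gen.pull` to have this name and the name of `δ + 1` in the model;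
inside use `Gen.app_relN`, `isInfCard_iff`, `enO_mem`, `enO_strictMono`, `enO_le`; to compare with elements `enO κ η` whose
names are not in the model use `Gen.extend`). -/
theorem isAleph_enO (C : Core κ S) {G : Gen S} {δ : Ordinal.{u}} (hδ : G.O δ) (h : G.O (enO κ δ)) :
    IsAleph G.E (G.ord δ) (G.ord (enO κ δ)) := by
  have key := Gen.pull (G := G) (k := 2) (R := fun _ E v => IsAleph E (v 0) (v 1)) (IsAleph.fo 0 1)
    (w := ![chkO D δ, chkO D (enO κ δ)]) (by intro i; fin_cases i; exacts [hδ, h]) (d := ⊤) G.uf.top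
    {enN D κ δ} (Set.countable_singleton _) (by rintro x rfl; exact HS_enN δ) (fun G' hG' hN _ =>
      C.aleph_aux (G := G') (hG' 0) (hG' 1) (hN rfl))
  exact key

end Core

end SYM
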