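import Pool.Agent.W_MP_790ce2_lc.CardG

/-!
# MP_790ce2_lc : cofinality `ω`
-/

universe u v

namespace SYM

open IM (BSet)
open IM.BSet
open ZFM
open Cardinal Ordinal Order
open scoped Cardinal Ordinal

variable {D : Type u} [CompleteBooleanAlgebra D]

/-- The components of a pair in the model belong to the model. -/
theorem Gen.cd_of_prB {S : SymSys D} {G : Gen S} {a b : BSet D} (h : prB a b ∈ G.N) :
    a ∈ G.N ∧ b ∈ G.N := by
  have hcu : ∀ c d : BSet D, Countable (upB c d).ty := fun c d => by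
    change Countable (ULift.{u} Bool)
    infer_instance
  have h1 : upB a b ∈ G.N := G.cl _ h (hcu _ _) ⟨false⟩
  exact ⟨G.cl _ h1 (hcu _ _) ⟨true⟩, G.cl _ h1 (hcu _ _) ⟨false⟩⟩

/-- The elements of the value of a name of a relation. -/
theorem Gen.cd_mem_relN {S : SymSys D} {G : Gen S} {α β : Ordinal.{u}}
    {w : Ordinal.{u} → Ordinal.{u} → D} (h : relN α β w ∈ G.N) {p : G.M}
    (hp : G.E p (G.val (relN α β w))) :
    ∃ ξ < α, ∃ η < β, G.O ξ ∧ G.O η ∧ IsPair G.E p (G.ord ξ) (G.ord η) ∧ G.lam (w ξ η) := by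
  obtain ⟨b, hb, rfl, hl⟩ := (Gen.mem_iff h).1 hp
  obtain ⟨h1, h2⟩ := Gen.cd_of_prB (G := G) (a := chkO D (tp b.1)) (b := chkO D (tp b.2)) hb
  exact ⟨tp b.1, tp_lt b.1, tp b.2, tp_lt b.2, h1, h2, Gen.isPair_val h1 h2, hl⟩

/-- An ordinal which is the supremum of an `ω`-sequence has cofinality `ω` in the model. -/
theorem Gen.isCofOmega {S : SymSys D} {G : Gen S} {l : Ordinal.{u}} (s : ℕ → Ordinal.{u}) (hs : ∀ n, s n < l)
    (hc : ∀ α < l, ∃ n, α < s n) (hl : G.O l) : IsCofOmega G.E (G.ord l) := by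
  classical
  obtain ⟨w, hw⟩ : ∃ w : Ordinal.{u} → Ordinal.{u} → D,
      w = fun ξ η => if ∃ n : ℕ, ξ = (n : Ordinal.{u}) ∧ η = s n then (⊤ : D) else ⊥ := ⟨_, rfl⟩
  have hwfix : ∀ (i : S.ι) (ξ η : Ordinal.{u}), S.Fix i (w ξ η) := by
    intro i ξ η
    rw [hw]
    dsimp only
    split_ifs
    · exact Fix.top
    · exact Fix.bot
  have hwtop : ∀ n : ℕ, w n (s n) = ⊤ := by
    intro n
    rw [hw]
    exact if_pos ⟨n, rfl, rfl⟩
  have hwbot : ∀ (lam : D → Prop), BVM.IsUF lam → ∀ (n : ℕ) (η : Ordinal.{u}), lam (w n η) → η = s n := by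
    intro lam hlam n η h
    rw [hw] at h
    dsimp only at h
    split_ifs at h with h1
    · obtain ⟨m, hm, rfl⟩ := h1
      rw [Nat.cast_inj.1 hm]
    · exact absurd h hlam.bot
  obtain ⟨F, hF⟩ : ∃ F, F = relN Ordinal.omega0 l w := ⟨_, rfl⟩
  have hFHS : S.HS F := by
    rw [hF]
    exact HS_relN (i := Classical.choice S.ne) _ _ fun ξ _ η _ => hwfix _ ξ η
  refine Gen.pull (G := G) (k := 1) (R := fun _ E v => IsCofOmega E (v 0)) (IsCofOmega.fo 0)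
    (w := fun _ => chkO D l) (fun _ => hl) G.uf.top ({F} ∪ Set.range fun n => chkO D (s n)) ?_ ?_ ?_
  · exact (Set.countable_singleton _).union (Set.countable_range _)
  · rintro x (rfl | ⟨n, rfl⟩)
    · exact hFHS
    · exact HS_chkO _
  · intro G' hG1 hG2 _
    have hOl : G'.O l := hG1 0
    have hFN : relN Ordinal.omega0 l w ∈ G'.N := by
      rw [← hF]
      exact hG2 (Or.inl rfl)
    have hOs : ∀ n, G'.O (s n) := fun n => hG2 (Or.inr ⟨n, rfl⟩)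
    have happ : ∀ n : ℕ, App G'.E (G'.val (relN Ordinal.omega0 l w)) (G'.ord n) (G'.ord (s n)) := by
      intro n
      rw [Gen.app_relN hFN]
      refine ⟨n, Ordinal.natCast_lt_omega0 n, s n, hs n, Gen.O_natCast n, hOs n, rfl, rfl, ?_⟩
      rw [hwtop]
      exact G'.uf.top
    change IsCofOmega G'.E (G'.ord l)
    refine ⟨G'.ord Ordinal.omega0, G'.val (relN Ordinal.omega0 l w), Gen.isOmega_iff.2 rfl,
      ⟨⟨?_, ?_⟩, ?_⟩, ?_⟩
    · intro p hp
      obtain ⟨ξ, hξ, η, hη, hOξ, hOη, hpair, -⟩ := Gen.cd_mem_relN hFN hp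
      exact ⟨G'.ord ξ, G'.ord η, (Gen.mem_ord Gen.O_omega0).2 ⟨ξ, hξ, hOξ, rfl⟩, hpair⟩
    · intro x hx
      obtain ⟨ξ, hξ, hOξ, rfl⟩ := (Gen.mem_ord Gen.O_omega0).1 hx
      obtain ⟨n, rfl⟩ := Ordinal.lt_omega0.1 hξ
      refine ⟨G'.ord (s n), happ n, ?_⟩
      intro y hy
      obtain ⟨ξ', hξ', η, hη, hOξ', hOη, hx', rfl, hlam⟩ := (Gen.app_relN hFN).1 hy
      rw [Gen.ord_inj hOξ hOξ'] at hx'
      rw [← hx'] at hlam
      rw [hwbot _ G'.uf n η hlam]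
    · intro x y hxy
      obtain ⟨ξ', hξ', η, hη, hOξ', hOη, rfl, rfl, hlam⟩ := (Gen.app_relN hFN).1 hxy
      exact (Gen.mem_ord hOl).2 ⟨η, hη, hOη, rfl⟩
    · intro γ hγ
      obtain ⟨α, hα, hOα, rfl⟩ := (Gen.mem_ord hOl).1 hγ
      obtain ⟨n, hn⟩ := hc α hα
      exact ⟨G'.ord n, G'.ord (s n), happ n, Or.inr ((Gen.E_ord hOα (hOs n)).2 hn)⟩

end SYM
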