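import Pool.Agent.W_MP_790ce2_lc.MC

/-!
# MP_790ce2_lc : the class `MC` and its enumeration (ordinal arithmetic)
-/

set_option autoImplicit false

universe u

namespace SYM

open Cardinal Ordinal Order
open scoped Cardinal Ordinal

variable {κ : Cardinal.{u}}

theorem mcb_card_ord (ξ : Ordinal.{u}) : (ω_ ξ).card.ord = ω_ ξ := by
  rw [card_omega, ord_aleph]

theorem mcb_reg (ξ : Ordinal.{u}) : (ω_ (ξ + 1)).card.IsRegular := by
  rw [card_omega, aleph_add_one]
  exact isRegular_succ (aleph0_le_aleph ξ)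

/-- the elements of the class are of the form `ω_ζ` -/
theorem mcb_form {μ : Ordinal.{u}} (h : MC κ μ) :
    ∃ ζ, μ = ω_ ζ ∧ (ζ = 0 ∨ ζ = 1 ∨ (∃ ξ, 1 ≤ ξ ∧ ξ ≤ ω + 1 ∧ ζ = cO + ξ) ∨ ∃ ξ, ζ = κ.ord + ξ) := by
  rcases h with h | h | ⟨ξ, h1, h2, h⟩ | ⟨ξ, h⟩
  · exact ⟨0, by rw [h, omega_zero], Or.inl rfl⟩
  · exact ⟨1, h, Or.inr (Or.inl rfl)⟩
  · exact ⟨cO + ξ, h, Or.inr (Or.inr (Or.inl ⟨ξ, h1, h2, rfl⟩))⟩
  · exact ⟨κ.ord + ξ, h, Or.inr (Or.inr (Or.inr ⟨ξ, rfl⟩))⟩

theorem mcb_one_le_cO : 1 ≤ cO.{u} := by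
  have h1 : (ℵ_ 0 : Cardinal.{u}) < ℵ_ cO := by
    rw [aleph_cO, aleph_zero]
    exact aleph0_lt_continuum
  rw [aleph_lt_aleph] at h1
  exact Order.one_le_iff_pos.2 h1

/-- indices below `cO + ω` -/
theorem mcb_lt_add_omega0 {a ζ : Ordinal.{u}} (h : ζ < a + ω) : ∃ n : ℕ, ζ < a + n := by
  rcases lt_or_ge ζ a with h1 | h1
  · exact ⟨0, by simpa using h1⟩
  · obtain ⟨b, rfl⟩ := le_iff_exists_add.1 h1
    rw [add_lt_add_iff_left] at h
    obtain ⟨n, rfl⟩ := lt_omega0.1 h
    exact ⟨n + 1, by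
      rw [add_lt_add_iff_left]
      exact_mod_cast Nat.lt_succ_self n⟩

/-- below a limit -/
theorem mcb_limit {a ξ α : Ordinal.{u}} (hξ : IsSuccLimit ξ) (h : α < ω_ (a + ξ)) :
    ∃ ζ < ξ, α < ω_ (a + ζ) := by
  have hn : Order.IsNormal (fun x : Ordinal.{u} => ω_ (a + x)) :=
    isNormal_omega.comp (isNormal_add_right a)
  exact (hn.lt_iff_exists_lt hξ).1 h

/-- the elements of the class are `ω`, or regular and in one of the three ranges, or limits of elements of the class -/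
theorem MC_cases (hκ : κ.IsInaccessible) {μ : Ordinal.{u}} (h : MC κ μ) :
    μ = ω ∨ μ = ω_ 1 ∨
      (μ.card.ord = μ ∧ μ.card.IsRegular ∧ ((𝔠 < μ.card ∧ μ.card ≤ ℵ_ (cO + ω + 1)) ∨ κ ≤ μ.card)) ∨
      ∀ α < μ, ∃ ν, MC κ ν ∧ α < ν ∧ ν < μ := by
  rcases h with h | h | ⟨ξ, h1, h2, h⟩ | ⟨ξ, h⟩
  · exact Or.inl h
  · exact Or.inr (Or.inl h)
  · right; right
    rcases zero_or_succ_or_isSuccLimit ξ with h0 | ⟨ζ, rfl⟩ | hlim
    · subst h0
      exact absurd h1 (by simp)
    · left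
      have e : cO + succ ζ = cO + ζ + 1 := by
        rw [← Ordinal.add_one_eq_succ, add_assoc]
      subst h
      refine ⟨mcb_card_ord _, ?_, Or.inl ⟨?_, ?_⟩⟩
      · rw [e]
        exact mcb_reg _
      · rw [card_omega, ← aleph_cO, aleph_lt_aleph, e]
        exact Order.lt_add_one_iff.2 le_self_add
      · rw [card_omega, aleph_le_aleph, add_assoc]
        exact add_le_add_right h2 _
    · right
      intro α hα
      subst h
      obtain ⟨ζ, hζ, hαζ⟩ := mcb_limit hlim hα
      have hζ1 : ζ + 1 < ξ := hlim.add_one_lt hζ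
      refine ⟨ω_ (cO + (ζ + 1)), Or.inr (Or.inr (Or.inl ⟨ζ + 1, ?_, hζ1.le.trans h2, rfl⟩)), ?_, ?_⟩
      · exact le_add_self
      · refine hαζ.trans ?_
        rw [omega_lt_omega, add_lt_add_iff_left]
        exact lt_add_one ζ
      · rw [omega_lt_omega, add_lt_add_iff_left]
        exact hζ1
  · right; right
    rcases zero_or_succ_or_isSuccLimit ξ with h0 | ⟨ζ, rfl⟩ | hlim
    · left
      subst h0
      rw [add_zero, hκ.omega_ord] at h
      subst h
      rw [card_ord]
      exact ⟨rfl, hκ.isRegular, Or.inr le_rfl⟩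
    · left
      have e : κ.ord + succ ζ = κ.ord + ζ + 1 := by
        rw [← Ordinal.add_one_eq_succ, add_assoc]
      subst h
      refine ⟨mcb_card_ord _, ?_, Or.inr ?_⟩
      · rw [e]
        exact mcb_reg _
      · rw [card_omega]
        conv_lhs => rw [← hκ.aleph_ord]
        rw [aleph_le_aleph]
        exact le_self_add
    · right
      intro α hα
      subst h
      obtain ⟨ζ, hζ, hαζ⟩ := mcb_limit hlim hα
      refine ⟨ω_ (κ.ord + ζ), Or.inr (Or.inr (Or.inr ⟨ζ, rfl⟩)), hαζ, ?_⟩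
      rw [omega_lt_omega, add_lt_add_iff_left]
      exact hζ

/-- infinite ordinals which do not belong to the class -/
theorem MC_below (hκ : κ.IsInaccessible) {α : Ordinal.{u}} (h : ω ≤ α) (hn : ¬ MC κ α) :
    ∃ μ < α, MC κ μ ∧ (α.card ≤ μ.card ∨ (μ = ω_ 1 ∧ α.card ≤ 𝔠) ∨ (μ = θO' ∧ α < κ.ord)) := by
  have h1 : ℵ₀ ≤ α.card := by
    rw [← card_omega0]
    exact card_le_card h
  obtain ⟨ζ, hζ⟩ := mem_range_aleph_iff.2 h1
  have h2 : ω_ ζ ≤ α := by
    rw [← ord_aleph, hζ]
    exact ord_card_le α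
  by_cases hm : MC κ (ω_ ζ)
  · refine ⟨ω_ ζ, lt_of_le_of_ne h2 ?_, hm, Or.inl ?_⟩
    · rintro rfl
      exact hn hm
    · rw [card_omega, hζ]
  · have hζκ : ζ < κ.ord := by
      by_contra hge
      obtain ⟨ξ, rfl⟩ := le_iff_exists_add.1 (not_lt.1 hge)
      exact hm (Or.inr (Or.inr (Or.inr ⟨ξ, rfl⟩)))
    have hακ : α < κ.ord := by
      rw [Cardinal.lt_ord, ← hζ]
      conv_rhs => rw [← hκ.aleph_ord]
      exact aleph_lt_aleph.2 hζκ
    rcases lt_or_ge (cO + (ω + 1)) ζ with h3 | h3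
    · refine ⟨θO', ?_, Or.inr (Or.inr (Or.inl ⟨ω + 1, le_add_self, le_rfl, ?_⟩)),
        Or.inr (Or.inr ⟨rfl, hακ⟩)⟩
      · refine lt_of_lt_of_le ?_ h2
        unfold θO'
        rw [omega_lt_omega, add_assoc]
        exact h3
      · unfold θO'
        rw [add_assoc]
    · have h4 : ζ ≤ cO := by
        by_contra hgt
        rw [not_le] at hgt
        obtain ⟨ξ, rfl⟩ := le_iff_exists_add.1 hgt.le
        rw [add_le_add_iff_left] at h3
        have h5 : 1 ≤ ξ := by
          rw [Order.one_le_iff_pos]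
          by_contra h0
          have : ξ = 0 := by simpa using h0
          subst this
          simp at hgt
        exact hm (Or.inr (Or.inr (Or.inl ⟨ξ, h5, h3, rfl⟩)))
      have h5 : ζ ≠ 0 := by
        rintro rfl
        exact hm (Or.inl omega_zero)
      have h6 : ζ ≠ 1 := by
        rintro rfl
        exact hm (Or.inr (Or.inl rfl))
      have h7 : 1 < ζ := lt_of_le_of_ne (Order.one_le_iff_pos.2 (pos_iff_ne_zero.2 h5)) h6.symm
      refine ⟨ω_ 1, (omega_lt_omega.2 h7).trans_le h2, Or.inr (Or.inl rfl), Or.inr (Or.inl ⟨rfl, ?_⟩)⟩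
      rw [← hζ, ← aleph_cO]
      exact aleph_le_aleph.2 h4

/-- the increasing enumeration of the class -/
noncomputable def enO (κ : Cardinal.{u}) : Ordinal.{u} → Ordinal.{u} := enumOrd {μ | MC κ μ}

theorem not_bddAbove_MC (κ : Cardinal.{u}) : ¬ BddAbove {μ | MC κ μ} := by
  rintro ⟨b, hb⟩
  have h1 : MC κ (ω_ (κ.ord + (b + 1))) := Or.inr (Or.inr (Or.inr ⟨b + 1, rfl⟩))
  have h2 := hb h1
  have h3 : b + 1 ≤ ω_ (κ.ord + (b + 1)) := le_add_self.trans (le_omega_self _)
  exact absurd (h3.trans h2) (not_le.2 (lt_add_one b))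

theorem enO_mem (κ : Cardinal.{u}) (ξ : Ordinal.{u}) : MC κ (enO κ ξ) :=
  enumOrd_mem (not_bddAbove_MC κ) ξ

theorem enO_strictMono (κ : Cardinal.{u}) : StrictMono (enO κ) :=
  enumOrd_strictMono (not_bddAbove_MC κ)

theorem enO_le {μ ξ : Ordinal.{u}} (h : MC κ μ) (h' : ∀ η < ξ, enO κ η < μ) : enO κ ξ ≤ μ :=
  enumOrd_le_of_forall_lt h h'

/-- an element of the class greater than `ω_ζ` is at least `ω_(ζ+1)` -/
theorem mcb_succ {μ ζ : Ordinal.{u}} (h : MC κ μ) (h' : ω_ ζ < μ) : ω_ (ζ + 1) ≤ μ := by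
  obtain ⟨ξ, rfl, -⟩ := mcb_form h
  rw [omega_lt_omega] at h'
  rw [omega_le_omega]
  exact Order.add_one_le_of_lt h'

theorem mcb_θ_lt_κ (hκ : κ.IsInaccessible) : cO + (ω + 1) < κ.ord := by
  have h1 := θO'_lt hκ
  unfold θO' at h1
  rw [← hκ.omega_ord, omega_lt_omega, add_assoc] at h1
  exact h1

/-- an element of the class greater than `ω₁` is at least `ω_(c+1)` -/
theorem mcb_gt_one (hκ : κ.IsInaccessible) {μ : Ordinal.{u}} (h : MC κ μ) (h' : ω_ 1 < μ) :
    ω_ (cO + 1) ≤ μ := by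
  obtain ⟨ζ, rfl, h1⟩ := mcb_form h
  rw [omega_lt_omega] at h'
  rw [omega_le_omega]
  rcases h1 with rfl | rfl | ⟨ξ, h1, h2, rfl⟩ | ⟨ξ, rfl⟩
  · exact absurd h' (by simp)
  · exact absurd h' (lt_irrefl _)
  · exact add_le_add_right h1 _
  · have h2 : cO + 1 ≤ cO + (ω + 1) := add_le_add_right le_add_self _
    exact h2.trans ((mcb_θ_lt_κ hκ).le.trans le_self_add)

theorem mcb_low (hκ : κ.IsInaccessible) (n : ℕ) : ω_ (cO + 1 + n) ≤ enO κ ((n : Ordinal.{u}) + 2) := by
  induction n with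
  | zero =>
    rw [Nat.cast_zero, add_zero, zero_add]
    refine mcb_gt_one hκ (enO_mem κ _) ?_
    have h0 : ω ≤ enO κ 0 := MC_omega0_le (enO_mem κ 0)
    have h1 : ω_ 0 < enO κ 1 := by
      rw [omega_zero]
      exact h0.trans_lt (enO_strictMono κ zero_lt_one)
    have h2 := mcb_succ (enO_mem κ 1) h1
    rw [zero_add] at h2
    exact h2.trans_lt (enO_strictMono κ one_lt_two)
  | succ n ih =>
    have e : cO + 1 + ((n + 1 : ℕ) : Ordinal.{u}) = cO + 1 + n + 1 := by
      rw [Nat.cast_add, Nat.cast_one, add_assoc (cO + 1)]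
    rw [e]
    refine mcb_succ (enO_mem κ _) (ih.trans_lt (enO_strictMono κ ?_))
    exact_mod_cast (by omega : n + 2 < n + 1 + 2)

theorem mcb_omega0_lt : (ω : Ordinal.{u}) < θO := by
  have h : ω_ (0 : Ordinal.{u}) < ω_ (cO + ω) :=
    omega_lt_omega.2 (lt_of_lt_of_le omega0_pos le_add_self)
  rwa [omega_zero] at h

/-- `ℵ_ω` of the model is `θ` -/
theorem enO_omega (hκ : κ.IsInaccessible) : enO κ ω = θO := by
  have hθ : MC κ θO := Or.inr (Or.inr (Or.inl ⟨ω, Order.one_le_iff_pos.2 omega0_pos, le_self_add, rfl⟩))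
  apply le_antisymm
  · -- upper bound
    refine enO_le hθ ?_
    have key : ∀ n : ℕ, enO κ n < θO := by
      intro n
      induction n with
      | zero =>
        rw [Nat.cast_zero]
        have h1 : enO κ 0 ≤ ω := by
          refine enO_le (Or.inl rfl) fun η hη => ?_
          exact absurd hη (by simp)
        exact h1.trans_lt mcb_omega0_lt
      | succ n ih =>
        -- an element of the class between
        obtain ⟨ζ, hζ, hlt⟩ := mcb_limit isSuccLimit_omega0 (show enO κ n < ω_ (cO + ω) from ih)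
        have hζ1 : ζ + 1 < ω := isSuccLimit_omega0.add_one_lt hζ
        have h1 : MC κ (ω_ (cO + (ζ + 1))) :=
          Or.inr (Or.inr (Or.inl ⟨ζ + 1, le_add_self, hζ1.le.trans le_self_add, rfl⟩))
        have h2 : enO κ n < ω_ (cO + (ζ + 1)) := by
          refine hlt.trans ?_
          rw [omega_lt_omega, add_lt_add_iff_left]
          exact lt_add_one ζ
        have h3 : enO κ ((n + 1 : ℕ) : Ordinal.{u}) ≤ ω_ (cO + (ζ + 1)) := by
          refine enO_le h1 fun η hη => ?_
          have h4 : η ≤ n := by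
            rw [Nat.cast_add, Nat.cast_one] at hη
            exact Order.lt_add_one_iff.1 hη
          exact ((enO_strictMono κ).monotone h4).trans_lt h2
        refine h3.trans_lt ?_
        unfold θO
        rw [omega_lt_omega, add_lt_add_iff_left]
        exact hζ1
    intro η hη
    obtain ⟨n, rfl⟩ := lt_omega0.1 hη
    exact key n
  · -- lower bound
    by_contra hlt
    rw [not_le] at hlt
    obtain ⟨n, hn⟩ := mO_cofinal hlt
    have h1 : mO n ≤ ω_ (cO + 1 + n) := by
      unfold mO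
      rw [omega_le_omega]
      exact add_le_add_left le_self_add _
    have h2 := mcb_low hκ n
    have h3 : enO κ ((n : Ordinal.{u}) + 2) < enO κ ω :=
      enO_strictMono κ (by exact_mod_cast natCast_lt_omega0 (n + 2))
    exact absurd (hn.trans_le (h1.trans (h2.trans h3.le))) (lt_irrefl _)

theorem mcb_enO_omega_one (hκ : κ.IsInaccessible) : enO κ (ω + 1) = θO' := by
  apply le_antisymm
  · refine enO_le (Or.inr (Or.inr (Or.inl ⟨ω + 1, le_add_self, le_rfl, ?_⟩))) fun η hη => ?_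
    · unfold θO'
      rw [add_assoc]
    · have h1 : η ≤ ω := Order.lt_add_one_iff.1 hη
      refine ((enO_strictMono κ).monotone h1).trans_lt ?_
      rw [enO_omega hκ]
      unfold θO θO'
      rw [omega_lt_omega]
      exact lt_add_one _
  · have h1 : θO < enO κ (ω + 1) := by
      rw [← enO_omega hκ]
      exact enO_strictMono κ (lt_add_one ω)
    exact mcb_succ (enO_mem κ _) h1

/-- elements of the class above `θ⁺` -/
theorem mcb_above {μ : Ordinal.{u}} (h : MC κ μ) (h' : θO' < μ) : ∃ ξ, μ = ω_ (κ.ord + ξ) := by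
  rcases h with h | h | ⟨ξ, h1, h2, h⟩ | h
  · subst h
    unfold θO' at h'
    exact absurd h' (not_lt.2 (omega0_le_omega _))
  · subst h
    unfold θO' at h'
    rw [omega_lt_omega] at h'
    exact absurd h' (not_lt.2 le_add_self)
  · subst h
    unfold θO' at h'
    rw [omega_lt_omega, add_assoc, add_lt_add_iff_left] at h'
    exact absurd h' (not_lt.2 h2)
  · exact h

theorem mcb_high (hκ : κ.IsInaccessible) (ξ : Ordinal.{u}) :
    enO κ (ω + 2 + ξ) = ω_ (κ.ord + ξ) := by
  induction ξ using Ordinal.induction with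
  | h ξ ih =>
    apply le_antisymm
    · refine enO_le (Or.inr (Or.inr (Or.inr ⟨ξ, rfl⟩))) fun η hη => ?_
      rcases lt_or_ge η (ω + 2) with h1 | h1
      · have h2 : η ≤ ω + 1 := by
          have e : (ω : Ordinal.{u}) + 2 = ω + 1 + 1 := by
            rw [add_assoc, one_add_one_eq_two]
          rw [e] at h1
          exact Order.lt_add_one_iff.1 h1
        refine ((enO_strictMono κ).monotone h2).trans_lt ?_
        rw [mcb_enO_omega_one hκ]
        refine (θO'_lt hκ).trans_le ?_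
        conv_lhs => rw [← hκ.omega_ord]
        rw [omega_le_omega]
        exact le_self_add
      · obtain ⟨ζ, rfl⟩ := le_iff_exists_add.1 h1
        rw [add_lt_add_iff_left] at hη
        rw [ih ζ hη, omega_lt_omega, add_lt_add_iff_left]
        exact hη
    · have h1 : θO' < enO κ (ω + 2 + ξ) := by
        rw [← mcb_enO_omega_one hκ]
        refine enO_strictMono κ ?_
        have e : (ω : Ordinal.{u}) + 2 = ω + 1 + 1 := by
          rw [add_assoc, one_add_one_eq_two]
        rw [e]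
        exact (lt_add_one _).trans_le le_self_add
      obtain ⟨ζ, hζ⟩ := mcb_above (enO_mem κ _) h1
      rw [hζ, omega_le_omega]
      refine add_le_add_right ?_ _
      by_contra hlt
      rw [not_le] at hlt
      have h2 : enO κ (ω + 2 + ζ) < enO κ (ω + 2 + ξ) :=
        enO_strictMono κ ((add_lt_add_iff_left _).2 hlt)
      rw [ih ζ hlt, hζ] at h2
      exact absurd h2 (lt_irrefl _)

/-- `ℵ_θ` of the model is `λ` -/
theorem enO_θO (hκ : κ.IsInaccessible) : enO κ θO = lO κ := by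
  have h1 : (ω : Ordinal.{u}) + 2 + θO = θO := by
    have hp : IsPrincipal (· + ·) (θO.{u}) := by
      unfold θO
      rw [← ord_aleph]
      exact isPrincipal_add_ord (aleph0_le_aleph _)
    have h2 : (ω : Ordinal.{u}) + 2 < θO := by
      have h3 : (ω : Ordinal.{u}) < θO := mcb_omega0_lt
      exact hp h3 ((natCast_lt_omega0 2).trans h3)
    exact isPrincipal_add_iff_add_left_eq_self.1 hp _ h2
  have h2 := mcb_high hκ θO
  rw [h1] at h2
  exact h2

end SYM
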