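import Pool.Agent.W_MP_790ce2_lc.CardG
import Pool.Agent.W_MP_790ce2_lc.MCb

/-!
# MP_790ce2_lc : the native facts about the forcing notion which are used in the generic models
-/

universe u v

namespace SYM

open IM (BSet)
open IM.BSet
open ZFM
open Cardinal Ordinal Order
open scoped Cardinal Ordinal

variable {D : Type u} [CompleteBooleanAlgebra D]

/-- The native facts. `S.ι` is here a product `ℕ × κ`, the first component counts the sets `A n ⊆ θ` which may be
used; `A n ξ` is the truth value of `ξ ∈ A_n`. -/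
structure Core (κ : Cardinal.{u}) (S : SymSys D) : Type (u + 1) where
  inacc : κ.IsInaccessible
  nontriv : (⊤ : D) ≠ ⊥
  /-- the elements fixed by a group of the system are few -/
  small : ∀ i : S.ι, #{d : D // S.Fix i d} < κ
  /-- distributivity for countable families -/
  dist : ∀ {J : Type (u + 1)} (b : ℕ → J → D) (a : D), a ≠ ⊥ → (∀ n, a ≤ ⨆ j, b n j) →
    ∃ a' ≤ a, a' ≠ ⊥ ∧ ∃ g : ℕ → J, ∀ n, a' ≤ b n (g n)
  reg1 : BReg S (ω_ 1)
  reg2 : ∀ l : Ordinal.{u}, l.card.ord = l → l.card.IsRegular → 𝔠 < l.card → l.card ≤ ℵ_ (cO + ω + 1) → BReg S l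
  reg3 : ∀ l : Ordinal.{u}, l.card.ord = l → l.card.IsRegular → κ ≤ l.card → BReg S l
  sur1 : ∀ α : Ordinal.{u}, α.card ≤ 𝔠 → BSur S (ω_ 1) α
  sur2 : ∀ α : Ordinal.{u}, α < κ.ord → BSur S θO' α
  /-- the generic sets -/
  A : ℕ → Ordinal.{u} → D
  A_fix : ∀ n, ∃ i, ∀ ξ, S.Fix i (A n ξ)
  /-- flipping one of the sets outside of a countable set: `g` fixes a part of `a`, is in the given group and maps
  `A n` to its complement outside of a countable set -/
  flip : ∀ i : S.ι, ∃ n, ∀ a : D, a ≠ ⊥ → ∃ a' ≤ a, a' ≠ ⊥ ∧ ∃ g ∈ S.K i, S.act g a' = a' ∧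
    ∃ e : ℕ → Ordinal.{u}, ∀ ξ < θO, (∀ m, e m ≠ ξ) → S.act g (A n ξ) = (A n ξ)ᶜ

end SYM
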