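import Mathlib

set_option autoImplicit false

/-!
# MP_790ce2_lc : the definitions used in the statement of the theorem

The theorem says: if there is a strongly compact cardinal, then there is a countable well-founded model
`(M, E)` of ZF in which every successor cardinal is regular, `ℵ_{ω_ω}` carries a uniform ultrafilter and
`ℵ_ω` carries none.

Everything below (except the last section) is about a structure `(M, E)`; `E x y` is read `x ∈ y`.
-/

namespace ZFM
universe u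

/-- first-order formulas in the language of set theory with free variables `0,…,k-1`; the quantifier
binds the variable `0` and shifts the others -/
inductive Fml : ℕ → Type
  | mem {k : ℕ} (i j : Fin k) : Fml k
  | eq {k : ℕ} (i j : Fin k) : Fml k
  | neg {k : ℕ} (φ : Fml k) : Fml k
  | and {k : ℕ} (φ ψ : Fml k) : Fml k
  | ex {k : ℕ} (φ : Fml (k + 1)) : Fml k

/-- satisfaction of a formula in the structure `(M, E)` -/
def Sat {M : Type u} (E : M → M → Prop) : {k : ℕ} → Fml k → (Fin k → M) → Prop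
  | _, .mem i j, v => E (v i) (v j)
  | _, .eq i j, v => v i = v j
  | _, .neg φ, v => ¬ Sat E φ v
  | _, .and φ ψ, v => Sat E φ v ∧ Sat E ψ v
  | _, .ex φ, v => ∃ x, Sat E φ (Fin.cons x v)

/-- the structure `(M, E)` is a model of ZF (separation and replacement are schemes over all
first-order formulas with parameters) -/
structure IsZF {M : Type u} (E : M → M → Prop) : Prop where
  ext : ∀ a b, (∀ x, E x a ↔ E x b) → a = b
  found : ∀ a, (∃ x, E x a) → ∃ x, E x a ∧ ∀ y, E y x → ¬ E y a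
  pair : ∀ a b, ∃ c, ∀ x, E x c ↔ x = a ∨ x = b
  union : ∀ a, ∃ b, ∀ x, E x b ↔ ∃ y, E y a ∧ E x y
  power : ∀ a, ∃ b, ∀ x, E x b ↔ ∀ y, E y x → E y a
  inf : ∃ a, (∃ z, (∀ y, ¬ E y z) ∧ E z a) ∧ ∀ x, E x a → ∃ y, (∀ z, E z y ↔ E z x ∨ z = x) ∧ E y a
  sep : ∀ (k : ℕ) (φ : Fml (k + 1)) (v : Fin k → M) (a : M), ∃ b, ∀ x, E x b ↔ E x a ∧ Sat E φ (Fin.cons x v)
  repl : ∀ (k : ℕ) (φ : Fml (k + 2)) (v : Fin k → M) (a : M),
    (∀ x, E x a → ∀ y z, Sat E φ (Fin.cons x (Fin.cons y v)) → Sat E φ (Fin.cons x (Fin.cons z v)) → y = z) →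
    ∃ b, ∀ y, E y b ↔ ∃ x, E x a ∧ Sat E φ (Fin.cons x (Fin.cons y v))

section defs
variable {M : Type u} (E : M → M → Prop)

/-- `x ⊆ y` -/
def Sub (x y : M) : Prop := ∀ z, E z x → E z y

/-- `x = ∅` -/
def IsEmp (x : M) : Prop := ∀ y, ¬ E y x

/-- `c = {a,b}` -/
def IsUPair (c a b : M) : Prop := ∀ x, E x c ↔ x = a ∨ x = b

/-- `p = (a,b) = {{a},{a,b}}` -/
def IsPair (p a b : M) : Prop := ∃ s d, IsUPair E s a a ∧ IsUPair E d a b ∧ IsUPair E p s d

/-- `y = x ∪ {x}` -/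
def IsSucc (y x : M) : Prop := ∀ z, E z y ↔ E z x ∨ z = x

/-- `x` is transitive -/
def IsTr (x : M) : Prop := ∀ y, E y x → ∀ z, E z y → E z x

/-- `x` is an ordinal -/
def IsOrd (x : M) : Prop := IsTr E x ∧ ∀ y, E y x → IsTr E y

/-- `x` is empty or a successor -/
def IsZS (x : M) : Prop := IsEmp E x ∨ ∃ y, IsSucc E x y

/-- `w = ω` -/
def IsOmega (w : M) : Prop :=
  IsOrd E w ∧ (∃ z, E z w) ∧ (∀ x, E x w → ∃ y, E y w ∧ IsSucc E y x) ∧ ∀ x, E x w → IsZS E x

/-- `(x,y) ∈ f` -/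
def App (f x y : M) : Prop := ∃ p, E p f ∧ IsPair E p x y

/-- `f` is a function with domain `a` -/
def IsFun (f a : M) : Prop := (∀ p, E p f → ∃ x y, E x a ∧ IsPair E p x y) ∧ ∀ x, E x a → ∃! y, App E f x y

/-- `f` is a function from `a` to `b` -/
def Maps (f a b : M) : Prop := IsFun E f a ∧ ∀ x y, App E f x y → E y b

/-- `κ` is a cardinal: an ordinal which is not the image of a smaller ordinal -/
def IsCard (κ : M) : Prop := IsOrd E κ ∧ ∀ β f, E β κ → IsFun E f β → ¬ ∀ y, E y κ → ∃ x, App E f x y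

/-- `κ` is an infinite cardinal -/
def IsInfCard (κ : M) : Prop := IsCard E κ ∧ ∀ w, IsOmega E w → (κ = w ∨ E w κ)

/-- `μ = κ⁺`: the least cardinal greater than `κ` -/
def IsSuccCard (μ κ : M) : Prop := IsCard E μ ∧ E κ μ ∧ ∀ ν, IsCard E ν → E κ ν → (μ = ν ∨ E μ ν)

/-- `κ` is regular: every function from some `β < κ` to `κ` is bounded -/
def IsReg (κ : M) : Prop :=
  ∀ β f, E β κ → Maps E f β κ → ∃ γ, E γ κ ∧ ∀ x y, App E f x y → E y γ

/-- every successor cardinal `κ⁺`, `κ` an infinite cardinal, is regular -/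
def SuccReg : Prop := ∀ κ μ, IsInfCard E κ → IsSuccCard E μ κ → IsReg E μ

/-- `f` is the function `β ↦ ℵ_β` on the set `s` of ordinals: `f(β)` is the least infinite cardinal
greater than `f(γ)` for all `γ < β` -/
def IsAlephFun (f s : M) : Prop :=
  IsFun E f s ∧ ∀ β κ, App E f β κ →
    IsInfCard E κ ∧ (∀ γ ν, E γ β → App E f γ ν → E ν κ) ∧
      ∀ κ', IsInfCard E κ' → (∀ γ ν, E γ β → App E f γ ν → E ν κ') → (κ = κ' ∨ E κ κ')

/-- `κ = ℵ_α` -/
def IsAleph (α κ : M) : Prop := IsOrd E α ∧ ∃ f s, IsSucc E s α ∧ IsAlephFun E f s ∧ App E f α κ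

/-- `κ` has cofinality `ω` (for a limit ordinal `κ`): some function from `ω` to `κ` is unbounded -/
def IsCofOmega (κ : M) : Prop :=
  ∃ w f, IsOmega E w ∧ Maps E f w κ ∧ ∀ γ, E γ κ → ∃ x y, App E f x y ∧ (γ = y ∨ E γ y)

/-- `f` is a bijection from `a` to `b` -/
def IsBij (f a b : M) : Prop := Maps E f a b ∧ ∀ y, E y b → ∃! x, App E f x y

/-- `U` is an ultrafilter on `κ` -/
def IsUltra (U κ : M) : Prop :=
  (∀ X, E X U → Sub E X κ) ∧ E κ U ∧ (∀ X, IsEmp E X → ¬ E X U) ∧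
    (∀ X Y, E X U → Sub E X Y → Sub E Y κ → E Y U) ∧
    (∀ X Y Z, E X U → E Y U → (∀ z, E z Z ↔ E z X ∧ E z Y) → E Z U) ∧
    ∀ X Y, Sub E X κ → (∀ z, E z Y ↔ E z κ ∧ ¬ E z X) → (E X U ∨ E Y U)

/-- `κ` carries a uniform ultrafilter: an ultrafilter on `κ` all of whose elements have cardinality `κ` -/
def CarriesUniform (κ : M) : Prop := ∃ U, IsUltra E U κ ∧ ∀ X, E X U → ∃ f, IsBij E f X κ

end defs

/-! ### Strongly compact cardinals -/

/-- `F` is `κ`-complete: the intersection of fewer than `κ` elements of `F` is in `F` -/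
def IsComplete (κ : Cardinal.{u}) {A : Type u} (F : Filter A) : Prop :=
  ∀ S : Set (Set A), Cardinal.mk S < κ → (∀ s ∈ S, s ∈ F) → ⋂₀ S ∈ F

/-- `κ` is a strongly compact cardinal of the universe `Type u`: `κ` is (strongly) inaccessible and
every proper `κ`-complete filter on a set extends to a `κ`-complete ultrafilter -/
def IsStronglyCompact (κ : Cardinal.{u}) : Prop :=
  κ.IsInaccessible ∧ ∀ (A : Type u) (F : Filter A), F.NeBot → IsComplete κ F →
    ∃ U : Ultrafilter A, (U : Filter A) ≤ F ∧ IsComplete κ (U : Filter A)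

end ZFM
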