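import Pool.Agent.W_MP_7dc84e_h31.Tower

/-!
# MP_790ce2_lc : a form of Easton's lemma for products

`P0` has the `μ⁺`-chain condition, `P1` is closed under directed families of size `≤ ν`, `μ ≤ ν`.
-/

set_option autoImplicit false

universe u v

namespace SYM

open Cardinal
open scoped Cardinal

/-- One dense open set.

PROOF.  Zorn's lemma (or transfinite recursion of length `μ⁺`): consider the pairs `(A, q)`, `q ≤ p1`, `A ⊆ P0` an antichain with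
`(r, q) ∈ Δ` for all `r ∈ A`, ordered by: `(A, q) < (A', q')` iff `A ⊂ A'` and `q' ≤ q`. Chains have upper bounds: let a
chain without a largest element be given, `A` the union of the first components; for `r ∈ A` choose a pair
`(A_r, q_r)` of the chain with `r ∈ A_r`. For every pair `(B, q)` of the chain there is `r ∈ A` with `q_r ≤ q` (take
`(B', q')` in the chain with `B ⊂ B'` and `r ∈ B' ∖ B`). So `{q_r : r ∈ A}` is directed of size `≤ #A ≤ μ ≤ ν`; a lower bound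
of this family together with `A` is an upper bound of the chain. For a maximal pair `(A, q)` every `r0 ∈ P0` is
compatible with an element of `A`: otherwise take `(r, q') ≤ (r0, q)` in `Δ` and enlarge. -/
theorem fusion {P0 P1 : Type u} [PartialOrder P0] [PartialOrder P1] {μ ν : Cardinal.{u}} (hμ : ℵ₀ ≤ μ) (hν : μ ≤ ν)
    (cc : ∀ A : Set P0, (∀ p ∈ A, ∀ q ∈ A, p ≠ q → ¬ ∃ r, r ≤ p ∧ r ≤ q) → #A ≤ μ)
    (cl : ∀ (J : Type u) (f : J → P1), #J ≤ ν → Nonempty J → (∀ a b, ∃ e, f e ≤ f a ∧ f e ≤ f b) →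
      ∃ r, ∀ j, r ≤ f j)
    (Δ : P0 → P1 → Prop) (hop : ∀ a b a' b', Δ a b → a' ≤ a → b' ≤ b → Δ a' b')
    (hde : ∀ a b, ∃ a' b', a' ≤ a ∧ b' ≤ b ∧ Δ a' b') (p1 : P1) :
    ∃ q ≤ p1, ∃ A : Set P0, #A ≤ μ ∧ (∀ r ∈ A, Δ r q) ∧ ∀ r0, ∃ r ∈ A, ∃ s, s ≤ r ∧ s ≤ r0 := by
  classical
  let T : Type u := {x : Set P0 × P1 // x.2 ≤ p1 ∧
    (∀ p ∈ x.1, ∀ q ∈ x.1, p ≠ q → ¬ ∃ r, r ≤ p ∧ r ≤ q) ∧ ∀ r ∈ x.1, Δ r x.2}
  let R : T → T → Prop := fun x y => x = y ∨ (x.1.1 ⊂ y.1.1 ∧ y.1.2 ≤ x.1.2)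
  have htrans : ∀ {a b c : T}, R a b → R b c → R a c := by
    rintro a b c (rfl | h1) (rfl | h2)
    · exact Or.inl rfl
    · exact Or.inr h2
    · exact Or.inr h1
    · exact Or.inr ⟨h1.1.trans h2.1, h2.2.trans h1.2⟩
  have hchain : ∀ c : Set T, IsChain R c → ∃ ub, ∀ a ∈ c, R a ub := by
    intro c hc
    by_cases hlarge : ∃ m ∈ c, ∀ a ∈ c, R a m
    · obtain ⟨m, _, hm⟩ := hlarge
      exact ⟨m, hm⟩
    by_cases hce : c.Nonempty
    swap
    · rw [Set.not_nonempty_iff_eq_empty] at hce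
      subst hce
      exact ⟨⟨(∅, p1), le_rfl, by simp, by simp⟩, by simp⟩
    have hnext : ∀ x ∈ c, ∃ y ∈ c, x.1.1 ⊂ y.1.1 ∧ y.1.2 ≤ x.1.2 := by
      intro x hx
      by_contra hcon
      apply hlarge
      refine ⟨x, hx, fun a ha => ?_⟩
      by_contra hR
      have hne : a ≠ x := fun h => hR (Or.inl h)
      rcases hc ha hx hne with h | h
      · exact hR h
      · rcases h with h | h
        · exact hne h.symm
        · exact hcon ⟨a, ha, h⟩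
    have hcmp : ∀ x ∈ c, ∀ y ∈ c, R x y ∨ R y x := by
      intro x hx y hy
      by_cases hxy : x = y
      · exact Or.inl (Or.inl hxy)
      · exact hc hx hy hxy
    set A : Set P0 := {r | ∃ x ∈ c, r ∈ x.1.1} with hA
    have hsub : ∀ x ∈ c, ∀ y ∈ c, x.1.1 ⊆ y.1.1 ∨ y.1.1 ⊆ x.1.1 := by
      intro x hx y hy
      rcases hcmp x hx y hy with (h | h) | (h | h)
      · exact Or.inl (by rw [h])
      · exact Or.inl h.1.subset
      · exact Or.inl (by rw [h])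
      · exact Or.inr h.1.subset
    have hanti : ∀ p ∈ A, ∀ q ∈ A, p ≠ q → ¬ ∃ r, r ≤ p ∧ r ≤ q := by
      rintro p ⟨x, hx, hpx⟩ q ⟨y, hy, hqy⟩ hpq
      rcases hsub x hx y hy with h | h
      · exact y.2.2.1 p (h hpx) q hqy hpq
      · exact x.2.2.1 p hpx q (h hqy) hpq
    have hAcard : #A ≤ μ := cc A hanti
    choose X hXc hXm using fun r : A => r.2
    have hAne : Nonempty A := by
      obtain ⟨x, hx⟩ := hce
      obtain ⟨y, hy, hxy, _⟩ := hnext x hx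
      obtain ⟨r, hr, _⟩ := Set.exists_of_ssubset hxy
      exact ⟨⟨r, y, hy, hr⟩⟩
    obtain ⟨q, hq⟩ := cl A (fun r => (X r).1.2) (hAcard.trans hν) hAne (by
      intro a b
      rcases hcmp (X a) (hXc a) (X b) (hXc b) with (h | h) | (h | h)
      · exact ⟨b, by rw [h], le_rfl⟩
      · exact ⟨b, h.2, le_rfl⟩
      · exact ⟨a, le_rfl, by rw [h]⟩
      · exact ⟨a, le_rfl, h.2⟩)
    have hqc : ∀ x ∈ c, q ≤ x.1.2 := by
      intro x hx
      obtain ⟨y, hy, hxy, _⟩ := hnext x hx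
      obtain ⟨r, hr, hrx⟩ := Set.exists_of_ssubset hxy
      have hrA : r ∈ A := ⟨y, hy, hr⟩
      have h1 := hq ⟨r, hrA⟩
      rcases hcmp (X ⟨r, hrA⟩) (hXc _) x hx with (h | h) | (h | h)
      · rw [← h]; exact h1
      · exact absurd (h.1.subset (hXm ⟨r, hrA⟩)) hrx
      · rw [h]; exact h1
      · exact h1.trans h.2
    have hqp : q ≤ p1 := by
      obtain ⟨x, hx⟩ := hce
      exact (hqc x hx).trans x.2.1
    refine ⟨⟨(A, q), hqp, hanti, fun r hr => ?_⟩, fun x hx => Or.inr ⟨?_, hqc x hx⟩⟩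
    · exact hop _ _ _ _ ((X ⟨r, hr⟩).2.2.2 r (hXm ⟨r, hr⟩)) le_rfl (hq ⟨r, hr⟩)
    · obtain ⟨y, hy, hxy, _⟩ := hnext x hx
      exact hxy.trans_subset (fun r hr => ⟨y, hy, hr⟩)
  obtain ⟨m, hm⟩ := exists_maximal_of_chains_bounded hchain htrans
  refine ⟨m.1.2, m.2.1, m.1.1, cc _ m.2.2.1, m.2.2.2, fun r0 => ?_⟩
  by_contra hcon
  obtain ⟨r, q', hr, hq', hΔ⟩ := hde r0 m.1.2
  have hrA : r ∉ m.1.1 := fun h => hcon ⟨r, h, r, le_rfl, hr⟩
  have hno : ∀ a ∈ m.1.1, ¬ ∃ s, s ≤ a ∧ s ≤ r := by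
    rintro a ha ⟨s, h1, h2⟩
    exact hcon ⟨a, ha, s, h1, h2.trans hr⟩
  let m' : T := ⟨(insert r m.1.1, q'), hq'.trans m.2.1, by
    intro p hp q hq hpq
    rcases Set.mem_insert_iff.1 hp with hp' | hp'
    · rcases Set.mem_insert_iff.1 hq with hq'' | hq''
      · exact absurd (hp'.trans hq''.symm) hpq
      · rintro ⟨s, h1, h2⟩
        exact hno q hq'' ⟨s, h2, hp' ▸ h1⟩
    · rcases Set.mem_insert_iff.1 hq with hq'' | hq''
      · rintro ⟨s, h1, h2⟩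
        exact hno p hp' ⟨s, h1, hq'' ▸ h2⟩
      · exact m.2.2.1 p hp' q hq'' hpq, by
    intro a ha
    rcases Set.mem_insert_iff.1 ha with rfl | ha
    · exact hΔ
    · exact hop _ _ _ _ (m.2.2.2 a ha) le_rfl hq'⟩
  have h1 : R m m' := Or.inr ⟨Set.ssubset_insert hrA, hq'⟩
  have h3 : r ∈ m.1.1 := by
    rcases hm m' h1 with h | h
    · rw [← h]; exact Set.mem_insert r _
    · exact h.1.subset (Set.mem_insert r _)
  exact hrA h3

/-- Easton's lemma: at most `ν` names of elements of `V` are decided up to `μ` possibilities by a condition of `P1`.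
(`fusion` for each `b`; `CG.dist_abs`.) -/
theorem easton {P0 P1 : Type u} [PartialOrder P0] [PartialOrder P1] {μ ν : Cardinal.{u}} (hμ : ℵ₀ ≤ μ) (hν : μ ≤ ν)
    (cc : ∀ A : Set P0, (∀ p ∈ A, ∀ q ∈ A, p ≠ q → ¬ ∃ r, r ≤ p ∧ r ≤ q) → #A ≤ μ)
    (cl : ∀ (J : Type u) (f : J → P1), #J ≤ ν → Nonempty J → (∀ a b, ∃ e, f e ≤ f a ∧ f e ≤ f b) →
      ∃ r, ∀ j, r ≤ f j)
    {B : Type u} (hB : #B ≤ ν) {V : Type v} (Dec : B → V → P0 → P1 → Prop)
    (hop : ∀ x y a b a' b', Dec x y a b → a' ≤ a → b' ≤ b → Dec x y a' b')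
    (hde : ∀ x a b, ∃ y a' b', a' ≤ a ∧ b' ≤ b ∧ Dec x y a' b') (p1 : P1) :
    ∃ q ≤ p1, ∀ x, ∃ (I : Type u) (f : I → V), #I ≤ μ ∧
      ∀ r0, ∃ s ≤ r0, ∃ i, Dec x (f i) s q := by
  classical
  obtain ⟨q, hq, hE⟩ := CG.dist_abs (Q := P1) (fun a b => a ≤ b) (fun q => le_rfl)
    (fun h1 h2 => le_trans h1 h2) ν cl hB
    (fun x q => ∃ A : Set P0, #A ≤ μ ∧ (∀ r ∈ A, ∃ y, Dec x y r q) ∧
      ∀ r0, ∃ r ∈ A, ∃ s, s ≤ r ∧ s ≤ r0)
    (by
      rintro x q r ⟨A, h1, h2, h3⟩ hr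
      refine ⟨A, h1, fun a ha => ?_, h3⟩
      obtain ⟨y, hy⟩ := h2 a ha
      exact ⟨y, hop _ _ _ _ _ _ hy le_rfl hr⟩)
    (by
      intro x q
      obtain ⟨q', hq', A, h1, h2, h3⟩ := fusion hμ hν cc cl (fun a b => ∃ y, Dec x y a b)
        (by
          rintro a b a' b' ⟨y, hy⟩ ha hb
          exact ⟨y, hop _ _ _ _ _ _ hy ha hb⟩)
        (by
          intro a b
          obtain ⟨y, a', b', ha, hb, h⟩ := hde x a b
          exact ⟨a', b', ha, hb, y, h⟩) q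
      exact ⟨q', hq', A, h1, h2, h3⟩) p1
  refine ⟨q, hq, fun x => ?_⟩
  obtain ⟨A, h1, h2, h3⟩ := hE x
  choose f hf using fun r : A => h2 r.1 r.2
  refine ⟨A, f, h1, fun r0 => ?_⟩
  obtain ⟨r, hr, s, hs1, hs2⟩ := h3 r0
  exact ⟨s, hs2, ⟨r, hr⟩, hop _ _ _ _ _ _ (hf ⟨r, hr⟩) hs1 le_rfl⟩

end SYM
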