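import Pool.Agent.W_MP_790ce2_lc.Frc

/-!
# MP_790ce2_lc : few elements are fixed
-/

universe u v

namespace SYM

open Cardinal Ordinal Order
open scoped Cardinal Ordinal

variable {κ : Cardinal.{u}}

theorem mk_toType_lt_of_lt {o : Ordinal.{u}} (h : o < κ.ord) : #o.ToType < κ := by
  rw [mk_toType]
  exact lt_ord.1 h

/-- the pairs (index in the support, value) -/
theorem small_pairs (hκ : κ.IsInaccessible) (i : ULift.{u} ℕ × κ.ord.ToType) :
    #(Σ x : spt κ i, (FF κ).Y x.1) < κ := by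
  have h0 : #(ULift.{u} ℕ) < κ := by
    refine lt_of_le_of_lt ?_ hκ.aleph0_lt
    exact mk_le_aleph0
  have hb : #(ULift.{u} Bool) < κ := by
    refine lt_of_le_of_lt ?_ hκ.aleph0_lt
    exact mk_le_aleph0
  have h1 : #(θO.{u}).ToType < κ := mk_toType_lt_of_lt (θO_lt hκ)
  have h2 : #(θO'.{u}).ToType < κ := mk_toType_lt_of_lt (θO'_lt hκ)
  have h3 : #(Set.Iio i.2) < κ := mk_Iio_toType_ord_lt i.2
  have hinj : #(Σ x : spt κ i, (FF κ).Y x.1) ≤
      #(((ULift.{u} ℕ × (θO.{u}).ToType) × ULift.{u} Bool) ⊕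
        ((Set.Iio i.2 × (θO'.{u}).ToType) × Set.Iio i.2)) := by
    refine mk_le_of_injective (f := fun z => match z with
      | ⟨⟨.inl x, _⟩, y⟩ => Sum.inl (x, y)
      | ⟨⟨.inr x, hx⟩, y⟩ => Sum.inr ((⟨x.1, hx⟩, x.2), ⟨y.1, lt_of_le_of_lt y.2 hx⟩)) ?_
    rintro ⟨⟨x | x, hx⟩, y⟩ ⟨⟨x' | x', hx'⟩, y'⟩ h
    · simp only [Sum.inl.injEq, Prod.mk.injEq] at h
      obtain ⟨rfl, rfl⟩ := h
      rfl
    · simp at h
    · simp at h
    · simp only [Sum.inr.injEq, Prod.mk.injEq, Subtype.mk.injEq] at h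
      obtain ⟨⟨e1, e2⟩, e3⟩ := h
      obtain rfl : x = x' := Prod.ext e1 e2
      obtain rfl : y = y' := Subtype.ext e3
      rfl
  refine lt_of_le_of_lt hinj ?_
  simp only [mk_sum, mk_prod, Cardinal.lift_id]
  exact add_lt_of_lt hκ.aleph0_lt.le
    (mul_lt_of_lt hκ.aleph0_lt.le (mul_lt_of_lt hκ.aleph0_lt.le h0 h1) hb)
    (mul_lt_of_lt hκ.aleph0_lt.le (mul_lt_of_lt hκ.aleph0_lt.le h3 h2) h3)

theorem small_conds (hκ : κ.IsInaccessible) (i : ULift.{u} ℕ × κ.ord.ToType) :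
    #{p : (FF κ).C // PF.dom p ⊆ spt κ i} < κ := by
  refine lt_of_le_of_lt ?_ (hκ.isStrongPrelimit (small_pairs hκ i))
  rw [← mk_set]
  refine mk_le_of_injective (f := fun p : {p : (FF κ).C // PF.dom p ⊆ spt κ i} =>
    {z : Σ x : spt κ i, (FF κ).Y x.1 | p.1.1 z.1.1 = some z.2}) ?_
  have key : ∀ p q : {p : (FF κ).C // PF.dom p ⊆ spt κ i},
      {z : Σ x : spt κ i, (FF κ).Y x.1 | p.1.1 z.1.1 = some z.2} =
        {z : Σ x : spt κ i, (FF κ).Y x.1 | q.1.1 z.1.1 = some z.2} → q.1 ≤ p.1 := by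
    intro p q hpq x y hxy
    have hx : x ∈ spt κ i := by
      apply p.2
      show p.1.1 x ≠ none
      rw [hxy]
      exact Option.some_ne_none y
    have h1 : (⟨⟨x, hx⟩, y⟩ : Σ x : spt κ i, (FF κ).Y x.1) ∈
        {z : Σ x : spt κ i, (FF κ).Y x.1 | p.1.1 z.1.1 = some z.2} := hxy
    rw [hpq] at h1
    exact h1
  intro p q hpq
  exact Subtype.ext (le_antisymm (key q p hpq.symm) (key p q hpq))

/-- `Fix i` is small: `card_fix`, and there are fewer than `κ` conditions with domain contained in `spt κ i`. -/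
theorem small_fix (hκ : κ.IsInaccessible) (i : (SS hκ).ι) : #{d : IM.RO (FF κ).C // (SS hκ).Fix i d} < κ :=
  lt_of_le_of_lt (PF.card_fix (F := FF κ) i) (hκ.isStrongPrelimit (small_conds hκ i))

end SYM
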