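import Pool.Agent.W_MP_790ce2_lc.FrcA
import Pool.Agent.W_MP_790ce2_lc.Easton
import Pool.Agent.W_MP_790ce2_lc.CardG

/-!
# MP_790ce2_lc : regular cardinals between `2^ℵ₀` and `θ⁺` are natively regular
-/

universe u v

namespace SYM

open Cardinal Ordinal Order
open scoped Cardinal Ordinal

variable {κ : Cardinal.{u}}

/-- `PF.jn` for `FF κ` -/
noncomputable def n1j (r : F0.{u}.C) (s : (F1 κ).C) : (FF κ).C := PF.jn r s

/-- `PF.lf` for `FF κ` -/
noncomputable def n1l (p : (FF κ).C) : F0.{u}.C := PF.lf p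

/-- `PF.rt` for `FF κ` -/
noncomputable def n1r (p : (FF κ).C) : (F1 κ).C := PF.rt p

theorem n1l_n1j (r : F0.{u}.C) (s : (F1 κ).C) : n1l (n1j r s) = r := rfl

theorem n1r_n1j (r : F0.{u}.C) (s : (F1 κ).C) : n1r (n1j r s) = s := rfl

theorem n1j_eta (p : (FF κ).C) : n1j (n1l p) (n1r p) = p := PF.jn_lf_rt p

theorem n1j_le {a a' : F0.{u}.C} {b b' : (F1 κ).C} : n1j a b ≤ n1j a' b' ↔ a ≤ a' ∧ b ≤ b' :=
  PF.jn_le

theorem n1_le {p q : (FF κ).C} : q ≤ p ↔ n1l q ≤ n1l p ∧ n1r q ≤ n1r p := PF.le_iff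

variable (hκ : κ.IsInaccessible)

/-- PROOF.  `easton` with `P0 = F0.C`, `P1 = (F1 κ).C`, `μ = 2^ℵ₀`, `ν = ℵ_(c+ω)`, `B = β.ToType`
(`β < l`, so `#B < l.card ≤ ℵ_(c+ω+1)`), `V = Set.Iio l`, below a condition `p ∈ a`:
`Dec x η r s` iff `jn (uni? ) …`: let `Dec x η r s` say: `jn r s` is incompatible with `p`, or `jn r s ≤ p` and
`jn r s ∈ w (tp x) η`. Take `a' = em (jn (lf p) q)`. The set of the values is bounded: a union of `#B` sets of size
`≤ 2^ℵ₀ < l.card`, `l.card` regular. -/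
theorem reg2 {l : Ordinal.{u}} (hl : l.card.ord = l) (hr : l.card.IsRegular) (h1 : 𝔠 < l.card)
    (h2 : l.card ≤ ℵ_ (cO + ω + 1)) : BReg (SS hκ) l := by
  classical
  intro i β w a hβ ha hfix hsup hdisj
  have hl' : l.card.ord = l := hl
  have hlpos : 0 < l := lt_of_le_of_lt (zero_le) hβ
  -- a condition in `a`
  obtain ⟨p, hp⟩ := PF.exists_em_le ha
  rw [PF.em_le] at hp
  have hcc : ∀ A : Set F0.{u}.C, (∀ p ∈ A, ∀ q ∈ A, p ≠ q → ¬ ∃ r, r ≤ p ∧ r ≤ q) →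
      #A ≤ 2 ^ (ℵ₀ : Cardinal.{u}) := by
    intro A hA
    refine F0_cc A fun p hp q hq hpq hc => hA p hp q hq hpq ?_
    exact ⟨PF.uni p q, PF.uni_le_left p q, PF.uni_le_right hc⟩
  have hcl : ∀ (J : Type u) (f : J → (F1 κ).C), #J ≤ ℵ_ (cO + ω) → Nonempty J →
      (∀ a b, ∃ e, f e ≤ f a ∧ f e ≤ f b) → ∃ r, ∀ j, r ≤ f j := by
    intro J f hJ hne hd
    exact F1_closed hJ f hd
  have hμ : ℵ₀ ≤ (2 : Cardinal.{u}) ^ (ℵ₀ : Cardinal.{u}) := (cantor _).le
  have h2c : (2 : Cardinal.{u}) ^ (ℵ₀ : Cardinal.{u}) = 𝔠 := two_power_aleph0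
  have hν : (2 : Cardinal.{u}) ^ (ℵ₀ : Cardinal.{u}) ≤ ℵ_ (cO + ω) := by
    rw [h2c, ← aleph_cO]
    exact aleph_le_aleph.2 (le_self_add)
  have hβc : β.card < l.card := by
    rw [← Cardinal.lt_ord, hl']
    exact hβ
  have hB : #β.ToType ≤ ℵ_ (cO + ω) := by
    rw [Cardinal.mk_toType]
    have h3 : β.card < succ (ℵ_ (cO + ω)) := by
      refine hβc.trans_le (h2.trans ?_)
      rw [aleph_add_one]
    exact Order.lt_succ_iff.1 h3
  let Dec : β.ToType → Set.Iio l → F0.{u}.C → (F1 κ).C → Prop := fun x η r s =>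
    (¬ ∃ q : (FF κ).C, q ≤ n1j r s ∧ q ≤ p) ∨ (n1j r s ≤ p ∧ n1j r s ∈ (w (tp x) η.1).1)
  obtain ⟨q, hq, hE⟩ := easton hμ hν hcc hcl (B := β.ToType) hB Dec
    (by
      rintro x y r s r' s' (h | h) hr hs
      · left
        rintro ⟨t, ht1, ht2⟩
        exact h ⟨t, ht1.trans (n1j_le.2 ⟨hr, hs⟩), ht2⟩
      · right
        have h3 : n1j r' s' ≤ n1j r s := n1j_le.2 ⟨hr, hs⟩
        exact ⟨h3.trans h.1, IM.RO.mem_lower h.2 h3⟩)
    (by
      intro x r s
      by_cases hc : ∃ t : (FF κ).C, t ≤ n1j r s ∧ t ≤ p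
      · obtain ⟨t, ht1, ht2⟩ := hc
        have hta : t ∈ a.1 := IM.RO.mem_lower hp ht2
        have h3 := (IM.RO.le_iff _ _).1 (hsup (tp x) (tp_lt x)) t hta
        rw [IM.RO.mem_iSup] at h3
        obtain ⟨t', ht', η, hη⟩ := h3 t le_rfl
        refine ⟨η, n1l t', n1r t', ?_, ?_, Or.inr ?_⟩
        · exact (n1_le.1 (ht'.trans ht1)).1
        · exact (n1_le.1 (ht'.trans ht1)).2
        · rw [n1j_eta]
          exact ⟨ht'.trans ht2, hη⟩
      · exact ⟨⟨0, hlpos⟩, r, s, le_rfl, le_rfl, Or.inl hc⟩) (n1r p)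
  choose I f hI hf using hE
  refine ⟨PF.em (n1j (n1l p) q), ?_, PF.em_ne_bot _, ?_⟩
  · rw [PF.em_le]
    refine IM.RO.mem_lower hp ?_
    rw [n1_le, n1l_n1j, n1r_n1j]
    exact ⟨le_rfl, hq⟩
  · -- the bound
    have hcof : l.cof = l.card := by
      conv_lhs => rw [← hl']
      exact hr.cof_ord
    have hstep : ∀ x : β.ToType, (⨆ j : I x, (f x j).1 + 1) < l := by
      intro x
      refine iSup_add_one_lt_of_lt_cof ?_ fun j => (f x j).2
      rw [hcof]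
      exact (hI x).trans_lt (by rw [h2c]; exact h1)
    refine ⟨⨆ x : β.ToType, (⨆ j : I x, (f x j).1 + 1), ?_, ?_⟩
    · refine iSup_lt_of_lt_cof ?_ hstep
      rw [hcof, Cardinal.mk_toType]
      exact hβc
    · intro ξ hξ η hη hγ
      by_contra hne
      obtain ⟨t, ht⟩ := PF.exists_em_le hne
      rw [PF.em_le, IM.RO.mem_inf] at ht
      obtain ⟨x, hx⟩ := exists_tp hξ
      -- a common extension
      have h3 := (PF.mem_em.1 ht.1) t le_rfl
      set t' : (FF κ).C := PF.uni t (n1j (n1l p) q) with ht'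
      have h4 : t' ≤ t := PF.uni_le_left _ _
      have h5 : t' ≤ n1j (n1l p) q := PF.uni_le_right h3
      have h6 := n1_le.1 h5
      rw [n1l_n1j, n1r_n1j] at h6
      obtain ⟨s, hs, j, hj⟩ := hf x (n1l t')
      have h7 : n1j s q ≤ p := by
        rw [n1_le, n1l_n1j, n1r_n1j]
        exact ⟨hs.trans h6.1, hq⟩
      have h8 : n1j s q ∈ (w (tp x) (f x j).1).1 := by
        rcases hj with hj | hj
        · exact absurd ⟨_, le_rfl, h7⟩ hj
        · exact hj.2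
      have h9 : n1j s (n1r t') ≤ n1j s q := n1j_le.2 ⟨le_rfl, h6.2⟩
      have h10 : n1j s (n1r t') ≤ t' := by
        rw [n1_le, n1l_n1j, n1r_n1j]
        exact ⟨hs, le_rfl⟩
      have h11 : η = (f x j).1 := by
        by_contra hne'
        have h12 := hdisj ξ hξ η hη (f x j).1 (f x j).2 hne'
        have h13 : n1j s (n1r t') ∈ (a ⊓ (w ξ η ⊓ w ξ (f x j).1)).1 := by
          rw [IM.RO.mem_inf, IM.RO.mem_inf]
          refine ⟨IM.RO.mem_lower hp (h9.trans h7), IM.RO.mem_lower ht.2 (h10.trans h4), ?_⟩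
          rw [← hx]
          exact IM.RO.mem_lower h8 h9
        rw [h12] at h13
        exact IM.RO.mem_bot _ h13
      have h12 : η < ⨆ j : I x, (f x j).1 + 1 := by
        rw [h11]
        have h14 := Ordinal.le_iSup (fun j : I x => (f x j).1 + 1) j
        exact lt_of_lt_of_le (lt_add_one _) h14
      have h13 := Ordinal.le_iSup (fun x : β.ToType => (⨆ j : I x, (f x j).1 + 1)) x
      exact absurd (h12.trans_le (h13.trans hγ)) (lt_irrefl _)

end SYM
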