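import Pool.Agent.W_MP_790ce2_lc.Frc
import Pool.Agent.W_MP_790ce2_lc.CardG

/-!
# MP_790ce2_lc : collapses
-/

universe u v

namespace SYM

open Cardinal Ordinal Order
open scoped Cardinal Ordinal

variable {κ : Cardinal.{u}} (hκ : κ.IsInaccessible)

namespace n2

theorem exists_rho {α : Ordinal.{u}} (h : α.card ≤ 𝔠) :
    ∃ ρ : (ℕ → Bool) → Ordinal.{u}, ∀ η < α, ∃ g, ρ g = η := by
  classical
  have h1 : #α.ToType ≤ #(ULift.{u} (ℕ → Bool)) := by
    rw [mk_toType]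
    refine h.trans (le_of_eq ?_)
    simp
  obtain ⟨e⟩ := (Cardinal.le_def _ _).1 h1
  refine ⟨fun g => if h : ∃ i, e i = ⟨g⟩ then tp h.choose else 0, fun η hη => ?_⟩
  obtain ⟨i, rfl⟩ := exists_tp hη
  have h2 : ∃ i', e i' = ⟨(e i).down⟩ := ⟨i, rfl⟩
  refine ⟨(e i).down, ?_⟩
  change (if h : ∃ i', e i' = ⟨(e i).down⟩ then tp h.choose else 0) = tp i
  rw [dif_pos h2]
  congr 1
  exact e.injective h2.choose_spec

/-- the index type of the blocks -/
abbrev T : Type u := (ω_ 1 : Ordinal.{u}).ToType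

theorem mk_T : #T.{u} = ℵ_ 1 := by
  rw [mk_toType, card_omega]

theorem exists_j : Nonempty (T.{u} × ULift.{u} ℕ ↪ (θO.{u}).ToType) := by
  rw [← Cardinal.le_def, mk_prod, Cardinal.lift_id, Cardinal.lift_id, mk_T, mk_toType, θO, card_omega]
  have h1 : #(ULift.{u} ℕ) = ℵ₀ := by simp
  rw [h1, Cardinal.aleph_mul_aleph0, aleph_le_aleph]
  exact Ordinal.one_lt_omega0.le.trans le_add_self

/-- the injection of the blocks -/
noncomputable def j : T.{u} × ULift.{u} ℕ ↪ (θO.{u}).ToType := exists_j.some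

open Classical in
/-- the condition with the values `g` on the block `t` -/
noncomputable def pa (t : T.{u}) (g : ℕ → Bool) : F0.{u}.C :=
  ⟨fun x => if h : ∃ n : ULift.{u} ℕ, ((⟨0⟩, j (t, n)) : ULift.{u} ℕ × (θO.{u}).ToType) = x then
    some ⟨g h.choose.down⟩ else none, by
    refine (Set.countable_range
      (fun n : ULift.{u} ℕ => ((⟨0⟩, j (t, n)) : ULift.{u} ℕ × (θO.{u}).ToType))).mono ?_
    intro x hx
    by_contra hc
    apply hx
    exact dif_neg hc⟩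

theorem pa_val (t : T.{u}) (g : ℕ → Bool) (n : ULift.{u} ℕ) :
    (pa t g).1 ((⟨0⟩, j (t, n)) : ULift.{u} ℕ × (θO.{u}).ToType) = some ⟨g n.down⟩ := by
  classical
  have h : ∃ m : ULift.{u} ℕ, ((⟨0⟩, j (t, m)) : ULift.{u} ℕ × (θO.{u}).ToType) = (⟨0⟩, j (t, n)) :=
    ⟨n, rfl⟩
  have h1 : h.choose = n := by
    have h2 := h.choose_spec
    have h3 := j.injective (Prod.mk.inj h2).2
    exact (Prod.mk.inj h3).2
  change (if h : ∃ m : ULift.{u} ℕ, ((⟨0⟩, j (t, m)) : ULift.{u} ℕ × (θO.{u}).ToType) =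
    (⟨0⟩, j (t, n)) then (some ⟨g h.choose.down⟩ : Option (ULift.{u} Bool)) else none) = _
  rw [dif_pos h, h1]
  rfl

theorem pa_none (t : T.{u}) (g : ℕ → Bool) {x : ULift.{u} ℕ × (θO.{u}).ToType}
    (hx : ∀ n : ULift.{u} ℕ, ((⟨0⟩, j (t, n)) : ULift.{u} ℕ × (θO.{u}).ToType) ≠ x) :
    (pa t g).1 x = none := by
  classical
  change (if h : ∃ m : ULift.{u} ℕ, ((⟨0⟩, j (t, m)) : ULift.{u} ℕ × (θO.{u}).ToType) =
    x then (some ⟨g h.choose.down⟩ : Option (ULift.{u} Bool)) else none) = _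
  exact dif_neg fun h => hx _ h.choose_spec

/-- the empty condition -/
def e1 (F : PF.{u}) : F.C := ⟨fun _ => none, F.mono _ ∅ (fun _ hx => absurd rfl hx) F.emp⟩

/-- the condition of the sum -/
noncomputable def P (κ : Cardinal.{u}) (t : T.{u}) (g : ℕ → Bool) : (FF κ).C :=
  PF.jn (pa t g) (e1 (F1 κ))

theorem dom_P (κ : Cardinal.{u}) (t : T.{u}) (g : ℕ → Bool) (b : κ.ord.ToType) :
    PF.dom (P κ t g) ⊆ spt κ (⟨1⟩, b) := by
  rintro (x | x) hx
  · have h1 : ∃ n : ULift.{u} ℕ, ((⟨0⟩, j (t, n)) : ULift.{u} ℕ × (θO.{u}).ToType) = x := by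
      by_contra hc
      push Not at hc
      exact hx (pa_none t g hc)
    obtain ⟨n, rfl⟩ := h1
    change (0 : ℕ) < 1
    exact zero_lt_one
  · exact absurd rfl hx

theorem em_inf_bot {κ : Cardinal.{u}} (t : T.{u}) {g g' : ℕ → Bool} (h : g ≠ g') :
    PF.em (P κ t g) ⊓ PF.em (P κ t g') = ⊥ := by
  rw [← le_bot_iff]
  intro r hr
  exfalso
  have h1 : r ∈ (PF.em (P κ t g)).1 := hr.1
  have h2 : r ∈ (PF.em (P κ t g')).1 := hr.2
  have c1 := PF.mem_em.1 h1 r le_rfl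
  have c2 := PF.mem_em.1 h2 _ (PF.uni_le_left r (P κ t g))
  have h3 := PF.uni_le_right c1
  apply h
  funext n
  have h4 : (PF.uni r (P κ t g)).1 (Sum.inl (⟨0⟩, j (t, ⟨n⟩))) = some ⟨g n⟩ :=
    h3 _ _ (pa_val t g ⟨n⟩)
  have h5 := c2 _ _ _ h4 (pa_val t g' ⟨n⟩)
  exact congrArg ULift.down h5

/-- a block disjoint from the domain of a condition -/
theorem exists_block {κ : Cardinal.{u}} (p : (FF κ).C) :
    ∃ t : T.{u}, ∀ n : ULift.{u} ℕ, p.1 (Sum.inl (⟨0⟩, j (t, n))) = none := by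
  by_contra hc
  push Not at hc
  choose n hn using hc
  have h1 : (PF.lf p).1 = fun x => p.1 (Sum.inl x) := rfl
  have hcnt : {x | (PF.lf p).1 x ≠ none}.Countable := (PF.lf p).2
  have hinj : Function.Injective fun t : T.{u} =>
      ((⟨0⟩, j (t, n t)) : ULift.{u} ℕ × (θO.{u}).ToType) := by
    intro t t' htt
    have h3 := j.injective (Prod.mk.inj htt).2
    exact (Prod.mk.inj h3).1
  have h2 : Countable T.{u} := by
    have h3 : Countable {x | (PF.lf p).1 x ≠ none} := hcnt.to_subtype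
    exact (Function.Injective.countable (f := fun t : T.{u} =>
      (⟨((⟨0⟩, j (t, n t)) : ULift.{u} ℕ × (θO.{u}).ToType), hn t⟩ :
        {x | (PF.lf p).1 x ≠ none})) fun t t' htt => hinj (congrArg Subtype.val htt))
  rw [← Cardinal.mk_le_aleph0_iff, mk_T] at h2
  exact absurd h2 (not_le.2 (by rw [← aleph_zero, aleph_lt_aleph]; exact zero_lt_one))

theorem comp_block {κ : Cardinal.{u}} {p : (FF κ).C} {t : T.{u}}
    (h : ∀ n : ULift.{u} ℕ, p.1 (Sum.inl (⟨0⟩, j (t, n))) = none) (g : ℕ → Bool) :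
    PF.Comp p (P κ t g) := by
  rintro (x | x) y z hy hz
  · exfalso
    have h1 : ∃ n : ULift.{u} ℕ, ((⟨0⟩, j (t, n)) : ULift.{u} ℕ × (θO.{u}).ToType) = x := by
      by_contra hc
      push Not at hc
      have h2 : (pa t g).1 x = none := pa_none t g hc
      have h3 : (pa t g).1 x = some z := hz
      rw [h2] at h3
      exact absurd h3 (by simp)
    obtain ⟨n, rfl⟩ := h1
    rw [h n] at hy
    exact absurd hy (by simp)
  · have h1 : (n2.P κ t g).1 (Sum.inr x) = none := rfl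
    rw [h1] at hz
    exact absurd hz (by simp)

end n2

/-- A surjection from `ω₁` to `α` for `α.card ≤ 2^ℵ₀`, `α ≠ 0`: let `ρ : (ℕ → Bool) → Set.Iio α` be onto,
`w ξ η` the supremum of `em p` over the conditions `p` with domain contained in `{0} × [ω ξ, ω ξ + ω)` (left part) such
that for some `g` with `ρ g = η`, `p (0, ω ξ + n) = g n` for all `n`. Every condition has countable domain, so it is
disjoint from the block `[ω ξ, ω ξ + ω)` for some `ξ < ω₁` (`ω ξ + n < ω₁ ≤ θ`). Support `(1, 0)`, i.e. all `m < 1`. -/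
theorem sur1 {α : Ordinal.{u}} (h : α.card ≤ 𝔠) : BSur (SS hκ) (ω_ 1) α := by
  obtain ⟨ρ, hρ⟩ := n2.exists_rho h
  have hne : Nonempty κ.ord.ToType := by
    rw [Ordinal.nonempty_toType_iff]
    exact (Cardinal.ord_pos.2 hκ.pos).ne'
  obtain ⟨b⟩ := hne
  refine ⟨(⟨1⟩, b), fun ξ η => ⨆ t : {t : n2.T.{u} // tp t = ξ}, ⨆ g : {g : ℕ → Bool // ρ g = η},
    PF.em (n2.P κ t.1 g.1), ?_, ?_, ?_⟩
  · intro ξ η
    refine Fix.iSup fun t => Fix.iSup fun g => ?_
    exact PF.fix_em (n2.dom_P κ t.1 g.1 b)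
  · intro ξ _ η _ η' _ hne
    rw [← le_bot_iff, iSup_inf_iSup]
    refine iSup_le fun tt => ?_
    rw [iSup_inf_iSup]
    refine iSup_le fun gg => ?_
    have h1 : tt.1.1 = tt.2.1 := tp_inj (tt.1.2.trans tt.2.2.symm)
    rw [← h1, n2.em_inf_bot]
    intro h2
    exact hne (gg.1.2.symm.trans ((congrArg ρ h2).trans gg.2.2))
  · intro η hη
    obtain ⟨g, hg⟩ := hρ η hη
    rw [eq_top_iff]
    intro p _
    rw [IM.RO.mem_iSup]
    intro q _
    obtain ⟨t, ht⟩ := n2.exists_block q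
    refine ⟨PF.uni q (n2.P κ t g), PF.uni_le_left _ _, ⟨tp t, tp_lt t⟩, ?_⟩
    have h1 : PF.em (n2.P κ t g) ≤ ⨆ t' : {t' : n2.T.{u} // tp t' = tp t},
        ⨆ g : {g : ℕ → Bool // ρ g = η}, PF.em (n2.P κ t'.1 g.1) :=
      le_iSup_of_le ⟨t, rfl⟩ (le_iSup_of_le ⟨g, hg⟩ le_rfl)
    have h2 : PF.uni q (n2.P κ t g) ∈ (PF.em (n2.P κ t g)).1 :=
      PF.mem_em.2 fun r hr => PF.comp_of_le le_rfl
        (hr.trans (PF.uni_le_right (n2.comp_block ht g)))
    exact (IM.RO.le_def _ _).1 h1 _ h2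

end SYM
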