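import Pool.Agent.W_MP_790ce2_lc.Frc
import Pool.Agent.W_MP_790ce2_lc.CardG

/-!
# MP_790ce2_lc : collapses
-/

universe u v

namespace SYM

open Cardinal Ordinal Order
open scoped Cardinal Ordinal

namespace PF

variable {F : PF.{u}}

/-- a stronger condition belongs to the regular open set of the condition -/
theorem mem_em_of_le {p q : F.C} (h : q ≤ p) : q ∈ (em p).1 :=
  mem_em.2 fun _ hr => comp_of_le le_rfl (hr.trans h)

/-- incompatible conditions give disjoint elements -/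
theorem em_inf_em {p q : F.C} (h : ¬ Comp p q) : em p ⊓ em q = ⊥ := by
  by_contra hc
  obtain ⟨r, hr⟩ := exists_em_le hc
  have hr' := em_le.1 hr
  rw [IM.RO.mem_inf] at hr'
  obtain ⟨h1, h2⟩ := hr'
  have h3 := mem_em.1 h1 r le_rfl
  have h4 : uni r p ≤ r := uni_le_left _ _
  have h5 : uni r p ≤ p := uni_le_right h3
  have h6 := mem_em.1 h2 _ h4
  exact h fun x y z hy hz => h6 x y z (h5 x y hy) hz

end PF

variable {κ : Cardinal.{u}} (hκ : κ.IsInaccessible)

/-- A surjection from `θ⁺` to `α < κ`: `w ζ η = em (sgl (inr (α, ζ)) η)` for `η ≤ α`. A condition has at most `θ` elements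
in its domain, so some `ζ < θ⁺` is free. Support `(0, α + 1)`. -/
theorem sur2 {α : Ordinal.{u}} (h : α < κ.ord) : BSur (SS hκ) θO' α := by
  classical
  have hlim : succ α < κ.ord := (isSuccLimit_ord hκ.isRegular.aleph0_le).succ_lt h
  let a : κ.ord.ToType := ToType.mk ⟨α, h⟩
  let a' : κ.ord.ToType := ToType.mk ⟨succ α, hlim⟩
  have haa' : a < a' := ToType.mk.lt_iff_lt.2 (Subtype.mk_lt_mk.2 (lt_succ α))
  have hle : ∀ η (hη : η < α), (ToType.mk ⟨η, hη.trans h⟩ : κ.ord.ToType) ≤ a := fun η hη =>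
    ToType.mk.le_iff_le.2 (Subtype.mk_le_mk.2 hη.le)
  let c : ∀ ζ < θO'.{u}, ∀ η < α, (FF κ).C := fun ζ hζ η hη =>
    PF.sgl (F := FF κ) (Sum.inr (a, ToType.mk ⟨ζ, hζ⟩))
      (⟨ToType.mk ⟨η, hη.trans h⟩, hle η hη⟩ : {γ : κ.ord.ToType // γ ≤ a})
  let w : Ordinal.{u} → Ordinal.{u} → IM.RO (FF κ).C := fun ζ η =>
    if hζ : ζ < θO' then if hη : η < α then PF.em (c ζ hζ η hη) else ⊥ else ⊥
  have hw : ∀ ζ (hζ : ζ < θO') η (hη : η < α), w ζ η = PF.em (c ζ hζ η hη) := by
    intro ζ hζ η hη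
    simp only [w, dif_pos hζ, dif_pos hη]
  refine ⟨(⟨0⟩, a'), w, ?_, ?_, ?_⟩
  · intro ζ η
    by_cases hζ : ζ < θO'
    · by_cases hη : η < α
      · rw [hw ζ hζ η hη]
        refine PF.fix_em (i := ((⟨0⟩, a') : ULift.{u} ℕ × κ.ord.ToType)) ?_
        intro x hx
        by_cases hx' : x = Sum.inr (a, ToType.mk ⟨ζ, hζ⟩)
        · rw [hx']
          exact haa'
        · exact absurd (dif_neg hx') hx
      · simp only [w, dif_pos hζ, dif_neg hη]
        exact Fix.bot
    · simp only [w, dif_neg hζ]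
      exact Fix.bot
  · intro ζ hζ η hη η' hη' hne
    rw [hw ζ hζ η hη, hw ζ hζ η' hη']
    refine PF.em_inf_em fun hc => hne ?_
    have h1 := hc _ _ _ (PF.sgl_self (F := FF κ) _ _) (PF.sgl_self (F := FF κ) _ _)
    have h2 := congrArg Subtype.val h1
    have h3 := ToType.mk.injective h2
    exact congrArg Subtype.val h3
  · intro η hη
    refine top_le_iff.1 ?_
    intro p _
    rw [IM.RO.mem_iSup]
    intro q _
    obtain ⟨z, hz⟩ : ∃ z : (θO'.{u}).ToType, q.1 (Sum.inr (a, z)) = none := by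
      by_contra hc
      push Not at hc
      have h1 : #(θO'.{u}).ToType ≤ ℵ_ (cO.{u} + ω) := by
        refine le_trans ?_ q.2.2
        refine mk_le_of_injective (f := fun z => (⟨(a, z), hc z⟩ :
          (Sum.inr ⁻¹' {x | q.1 x ≠ none} : Set (F1 κ).X))) ?_
        intro z z' hz
        exact (Prod.ext_iff.1 (Subtype.ext_iff.1 hz)).2
      rw [mk_toType, θO', card_omega, aleph_le_aleph] at h1
      exact absurd h1 (not_le.2 (by
        rw [← Order.succ_eq_add_one]
        exact lt_succ _))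
    obtain ⟨ζ, hζ, rfl⟩ : ∃ (ζ : Ordinal.{u}) (hζ : ζ < θO'), ToType.mk ⟨ζ, hζ⟩ = z :=
      ⟨(ToType.mk.symm z).1, (ToType.mk.symm z).2, by simp⟩
    have hcomp : PF.Comp q (c ζ hζ η hη) := by
      intro x y y' hy hy'
      by_cases hx' : x = Sum.inr (a, ToType.mk ⟨ζ, hζ⟩)
      · subst hx'
        have h5 : (none : Option _) = some y := hz.symm.trans hy
        exact absurd h5 (by simp)
      · have h2 : (c ζ hζ η hη).1 x = none := dif_neg hx'
        rw [h2] at hy'
        exact absurd hy' (by simp)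
    refine ⟨PF.uni q (c ζ hζ η hη), PF.uni_le_left _ _, ⟨ζ, hζ⟩, ?_⟩
    change PF.uni q (c ζ hζ η hη) ∈ (w ζ η).1
    rw [hw ζ hζ η hη]
    exact PF.mem_em_of_le (PF.uni_le_right hcomp)

end SYM
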