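import Pool.Agent.W_MP_790ce2_lc.Frc
import Pool.Agent.W_MP_790ce2_lc.CardG

/-!
# MP_790ce2_lc : the generic sets
-/

universe u v

namespace SYM

open Cardinal Ordinal Order
open scoped Cardinal Ordinal

variable {κ : Cardinal.{u}} (hκ : κ.IsInaccessible)

/-- the generic sets: `A n ξ = ⟦ξ ∈ A_n⟧` -/
noncomputable def genA (κ : Cardinal.{u}) (n : ℕ) (ξ : Ordinal.{u}) : IM.RO (FF κ).C :=
  open Classical in
  if h : ξ < θO then PF.em (PF.sgl (F := FF κ) (Sum.inl (⟨n⟩, Ordinal.ToType.mk ⟨ξ, h⟩)) (⟨true⟩ : ULift.{u} Bool)) else ⊥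

theorem Nat4_sgl_ne {F : PF.{u}} {x x' : F.X} (y : F.Y x) (h : x' ≠ x) :
    (PF.sgl x y).1 x' = none := by
  unfold PF.sgl
  exact dif_neg h

theorem Nat4_dom_sgl {F : PF.{u}} (x : F.X) (y : F.Y x) : PF.dom (PF.sgl x y) ⊆ {x} := by
  intro x' hx'
  by_contra h
  exact hx' (Nat4_sgl_ne y h)

theorem Nat4_self_mem {F : PF.{u}} (p : F.C) : p ∈ (PF.em p).1 :=
  PF.em_le.1 le_rfl

/-- at a place with two values -/
theorem Nat4_compl {F : PF.{u}} (x : F.X) (t f : F.Y x) (htf : t ≠ f) (hall : ∀ y, y = t ∨ y = f) :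
    (PF.em (PF.sgl x t))ᶜ = PF.em (PF.sgl x f) := by
  apply Subtype.ext
  apply Set.ext
  intro q
  rw [IM.RO.mem_compl, PF.mem_em]
  constructor
  · intro h r hr x' y z hy hz
    by_cases hx' : x' = x
    · subst hx'
      rw [PF.sgl_self] at hz
      rw [← Option.some.inj hz]
      rcases hall y with h1 | h1
      · rw [h1] at hy
        exact absurd (IM.RO.mem_lower (Nat4_self_mem _) (PF.le_sgl.2 hy)) (h r hr)
      · exact h1
    · rw [Nat4_sgl_ne f hx'] at hz
      exact absurd hz (by simp)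
  · intro h r hr hmem
    have hc := h r hr
    have h1 := PF.uni_le_right hc
    have h2 := PF.uni_le_left r (PF.sgl x f)
    have h3 := PF.le_sgl.1 h1
    have h4 := PF.mem_em.1 hmem _ h2
    exact htf (h4 _ _ _ h3 (PF.sgl_self x t)).symm

theorem Nat4_gp_sgl {F : PF.{u}} (g : F.Gr) (x : F.X) (y : F.Y x) :
    PF.gp g (PF.sgl x y) = PF.sgl x (g x y) := by
  apply Subtype.ext
  funext x'
  change ((PF.sgl x y).1 x').map (g x') = (PF.sgl x (g x y)).1 x'
  by_cases hx : x' = x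
  · subst hx
    rw [PF.sgl_self, PF.sgl_self]
    rfl
  · rw [Nat4_sgl_ne y hx, Nat4_sgl_ne _ hx]
    rfl

theorem genA_fix (n : ℕ) : ∃ i, ∀ ξ, (SS hκ).Fix i (genA κ n ξ) := by
  have hne : Nonempty κ.ord.ToType := by
    rw [Ordinal.nonempty_toType_iff]
    exact (Cardinal.ord_pos.2 hκ.pos).ne'
  obtain ⟨β⟩ := hne
  refine ⟨((⟨n + 1⟩, β) : ULift.{u} ℕ × κ.ord.ToType), fun ξ => ?_⟩
  unfold genA
  split_ifs with h
  · refine PF.fix_em (F := FF κ) ?_
    intro x hx
    have h1 := Nat4_dom_sgl _ _ hx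
    rw [Set.mem_singleton_iff] at h1
    subst h1
    exact Nat.lt_succ_self n
  · intro g _
    exact map_bot ((SS hκ).act g)

/-- PROOF.  Let `i = (n, β)`; this `n` is as required. Let `p ∈ a`, `a' = em p`, and let `e` enumerate the countable set of the
`ξ` with `(n, ξ) ∈ dom p` (if it is empty let `e` be constant with value `θO`). Let `g` be the transposition of the two
values at the places `(n, ξ)` which are not in the domain of `p`, and the identity everywhere else. -/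
theorem genA_flip (i : (SS hκ).ι) : ∃ n, ∀ a : IM.RO (FF κ).C, a ≠ ⊥ → ∃ a' ≤ a, a' ≠ ⊥ ∧ ∃ g ∈ (SS hκ).K i,
    (SS hκ).act g a' = a' ∧ ∃ e : ℕ → Ordinal.{u}, ∀ ξ < θO, (∀ m, e m ≠ ξ) →
      (SS hκ).act g (genA κ n ξ) = (genA κ n ξ)ᶜ := by
  classical
  obtain ⟨⟨n⟩, β⟩ : ULift.{u} ℕ × κ.ord.ToType := i
  refine ⟨n, fun a ha => ?_⟩
  obtain ⟨p, hp⟩ := PF.exists_em_le ha
  let g : (FF κ).Gr := fun x =>
    match x with
    | .inl x => if x.1.down = n ∧ p.1 (Sum.inl x) = none then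
        (Equiv.swap (⟨true⟩ : ULift.{u} Bool) ⟨false⟩ : Equiv.Perm (ULift.{u} Bool)) else 1
    | .inr _ => 1
  have hg0 : ∀ x : (FF κ).X, p.1 x ≠ none → g x = 1 := by
    intro x hx
    rcases x with x | x
    · exact if_neg fun h => hx h.2
    · rfl
  have hgp : PF.gp g p = p := by
    apply Subtype.ext
    funext x
    change (p.1 x).map (g x) = p.1 x
    rcases hpx : p.1 x with _ | y
    · rfl
    · rw [hg0 x (by rw [hpx]; exact Option.some_ne_none y)]
      rfl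
  have hcount : {ξ : (θO.{u}).ToType | p.1 (Sum.inl (⟨n⟩, ξ)) ≠ none}.Countable := by
    have h1 : (Sum.inl ⁻¹' {x | p.1 x ≠ none} : Set (ULift.{u} ℕ × (θO.{u}).ToType)).Countable :=
      p.2.1
    have h2 : Function.Injective (fun ξ : (θO.{u}).ToType => ((⟨n⟩ : ULift.{u} ℕ), ξ)) := by
      intro x y hxy
      exact (Prod.ext_iff.1 hxy).2
    exact h1.preimage h2
  refine ⟨PF.em p, hp, PF.em_ne_bot p, g, ?_, ?_, ?_⟩
  · rintro (x | x) hx
    · exact if_neg fun h => (ne_of_lt (show x.1.down < n from hx)) h.1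
    · rfl
  · change PF.ga g (PF.em p) = PF.em p
    rw [PF.ga_em, hgp]
  · have hflip : ∀ (ξ : Ordinal.{u}) (hξ : ξ < θO),
        p.1 (Sum.inl (⟨n⟩, Ordinal.ToType.mk ⟨ξ, hξ⟩)) = none →
        (SS hκ).act g (genA κ n ξ) = (genA κ n ξ)ᶜ := by
      intro ξ hξ hnone
      let X : (FF κ).X := Sum.inl (⟨n⟩, Ordinal.ToType.mk ⟨ξ, hξ⟩)
      let t : (FF κ).Y X := (⟨true⟩ : ULift.{u} Bool)
      let f : (FF κ).Y X := (⟨false⟩ : ULift.{u} Bool)
      have h0 : genA κ n ξ = PF.em (PF.sgl (F := FF κ) X t) := by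
        unfold genA
        exact dif_pos hξ
      have htf : t ≠ f := by
        intro h
        have h1 : (⟨true⟩ : ULift.{u} Bool) = ⟨false⟩ := h
        exact absurd (congrArg ULift.down h1) (by decide)
      have hall : ∀ y, y = t ∨ y = f := by
        intro y
        have h3 : ∀ b : ULift.{u} Bool, b = ⟨true⟩ ∨ b = ⟨false⟩ := by
          rintro ⟨b⟩
          cases b
          · exact Or.inr rfl
          · exact Or.inl rfl
        exact h3 y
      have hgt : g X t = f := by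
        have h1 : g X = (Equiv.swap (⟨true⟩ : ULift.{u} Bool) ⟨false⟩ :
            Equiv.Perm (ULift.{u} Bool)) := if_pos ⟨rfl, hnone⟩
        rw [h1]
        exact @Equiv.swap_apply_left _ _ (⟨true⟩ : ULift.{u} Bool) ⟨false⟩
      rw [h0, Nat4_compl X t f htf hall]
      change PF.ga g (PF.em (PF.sgl X t)) = _
      rw [PF.ga_em, Nat4_gp_sgl, hgt]
    by_cases hB : {ξ : (θO.{u}).ToType | p.1 (Sum.inl (⟨n⟩, ξ)) ≠ none}.Nonempty
    · obtain ⟨f, hf⟩ := hcount.exists_eq_range hB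
      refine ⟨fun m => (Ordinal.ToType.mk.symm (f m)).1, fun ξ hξ he => hflip ξ hξ ?_⟩
      by_contra hne
      have h1 : Ordinal.ToType.mk ⟨ξ, hξ⟩ ∈ {ξ : (θO.{u}).ToType | p.1 (Sum.inl (⟨n⟩, ξ)) ≠ none} :=
        hne
      rw [hf] at h1
      obtain ⟨m, hm⟩ := h1
      apply he m
      change (Ordinal.ToType.mk.symm (f m)).1 = ξ
      rw [hm, OrderIso.symm_apply_apply]
    · refine ⟨fun _ => θO, fun ξ hξ _ => hflip ξ hξ ?_⟩
      by_contra hne
      exact hB ⟨_, hne⟩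

end SYM
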