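import Pool.Agent.W_MP_790ce2_lc.CorA

/-!
# MP_790ce2_lc : `θ = ℵ_ω` of the model does not carry a uniform ultrafilter
-/

universe u v

namespace SYM

open IM (BSet)
open IM.BSet
open ZFM
open Cardinal Ordinal Order
open scoped Cardinal Ordinal

variable {D : Type u} [CompleteBooleanAlgebra D] {κ : Cardinal.{u}} {S : SymSys D}

open Classical in
/-- the truth values of `e ξ = η` -/
noncomputable def enumW (D : Type u) [CompleteBooleanAlgebra D] (e : ℕ → Ordinal.{u}) (ξ η : Ordinal.{u}) : D :=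
  if ∃ n : ℕ, ξ = n ∧ η = e n then ⊤ else ⊥

/-- the name of the function `n ↦ e n` on `ω` -/
noncomputable def enumN (D : Type u) [CompleteBooleanAlgebra D] (l : Ordinal.{u}) (e : ℕ → Ordinal.{u}) : BSet D :=
  relN ω l (enumW D e)

theorem HS_enumN (l : Ordinal.{u}) (e : ℕ → Ordinal.{u}) : S.HS (enumN D l e) := by
  refine HS_relN (i := S.ne.some) ω l fun ξ _ η _ => ?_
  unfold enumW
  split_ifs
  · exact Fix.top
  · exact Fix.bot

theorem enumW_lam {G : Gen S} {e : ℕ → Ordinal.{u}} {n : ℕ} {η : Ordinal.{u}} :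
    G.lam (enumW D e n η) ↔ η = e n := by
  unfold enumW
  constructor
  · intro h
    split_ifs at h with h1
    · obtain ⟨m, hm, rfl⟩ := h1
      rw [Nat.cast_inj.1 hm]
    · exact absurd h G.uf.bot
  · intro h
    rw [if_pos ⟨n, rfl, h⟩]
    exact G.uf.top

private theorem prB_mem {G : Gen S} {x y : BSet D} (h : prB x y ∈ G.N) : x ∈ G.N ∧ y ∈ G.N := by
  have h1 : upB x y ∈ G.N := G.cl (prB x y) h (inferInstanceAs (Countable (ULift.{u} Bool))) ⟨false⟩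
  have h2 : x ∈ G.N := G.cl (upB x y) h1 (inferInstanceAs (Countable (ULift.{u} Bool))) ⟨true⟩
  have h3 : y ∈ G.N := G.cl (upB x y) h1 (inferInstanceAs (Countable (ULift.{u} Bool))) ⟨false⟩
  exact ⟨h2, h3⟩

/-- In a model which contains the name of the function `n ↦ e n` on `ω`. (The name is needed: a countable model need not
know a countable set of its ordinals.) -/
theorem Gen.exists_enum {G : Gen S} {l : Ordinal.{u}} (e : ℕ → Ordinal.{u}) (he : ∀ n, e n < l)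
    (hN : enumN D l e ∈ G.N) :
    ∃ f, IsFun G.E f (G.ord ω) ∧ ∀ ξ, G.O ξ → (∃ n, e n = ξ) → ∃ x, App G.E f x (G.ord ξ) := by
  have hω : G.O ω := O_omega0
  refine ⟨G.val (enumN D l e), ⟨?_, ?_⟩, ?_⟩
  · intro p hp
    obtain ⟨b, hb, rfl, -⟩ := (mem_iff hN).1 hp
    obtain ⟨b1, b2⟩ := b
    have hb' : prB (chkO D (tp b1)) (chkO D (tp b2)) ∈ G.N := hb
    obtain ⟨h1, h2⟩ := prB_mem hb'
    exact ⟨G.ord (tp b1), G.ord (tp b2), (E_ord h1 hω).2 (tp_lt b1), isPair_val h1 h2⟩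
  · intro x hx
    obtain ⟨α, hα, hαO, rfl⟩ := (mem_ord hω).1 hx
    obtain ⟨n, rfl⟩ := lt_omega0.1 hα
    have hlam : G.lam (⨆ η : Set.Iio l, enumW D e n η.1) := by
      refine G.uf.mono (le_iSup (fun η : Set.Iio l => enumW D e n η.1) ⟨e n, he n⟩) ?_
      exact enumW_lam.2 rfl
    obtain ⟨η, hη, hηO, hw⟩ := exists_of_iSup_relN hN hα hαO hlam
    refine ⟨G.ord η, (app_relN hN).2 ⟨n, hα, η, hη, hαO, hηO, rfl, rfl, hw⟩, ?_⟩
    intro y hy
    obtain ⟨ξ', -, η', -, o1, -, e1, rfl, w'⟩ := (app_relN hN).1 hy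
    obtain rfl := (ord_inj hαO o1).1 e1
    rw [enumW_lam.1 w', enumW_lam.1 hw]
  · rintro ξ hξ ⟨n, hn⟩
    refine ⟨G.ord n, (app_relN hN).2 ⟨n, natCast_lt_omega0 n, ξ, ?_, O_natCast n, hξ, rfl, rfl, ?_⟩⟩
    · rw [← hn]
      exact he n
    · exact enumW_lam.2 hn.symm

/-- `U` is a uniform ultrafilter on `t` -/
def UUF {M : Type v} (E : M → M → Prop) (U t : M) : Prop := IsUltra E U t ∧ ∀ X, E X U → ∃ f, IsBij E f X t

theorem UUF.fo {k : ℕ} (a b : Fin k) : FO.{v} (fun _ E v => UUF E (v a) (v b)) := by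
  unfold UUF
  refine (IsUltra.fo a b).and (FO.all (R := fun T E x v => E x (v a) → ∃ f, IsBij E f x (v b)) ?_)
  refine (FO.mem 0 a.succ).imp (FO.ex (R := fun T E f w => IsBij E f (w 0) (w b.succ)) ?_)
  exact IsBij.fo 0 (Fin.succ 0) b.succ.succ

theorem omega0_lt_θO : ω < θO.{u} := by
  calc ω = ω_ 0 := omega_zero.symm
    _ < ω_ (cO + ω) := omega_lt_omega.2 (lt_of_lt_of_le omega0_pos le_add_self)

theorem MC_θO (κ : Cardinal.{u}) : MC κ θO :=
  Or.inr (Or.inr (Or.inl ⟨ω, one_lt_omega0.le, le_self_add, rfl⟩))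

/-- PROOF.  Suppose `G ⊨ U` is a uniform ultrafilter on `θ̌`, `U = G.val U'`, `U' ∈ HS` with support `i`
(`Gen.hsN`, `HS_def`). Take `n` from `C.flip i` and let `X₀ = subN θ (A n)`, `X₁ = subN θ (fun ξ => (A n ξ)ᶜ)`; in a model
containing these names (`Gen.extend`, with the formula ''`U` is a uniform ultrafilter on `θ`'') one of them, call it
`X = subN θ b`, belongs to `U` (`IsUltra`). Let `a ≠ ⊥` be the infimum of the truth values of ''`U'` is a uniform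
ultrafilter on `θ̌`'' and `X ∈ U'`. Let `a', g, e` be given by `flip`. Then
`a' = g a' ≤ g ⟦X ∈ U'⟧ = ⟦g X ∈ g U'⟧ = ⟦g X ∈ U'⟧` (`act_bmem`, `bmem_congr_right`, `beq (g U') U' = ⊤`), and
`g X = subN θ (fun ξ => g (b ξ))` (`ac_subN`) where `g (b ξ) = (b ξ)ᶜ` for `ξ` outside of the range of `e`. In a model
containing `a'` and the names `U', θ̌, ω̌, X, g X` the intersection of `X` and `g X` belongs to `U'`
(`Gen.mem_subN`) and is contained in the range of `e` (`Gen.exists_enum`, after changing the values of `e` which are not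
`< θ`), a contradiction to `not_ctbl_of_uniform`; `θ̌` is a cardinal greater than `ω` by `Core.isInfCard_iff`
(`MC κ θO`, third alternative with `ξ = ω`). -/
theorem Core.noUF (C : Core κ S) {G : Gen S} (h : G.O θO) : ¬ CarriesUniform G.E (G.ord θO) := by
  rintro ⟨U, hU1, hU2⟩
  obtain ⟨U', hU'N, rfl⟩ := Gen.exists_name U
  have hU'HS := Gen.hsN hU'N
  obtain ⟨i, hi⟩ := ((HS_def S U').1 hU'HS).1
  obtain ⟨n, hn⟩ := C.flip i
  obtain ⟨j, hj⟩ := C.A_fix n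
  obtain ⟨φ, hφ⟩ := UUF.fo.{0} (k := 2) 0 1
  have hwN : ∀ i, (![U', chkO D θO] : Fin 2 → BSet D) i ∈ G.N := by
    intro i
    refine Fin.cases hU'N (fun i => ?_) i
    refine Fin.cases h (fun i => i.elim0) i
  obtain ⟨G', hw', hN', -, hR'⟩ := Gen.extend (G := G) (R := fun _ E v => UUF E (v 0) (v 1)) (UUF.fo 0 1)
    hwN ⟨hU1, hU2⟩ G.uf.top {subN θO (C.A n), subN θO fun ξ => (C.A n ξ)ᶜ}
    ((Set.countable_singleton _).insert _) (by
      rintro x (rfl | rfl)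
      · exact HS_subN (i := j) θO fun ξ _ => hj ξ
      · exact HS_subN (i := j) θO fun ξ _ => Fix.compl (hj ξ))
  have hU'N' : U' ∈ G'.N := hw' 0
  have hθ' : G'.O θO := hw' 1
  have hX0 : subN θO (C.A n) ∈ G'.N := hN' (Or.inl rfl)
  have hX1 : (subN θO fun ξ => (C.A n ξ)ᶜ) ∈ G'.N := hN' (Or.inr rfl)
  have hR2 : UUF G'.E (G'.val U') (G'.ord θO) := hR'
  have hlast := hR2.1.2.2.2.2.2 (G'.val (subN θO (C.A n))) (G'.val (subN θO fun ξ => (C.A n ξ)ᶜ)) (by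
      intro z hz
      obtain ⟨ξ, hξ, hξO, rfl, -⟩ := (Gen.mem_subN hX0).1 hz
      exact (Gen.E_ord hξO hθ').2 hξ) (by
      intro z
      constructor
      · intro hz
        obtain ⟨ξ, hξ, hξO, rfl, hlam⟩ := (Gen.mem_subN hX1).1 hz
        refine ⟨(Gen.E_ord hξO hθ').2 hξ, fun hz' => ?_⟩
        obtain ⟨ξ', -, hξO', he', hlam'⟩ := (Gen.mem_subN hX0).1 hz'
        obtain rfl := (Gen.ord_inj hξO hξO').1 he'
        exact (G'.uf.compl_iff.1 hlam) hlam'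
      · rintro ⟨hz, hz'⟩
        obtain ⟨ξ, hξ, hξO, rfl⟩ := (Gen.mem_ord hθ').1 hz
        refine (Gen.mem_subN hX1).2 ⟨ξ, hξ, hξO, rfl, ?_⟩
        refine G'.uf.compl_iff.2 fun hlam => hz' ?_
        exact (Gen.mem_subN hX0).2 ⟨ξ, hξ, hξO, rfl, hlam⟩)
  obtain ⟨b, hb, hbN, hbE⟩ : ∃ b : Ordinal.{u} → D, (b = C.A n ∨ b = fun ξ => (C.A n ξ)ᶜ) ∧
      subN θO b ∈ G'.N ∧ G'.E (G'.val (subN θO b)) (G'.val U') := by
    rcases hlast with h1 | h1
    · exact ⟨_, Or.inl rfl, hX0, h1⟩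
    · exact ⟨_, Or.inr rfl, hX1, h1⟩
  have hbHS : S.HS (subN θO b) := Gen.hsN hbN
  have hlam1 : G'.lam (tvS S φ ![U', chkO D θO]) :=
    (Gen.los φ _ hw').1 ((hφ G'.M G'.E (fun i => G'.val ((![U', chkO D θO] : Fin 2 → BSet D) i))).1 hR')
  have hlam2 : G'.lam (bmem (subN θO b) U') := (Gen.E_val hbN hU'N').1 hbE
  have ha : tvS S φ ![U', chkO D θO] ⊓ bmem (subN θO b) U' ≠ ⊥ := by
    intro h0
    have h1 := G'.uf.inf hlam1 hlam2
    rw [h0] at h1
    exact G'.uf.bot h1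
  obtain ⟨a', ha'a, ha'0, g, hg, hga, e, he⟩ := hn _ ha
  have h1 : a' ≤ bmem (S.ac g (subN θO b)) U' := by
    have e1 : a' ≤ S.act g (bmem (subN θO b) U') :=
      hga.symm.le.trans ((S.act g).monotone (ha'a.trans inf_le_right))
    rw [act_bmem] at e1
    have e2 := bmem_congr_right (S.ac g (subN θO b)) (S.ac g U') U'
    rw [hi g hg, top_inf_eq] at e2
    exact e1.trans e2
  have hflip : ∀ ξ < θO, (∀ m, e m ≠ ξ) → S.act g (b ξ) = (b ξ)ᶜ := by
    intro ξ hξ hm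
    rcases hb with rfl | rfl
    · exact he ξ hξ hm
    · change S.act g ((C.A n ξ)ᶜ) = ((C.A n ξ)ᶜ)ᶜ
      rw [map_compl' (S.act g) (C.A n ξ), he ξ hξ hm]
  have h0θ : (0 : Ordinal.{u}) < θO := lt_trans omega0_pos omega0_lt_θO
  classical
  obtain ⟨e', he'⟩ : ∃ e' : ℕ → Ordinal.{u}, e' = fun m => if e m < θO then e m else 0 := ⟨_, rfl⟩
  have he'lt : ∀ m, e' m < θO := by
    intro m
    rw [he']
    change (if e m < θO then e m else 0) < θO
    split_ifs with hm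
    · exact hm
    · exact h0θ
  have hHS : ∀ x ∈ ({U', chkO D θO, subN θO b, S.ac g (subN θO b), enumN D θO e'} : Set (BSet D)), S.HS x := by
    rintro x (rfl | rfl | rfl | rfl | rfl)
    · exact hU'HS
    · exact HS_chkO _
    · exact hbHS
    · exact HS.ac hbHS g
    · exact HS_enumN _ _
  obtain ⟨G2, hG2, hG2a⟩ : ∃ G2 : Gen S,
      ({U', chkO D θO, subN θO b, S.ac g (subN θO b), enumN D θO e'} : Set (BSet D)) ⊆ G2.N ∧ G2.lam a' := by
    by_contra hc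
    push Not at hc
    apply ha'0
    rw [eq_bot_iff, Gen.le_iff (S := S) _ ((Set.toFinite _).countable) hHS]
    intro G2 h1 h2
    exact absurd h2 (hc G2 h1)
  have n1 : U' ∈ G2.N := hG2 (by simp)
  have n2 : G2.O θO := hG2 (by simp)
  have n3 : subN θO b ∈ G2.N := hG2 (by simp)
  have n4 : S.ac g (subN θO b) ∈ G2.N := hG2 (by simp)
  have n5 : enumN D θO e' ∈ G2.N := hG2 (by simp)
  have hw2 : ∀ i, (![U', chkO D θO] : Fin 2 → BSet D) i ∈ G2.N := by
    intro i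
    refine Fin.cases n1 (fun i => ?_) i
    refine Fin.cases n2 (fun i => i.elim0) i
  have hUUF : UUF G2.E (G2.val U') (G2.ord θO) :=
    (hφ G2.M G2.E (fun i => G2.val ((![U', chkO D θO] : Fin 2 → BSet D) i))).2
      ((Gen.los φ _ hw2).2 (G2.uf.mono (ha'a.trans inf_le_left) hG2a))
  have m1 : G2.E (G2.val (subN θO b)) (G2.val U') :=
    (Gen.E_val n3 n1).2 (G2.uf.mono (ha'a.trans inf_le_right) hG2a)
  have m2 : G2.E (G2.val (S.ac g (subN θO b))) (G2.val U') :=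
    (Gen.E_val n4 n1).2 (G2.uf.mono h1 hG2a)
  obtain ⟨Z, hZ⟩ := G2.zf.sep 1 (.mem 0 1) (fun _ => G2.val (S.ac g (subN θO b))) (G2.val (subN θO b))
  have hZ' : ∀ z, G2.E z Z ↔ G2.E z (G2.val (subN θO b)) ∧ G2.E z (G2.val (S.ac g (subN θO b))) := hZ
  have m3 : G2.E Z (G2.val U') := hUUF.1.2.2.2.2.1 _ _ Z m1 m2 hZ'
  obtain ⟨f, hf, hfe⟩ := Gen.exists_enum (G := G2) e' he'lt n5
  have hcard : IsCard G2.E (G2.ord θO) := ((C.isInfCard_iff n2).2 (MC_θO κ)).1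
  refine not_ctbl_of_uniform G2.zf hcard ((Gen.E_ord Gen.O_omega0 n2).2 omega0_lt_θO) hUUF.2 m3 hf ?_
  intro z hz
  obtain ⟨z1, z2⟩ := (hZ' z).1 hz
  obtain ⟨ξ, hξ, hξO, rfl, hl1⟩ := (Gen.mem_subN n3).1 z1
  rw [ac_subN] at z2 n4
  obtain ⟨ξ', -, hξO', hee, hl2⟩ := (Gen.mem_subN n4).1 z2
  obtain rfl := (Gen.ord_inj hξO hξO').1 hee
  by_cases hr : ∀ m, e m ≠ ξ
  · rw [hflip ξ hξ hr] at hl2
    exact absurd hl1 (G2.uf.compl_iff.1 hl2)
  · push Not at hr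
    obtain ⟨m, hm⟩ := hr
    refine hfe ξ hξO ⟨m, ?_⟩
    rw [he']
    change (if e m < θO then e m else 0) = ξ
    rw [hm, if_pos hξ]

end SYM
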