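import Pool.Agent.W_MP_790ce2_lc.CardG
import Pool.Agent.W_MP_0bf392_lc.RO

/-!
# MP_790ce2_lc : distributivity, and native regularity of `ω₁` and of the regular cardinals `≥ κ`
-/

universe u v

namespace SYM

open Cardinal Ordinal Order
open scoped Cardinal Ordinal

/-- The regular open algebra of a countably closed partial order satisfies the distributive law for countable
families. (Take `p ∈ a`, build a decreasing sequence `p n`, `p (n+1) ∈ b n (g n)`; `a'` is the regular open set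
generated by a lower bound.) -/
theorem dist_RO {P : Type u} [PartialOrder P] (hcl : ∀ f : ℕ → P, Antitone f → ∃ r, ∀ n, r ≤ f n) {J : Type v}
    (b : ℕ → J → IM.RO P) (a : IM.RO P) (ha : a ≠ ⊥) (h : ∀ n, a ≤ ⨆ j, b n j) :
    ∃ a' ≤ a, a' ≠ ⊥ ∧ ∃ g : ℕ → J, ∀ n, a' ≤ b n (g n) := by
  classical
  have hp : ∃ p, p ∈ a.1 := by
    by_contra hne
    apply ha
    apply le_bot_iff.mp
    rw [IM.RO.le_iff]
    intro p hp
    exact absurd ⟨p, hp⟩ hne
  obtain ⟨p0, hp0⟩ := hp
  have hstep : ∀ (n : ℕ) (p : {p : P // p ∈ a.1}), ∃ r : {p : P // p ∈ a.1}, ∃ j : J,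
      r.1 ≤ p.1 ∧ r.1 ∈ (b n j).1 := by
    rintro n ⟨p, hp⟩
    have h1 : p ∈ (⨆ j, b n j).1 := h n hp
    rw [IM.RO.mem_iSup] at h1
    obtain ⟨r, hr, j, hj⟩ := h1 p le_rfl
    exact ⟨⟨r, IM.RO.mem_lower hp hr⟩, j, hr, hj⟩
  choose nx nj hnx hnj using hstep
  let sq : ℕ → {p : P // p ∈ a.1} := fun n => Nat.rec ⟨p0, hp0⟩ (fun n p => nx n p) n
  have hsq : ∀ n, sq (n + 1) = nx n (sq n) := fun n => rfl
  have hanti : Antitone (fun n => (sq n).1) := by
    apply antitone_nat_of_succ_le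
    intro n
    rw [hsq]
    exact hnx n (sq n)
  obtain ⟨r, hr⟩ := hcl _ hanti
  have hcl' : ∀ (c : IM.RO P), r ∈ c.1 → IM.RO.cl {r} ≤ c := by
    intro c hc
    rw [IM.RO.le_iff]
    intro p hp
    rw [IM.RO.mem_cl] at hp
    apply IM.RO.mem_of_dense
    intro q hq
    obtain ⟨t, ht, s, hs, hts⟩ := hp q hq
    have hs' : s = r := hs
    subst hs'
    exact ⟨t, ht, IM.RO.mem_lower hc hts⟩
  refine ⟨IM.RO.cl {r}, hcl' a (IM.RO.mem_lower (sq 0).2 (hr 0)), ?_, fun n => nj n (sq n), ?_⟩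
  · intro h0
    have h1 : r ∈ (IM.RO.cl {r}).1 := by
      rw [IM.RO.mem_cl]
      intro q hq
      exact ⟨q, le_rfl, r, rfl, hq⟩
    rw [h0] at h1
    exact IM.RO.mem_bot r h1
  · intro n
    apply hcl'
    have h1 := hnj n (sq n)
    rw [← hsq] at h1
    exact IM.RO.mem_lower h1 (hr (n + 1))

variable {D : Type u} [CompleteBooleanAlgebra D] {S : SymSys D}

/-- Distributivity for countable families gives native regularity of `ω₁`: for `β < ω₁` decide all values of the
function; the bound is the supremum of the values plus one. -/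
theorem BReg_omega_one (dist : ∀ {J : Type (u + 1)} (b : ℕ → J → D) (a : D), a ≠ ⊥ → (∀ n, a ≤ ⨆ j, b n j) →
    ∃ a' ≤ a, a' ≠ ⊥ ∧ ∃ g : ℕ → J, ∀ n, a' ≤ b n (g n)) : BReg S (ω_ 1) := by
  classical
  intro i β w a hβ ha hfix htot hdisj
  by_cases hβ0 : β = 0
  · subst hβ0
    refine ⟨a, le_rfl, ha, 0, hβ, ?_⟩
    intro ξ hξ
    exact absurd hξ (by simp)
  have hcount : (Set.Iio β).Countable := by
    rw [← Cardinal.le_aleph0_iff_set_countable, Cardinal.mk_Iio_ordinal]
    have h1 : β.card < ℵ_ 1 := by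
      rw [← Cardinal.lt_ord]
      rwa [Cardinal.ord_aleph]
    have h2 : β.card ≤ ℵ₀ := by
      rw [← Cardinal.succ_aleph0] at h1
      exact Order.lt_succ_iff.mp h1
    have h3 := Cardinal.lift_le.{u + 1}.mpr h2
    rwa [Cardinal.lift_aleph0] at h3
  have hne : (Set.Iio β).Nonempty := ⟨0, pos_iff_ne_zero.mpr hβ0⟩
  obtain ⟨f, hf⟩ := hcount.exists_eq_range hne
  have hfm : ∀ n, f n < β := by
    intro n
    have : f n ∈ Set.Iio β := by rw [hf]; exact ⟨n, rfl⟩
    exact this
  obtain ⟨a', ha', hne', g, hg⟩ := dist (J := Set.Iio (ω_ 1 : Ordinal.{u})) (fun n j => w (f n) j.1) a ha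
    (fun n => htot (f n) (hfm n))
  refine ⟨a', ha', hne', ⨆ n, ((g n).1 + 1), ?_, ?_⟩
  · apply Ordinal.iSup_lt_omega_one
    intro n
    have h1 : (g n).1 < ω_ 1 := (g n).2
    have h2 : Order.IsSuccLimit (ω_ 1 : Ordinal.{u}) := Cardinal.isSuccLimit_omega 1
    simpa using h2.succ_lt h1
  · intro ξ hξ η hη hγ
    have : ξ ∈ Set.range f := by rw [← hf]; exact hξ
    obtain ⟨n, rfl⟩ := this
    have h1 : (g n).1 < η := by
      have h2 : (g n).1 + 1 ≤ ⨆ n, ((g n).1 + 1) := Ordinal.le_iSup (fun n => (g n).1 + 1) n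
      have h3 : (g n).1 < (g n).1 + 1 := by simp
      exact lt_of_lt_of_le h3 (h2.trans hγ)
    have h2 := hdisj (f n) hξ (g n).1 (g n).2 η hη h1.ne
    apply le_bot_iff.mp
    rw [← h2]
    exact le_inf (inf_le_left.trans ha') (le_inf (inf_le_left.trans (hg n)) inf_le_right)

/-- If fewer than `κ` elements of `D` are fixed by each of the groups, the regular cardinals `≥ κ` are natively
regular: for `ξ < β` the elements `a ⊓ w ξ η`, `η < l`, are pairwise disjoint and those `w ξ η` with `a ⊓ w ξ η ≠ ⊥` are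
pairwise different elements of `Fix i`, so there are fewer than `κ` such `η`; as `l` is regular and `β < l` there is a
common bound `γ < l` for all `ξ < β` (`a' = a`). -/
theorem BReg_of_small {κ : Cardinal.{u}} (small : ∀ i : S.ι, #{d : D // S.Fix i d} < κ) {l : Ordinal.{u}}
    (hl : l.card.ord = l) (hr : l.card.IsRegular) (h : κ ≤ l.card) : BReg S l := by
  classical
  intro i β w a hβ ha hfix htot hdisj
  have hcof : l.cof = l.card := by
    conv_lhs => rw [← hl]
    exact hr.cof_ord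
  have hlim : Order.IsSuccLimit l := by
    rw [← hl]
    exact Cardinal.isSuccLimit_ord hr.1
  -- the places with nonzero intersection
  let E : Ordinal.{u} → Type (u + 1) := fun ξ => {η : Ordinal.{u} // η < l ∧ a ⊓ w ξ η ≠ ⊥}
  have hE : ∀ ξ < β, Cardinal.lift.{u} #(E ξ) < Cardinal.lift.{u + 1} l.card := by
    intro ξ hξ
    have hinj : Function.Injective (fun η : E ξ => (⟨w ξ η.1, hfix ξ η.1⟩ : {d : D // S.Fix i d})) := by
      intro η η' hh
      by_contra hne
      have hw : w ξ η.1 = w ξ η'.1 := congrArg Subtype.val hh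
      have h1 := hdisj ξ hξ η.1 η.2.1 η'.1 η'.2.1 (fun e => hne (Subtype.ext e))
      rw [← hw, inf_idem] at h1
      exact η.2.2 h1
    have h1 := Cardinal.lift_mk_le_lift_mk_of_injective hinj
    exact lt_of_le_of_lt h1 (Cardinal.lift_lt.mpr (lt_of_lt_of_le (small i) h))
  let B : Ordinal.{u} → Ordinal.{u} := fun ξ => ⨆ η : E ξ, η.1 + 1
  have hB : ∀ ξ < β, B ξ < l := by
    intro ξ hξ
    apply Ordinal.lift_iSup_add_one_lt_of_lt_cof
    · rw [← Ordinal.lift_cof, hcof]
      exact hE ξ hξ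
    · intro η
      exact η.2.1
  have hsmall : ∀ ξ, Small.{u} (E ξ) := by
    intro ξ
    have hinj : Function.Injective (fun η : E ξ => (⟨η.1, η.2.1⟩ : Set.Iio l)) := by
      intro η η' hh
      have h1 : η.1 = η'.1 := by
        have h2 := congrArg (fun t : Set.Iio l => t.1) hh
        exact h2
      exact Subtype.ext h1
    exact small_of_injective hinj
  refine ⟨a, le_rfl, ha, ⨆ ξ : Set.Iio β, B ξ.1, ?_, ?_⟩
  · apply Ordinal.lift_iSup_lt_of_lt_cof
    · rw [← Ordinal.lift_cof, hcof, Cardinal.mk_Iio_ordinal]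
      have h1 : β.card < l.card := by
        rw [← hl] at hβ
        exact Cardinal.lt_ord.mp hβ
      rw [Cardinal.lift_lift]
      exact Cardinal.lift_lt.mpr h1
    · intro ξ
      exact hB ξ.1 ξ.2
  · intro ξ hξ η hη hγ
    by_contra hne
    have h1 : B ξ ≤ ⨆ ξ : Set.Iio β, B ξ.1 := Ordinal.le_iSup (fun ξ : Set.Iio β => B ξ.1) ⟨ξ, hξ⟩
    have h2 : η + 1 ≤ B ξ := by
      have := hsmall ξ
      exact Ordinal.le_iSup (fun η : E ξ => η.1 + 1) ⟨η, hη, hne⟩
    have h3 : η + 1 ≤ η := h2.trans (h1.trans hγ)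
    have h4 : η < η + 1 := by simp
    exact absurd h3 (not_le.mpr h4)

end SYM
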