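import Pool.Agent.W_MP_790ce2_lc.YesUF
import Pool.Agent.W_MP_790ce2_lc.NoUF
import Pool.Agent.W_MP_790ce2_lc.RegAbs
import Pool.Agent.W_MP_790ce2_lc.Nat1
import Pool.Agent.W_MP_790ce2_lc.Nat2
import Pool.Agent.W_MP_790ce2_lc.Nat3
import Pool.Agent.W_MP_790ce2_lc.Nat4
import Pool.Agent.W_MP_790ce2_lc.FrcB
import Pool.Agent.W_MP_790ce2_lc.CorB
import Pool.Agent.W_MP_790ce2_lc.CorC
import Pool.Agent.W_MP_790ce2_lc.CorD

/-!
# MP_790ce2_lc : the theorem
-/

universe u v

namespace SYM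

open ZFM
open Cardinal Ordinal Order
open scoped Cardinal Ordinal

/-- the native facts -/
noncomputable def mkCore {κ : Cardinal.{u}} (hκ : κ.IsInaccessible) : Core κ (SS hκ) where
  inacc := hκ
  nontriv := by
    intro h
    let p : (FF κ).C := ⟨fun _ => none, (FF κ).mono _ ∅ (fun x hx => (hx rfl).elim) (FF κ).emp⟩
    have h1 : p ∈ (⊤ : IM.RO (FF κ).C).1 := IM.RO.mem_top p
    rw [h] at h1
    exact IM.RO.mem_bot p h1
  small := small_fix hκ
  dist := fun b a ha h => dist_RO FF_closed b a ha h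
  reg1 := BReg_omega_one fun b a ha h => dist_RO FF_closed b a ha h
  reg2 := fun l h1 h2 h3 h4 => reg2 hκ h1 h2 h3 h4
  reg3 := fun l h1 h2 h3 => BReg_of_small (small_fix hκ) h1 h2 h3
  sur1 := fun α h => sur1 hκ h
  sur2 := fun α h => sur2 hκ h
  A := genA κ
  A_fix := genA_fix hκ
  flip := genA_flip hκ

/-- If there is a strongly compact cardinal then there is a countable well-founded model of ZF in which every successor
cardinal is regular, `ℵ_{ω_ω}` carries a uniform ultrafilter, `ℵ_ω` carries none, and both have cofinality `ω`.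
Here `w = ω`, `a = ℵ_ω = ω_ω`, `c = ℵ_{ω_ω}`. -/
theorem main (κ : Cardinal.{u}) (hκ : IsStronglyCompact κ) :
    ∃ (M : Type) (E : M → M → Prop), Countable M ∧ WellFounded E ∧ IsZF E ∧ SuccReg E ∧
      ∃ w a c, IsOmega E w ∧ IsAleph E w a ∧ IsAleph E a c ∧ E w a ∧ E a c ∧ IsCofOmega E a ∧ IsCofOmega E c ∧
        CarriesUniform E c ∧ ¬ CarriesUniform E a := by
  have C : Core κ (SS hκ.1) := mkCore hκ.1
  obtain ⟨G, -, hN⟩ := exists_gen (SS hκ.1) C.nontriv {chkO _ θO, chkO _ (lO κ)}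
    ((Set.countable_singleton _).insert _) (by
      intro x hx
      rcases hx with rfl | hx
      · exact HS_chkO _
      · rw [Set.mem_singleton_iff] at hx
        rw [hx]
        exact HS_chkO _)
  have hθ : G.O θO := hN (Set.mem_insert _ _)
  have hl : G.O (lO κ) := hN (Set.mem_insert_of_mem _ (Set.mem_singleton _))
  have hw : G.O ω := Gen.O_omega0
  have e1 := enO_omega hκ.1
  have e2 := enO_θO hκ.1
  have h1 : ω < θO.{u} := by
    have := mO_lt.{u} 0
    exact lt_of_le_of_lt (omega0_le_omega _) this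
  have h2 : θO < lO κ := by
    have := θO_lt hκ.1
    refine this.trans_le ?_
    refine le_trans ?_ (omega_le_omega.2 (le_self_add : κ.ord ≤ κ.ord + θO))
    exact le_omega_self _
  refine ⟨G.M, G.E, inferInstance, G.wf, G.zf, C.succReg G, G.ord ω, G.ord θO, G.ord (lO κ), ?_, ?_, ?_, ?_, ?_, ?_,
    ?_, ?_, ?_⟩
  · exact Gen.isOmega_iff.2 rfl
  · have h := C.isAleph_enO hw (by rw [e1]; exact hθ)
    rwa [e1] at h
  · have h := C.isAleph_enO hθ (by rw [e2]; exact hl)
    rwa [e2] at h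
  · exact (Gen.E_ord hw hθ).2 h1
  · exact (Gen.E_ord hθ hl).2 h2
  · exact Gen.isCofOmega mO mO_lt (fun α h => mO_cofinal h) hθ
  · exact Gen.isCofOmega (lnO κ) (lnO_lt κ) (fun α h => lnO_cofinal h) hl
  · exact C.yesUF hκ hl
  · exact C.noUF hθ

end SYM
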