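import Pool.Agent.W_MP_790ce2_lc.Defs

/-!
# MP_790ce2_lc (copied from W_MP_83aea7_lc) : closure lemmas for first-order definability
Uniformly first-order relations `FO` and relations definable with parameters `Def` (helper32).
-/

namespace ZFM
universe u

/-! ### renaming of variables -/

def Fml.rename : {k m : ℕ} → (Fin k → Fin m) → Fml k → Fml m
  | _, _, ρ, .mem i j => .mem (ρ i) (ρ j)
  | _, _, ρ, .eq i j => .eq (ρ i) (ρ j)
  | _, _, ρ, .neg φ => .neg (φ.rename ρ)
  | _, _, ρ, .and φ ψ => .and (φ.rename ρ) (ψ.rename ρ)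
  | _, _, ρ, .ex φ => .ex (φ.rename (Fin.cons 0 (fun i => (ρ i).succ)))

theorem sat_rename {T : Type u} (E : T → T → Prop) {k m : ℕ} (ρ : Fin k → Fin m) (φ : Fml k) (v : Fin m → T) :
    Sat E (φ.rename ρ) v ↔ Sat E φ (fun i => v (ρ i)) := by
  induction φ generalizing m with
  | mem i j => rfl
  | eq i j => rfl
  | neg φ ih => simp only [Fml.rename, Sat, ih]
  | and φ ψ ih1 ih2 => simp only [Fml.rename, Sat, ih1, ih2]
  | ex φ ih =>
    simp only [Fml.rename, Sat]
    refine exists_congr fun x => ?_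
    rw [ih]
    refine iff_of_eq (congrArg _ ?_)
    funext i
    refine Fin.cases ?_ (fun i => ?_) i <;> simp

/-! ### uniformly first-order relations -/

/-- `R` is given by one formula without parameters in all structures -/
def FO {k : ℕ} (R : ∀ (T : Type u) (_ : T → T → Prop), (Fin k → T) → Prop) : Prop :=
  ∃ φ : Fml k, ∀ (T : Type u) (E : T → T → Prop) (v : Fin k → T), R T E v ↔ Sat E φ v

namespace FO
variable {k : ℕ}

theorem mem (i j : Fin k) : FO.{u} (fun _ E v => E (v i) (v j)) := ⟨.mem i j, fun _ _ _ => Iff.rfl⟩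

theorem eq (i j : Fin k) : FO.{u} (fun _ _ v => v i = v j) := ⟨.eq i j, fun _ _ _ => Iff.rfl⟩

theorem not {R : ∀ (T : Type u) (_ : T → T → Prop), (Fin k → T) → Prop} (h : FO R) : FO (fun T E v => ¬ R T E v) := by
  obtain ⟨φ, hφ⟩ := h
  exact ⟨.neg φ, fun T E v => by simp only [Sat, hφ]⟩

theorem and {R S : ∀ (T : Type u) (_ : T → T → Prop), (Fin k → T) → Prop} (h : FO R) (h' : FO S) :
    FO (fun T E v => R T E v ∧ S T E v) := by
  obtain ⟨φ, hφ⟩ := h
  obtain ⟨ψ, hψ⟩ := h'
  exact ⟨.and φ ψ, fun T E v => by simp only [Sat, hφ, hψ]⟩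

theorem congr {R S : ∀ (T : Type u) (_ : T → T → Prop), (Fin k → T) → Prop} (h : FO R)
    (he : ∀ T E v, S T E v ↔ R T E v) : FO S := by
  obtain ⟨φ, hφ⟩ := h
  exact ⟨φ, fun T E v => (he T E v).trans (hφ T E v)⟩

theorem or {R S : ∀ (T : Type u) (_ : T → T → Prop), (Fin k → T) → Prop} (h : FO R) (h' : FO S) :
    FO (fun T E v => R T E v ∨ S T E v) :=
  (h.not.and h'.not).not.congr fun T E v => by tauto

theorem imp {R S : ∀ (T : Type u) (_ : T → T → Prop), (Fin k → T) → Prop} (h : FO R) (h' : FO S) :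
    FO (fun T E v => R T E v → S T E v) :=
  (h.not.or h').congr fun T E v => by tauto

theorem iff {R S : ∀ (T : Type u) (_ : T → T → Prop), (Fin k → T) → Prop} (h : FO R) (h' : FO S) :
    FO (fun T E v => (R T E v ↔ S T E v)) :=
  ((h.imp h').and (h'.imp h)).congr fun T E v => by tauto

theorem ex {R : ∀ (T : Type u) (_ : T → T → Prop), T → (Fin k → T) → Prop}
    (h : FO (fun T E (w : Fin (k + 1) → T) => R T E (w 0) (fun i => w i.succ))) :
    FO (fun T E v => ∃ x, R T E x v) := by
  obtain ⟨φ, hφ⟩ := h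
  refine ⟨.ex φ, fun T E v => ?_⟩
  simp only [Sat]
  refine exists_congr fun x => ?_
  rw [← hφ]
  simp

theorem all {R : ∀ (T : Type u) (_ : T → T → Prop), T → (Fin k → T) → Prop}
    (h : FO (fun T E (w : Fin (k + 1) → T) => R T E (w 0) (fun i => w i.succ))) :
    FO (fun T E v => ∀ x, R T E x v) := by
  have h1 := (FO.ex (R := fun T E x v => ¬ R T E x v) h.not).not
  exact h1.congr fun T E v => by push Not; rfl

theorem exU {R : ∀ (T : Type u) (_ : T → T → Prop), T → (Fin k → T) → Prop}
    (h : FO (fun T E (w : Fin (k + 1) → T) => R T E (w 0) (fun i => w i.succ)))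
    (h' : FO (fun T E (w : Fin (k + 2) → T) => R T E (w 0) (fun i => w i.succ.succ))) :
    FO (fun T E v => ∃! x, R T E x v) := by
  refine (FO.ex (R := fun T E x v => R T E x v ∧ ∀ y, R T E y v → y = x) (h.and (FO.all
    (R := fun T E y w => R T E y (fun i => w i.succ) → y = w 0) (h'.imp (FO.eq _ _))))).congr fun T E v => ?_
  rfl

/-- renaming -/
theorem rename {m : ℕ} {R : ∀ (T : Type u) (_ : T → T → Prop), (Fin k → T) → Prop} (h : FO R) (ρ : Fin k → Fin m) :
    FO (fun T E (v : Fin m → T) => R T E (fun i => v (ρ i))) := by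
  obtain ⟨φ, hφ⟩ := h
  exact ⟨φ.rename ρ, fun T E v => by rw [sat_rename]; exact hφ _ _ _⟩

theorem tt : FO.{u} (fun _ _ (_ : Fin k → _) => True) :=
  (FO.all (R := fun _ _ x _ => x = x) (FO.eq _ _)).congr fun T E v => by simp

theorem ff : FO.{u} (fun _ _ (_ : Fin k → _) => False) :=
  tt.not.congr fun T E v => by simp

/-- finite conjunctions -/
theorem allFin {m : ℕ} {R : Fin m → ∀ (T : Type u) (_ : T → T → Prop), (Fin k → T) → Prop} (h : ∀ i, FO (R i)) :
    FO (fun T E v => ∀ i, R i T E v) := by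
  induction m with
  | zero => exact tt.congr fun T E v => by simp
  | succ m ih =>
    exact ((h 0).and (ih (R := fun i => R i.succ) fun i => h i.succ)).congr fun T E v => by
      rw [Fin.forall_fin_succ]

/-- quantification over finite tuples -/
theorem allVec {m : ℕ} {R : ∀ (T : Type u) (_ : T → T → Prop), (Fin m → T) → (Fin k → T) → Prop}
    (h : FO (fun T E (w : Fin (k + m) → T) => R T E (fun i => w (Fin.natAdd k i)) (fun i => w (Fin.castAdd m i)))) :
    FO (fun T E v => ∀ a : Fin m → T, R T E a v) := by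
  induction m generalizing k with
  | zero =>
    refine h.congr fun T E v => ?_
    constructor
    · intro h1
      exact h1 _
    · intro h1 a
      rw [Subsingleton.elim a (fun i => v (Fin.natAdd k i) : Fin 0 → T)]
      exact h1
  | succ m ih =>
    have h1 : FO (fun T E (w : Fin (k + 1 + m) → T) => R T E
        (Fin.cons (w (Fin.castAdd m 0)) (fun i => w (Fin.natAdd (k + 1) i))) (fun i => w (Fin.castAdd m i.succ))) := by
      have h2 := h.rename (m := k + 1 + m) (fun i => Fin.addCases (fun i : Fin k => Fin.castAdd m i.succ)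
        (fun i : Fin (m + 1) => (Fin.cons (Fin.castAdd m 0) (fun i => Fin.natAdd (k + 1) i) : Fin (m + 1) → Fin (k + 1 + m)) i) i)
      refine h2.congr fun T E w => ?_
      simp only [Fin.addCases_right, Fin.addCases_left]
      refine iff_of_eq (congrArg₂ _ ?_ rfl)
      funext i
      refine Fin.cases ?_ (fun i => ?_) i <;> simp
    have h3 := ih (k := k + 1) (R := fun T E a w => R T E (Fin.cons (w 0) a) (fun i => w i.succ)) h1
    have h4 := FO.all (R := fun T E x v => ∀ a : Fin m → T, R T E (Fin.cons x a) v) h3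
    refine h4.congr fun T E v => ?_
    constructor
    · intro h5 x a
      exact h5 _
    · intro h5 a
      have := h5 (a 0) (fun i => a i.succ)
      rwa [show (Fin.cons (a 0) (fun i => a i.succ) : Fin (m + 1) → T) = a from Fin.cons_self_tail a] at this

/-- formulas -/
theorem sat {m : ℕ} (φ : Fml m) (ρ : Fin m → Fin k) : FO.{u} (fun _ E v => Sat E φ (fun i => v (ρ i))) :=
  ⟨φ.rename ρ, fun T E v => by rw [sat_rename]⟩

end FO

/-! ### relations definable with parameters in a fixed structure -/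

/-- the relation `R` on `N` is definable with parameters in `(N,E)` -/
def Def {N : Type u} (E : N → N → Prop) {k : ℕ} (R : (Fin k → N) → Prop) : Prop :=
  ∃ (m : ℕ) (φ : Fml m) (t : Fin m → Fin k ⊕ N), ∀ v, R v ↔ Sat E φ (fun i => Sum.elim v id (t i))

namespace Def
variable {N : Type u} {E : N → N → Prop} {k : ℕ}

theorem congr {R S : (Fin k → N) → Prop} (h : Def E R) (he : ∀ v, S v ↔ R v) : Def E S := by
  obtain ⟨m, φ, t, hφ⟩ := h
  exact ⟨m, φ, t, fun v => (he v).trans (hφ v)⟩

theorem not {R : (Fin k → N) → Prop} (h : Def E R) : Def E (fun v => ¬ R v) := by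
  obtain ⟨m, φ, t, hφ⟩ := h
  exact ⟨m, .neg φ, t, fun v => by simp only [Sat, hφ]⟩

theorem and {R S : (Fin k → N) → Prop} (h : Def E R) (h' : Def E S) : Def E (fun v => R v ∧ S v) := by
  obtain ⟨m, φ, t, hφ⟩ := h
  obtain ⟨m', ψ, t', hψ⟩ := h'
  refine ⟨m + m', .and (φ.rename (Fin.castAdd m')) (ψ.rename (Fin.natAdd m)), Fin.addCases t t', fun v => ?_⟩
  simp only [Sat, sat_rename, hφ, hψ, Fin.addCases_left, Fin.addCases_right]

theorem or {R S : (Fin k → N) → Prop} (h : Def E R) (h' : Def E S) : Def E (fun v => R v ∨ S v) :=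
  (h.not.and h'.not).not.congr fun v => by tauto

theorem imp {R S : (Fin k → N) → Prop} (h : Def E R) (h' : Def E S) : Def E (fun v => R v → S v) :=
  (h.not.or h').congr fun v => by tauto

theorem iff {R S : (Fin k → N) → Prop} (h : Def E R) (h' : Def E S) : Def E (fun v => (R v ↔ S v)) :=
  ((h.imp h').and (h'.imp h)).congr fun v => by tauto

theorem ff : Def E (fun _ : Fin k → N => False) :=
  ⟨0, .ex (.neg (.eq 0 0)), Fin.elim0, fun v => by simp [Sat]⟩

theorem tt : Def E (fun _ : Fin k → N => True) := ff.not.congr fun v => by simp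

open Classical in
theorem ex {R : N → (Fin k → N) → Prop} (h : Def E (fun w : Fin (k + 1) → N => R (w 0) (fun i => w i.succ))) :
    Def E (fun v => ∃ x, R x v) := by
  rcases isEmpty_or_nonempty N with hN | hN
  · exact ff.congr fun v => by
      constructor
      · rintro ⟨x, _⟩
        exact hN.elim x
      · exact False.elim
  obtain ⟨m, φ, t, hφ⟩ := h
  refine ⟨m, .ex (φ.rename (fun i => if t i = Sum.inl 0 then 0 else i.succ)),
    fun i => Sum.elim (fun a : Fin (k + 1) => (Fin.cases (Sum.inr (Classical.arbitrary N)) (fun b => Sum.inl b) a : Fin k ⊕ N))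
      Sum.inr (t i), fun v => ?_⟩
  simp only [Sat, sat_rename]
  refine exists_congr fun x => ?_
  have h1 := hφ (Fin.cons x v)
  simp only [Fin.cons_zero, Fin.cons_succ] at h1
  rw [h1]
  refine iff_of_eq (congrArg _ ?_)
  funext i
  rcases hti : t i with a | c
  · induction a using Fin.cases with
    | zero => simp
    | succ b =>
      have hne : (Sum.inl b.succ : Fin (k + 1) ⊕ N) ≠ Sum.inl 0 := by
        intro h
        exact Fin.succ_ne_zero b (Sum.inl.inj h)
      simp [hti]
  · simp [hti]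

theorem all {R : N → (Fin k → N) → Prop} (h : Def E (fun w : Fin (k + 1) → N => R (w 0) (fun i => w i.succ))) :
    Def E (fun v => ∀ x, R x v) := by
  have h1 := (Def.ex (R := fun x v => ¬ R x v) h.not).not
  exact h1.congr fun v => by push Not; rfl

/-- a uniformly first-order relation is definable -/
theorem ofFO {m : ℕ} {R : ∀ (T : Type u) (_ : T → T → Prop), (Fin m → T) → Prop} (h : FO R) (t : Fin m → Fin k ⊕ N) :
    Def E (fun v : Fin k → N => R N E (fun i => Sum.elim v id (t i))) := by
  obtain ⟨φ, hφ⟩ := h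
  exact ⟨m, φ, t, fun v => hφ _ _ _⟩

end Def

/-- a function on tuples is definable with parameters -/
def DefFun {N : Type u} (E : N → N → Prop) {k : ℕ} (f : (Fin k → N) → N) : Prop :=
  Def E (fun w : Fin (k + 1) → N => w 0 = f (fun i => w i.succ))

namespace DefFun
variable {N : Type u} {E : N → N → Prop} {k : ℕ}

theorem var (i : Fin k) : DefFun E (fun v : Fin k → N => v i) :=
  ⟨2, .eq 0 1, ![Sum.inl 0, Sum.inl i.succ], fun v => by simp [Sat]⟩

theorem const (c : N) : DefFun E (fun _ : Fin k → N => c) :=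
  ⟨2, .eq 0 1, ![Sum.inl 0, Sum.inr c], fun v => by simp [Sat]⟩

/-- weakening by a dummy first variable -/
theorem _root_.ZFM.Def.rename {m : ℕ} {R : (Fin k → N) → Prop} (h : Def E R) (ρ : Fin k → Fin m) :
    Def E (fun v : Fin m → N => R (fun i => v (ρ i))) := by
  obtain ⟨n, φ, t, hφ⟩ := h
  refine ⟨n, φ, fun i => Sum.map ρ id (t i), fun v => (hφ _).trans ?_⟩
  refine iff_of_eq (congrArg _ ?_)
  funext i
  simp only
  rcases t i with a | c <;> rfl

theorem _root_.ZFM.DefFun.shift {f : (Fin k → N) → N} (h : DefFun E f) : DefFun E (fun w : Fin (k + 1) → N => f (fun i => w i.succ)) := by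
  have h1 := Def.rename (m := k + 1 + 1) h (Fin.cons 0 (fun i => i.succ.succ))
  exact h1.congr fun v => by simp

end DefFun

namespace Def
variable {N : Type u} {E : N → N → Prop} {k : ℕ}

/-- substitution of a definable function for the first variable -/
theorem subst {R : N → (Fin k → N) → Prop} (h : Def E (fun w : Fin (k + 1) → N => R (w 0) (fun i => w i.succ)))
    {f : (Fin k → N) → N} (hf : DefFun E f) : Def E (fun v => R (f v) v) :=
  (Def.ex (R := fun x v => x = f v ∧ R x v) (hf.and h)).congr fun v => by simp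

theorem fo1 {R : ∀ (T : Type u) (_ : T → T → Prop), T → Prop} (h : FO (fun T E (v : Fin 1 → T) => R T E (v 0)))
    {f : (Fin k → N) → N} (hf : DefFun E f) : Def E (fun v => R N E (f v)) := by
  refine Def.subst (R := fun x _ => R N E x) ?_ hf
  exact (Def.ofFO h ![Sum.inl 0]).congr fun v => by simp

theorem fo2 {R : ∀ (T : Type u) (_ : T → T → Prop), T → T → Prop}
    (h : FO (fun T E (v : Fin 2 → T) => R T E (v 0) (v 1)))
    {f g : (Fin k → N) → N} (hf : DefFun E f) (hg : DefFun E g) : Def E (fun v => R N E (f v) (g v)) := by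
  refine Def.subst (R := fun x v => R N E x (g v)) ?_ hf
  refine Def.subst (R := fun y w => R N E (w 0) y) ?_ hg.shift
  exact (Def.ofFO h ![Sum.inl 1, Sum.inl 0]).congr fun v => by simp

theorem fo3 {R : ∀ (T : Type u) (_ : T → T → Prop), T → T → T → Prop}
    (h : FO (fun T E (v : Fin 3 → T) => R T E (v 0) (v 1) (v 2)))
    {f g l : (Fin k → N) → N} (hf : DefFun E f) (hg : DefFun E g) (hl : DefFun E l) :
    Def E (fun v => R N E (f v) (g v) (l v)) := by
  refine Def.subst (R := fun x v => R N E x (g v) (l v)) ?_ hf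
  refine Def.subst (R := fun y w => R N E (w 0) y (l fun i => w i.succ)) ?_ hg.shift
  refine Def.subst (R := fun z w => R N E (w 1) (w 0) z) ?_ hl.shift.shift
  exact (Def.ofFO h ![Sum.inl 2, Sum.inl 1, Sum.inl 0]).congr fun v => by simp

theorem fo4 {R : ∀ (T : Type u) (_ : T → T → Prop), T → T → T → T → Prop}
    (h : FO (fun T E (v : Fin 4 → T) => R T E (v 0) (v 1) (v 2) (v 3)))
    {f g l q : (Fin k → N) → N} (hf : DefFun E f) (hg : DefFun E g) (hl : DefFun E l) (hq : DefFun E q) :
    Def E (fun v => R N E (f v) (g v) (l v) (q v)) := by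
  refine Def.subst (R := fun x v => R N E x (g v) (l v) (q v)) ?_ hf
  refine Def.subst (R := fun y w => R N E (w 0) y (l fun i => w i.succ) (q fun i => w i.succ)) ?_ hg.shift
  refine Def.subst (R := fun z w => R N E (w 1) (w 0) z (q fun i => w i.succ.succ)) ?_ hl.shift.shift
  refine Def.subst (R := fun z w => R N E (w 2) (w 1) (w 0) z) ?_ hq.shift.shift.shift
  exact (Def.ofFO h ![Sum.inl 3, Sum.inl 2, Sum.inl 1, Sum.inl 0]).congr fun v => by simp; rfl

theorem fo5 {R : ∀ (T : Type u) (_ : T → T → Prop), T → T → T → T → T → Prop}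
    (h : FO (fun T E (v : Fin 5 → T) => R T E (v 0) (v 1) (v 2) (v 3) (v 4)))
    {f g l q r : (Fin k → N) → N} (hf : DefFun E f) (hg : DefFun E g) (hl : DefFun E l) (hq : DefFun E q)
    (hr : DefFun E r) :
    Def E (fun v => R N E (f v) (g v) (l v) (q v) (r v)) := by
  refine Def.subst (R := fun x v => R N E x (g v) (l v) (q v) (r v)) ?_ hf
  refine Def.subst (R := fun y w => R N E (w 0) y (l fun i => w i.succ) (q fun i => w i.succ) (r fun i => w i.succ)) ?_ hg.shift
  refine Def.subst (R := fun z w => R N E (w 1) (w 0) z (q fun i => w i.succ.succ) (r fun i => w i.succ.succ)) ?_ hl.shift.shift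
  refine Def.subst (R := fun z w => R N E (w 2) (w 1) (w 0) z (r fun i => w i.succ.succ.succ)) ?_ hq.shift.shift.shift
  refine Def.subst (R := fun z w => R N E (w 3) (w 2) (w 1) (w 0) z) ?_ hr.shift.shift.shift.shift
  exact (Def.ofFO h ![Sum.inl 4, Sum.inl 3, Sum.inl 2, Sum.inl 1, Sum.inl 0]).congr fun v => by simp; rfl

theorem mem {f g : (Fin k → N) → N} (hf : DefFun E f) (hg : DefFun E g) : Def E (fun v => E (f v) (g v)) :=
  Def.fo2 (R := fun _ E x y => E x y) (FO.mem 0 1) hf hg

theorem eq {f g : (Fin k → N) → N} (hf : DefFun E f) (hg : DefFun E g) : Def E (fun v => f v = g v) :=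
  Def.fo2 (R := fun _ _ x y => x = y) (FO.eq 0 1) hf hg

theorem exU {R : N → (Fin k → N) → Prop}
    (h : Def E (fun w : Fin (k + 1) → N => R (w 0) (fun i => w i.succ)))
    (h' : Def E (fun w : Fin (k + 2) → N => R (w 0) (fun i => w i.succ.succ))) :
    Def E (fun v => ∃! x, R x v) := by
  refine (Def.ex (R := fun x v => R x v ∧ ∀ y, R y v → y = x) (h.and (Def.all
    (R := fun y w => R y (fun i => w i.succ) → y = w 0) (h'.imp (Def.eq (DefFun.var _) (DefFun.var _)))))).congr fun v => ?_
  rfl

end Def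

/-- a definable function applied to a definable function -/
theorem DefFun.comp {N : Type u} {E : N → N → Prop} {k : ℕ} {j : N → N}
    (hj : DefFun E (fun v : Fin 1 → N => j (v 0))) {f : (Fin k → N) → N} (hf : DefFun E f) :
    DefFun E (fun v => j (f v)) := by
  refine Def.subst (R := fun x w => w 0 = j x) ?_ hf.shift
  exact (Def.rename hj ![1, 0]).congr fun v => by simp

/-! ### separation and replacement for definable predicates -/

section
variable {N : Type u} {E : N → N → Prop}

/-- one-place definable predicates -/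
abbrev Def1 (E : N → N → Prop) (P : N → Prop) : Prop := Def E (fun v : Fin 1 → N => P (v 0))

/-- two-place definable predicates -/
abbrev Def2 (E : N → N → Prop) (R : N → N → Prop) : Prop := Def E (fun v : Fin 2 → N => R (v 0) (v 1))

theorem Def1.formula {P : N → Prop} (h : Def1 E P) :
    ∃ (k : ℕ) (φ : Fml (k + 1)) (v : Fin k → N), ∀ x, P x ↔ Sat E φ (Fin.cons x v) := by
  classical
  rcases isEmpty_or_nonempty N with hN | hN
  · exact ⟨0, .ex (.eq 0 0), Fin.elim0, fun x => hN.elim x⟩
  obtain ⟨m, φ, t, hφ⟩ := h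
  refine ⟨m, φ.rename (fun i => if t i = Sum.inl 0 then 0 else i.succ),
    fun i => Sum.elim (fun _ => Classical.arbitrary N) id (t i), fun x => ?_⟩
  rw [sat_rename]
  refine (hφ (fun _ => x)).trans (iff_of_eq (congrArg _ ?_))
  funext i
  rcases hti : t i with a | c
  · have ha : a = 0 := Subsingleton.elim _ _
    subst ha
    simp
  · simp [hti]

theorem Def2.formula {R : N → N → Prop} (h : Def2 E R) :
    ∃ (k : ℕ) (φ : Fml (k + 2)) (v : Fin k → N), ∀ x y, R x y ↔ Sat E φ (Fin.cons x (Fin.cons y v)) := by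
  classical
  rcases isEmpty_or_nonempty N with hN | hN
  · exact ⟨0, .ex (.eq 0 0), Fin.elim0, fun x => hN.elim x⟩
  obtain ⟨m, φ, t, hφ⟩ := h
  refine ⟨m, φ.rename (fun i => if t i = Sum.inl 0 then 0 else if t i = Sum.inl 1 then 1 else i.succ.succ),
    fun i => Sum.elim (fun _ => Classical.arbitrary N) id (t i), fun x y => ?_⟩
  rw [sat_rename]
  refine (hφ ![x, y]).trans (iff_of_eq (congrArg _ ?_))
  funext i
  rcases hti : t i with a | c
  · fin_cases a
    · simp
    · simp
  · simp [hti]

variable (hZ : IsZF E)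
include hZ

theorem IsZF.sep1 {P : N → Prop} (h : Def1 E P) (a : N) : ∃ b, ∀ x, E x b ↔ E x a ∧ P x := by
  obtain ⟨k, φ, v, hφ⟩ := h.formula
  obtain ⟨b, hb⟩ := hZ.sep k φ v a
  exact ⟨b, fun x => by rw [hb, hφ]⟩

theorem IsZF.repl2 {R : N → N → Prop} (h : Def2 E R) (a : N)
    (hf : ∀ x, E x a → ∀ y z, R x y → R x z → y = z) : ∃ b, ∀ y, E y b ↔ ∃ x, E x a ∧ R x y := by
  obtain ⟨k, φ, v, hφ⟩ := h.formula
  obtain ⟨b, hb⟩ := hZ.repl k φ v a (fun x hx y z h1 h2 => hf x hx y z ((hφ _ _).2 h1) ((hφ _ _).2 h2))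
  exact ⟨b, fun y => by simp only [hb, hφ]⟩

end

end ZFM
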