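import Mathlib

/-!
# MP_790ce2_lc : the ordinals which are the infinite cardinals of the symmetric model (ordinal arithmetic)

`2^ℵ₀ = ℵ_c`, `θ = ω_(c+ω)`. The infinite cardinals of the model will be
`ω, ω₁, ω_(c+1), ω_(c+2), …, ω_(c+ω) = θ, ω_(c+ω+1) = θ⁺, ω_κ = κ, ω_(κ+1), ω_(κ+2), …`.
-/

set_option autoImplicit false

universe u

namespace SYM

open Cardinal Ordinal Order
open scoped Cardinal Ordinal

theorem exists_cO : ∃ c : Ordinal.{u}, ℵ_ c = 𝔠 := by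
  have h : (𝔠 : Cardinal.{u}) ∈ Set.range aleph := mem_range_aleph_iff.2 aleph0_le_continuum
  exact h

/-- `2^ℵ₀ = ℵ_c` -/
noncomputable def cO : Ordinal.{u} := exists_cO.choose

theorem aleph_cO : ℵ_ (cO.{u}) = 𝔠 := exists_cO.choose_spec

/-- `θ = ω_(c+ω)` -/
noncomputable def θO : Ordinal.{u} := ω_ (cO + ω)

/-- `θ⁺ = ω_(c+ω+1)` -/
noncomputable def θO' : Ordinal.{u} := ω_ (cO + ω + 1)

/-- `λ = ω_(κ+θ)` -/
noncomputable def lO (κ : Cardinal.{u}) : Ordinal.{u} := ω_ (κ.ord + θO)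

/-- the `n`-th element of a sequence with supremum `θ`: `ω_(c+n)` -/
noncomputable def mO (n : ℕ) : Ordinal.{u} := ω_ (cO + n)

/-- the `n`-th element of a sequence of regular cardinals with supremum `λ`: `λ_n = ω_(κ + ω_(c+n) + 1)` -/
noncomputable def lnO (κ : Cardinal.{u}) (n : ℕ) : Ordinal.{u} := ω_ (κ.ord + mO n + 1)

/-- the infinite cardinals of the symmetric model -/
def MC (κ : Cardinal.{u}) (μ : Ordinal.{u}) : Prop :=
  μ = ω ∨ μ = ω_ 1 ∨ (∃ ξ, 1 ≤ ξ ∧ ξ ≤ ω + 1 ∧ μ = ω_ (cO + ξ)) ∨ ∃ ξ, μ = ω_ (κ.ord + ξ)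

variable {κ : Cardinal.{u}}

theorem continuum_lt' (hκ : κ.IsInaccessible) : 𝔠 < κ := by
  rw [← two_power_aleph0]
  exact hκ.isStrongPrelimit hκ.aleph0_lt

theorem cO_lt' (hκ : κ.IsInaccessible) : cO < κ.ord := by
  have h1 : ℵ_ (cO.{u}) < ℵ_ κ.ord := by
    rw [aleph_cO, hκ.aleph_ord]
    exact continuum_lt' hκ
  exact aleph_lt_aleph.1 h1

theorem omega0_lt_ord' (hκ : κ.IsInaccessible) : ω < κ.ord := by
  rw [← ord_aleph0, ord_lt_ord]
  exact hκ.aleph0_lt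

theorem θO_lt (hκ : κ.IsInaccessible) : θO < κ.ord := by
  rw [← hκ.omega_ord, θO, omega_lt_omega]
  exact isPrincipal_add_ord hκ.aleph0_lt.le (cO_lt' hκ) (omega0_lt_ord' hκ)

theorem θO'_lt (hκ : κ.IsInaccessible) : θO' < κ.ord := by
  rw [← hκ.omega_ord, θO', omega_lt_omega]
  have h1 : cO + ω < κ.ord := isPrincipal_add_ord hκ.aleph0_lt.le (cO_lt' hκ) (omega0_lt_ord' hκ)
  exact (isSuccLimit_ord hκ.aleph0_lt.le).succ_lt h1

theorem mO_lt (n : ℕ) : mO.{u} n < θO := by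
  rw [mO, θO, omega_lt_omega]
  exact (add_lt_add_iff_left _).2 (natCast_lt_omega0 n)

theorem mO_strictMono' : StrictMono mO.{u} := by
  intro m n h
  rw [mO, mO, omega_lt_omega]
  exact (add_lt_add_iff_left _).2 (by exact_mod_cast h)

theorem mO_cofinal {α : Ordinal.{u}} (h : α < θO) : ∃ n, α < mO n := by
  have hl : IsSuccLimit (cO.{u} + ω) := isSuccLimit_add _ isSuccLimit_omega0
  obtain ⟨b, hb, hab⟩ := (isNormal_omega.lt_iff_exists_lt hl).1 h
  obtain ⟨d, hd, hbd⟩ := (lt_add_iff omega0_ne_zero).1 hb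
  obtain ⟨n, rfl⟩ := lt_omega0.1 hd
  exact ⟨n, hab.trans_le (omega_le_omega.2 hbd)⟩

theorem θO_isSuccLimit' : IsSuccLimit θO.{u} := isSuccLimit_omega _

theorem lnO_lt (κ : Cardinal.{u}) (n : ℕ) : lnO κ n < lO κ := by
  rw [lnO, lO, omega_lt_omega]
  have h1 : κ.ord + mO n < κ.ord + θO := (add_lt_add_iff_left _).2 (mO_lt n)
  exact (isSuccLimit_add κ.ord θO_isSuccLimit').succ_lt h1

theorem lnO_strictMono (κ : Cardinal.{u}) : StrictMono (lnO κ) := by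
  intro m n h
  rw [lnO, lnO, omega_lt_omega]
  have h1 : κ.ord + mO m < κ.ord + mO n := (add_lt_add_iff_left _).2 (mO_strictMono' h)
  exact (Order.add_one_le_of_lt h1).trans_lt (Order.lt_add_one_iff.2 le_rfl)

theorem lnO_cofinal {α : Ordinal.{u}} (h : α < lO κ) : ∃ n, α < lnO κ n := by
  have hl : IsSuccLimit (κ.ord + θO) := isSuccLimit_add _ θO_isSuccLimit'
  obtain ⟨b, hb, hab⟩ := (isNormal_omega.lt_iff_exists_lt hl).1 h
  obtain ⟨d, hd, hbd⟩ := (lt_add_iff (θO_isSuccLimit'.bot_lt.ne')).1 hb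
  obtain ⟨n, hn⟩ := mO_cofinal hd
  refine ⟨n, hab.trans_le (omega_le_omega.2 (hbd.trans ?_))⟩
  exact ((add_le_add_iff_left _).2 hn.le).trans le_self_add

theorem lnO_card (κ : Cardinal.{u}) (n : ℕ) : (lnO κ n).card.ord = lnO κ n ∧ (lnO κ n).card.IsRegular := by
  rw [lnO, card_omega, ord_aleph]
  exact ⟨rfl, isRegular_aleph_add_one _⟩

theorem le_lnO_card (hκ : κ.IsInaccessible) (n : ℕ) : κ ≤ (lnO κ n).card := by
  rw [lnO, card_omega]
  conv_lhs => rw [← hκ.aleph_ord]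
  rw [aleph_le_aleph, add_assoc]
  exact le_self_add

theorem MC_omega0_le {μ : Ordinal.{u}} (h : MC κ μ) : ω ≤ μ := by
  rcases h with rfl | rfl | ⟨ξ, _, _, rfl⟩ | ⟨ξ, rfl⟩
  · exact le_rfl
  · exact omega0_le_omega _
  · exact omega0_le_omega _
  · exact omega0_le_omega _

end SYM
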