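import Pool.Agent.W_MP_790ce2_lc.PFs
import Pool.Agent.W_MP_790ce2_lc.MC

/-!
# MP_790ce2_lc : the forcing notion

`F0`: countable partial functions from `ω × θ` to `2`. `F1 κ`: partial functions `p` of size `≤ θ` on `κ × θ⁺` with
`p(β, ζ) ≤ β`. `FF κ` : the sum of both (pairs of conditions).
The supports: the index `(n, β)`, `n < ω`, `β < κ`, stands for the set `n × θ ∪ β × θ⁺`.
-/

universe u v

namespace SYM

open Cardinal Ordinal Order
open scoped Cardinal Ordinal

namespace PF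

/-- the sum of two systems of partial functions: pairs of conditions -/
def sum (A B : PF.{u}) : PF.{u} where
  X := A.X ⊕ B.X
  Y
    | .inl x => A.Y x
    | .inr x => B.Y x
  sm s := A.sm (Sum.inl ⁻¹' s) ∧ B.sm (Sum.inr ⁻¹' s)
  mono s t h ht := ⟨A.mono _ _ (Set.preimage_mono h) ht.1, B.mono _ _ (Set.preimage_mono h) ht.2⟩
  union s t hs ht := ⟨A.union _ _ hs.1 ht.1, B.union _ _ hs.2 ht.2⟩
  one x := by
    cases x with
    | inl x => exact ⟨A.mono _ _ (fun y hy => Sum.inl.inj hy) (A.one x), B.mono _ _ (fun y hy => by cases hy) B.emp⟩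
    | inr x => exact ⟨A.mono _ _ (fun y hy => by cases hy) A.emp, B.mono _ _ (fun y hy => Sum.inr.inj hy) (B.one x)⟩
  emp := ⟨A.mono _ _ (fun y hy => by cases hy) A.emp, B.mono _ _ (fun y hy => by cases hy) B.emp⟩

variable {A B : PF.{u}}

/-- the left part of a condition -/
def lf (p : (sum A B).C) : A.C := ⟨fun x => p.1 (Sum.inl x), p.2.1⟩

/-- the right part of a condition -/
def rt (p : (sum A B).C) : B.C := ⟨fun x => p.1 (Sum.inr x), p.2.2⟩

/-- the condition with the given parts -/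
def jn (a : A.C) (b : B.C) : (sum A B).C :=
  ⟨fun x => match x with
    | .inl x => a.1 x
    | .inr x => b.1 x, a.2, b.2⟩

theorem lf_jn (a : A.C) (b : B.C) : lf (jn a b) = a := rfl

theorem rt_jn (a : A.C) (b : B.C) : rt (jn a b) = b := rfl

theorem jn_lf_rt (p : (sum A B).C) : jn (lf p) (rt p) = p := by
  apply Subtype.ext
  funext x
  cases x <;> rfl

theorem jn_le {a a' : A.C} {b b' : B.C} : jn a b ≤ jn a' b' ↔ a ≤ a' ∧ b ≤ b' := by
  constructor
  · intro h
    exact ⟨fun x y hx => h (Sum.inl x) y hx, fun x y hx => h (Sum.inr x) y hx⟩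
  · rintro ⟨h1, h2⟩ x y hx
    cases x with
    | inl x => exact h1 x y hx
    | inr x => exact h2 x y hx

theorem le_iff {p q : (sum A B).C} : q ≤ p ↔ lf q ≤ lf p ∧ rt q ≤ rt p := by
  rw [← jn_le, jn_lf_rt, jn_lf_rt]

/-- A directed family of conditions has a lower bound if the union of the domains is small. -/
theorem exists_lb {F : PF.{u}} {J : Type v} [Nonempty J] (f : J → F.C) (hd : ∀ a b, ∃ e, f e ≤ f a ∧ f e ≤ f b)
    (hs : F.sm (⋃ j, dom (f j))) : ∃ r, ∀ j, r ≤ f j := by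
  classical
  have hval : ∀ x, ∃ o : Option (F.Y x), (∀ j y, (f j).1 x = some y → o = some y) ∧
      (o ≠ none → x ∈ ⋃ j, dom (f j)) := by
    intro x
    by_cases h : ∃ j y, (f j).1 x = some y
    · obtain ⟨j, y, hy⟩ := h
      refine ⟨some y, fun j' y' hy' => ?_, fun _ => Set.mem_iUnion.2 ⟨j, ?_⟩⟩
      · obtain ⟨e, h1, h2⟩ := hd j j'
        have e1 := h1 x y hy
        have e2 := h2 x y' hy'
        rw [← e1, ← e2]
      · change (f j).1 x ≠ none
        rw [hy]
        simp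
    · refine ⟨none, fun j' y' hy' => absurd ⟨j', y', hy'⟩ h, fun h' => absurd rfl h'⟩
  choose r hr1 hr2 using hval
  exact ⟨⟨r, F.mono _ _ (fun x hx => hr2 x hx) hs⟩, fun j x y hy => hr1 x j y hy⟩

end PF

/-- countable partial functions from `ω × θ` to `2` -/
noncomputable def F0 : PF.{u} where
  X := ULift.{u} ℕ × (θO.{u}).ToType
  Y _ := ULift.{u} Bool
  sm s := s.Countable
  mono s t h ht := ht.mono h
  union s t hs ht := hs.union ht
  one x := Set.countable_singleton x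
  emp := Set.countable_empty

/-- partial functions `p` of size `≤ θ` on `κ × θ⁺` with `p(β, ζ) ≤ β` -/
noncomputable def F1 (κ : Cardinal.{u}) : PF.{u} where
  X := κ.ord.ToType × (θO'.{u}).ToType
  Y x := {γ : κ.ord.ToType // γ ≤ x.1}
  sm s := #s ≤ ℵ_ (cO + ω)
  mono s t h ht := (mk_le_mk_of_subset h).trans ht
  union s t hs ht := (mk_union_le s t).trans ((add_le_add hs ht).trans (add_eq_self (aleph0_le_aleph _)).le)
  one x := by
    rw [mk_singleton]
    exact one_le_aleph0.trans (aleph0_le_aleph _)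
  emp := by
    rw [mk_eq_zero]
    exact zero_le

/-- the forcing notion -/
noncomputable def FF (κ : Cardinal.{u}) : PF.{u} := PF.sum F0 (F1 κ)

/-- the supports -/
def spt (κ : Cardinal.{u}) (i : ULift.{u} ℕ × κ.ord.ToType) : Set (FF κ).X :=
  {x | match x with
    | .inl x => x.1.down < i.1.down
    | .inr x => x.1 < i.2}

theorem spt_dir (κ : Cardinal.{u}) (i j : ULift.{u} ℕ × κ.ord.ToType) :
    ∃ k, spt κ i ⊆ spt κ k ∧ spt κ j ⊆ spt κ k := by
  refine ⟨(⟨max i.1.down j.1.down⟩, max i.2 j.2), ?_, ?_⟩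
  · rintro (x | x) hx
    · exact lt_of_lt_of_le (b := i.1.down) hx (le_max_left _ _)
    · exact lt_of_lt_of_le (b := i.2) hx (le_max_left _ _)
  · rintro (x | x) hx
    · exact lt_of_lt_of_le (b := j.1.down) hx (le_max_right _ _)
    · exact lt_of_lt_of_le (b := j.2) hx (le_max_right _ _)

/-- the symmetric system -/
noncomputable def SS {κ : Cardinal.{u}} (hκ : κ.IsInaccessible) : SymSys (IM.RO (FF κ).C) :=
  PF.sys (FF κ) (ULift.{u} ℕ × κ.ord.ToType) (by
    have : Nonempty κ.ord.ToType := by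
      rw [Ordinal.nonempty_toType_iff]
      exact (Cardinal.ord_pos.2 hκ.pos).ne'
    infer_instance) (spt κ) (spt_dir κ)

variable {κ : Cardinal.{u}}

/-- `F0` is countably closed. -/
theorem F0_closed {J : Type u} [Nonempty J] [Countable J] (f : J → F0.{u}.C) (hd : ∀ a b, ∃ e, f e ≤ f a ∧ f e ≤ f b) :
    ∃ r, ∀ j, r ≤ f j :=
  PF.exists_lb f hd (Set.countable_iUnion fun j => (f j).2)

/-- `F1` is closed under directed families of size `≤ θ`. -/
theorem F1_closed {J : Type u} [Nonempty J] (hJ : #J ≤ ℵ_ (cO + ω)) (f : J → (F1 κ).C)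
    (hd : ∀ a b, ∃ e, f e ≤ f a ∧ f e ≤ f b) : ∃ r, ∀ j, r ≤ f j := by
  refine PF.exists_lb f hd ?_
  change #(⋃ j, PF.dom (f j)) ≤ ℵ_ (cO + ω)
  refine (mk_iUnion_le _).trans ?_
  have h1 : (⨆ j, #(PF.dom (f j))) ≤ ℵ_ (cO + ω) := ciSup_le' fun j => (f j).2
  exact (mul_le_mul' hJ h1).trans (mul_eq_self (aleph0_le_aleph _)).le

/-- `FF` is countably closed. -/
theorem FF_closed (f : ℕ → (FF κ).C) (hf : Antitone f) : ∃ r, ∀ n, r ≤ f n := by
  obtain ⟨r0, h0⟩ := F0_closed (J := ULift.{u} ℕ) (fun n => PF.lf (f n.down)) (fun a b =>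
    ⟨⟨max a.down b.down⟩, (PF.le_iff.1 (hf (le_max_left a.down b.down))).1,
      (PF.le_iff.1 (hf (le_max_right a.down b.down))).1⟩)
  have hJ : #(ULift.{u} ℕ) ≤ ℵ_ (cO.{u} + ω) := by
    refine le_trans ?_ (aleph0_le_aleph _)
    exact mk_le_aleph0
  obtain ⟨r1, h1⟩ := F1_closed (κ := κ) (J := ULift.{u} ℕ) hJ (fun n => PF.rt (f n.down)) (fun a b =>
    ⟨⟨max a.down b.down⟩, (PF.le_iff.1 (hf (le_max_left a.down b.down))).2,
      (PF.le_iff.1 (hf (le_max_right a.down b.down))).2⟩)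
  exact ⟨PF.jn r0 r1, fun n => PF.le_iff.2 ⟨h0 ⟨n⟩, h1 ⟨n⟩⟩⟩

end SYM
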