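import Pool.Agent.W_MP_790ce2_lc.Frc
import Pool.Agent.W_MP_7dc84e_h31.CCabs

/-!
# MP_790ce2_lc : the chain condition
-/

universe u v

namespace SYM

open Cardinal Ordinal Order
open scoped Cardinal Ordinal

/-- The chain condition for `F0` (`CG.cc_abs` from `Pool/Agent/W_MP_7dc84e_h31/CCabs.lean`). -/
theorem F0_cc (s : Set F0.{u}.C) (hs : ∀ p ∈ s, ∀ q ∈ s, p ≠ q → ¬ PF.Comp p q) : #s ≤ 2 ^ (ℵ₀ : Cardinal.{u}) := by
  refine CG.cc_abs (A := s) (J := F0.{u}.X) (V := Option (ULift.{u} Bool)) le_rfl ?_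
    (fun a => PF.dom a.1) (fun a x => a.1.1 x) (fun a => ?_) ?_
  · have h1 : #(Option (ULift.{u} Bool)) < ℵ₀ := Cardinal.lt_aleph0_of_finite _
    exact h1.le.trans (Cardinal.cantor ℵ₀).le
  · exact Cardinal.mk_le_aleph0_iff.2 a.1.2
  · intro a a' hne
    have h1 := hs a.1 a.2 a'.1 a'.2 (fun h => hne (Subtype.ext h))
    unfold PF.Comp at h1
    push Not at h1
    obtain ⟨x, y, z, hy, hz, hyz⟩ := h1
    refine ⟨x, ?_, ?_, ?_⟩
    · show a.1.1 x ≠ none
      rw [hy]; exact Option.some_ne_none _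
    · show a'.1.1 x ≠ none
      rw [hz]; exact Option.some_ne_none _
    · show a.1.1 x ≠ a'.1.1 x
      rw [hy, hz]
      exact fun h => hyz (Option.some.inj h)

end SYM
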