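import Pool.Agent.W_MP_790ce2_lc.GenE

/-!
# MP_790ce2_lc : completeness for the generic countable models
-/

universe u v

namespace SYM

open IM (BSet)
open IM.BSet
open BVM (IsUF rkLe rkEq)
open ZFM (Fml Sat)

variable {D : Type u} [CompleteBooleanAlgebra D] {S : SymSys D} {G : Gen S}

namespace Gen

/-! ### Completeness -/

/-- Order in `D` is decided by the generic models which contain given names. -/
theorem le_iff {a b : D} (N0 : Set (BSet D)) (hc : N0.Countable) (h0 : ∀ x ∈ N0, S.HS x) :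
    a ≤ b ↔ ∀ G : Gen S, N0 ⊆ G.N → G.lam a → G.lam b := by
  constructor
  · intro hab G _ ha
    exact G.uf.mono hab ha
  · intro h
    by_contra hab
    have hne : a ⊓ bᶜ ≠ ⊥ := by
      intro h1
      apply hab
      rwa [← sdiff_eq, sdiff_eq_bot_iff] at h1
    obtain ⟨G, hG, hN⟩ := exists_gen S hne N0 hc h0
    have h1 : G.lam b := h G hN (G.uf.mono inf_le_left hG)
    have h2 : G.lam bᶜ := G.uf.mono inf_le_right hG
    exact (G.uf.compl_iff.1 h2) h1

/-- Truth values are decided by the generic models which contain given names. -/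
theorem le_tvS_iff {a : D} {k : ℕ} (φ : Fml k) (w : Fin k → BSet D) (hw : ∀ i, S.HS (w i)) (N0 : Set (BSet D))
    (hc : N0.Countable) (h0 : ∀ x ∈ N0, S.HS x) :
    a ≤ tvS S φ w ↔ ∀ G : Gen S, (∀ i, w i ∈ G.N) → N0 ⊆ G.N → G.lam a → Sat G.E φ fun i => G.val (w i) := by
  have hc' : (N0 ∪ Set.range w).Countable := hc.union (Set.countable_range w)
  have h0' : ∀ x ∈ N0 ∪ Set.range w, S.HS x := by
    rintro x (hx | ⟨i, rfl⟩)
    · exact h0 x hx
    · exact hw i
  rw [le_iff (S := S) (N0 ∪ Set.range w) hc' h0']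
  constructor
  · intro h G hwG hN ha
    rw [los φ w hwG]
    refine h G (Set.union_subset hN ?_) ha
    rintro x ⟨i, rfl⟩
    exact hwG i
  · intro h G hN ha
    have hwG : ∀ i, w i ∈ G.N := fun i => hN (Or.inr ⟨i, rfl⟩)
    rw [← los φ w hwG]
    exact h G hwG (fun x hx => hN (Or.inl hx)) ha

/-- Transfer to a larger model: what holds in `G` about names of `G` holds in some model which also contains
the names of `N0`. -/
theorem extend {k : ℕ} {R : ∀ (T : Type) (_ : T → T → Prop), (Fin k → T) → Prop} (hR : ZFM.FO R)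
    {w : Fin k → BSet D} (hw : ∀ i, w i ∈ G.N) (h : R G.M G.E fun i => G.val (w i)) {d : D} (hd : G.lam d)
    (N0 : Set (BSet D)) (hc : N0.Countable) (h0 : ∀ x ∈ N0, S.HS x) :
    ∃ G' : Gen S, (∀ i, w i ∈ G'.N) ∧ N0 ⊆ G'.N ∧ G'.lam d ∧ R G'.M G'.E fun i => G'.val (w i) := by
  obtain ⟨φ, hφ⟩ := hR
  have h1 : G.lam (tvS S φ w) := (los φ w hw).1 ((hφ _ _ _).1 h)
  have hne : d ⊓ tvS S φ w ≠ ⊥ := by
    intro h2
    have h3 := G.uf.inf hd h1
    rw [h2] at h3
    exact G.uf.bot h3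
  have hc' : (N0 ∪ Set.range w).Countable := hc.union (Set.countable_range w)
  have h0' : ∀ x ∈ N0 ∪ Set.range w, S.HS x := by
    rintro x (hx | ⟨i, rfl⟩)
    · exact h0 x hx
    · exact hsN (hw i)
  obtain ⟨G', hG', hN'⟩ := exists_gen S hne (N0 ∪ Set.range w) hc' h0'
  have hwG : ∀ i, w i ∈ G'.N := fun i => hN' (Or.inr ⟨i, rfl⟩)
  refine ⟨G', hwG, fun x hx => hN' (Or.inl hx), G'.uf.mono inf_le_left hG', ?_⟩
  exact (hφ _ _ _).2 ((los φ w hwG).2 (G'.uf.mono inf_le_right hG'))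

/-- Transfer from larger models: a first-order statement about names of `G` which holds in all models containing `d`
and the names of `N0` holds in `G`. -/
theorem pull {k : ℕ} {R : ∀ (T : Type) (_ : T → T → Prop), (Fin k → T) → Prop} (hR : ZFM.FO R)
    {w : Fin k → BSet D} (hw : ∀ i, w i ∈ G.N) {d : D} (hd : G.lam d)
    (N0 : Set (BSet D)) (hc : N0.Countable) (h0 : ∀ x ∈ N0, S.HS x)
    (h : ∀ G' : Gen S, (∀ i, w i ∈ G'.N) → N0 ⊆ G'.N → G'.lam d → R G'.M G'.E fun i => G'.val (w i)) :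
    R G.M G.E fun i => G.val (w i) := by
  by_contra hcon
  obtain ⟨G', h1, h2, h3, h4⟩ := extend (R := fun T E v => ¬ R T E v) hR.not hw hcon hd N0 hc h0
  exact h4 (h G' h1 h2 h3)

end Gen

end SYM
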