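import Pool.Agent.W_MP_790ce2_lc.Sym

/-!
# MP_790ce2_lc : truth values of formulas in the symmetric model
-/

universe u v

namespace SYM

open IM (BSet)
open IM.BSet
open ZFM (Fml Sat)

variable {D : Type u} [CompleteBooleanAlgebra D] {S : SymSys D}

/-! ### Truth values: the quantifiers range over the hereditarily symmetric names -/

variable (S) in
/-- The truth value of a formula in the symmetric model. -/
noncomputable def tvS : {k : ℕ} → Fml k → (Fin k → BSet D) → D
  | _, .mem i j, v => bmem (v i) (v j)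
  | _, .eq i j, v => beq (v i) (v j)
  | _, .neg φ, v => (tvS φ v)ᶜ
  | _, .and φ ψ, v => tvS φ v ⊓ tvS ψ v
  | _, .ex φ, v => ⨆ x : {x : BSet D // S.HS x}, tvS φ (Fin.cons x.1 v)

theorem tvS_ext_aux {k : ℕ} (φ : Fml k) : ∀ v w : Fin k → BSet D,
    (⨅ n, beq (v n) (w n)) ⊓ tvS S φ v ≤ tvS S φ w := by
  induction φ with
  | mem i j =>
    intro v w
    simp only [tvS]
    have e1 : (⨅ n, beq (v n) (w n)) ⊓ bmem (v i) (v j) ≤ bmem (w i) (v j) :=
      le_trans (inf_le_inf_right _ (iInf_le _ i)) (bmem_congr_left _ _ _)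
    exact le_trans (le_inf (le_trans inf_le_left (iInf_le _ j)) e1) (bmem_congr_right _ _ _)
  | eq i j =>
    intro v w
    simp only [tvS]
    have e1 : (⨅ n, beq (v n) (w n)) ⊓ beq (v i) (v j) ≤ beq (w i) (v j) := by
      refine le_trans (inf_le_inf_right _ (iInf_le _ i)) ?_
      rw [beq_symm (v i) (w i)]
      exact beq_trans _ _ _
    refine le_trans (le_inf e1 (le_trans inf_le_left (iInf_le _ j))) (beq_trans _ _ _)
  | neg φ ih =>
    intro v w
    simp only [tvS]
    refine compl_step ?_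
    have e : (⨅ n, beq (v n) (w n)) = ⨅ n, beq (w n) (v n) := iInf_congr fun n => beq_symm _ _
    rw [e]
    exact ih w v
  | and φ ψ ih1 ih2 =>
    intro v w
    simp only [tvS]
    refine le_inf ?_ ?_
    · exact (inf_le_inf_left _ inf_le_left).trans (ih1 v w)
    · exact (inf_le_inf_left _ inf_le_right).trans (ih2 v w)
  | ex φ ih =>
    intro v w
    simp only [tvS]
    rw [inf_iSup_eq]
    refine iSup_mono fun x => ?_
    refine (inf_le_inf_right _ ?_).trans (ih (Fin.cons x.1 v) (Fin.cons x.1 w))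
    refine le_iInf fun n => ?_
    refine Fin.cases ?_ (fun i => ?_) n
    · simp only [Fin.cons_zero]
      rw [beq_refl]
      exact le_top
    · simp only [Fin.cons_succ]
      exact iInf_le _ i

theorem tvS_ext {k : ℕ} (φ : Fml k) (v w : Fin k → BSet D) :
    (⨅ n, beq (v n) (w n)) ⊓ tvS S φ v ≤ tvS S φ w := tvS_ext_aux φ v w

/-- `tvS φ` is extensional in the variable `0`. -/
theorem ext1_tvS {k : ℕ} (φ : Fml (k + 1)) (v : Fin k → BSet D) :
    IM.BSet.Ext1 fun x => tvS S φ (Fin.cons x v) := by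
  intro x y
  refine le_trans (inf_le_inf_right _ ?_) (tvS_ext φ (Fin.cons x v) (Fin.cons y v))
  refine le_iInf fun n => ?_
  refine Fin.cases ?_ (fun i => ?_) n
  · simp only [Fin.cons_zero]
    exact le_rfl
  · simp only [Fin.cons_succ]
    rw [beq_refl]
    exact le_top

/-- `tvS φ` is extensional in the variable `1`. -/
theorem ext1_tvS' {k : ℕ} (φ : Fml (k + 2)) (x : BSet D) (v : Fin k → BSet D) :
    IM.BSet.Ext1 fun y => tvS S φ (Fin.cons x (Fin.cons y v)) := by
  intro y z
  refine le_trans (inf_le_inf_right _ ?_)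
    (tvS_ext φ (Fin.cons x (Fin.cons y v)) (Fin.cons x (Fin.cons z v)))
  refine le_iInf fun n => ?_
  refine Fin.cases ?_ (fun i => ?_) n
  · simp only [Fin.cons_zero]
    rw [beq_refl]
    exact le_top
  · simp only [Fin.cons_succ]
    refine Fin.cases ?_ (fun i => ?_) i
    · simp only [Fin.cons_zero]
      exact le_rfl
    · simp only [Fin.cons_succ]
      rw [beq_refl]
      exact le_top

theorem ts_ac_cons (g : S.G) {k : ℕ} (x : BSet D) (v : Fin k → BSet D) :
    (fun i => S.ac g ((Fin.cons x v : Fin (k + 1) → BSet D) i)) =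
      (Fin.cons (S.ac g x) (fun i => S.ac g (v i)) : Fin (k + 1) → BSet D) := by
  funext i
  refine Fin.cases ?_ (fun i => ?_) i
  · simp only [Fin.cons_zero]
  · simp only [Fin.cons_succ]

theorem act_tvS_aux (g : S.G) {k : ℕ} (φ : Fml k) : ∀ v : Fin k → BSet D,
    S.act g (tvS S φ v) = tvS S φ fun i => S.ac g (v i) := by
  induction φ with
  | mem i j =>
    intro v
    exact act_bmem g _ _
  | eq i j =>
    intro v
    exact act_beq g _ _
  | neg φ ih =>
    intro v
    simp only [tvS]
    rw [← ih v]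
    exact map_compl' (S.act g) _
  | and φ ψ ih1 ih2 =>
    intro v
    simp only [tvS]
    rw [← ih1 v, ← ih2 v]
    exact map_inf (S.act g) _ _
  | ex φ ih =>
    intro v
    simp only [tvS]
    rw [OrderIso.map_iSup]
    apply le_antisymm
    · refine iSup_le fun x => ?_
      rw [ih, ts_ac_cons]
      exact le_iSup (fun y : {x : BSet D // S.HS x} => tvS S φ (Fin.cons y.1 fun i => S.ac g (v i)))
        ⟨S.ac g x.1, HS.ac x.2 g⟩
    · refine iSup_le fun y => ?_
      refine le_trans (le_of_eq ?_) (le_iSup (fun x : {x : BSet D // S.HS x} =>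
        S.act g (tvS S φ (Fin.cons x.1 v))) ⟨S.ac g⁻¹ y.1, HS.ac y.2 g⁻¹⟩)
      change _ = S.act g (tvS S φ (Fin.cons (S.ac g⁻¹ y.1) v))
      rw [ih, ts_ac_cons, ← ac_mul, mul_inv_cancel, ac_one]

theorem act_tvS (g : S.G) {k : ℕ} (φ : Fml k) (v : Fin k → BSet D) :
    S.act g (tvS S φ v) = tvS S φ fun i => S.ac g (v i) := act_tvS_aux g φ v

/-- The truth value with symmetric parameters is fixed. -/
theorem fix_tvS {i : S.ι} {k : ℕ} (φ : Fml k) (v : Fin k → BSet D) (hv : ∀ j, S.Sup i (v j)) :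
    S.Fix i (tvS S φ v) := by
  intro g hg
  rw [act_tvS]
  apply le_antisymm
  · have h1 := tvS_ext (S := S) φ (fun j => S.ac g (v j)) v
    have h2 : (⨅ n, beq (S.ac g (v n)) (v n)) = ⊤ := by
      rw [iInf_eq_top]
      exact fun n => hv n g hg
    rwa [h2, top_inf_eq] at h1
  · have h1 := tvS_ext (S := S) φ v (fun j => S.ac g (v j))
    have h2 : (⨅ n, beq (v n) (S.ac g (v n))) = ⊤ := by
      rw [iInf_eq_top]
      intro n
      rw [beq_symm]
      exact hv n g hg
    rwa [h2, top_inf_eq] at h1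

end SYM
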