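import Pool.Agent.W_MP_790ce2_lc.Nam
import Pool.Agent.W_MP_790ce2_lc.TvS

/-!
# MP_790ce2_lc : generic countable models of a symmetric system

A `Gen S` is an enumeration `e` of a countable set of hereditarily symmetric names and an ultrafilter `lam` on `D`
which meet all requests needed for the theorem of Łoś, for well-foundedness and for the analysis of the elements.
`G.M` (a countable type in `Type`) with `G.E` is the model, `G.val x` the element given by the name `x ∈ G.N`.
-/

universe u v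

namespace SYM

open IM (BSet)
open IM.BSet
open BVM (IsUF rkLe rkEq)
open ZFM (Fml Sat)

variable {D : Type u} [CompleteBooleanAlgebra D]

structure Gen (S : SymSys D) where
  e : ℕ → BSet D
  lam : D → Prop
  uf : IsUF lam
  hs : ∀ n, S.HS (e n)
  hen : ∀ (k : ℕ) (φ : Fml (k + 1)) (w : Fin k → BSet D), (∀ i, w i ∈ Set.range e) →
    lam (tvS S (.ex φ) w) → ∃ x ∈ Set.range e, lam (tvS S φ (Fin.cons x w))
  chd : ∀ x ∈ Set.range e, ∀ y ∈ Set.range e, lam (bmem x y) →
    ∃ b : y.ty, y.fn b ∈ Set.range e ∧ lam (y.wt b) ∧ lam (beq x (y.fn b))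
  rk : ∀ x ∈ Set.range e, ∃ o : Ordinal.{u}, lam (rkEq x o)
  cl : ∀ x ∈ Set.range e, Countable x.ty → ∀ b, x.fn b ∈ Set.range e
  pr : ∀ x ∈ Set.range e, ∀ y ∈ Set.range e, prB x y ∈ Set.range e
  bd : ∀ x ∈ Set.range e, chkO D (bnd x) ∈ Set.range e

namespace Gen

variable {S : SymSys D}

/-- the names of the model -/
def N (G : Gen S) : Set (BSet D) := Set.range G.e

/-- equality of names modulo the ultrafilter -/
def std (G : Gen S) : Setoid ℕ where
  r m n := G.lam (beq (G.e m) (G.e n))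
  iseqv := by
    refine ⟨fun x => ?_, fun {x y} h => ?_, fun {x y z} h1 h2 => ?_⟩
    · rw [beq_refl]
      exact G.uf.top
    · rw [beq_symm]
      exact h
    · exact G.uf.mono (beq_trans _ _ _) (G.uf.inf h1 h2)

/-- the model -/
def M (G : Gen S) : Type := Quotient G.std

instance (G : Gen S) : Countable G.M := inferInstanceAs (Countable (Quotient G.std))

open Classical in
/-- the element of the model given by a name -/
noncomputable def val (G : Gen S) (x : BSet D) : G.M :=
  if h : ∃ n, G.e n = x then Quotient.mk G.std h.choose else Quotient.mk G.std 0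

/-- the membership relation of the model -/
def E (G : Gen S) (x y : G.M) : Prop := G.lam (bmem (G.e x.out) (G.e y.out))

variable {G : Gen S}

theorem hsN {x : BSet D} (hx : x ∈ G.N) : S.HS x := by
  obtain ⟨n, rfl⟩ := hx
  exact G.hs n

theorem val_def {x : BSet D} (hx : x ∈ G.N) : ∃ n, G.e n = x ∧ G.val x = Quotient.mk G.std n := by
  have h : ∃ n, G.e n = x := hx
  exact ⟨h.choose, h.choose_spec, dif_pos h⟩

theorem val_eq {x y : BSet D} (hx : x ∈ G.N) (hy : y ∈ G.N) : G.val x = G.val y ↔ G.lam (beq x y) := by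
  obtain ⟨m, rfl, h1⟩ := val_def hx
  obtain ⟨n, rfl, h2⟩ := val_def hy
  rw [h1, h2]
  exact ⟨fun h => Quotient.exact (s := G.std) h, fun h => Quotient.sound (s := G.std) h⟩

theorem val_out (m : G.M) : G.val (G.e m.out) = m := by
  obtain ⟨n, h1, h2⟩ := val_def (G := G) (x := G.e m.out) ⟨_, rfl⟩
  rw [h2]
  refine Eq.trans (Quotient.sound (s := G.std) ?_) (Quotient.out_eq m)
  show G.lam (beq (G.e n) (G.e m.out))
  rw [h1, beq_refl]
  exact G.uf.top

theorem lam_out {x : BSet D} (hx : x ∈ G.N) : G.lam (beq (G.e (G.val x).out) x) := by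
  rw [← val_eq (G := G) ⟨_, rfl⟩ hx]
  exact val_out _

theorem E_val {x y : BSet D} (hx : x ∈ G.N) (hy : y ∈ G.N) : G.E (G.val x) (G.val y) ↔ G.lam (bmem x y) := by
  constructor
  · intro h
    have h1 := G.uf.mono (bmem_congr_left _ _ _) (G.uf.inf (lam_out hx) h)
    exact G.uf.mono (bmem_congr_right _ _ _) (G.uf.inf (lam_out hy) h1)
  · intro h
    have hx' := lam_out hx
    have hy' := lam_out hy
    rw [beq_symm] at hx' hy'
    have h1 := G.uf.mono (bmem_congr_left _ _ _) (G.uf.inf hx' h)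
    exact G.uf.mono (bmem_congr_right _ _ _) (G.uf.inf hy' h1)

theorem exists_name (m : G.M) : ∃ x ∈ G.N, G.val x = m := ⟨G.e m.out, ⟨_, rfl⟩, val_out m⟩

theorem exists_names {k : ℕ} (v : Fin k → G.M) : ∃ w : Fin k → BSet D, (∀ i, w i ∈ G.N) ∧ (fun i => G.val (w i)) = v := by
  choose w hw hv using fun i => exists_name (v i)
  exact ⟨w, hw, funext hv⟩

/-- The theorem of Łoś. -/
theorem los {k : ℕ} (φ : Fml k) (w : Fin k → BSet D) (hw : ∀ i, w i ∈ G.N) :
    Sat G.E φ (fun i => G.val (w i)) ↔ G.lam (tvS S φ w) := by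
  induction φ with
  | mem i j => exact E_val (hw i) (hw j)
  | eq i j => exact val_eq (hw i) (hw j)
  | neg φ ih =>
    simp only [tvS, Sat]
    rw [ih w hw, G.uf.compl_iff]
  | and φ ψ ih1 ih2 =>
    simp only [tvS, Sat]
    rw [ih1 w hw, ih2 w hw, G.uf.inf_iff]
  | ex φ ih =>
    have hc : ∀ x : BSet D, (Fin.cons (G.val x) fun i => G.val (w i)) =
        fun i => G.val ((Fin.cons x w : Fin _ → BSet D) i) := by
      intro x
      funext i
      refine Fin.cases ?_ (fun i => ?_) i <;> simp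
    have hm : ∀ x ∈ G.N, ∀ i, (Fin.cons x w : Fin _ → BSet D) i ∈ G.N := by
      intro x hx i
      refine Fin.cases ?_ (fun i => ?_) i
      · simpa using hx
      · simpa using hw i
    constructor
    · rintro ⟨m, hm'⟩
      obtain ⟨x, hx, rfl⟩ := exists_name m
      rw [hc x] at hm'
      have h1 := (ih _ (hm x hx)).1 hm'
      exact G.uf.mono (le_iSup (fun x : {x : BSet D // S.HS x} => tvS S φ (Fin.cons x.1 w))
        ⟨x, hsN hx⟩) h1
    · intro h
      obtain ⟨x, hx, h1⟩ := G.hen _ φ w hw h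
      refine ⟨G.val x, ?_⟩
      rw [hc x]
      exact (ih _ (hm x hx)).2 h1

theorem wf (G : Gen S) : WellFounded G.E := by
  choose z hzN hz using fun x : G.M => exists_name x
  choose o ho using fun x : G.M => G.rk (z x) (hzN x)
  have hsub : ∀ x y : G.M, G.E x y → o x < o y := by
    intro x y hxy
    have h1 : G.E (G.val (z x)) (G.val (z y)) := by
      rw [hz, hz]
      exact hxy
    exact BVM.rkEq_lt G.uf (ho x) (ho y) ((E_val (hzN x) (hzN y)).1 h1)
  exact Subrelation.wf (fun {x y} h => hsub x y h) (InvImage.wf o wellFounded_lt)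

/-- Membership in the value of a name. -/
theorem mem_iff {y : BSet D} (hy : y ∈ G.N) {z : G.M} :
    G.E z (G.val y) ↔ ∃ b : y.ty, y.fn b ∈ G.N ∧ z = G.val (y.fn b) ∧ G.lam (y.wt b) := by
  constructor
  · intro h
    obtain ⟨x, hx, rfl⟩ := exists_name z
    obtain ⟨b, hb, hw, hxb⟩ := G.chd x hx y hy ((E_val hx hy).1 h)
    exact ⟨b, hb, (val_eq hx hb).2 hxb, hw⟩
  · rintro ⟨b, hb, rfl, hw⟩
    rw [E_val hb hy]
    refine G.uf.mono ?_ hw
    rw [bmem]
    refine le_trans ?_ (le_iSup _ b)
    rw [beq_refl, inf_top_eq]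

end Gen

end SYM
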