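import Pool.Agent.BVM_h40.Generic
import Pool.Agent.W_MP_790ce2_lc.Sym

/-!
# MP_790ce2_lc : a countable set and an ultrafilter meeting countably many requests

Proof of `exists_req`. For `d ≠ ⊥`, `i` and a list `l` of good elements choose `sel d i l = p ∈ R i l` with
`d ⊓ p.1 ≠ ⊥` (possible by `dense`). Close `({a}, N0)` under `sel`: countable sets `C ⊆ D`, `N ⊆ B` such that
`a ∈ C`, `N0 ⊆ N`, all elements of `C` are `≠ ⊥` and for `d ∈ C`, `i`, `l ⊆ N`: `d ⊓ (sel d i l).1 ∈ C` and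
`(sel d i l).2 ∈ N` (union of an increasing `ω`-sequence of countable sets). Enumerate the countable set of the pairs
`(i, l)`, `l ⊆ N`, and build a decreasing sequence `c n ∈ C`, `c 0 = a`, `c (n+1) = c n ⊓ (sel (c n) i_n l_n).1`.
An ultrafilter containing all `c n` (`BVM.exists_isUF_of_filter`) is as required; compare `BVM.rasiowa_sikorski`.
-/

universe u v

namespace SYM

open BVM (IsUF)

variable {D : Type u} [CompleteBooleanAlgebra D]

theorem rq_lift {B : Type v} {good : B → Prop} (N : Set {x : B // good x}) (l : List B)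
    (hl : ∀ x ∈ l, x ∈ Subtype.val '' N) :
    ∃ l' : List {x : B // good x}, (∀ x ∈ l', x ∈ N) ∧ l'.map Subtype.val = l := by
  induction l with
  | nil => exact ⟨[], by simp, rfl⟩
  | cons a l ih =>
    obtain ⟨l', h1, h2⟩ := ih fun x hx => hl x (List.mem_cons_of_mem _ hx)
    obtain ⟨y, hy, hya⟩ := hl a List.mem_cons_self
    refine ⟨y :: l', ?_, ?_⟩
    · intro x hx
      rcases List.mem_cons.1 hx with rfl | hx
      · exact hy
      · exact h1 x hx
    · rw [List.map_cons, h2, hya]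

theorem rq_bound {T : Type v} {M : ℕ → Set T} (hM : Monotone M) (l : List T)
    (hl : ∀ x ∈ l, x ∈ ⋃ n, M n) : ∃ n, ∀ x ∈ l, x ∈ M n := by
  induction l with
  | nil => exact ⟨0, by simp⟩
  | cons a l ih =>
    obtain ⟨n, hn⟩ := ih fun x hx => hl x (List.mem_cons_of_mem _ hx)
    obtain ⟨m, hm⟩ := Set.mem_iUnion.1 (hl a List.mem_cons_self)
    refine ⟨max n m, ?_⟩
    intro x hx
    rcases List.mem_cons.1 hx with rfl | hx
    · exact hM (le_max_right n m) hm
    · exact hM (le_max_left n m) (hn x hx)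

theorem rq_lists {T : Type v} {s : Set T} (hs : s.Countable) : {l : List T | ∀ x ∈ l, x ∈ s}.Countable := by
  have : Countable s := hs.to_subtype
  refine Set.Countable.mono (s₂ := Set.range (fun l : List s => l.map Subtype.val)) ?_
    (Set.countable_range _)
  intro l hl
  obtain ⟨l', hl'⟩ : ∃ l' : List s, l'.map Subtype.val = l := by
    induction l with
    | nil => exact ⟨[], rfl⟩
    | cons a l ih =>
      obtain ⟨l', h2⟩ := ih fun x hx => hl x (List.mem_cons_of_mem _ hx)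
      exact ⟨⟨a, hl a List.mem_cons_self⟩ :: l', by rw [List.map_cons, h2]⟩
  exact ⟨l', hl'⟩

/-- closure of countable sets under countably many operations `nx`, `wt` with list parameters -/
theorem rq_closure {D' : Type u} {T : Type v} {ι : Type} [Countable ι] (nx : D' → ι → List T → D')
    (wt : D' → ι → List T → T) (d0 : D') (N0 : Set T) (h0 : N0.Countable) :
    ∃ (C : Set D') (N : Set T), C.Countable ∧ N.Countable ∧ d0 ∈ C ∧ N0 ⊆ N ∧
      ∀ d ∈ C, ∀ i l, (∀ x ∈ l, x ∈ N) → nx d i l ∈ C ∧ wt d i l ∈ N := by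
  let G : Set D' × Set T → Set D' × Set T := fun s =>
    (s.1 ∪ ⋃ i : ι, Set.image2 (fun d l => nx d i l) s.1 {l | ∀ x ∈ l, x ∈ s.2},
     s.2 ∪ ⋃ i : ι, Set.image2 (fun d l => wt d i l) s.1 {l | ∀ x ∈ l, x ∈ s.2})
  let M : ℕ → Set D' × Set T := fun n => G^[n] ({d0}, N0)
  have hM0 : M 0 = ({d0}, N0) := rfl
  have hMs : ∀ n, M (n + 1) = G (M n) := fun n => Function.iterate_succ_apply' G n _
  have hMc : ∀ n, (M n).1.Countable ∧ (M n).2.Countable := by
    intro n
    induction n with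
    | zero => exact ⟨Set.countable_singleton _, h0⟩
    | succ n ih =>
      rw [hMs]
      exact ⟨ih.1.union (Set.countable_iUnion fun i => ih.1.image2 (rq_lists ih.2) _),
        ih.2.union (Set.countable_iUnion fun i => ih.1.image2 (rq_lists ih.2) _)⟩
  have hm1 : Monotone fun n => (M n).1 := monotone_nat_of_le_succ fun n => by
    rw [hMs]
    exact Set.subset_union_left
  have hm2 : Monotone fun n => (M n).2 := monotone_nat_of_le_succ fun n => by
    rw [hMs]
    exact Set.subset_union_left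
  refine ⟨⋃ n, (M n).1, ⋃ n, (M n).2, Set.countable_iUnion fun n => (hMc n).1,
    Set.countable_iUnion fun n => (hMc n).2, Set.mem_iUnion.2 ⟨0, rfl⟩, ?_, ?_⟩
  · intro x hx
    exact Set.mem_iUnion.2 ⟨0, hx⟩
  · intro d hd i l hl
    obtain ⟨n, hn⟩ := Set.mem_iUnion.1 hd
    obtain ⟨m, hm⟩ := rq_bound hm2 l hl
    have hd' : d ∈ (M (max n m)).1 := hm1 (le_max_left n m) hn
    have hl' : ∀ x ∈ l, x ∈ (M (max n m)).2 := fun x hx => hm2 (le_max_right n m) (hm x hx)
    constructor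
    · refine Set.mem_iUnion.2 ⟨max n m + 1, ?_⟩
      rw [hMs]
      exact Or.inr (Set.mem_iUnion.2 ⟨i, d, hd', l, hl', rfl⟩)
    · refine Set.mem_iUnion.2 ⟨max n m + 1, ?_⟩
      rw [hMs]
      exact Or.inr (Set.mem_iUnion.2 ⟨i, d, hd', l, hl', rfl⟩)

/-- a countable set `N` and an ultrafilter `lam` such that all requests with parameters in `N` are met by `lam`
together with an element of `N`. -/
theorem exists_req {B : Type v} {ι : Type} [Countable ι] (good : B → Prop) (R : ι → List B → Set (D × B))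
    (dense : ∀ i l, (∀ x ∈ l, good x) → (⨆ p : {p // p ∈ R i l}, p.1.1) = ⊤)
    (hgood : ∀ i l, (∀ x ∈ l, good x) → ∀ p ∈ R i l, good p.2)
    {a : D} (ha : a ≠ ⊥) (N0 : Set B) (hc : N0.Countable) (h0 : ∀ x ∈ N0, good x) :
    ∃ (N : Set B) (lam : D → Prop), N.Countable ∧ N0 ⊆ N ∧ (∀ x ∈ N, good x) ∧ IsUF lam ∧ lam a ∧
      ∀ i l, (∀ x ∈ l, x ∈ N) → ∃ p ∈ R i l, lam p.1 ∧ p.2 ∈ N := by
  classical
  have hgl : ∀ l : List {x : B // good x}, ∀ x ∈ l.map Subtype.val, good x := by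
    intro l x hx
    obtain ⟨y, _, rfl⟩ := List.mem_map.1 hx
    exact y.2
  have hsel : ∀ (d : {d : D // d ≠ ⊥}) (i : ι) (l : List {x : B // good x}),
      ∃ p : D × {x : B // good x}, ((p.1, p.2.1) : D × B) ∈ R i (l.map Subtype.val) ∧
        d.1 ⊓ p.1 ≠ ⊥ := by
    intro d i l
    have h1 := dense i (l.map Subtype.val) (hgl l)
    by_contra hc
    push Not at hc
    apply d.2
    rw [← inf_top_eq d.1, ← h1, inf_iSup_eq, iSup_eq_bot]
    rintro ⟨p, hp⟩
    exact hc (p.1, ⟨p.2, hgood i _ (hgl l) p hp⟩) hp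
  choose sel hsel1 hsel2 using hsel
  let nx : {d : D // d ≠ ⊥} → ι → List {x : B // good x} → {d : D // d ≠ ⊥} :=
    fun d i l => ⟨d.1 ⊓ (sel d i l).1, hsel2 d i l⟩
  obtain ⟨C, N, hC, hN, haC, hN0, hcl⟩ := rq_closure nx (fun d i l => (sel d i l).2) ⟨a, ha⟩
    (Subtype.val ⁻¹' N0) (hc.preimage Subtype.val_injective)
  -- the tasks
  have hT0 : Countable {l : List {x : B // good x} // ∀ x ∈ l, x ∈ N} := (rq_lists hN).to_subtype
  let T : Type v := ι × {l : List {x : B // good x} // ∀ x ∈ l, x ∈ N}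
  have hT : Countable T := inferInstanceAs (Countable (_ × _))
  let hE : Encodable T := Encodable.ofCountable T
  let st : {d : {d : D // d ≠ ⊥} // d ∈ C} → Option T → {d : {d : D // d ≠ ⊥} // d ∈ C} :=
    fun d o => match o with
      | none => d
      | some t => ⟨nx d.1 t.1 t.2.1, (hcl d.1 d.2 t.1 t.2.1 t.2.2).1⟩
  let c : ℕ → {d : {d : D // d ≠ ⊥} // d ∈ C} := fun n =>
    Nat.rec (motive := fun _ => {d : {d : D // d ≠ ⊥} // d ∈ C}) ⟨⟨a, ha⟩, haC⟩
      (fun n x => st x (Encodable.decode n)) n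
  have hc0 : (c 0).1.1 = a := rfl
  have hcs : ∀ n, c (n + 1) = st (c n) (Encodable.decode n) := fun n => rfl
  have hst : ∀ d o, (st d o).1.1 ≤ d.1.1 := by
    intro d o
    cases o with
    | none => exact le_rfl
    | some t => exact inf_le_left
  have hanti : Antitone fun n => (c n).1.1 := antitone_nat_of_succ_le fun n => by
    rw [hcs]
    exact hst _ _
  obtain ⟨lam, hl, hlam⟩ := BVM.exists_isUF_of_filter {x | ∃ n, (c n).1.1 ≤ x} ⟨0, le_top⟩
    (by
      rintro ⟨n, hn⟩
      exact (c n).1.2 (le_bot_iff.1 hn))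
    (by
      rintro x ⟨n, hn⟩ y hxy
      exact ⟨n, hn.trans hxy⟩)
    (by
      rintro x ⟨n, hn⟩ y ⟨m, hm⟩
      refine ⟨max n m, le_inf ?_ ?_⟩
      · exact (hanti (le_max_left n m)).trans hn
      · exact (hanti (le_max_right n m)).trans hm)
  refine ⟨Subtype.val '' N, lam, hN.image _, ?_, ?_, hl, hlam a ⟨0, le_of_eq hc0⟩, ?_⟩
  · intro x hx
    exact ⟨⟨x, h0 x hx⟩, hN0 hx, rfl⟩
  · rintro _ ⟨y, _, rfl⟩
    exact y.2
  · intro i l hlN
    obtain ⟨l', hl1, hl2⟩ := rq_lift N l hlN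
    let t : T := (i, ⟨l', hl1⟩)
    have hn : c (Encodable.encode t + 1) = st (c (Encodable.encode t)) (some t) := by
      rw [hcs, Encodable.encodek]
    refine ⟨((sel (c (Encodable.encode t)).1 i l').1, (sel (c (Encodable.encode t)).1 i l').2.1),
      ?_, ?_, ?_⟩
    · rw [← hl2]
      exact hsel1 _ _ _
    · refine hlam _ ⟨Encodable.encode t + 1, ?_⟩
      rw [hn]
      exact inf_le_right
    · exact ⟨_, (hcl _ (c (Encodable.encode t)).2 i l' hl1).2, rfl⟩

/-- the depth of a formula -/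
def rqDepth : {k : ℕ} → ZFM.Fml k → ℕ
  | _, .mem _ _ => 0
  | _, .eq _ _ => 0
  | _, .neg φ => rqDepth φ + 1
  | _, .and φ ψ => max (rqDepth φ) (rqDepth ψ) + 1
  | _, .ex φ => rqDepth φ + 1

theorem countable_rqDepth (n : ℕ) : ∀ k : ℕ, {φ : ZFM.Fml k | rqDepth φ ≤ n}.Countable := by
  induction n with
  | zero =>
    intro k
    refine Set.Countable.mono (s₂ := Set.range (fun p : Fin k × Fin k => ZFM.Fml.mem p.1 p.2) ∪
      Set.range (fun p : Fin k × Fin k => ZFM.Fml.eq p.1 p.2)) ?_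
      ((Set.countable_range _).union (Set.countable_range _))
    intro φ hφ
    cases φ with
    | mem i j => exact Or.inl ⟨(i, j), rfl⟩
    | eq i j => exact Or.inr ⟨(i, j), rfl⟩
    | neg φ => simp [rqDepth] at hφ
    | and φ ψ => simp [rqDepth] at hφ
    | ex φ => simp [rqDepth] at hφ
  | succ n ih =>
    intro k
    refine Set.Countable.mono (s₂ := ((Set.range (fun p : Fin k × Fin k => ZFM.Fml.mem p.1 p.2) ∪
      Set.range (fun p : Fin k × Fin k => ZFM.Fml.eq p.1 p.2)) ∪
      (ZFM.Fml.neg '' {φ : ZFM.Fml k | rqDepth φ ≤ n} ∪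
        Set.image2 ZFM.Fml.and {φ : ZFM.Fml k | rqDepth φ ≤ n} {φ : ZFM.Fml k | rqDepth φ ≤ n})) ∪
      ZFM.Fml.ex '' {φ : ZFM.Fml (k + 1) | rqDepth φ ≤ n}) ?_ ?_
    · intro φ hφ
      cases φ with
      | mem i j => exact Or.inl (Or.inl (Or.inl ⟨(i, j), rfl⟩))
      | eq i j => exact Or.inl (Or.inl (Or.inr ⟨(i, j), rfl⟩))
      | neg φ =>
        refine Or.inl (Or.inr (Or.inl ⟨φ, ?_, rfl⟩))
        simpa [rqDepth] using hφ
      | and φ ψ =>
        have h : rqDepth φ ≤ n ∧ rqDepth ψ ≤ n := by simpa [rqDepth] using hφ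
        exact Or.inl (Or.inr (Or.inr ⟨φ, h.1, ψ, h.2, rfl⟩))
      | ex φ =>
        refine Or.inr ⟨φ, ?_, rfl⟩
        simpa [rqDepth] using hφ
    · refine Set.Countable.union (Set.Countable.union
        ((Set.countable_range _).union (Set.countable_range _)) (Set.Countable.union ?_ ?_)) ?_
      · exact (ih k).image _
      · exact (ih k).image2 (ih k) _
      · exact (ih (k + 1)).image _

/-- there are only countably many formulas (copy of `BVM.countable_fml`) -/
theorem countable_fml (k : ℕ) : Countable (ZFM.Fml k) := by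
  rw [← Set.countable_univ_iff]
  have h : (Set.univ : Set (ZFM.Fml k)) = ⋃ n : ℕ, {φ : ZFM.Fml k | rqDepth φ ≤ n} := by
    ext φ
    simp only [Set.mem_univ, Set.mem_iUnion, true_iff]
    exact ⟨rqDepth φ, Nat.le_refl (rqDepth φ)⟩
  rw [h]
  exact Set.countable_iUnion fun n => countable_rqDepth n k

end SYM
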