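import Pool.Agent.W_MP_790ce2_lc.GenD
import Pool.Agent.W_MP_790ce2_lc.Req

/-!
# MP_790ce2_lc : existence of generic countable models
-/

universe u v

namespace SYM

open IM (BSet)
open IM.BSet
open BVM (IsUF rkLe rkEq)
open ZFM (Fml Sat)

variable {D : Type u} [CompleteBooleanAlgebra D]

/-! ### The requests -/

/-- requests with one parameter -/
def r1 (F : BSet D → Set (D × BSet D)) (l : List (BSet D)) : Set (D × BSet D) :=
  {p | (∃ x, l = [x] ∧ p ∈ F x) ∨ ((¬ ∃ x, l = [x]) ∧ p.1 = ⊤ ∧ p.2 = chkO D 0)}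

/-- requests with two parameters -/
def r2 (F : BSet D → BSet D → Set (D × BSet D)) (l : List (BSet D)) : Set (D × BSet D) :=
  {p | (∃ x y, l = [x, y] ∧ p ∈ F x y) ∨ ((¬ ∃ x y, l = [x, y]) ∧ p.1 = ⊤ ∧ p.2 = chkO D 0)}

theorem ge_top_of_mem {T : Set (D × BSet D)} {z : BSet D} (h : ((⊤ : D), z) ∈ T) :
    (⨆ p : {p // p ∈ T}, p.1.1) = ⊤ := by
  rw [eq_top_iff]
  exact le_iSup (fun p : {p // p ∈ T} => p.1.1) ⟨((⊤ : D), z), h⟩

theorem r1_dense {S : SymSys D} {F : BSet D → Set (D × BSet D)}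
    (hF : ∀ x, S.HS x → (⨆ p : {p // p ∈ F x}, p.1.1) = ⊤) (l : List (BSet D))
    (hl : ∀ x ∈ l, S.HS x) : (⨆ p : {p // p ∈ r1 F l}, p.1.1) = ⊤ := by
  by_cases h : ∃ x, l = [x]
  · obtain ⟨x, rfl⟩ := h
    rw [eq_top_iff, ← hF x (hl x (by simp))]
    refine iSup_le fun p => ?_
    exact le_iSup (fun p : {p // p ∈ r1 F [x]} => p.1.1) ⟨p.1, Or.inl ⟨x, rfl, p.2⟩⟩
  · exact ge_top_of_mem (Or.inr ⟨h, rfl, rfl⟩)

theorem r2_dense {S : SymSys D} {F : BSet D → BSet D → Set (D × BSet D)}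
    (hF : ∀ x y, S.HS x → S.HS y → (⨆ p : {p // p ∈ F x y}, p.1.1) = ⊤) (l : List (BSet D))
    (hl : ∀ x ∈ l, S.HS x) : (⨆ p : {p // p ∈ r2 F l}, p.1.1) = ⊤ := by
  by_cases h : ∃ x y, l = [x, y]
  · obtain ⟨x, y, rfl⟩ := h
    rw [eq_top_iff, ← hF x y (hl x (by simp)) (hl y (by simp))]
    refine iSup_le fun p => ?_
    exact le_iSup (fun p : {p // p ∈ r2 F [x, y]} => p.1.1) ⟨p.1, Or.inl ⟨x, y, rfl, p.2⟩⟩
  · exact ge_top_of_mem (Or.inr ⟨h, rfl, rfl⟩)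

theorem r1_good {S : SymSys D} {F : BSet D → Set (D × BSet D)}
    (hF : ∀ x, S.HS x → ∀ p ∈ F x, S.HS p.2) (l : List (BSet D))
    (hl : ∀ x ∈ l, S.HS x) : ∀ p ∈ r1 F l, S.HS p.2 := by
  rintro p (⟨x, rfl, hp⟩ | ⟨-, -, hp⟩)
  · exact hF x (hl x (by simp)) p hp
  · rw [hp]
    exact HS_chkO 0

theorem r2_good {S : SymSys D} {F : BSet D → BSet D → Set (D × BSet D)}
    (hF : ∀ x y, S.HS x → S.HS y → ∀ p ∈ F x y, S.HS p.2) (l : List (BSet D))
    (hl : ∀ x ∈ l, S.HS x) : ∀ p ∈ r2 F l, S.HS p.2 := by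
  rintro p (⟨x, y, rfl, hp⟩ | ⟨-, -, hp⟩)
  · exact hF x y (hl x (by simp)) (hl y (by simp)) p hp
  · rw [hp]
    exact HS_chkO 0

theorem mem_r1 {F : BSet D → Set (D × BSet D)} {x : BSet D} {p : D × BSet D}
    (h : p ∈ r1 F [x]) : p ∈ F x := by
  rcases h with ⟨x', hx, hp⟩ | ⟨h, -, -⟩
  · simp only [List.cons.injEq, and_true] at hx
    rw [hx]
    exact hp
  · exact absurd ⟨x, rfl⟩ h

theorem mem_r2 {F : BSet D → BSet D → Set (D × BSet D)} {x y : BSet D} {p : D × BSet D}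
    (h : p ∈ r2 F [x, y]) : p ∈ F x y := by
  rcases h with ⟨x', y', hx, hp⟩ | ⟨h, -, -⟩
  · simp only [List.cons.injEq, and_true] at hx
    rw [hx.1, hx.2]
    exact hp
  · exact absurd ⟨x, y, rfl⟩ h

/-- the requests of a witness for an existential formula -/
def rHen (S : SymSys D) (k : ℕ) (φ : Fml (k + 1)) (l : List (BSet D)) : Set (D × BSet D) :=
  {p | (∃ w : Fin k → BSet D, l = List.ofFn w ∧
      ((S.HS p.2 ∧ p.1 = tvS S φ (Fin.cons p.2 w)) ∨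
        (p.1 = (tvS S (.ex φ) w)ᶜ ∧ p.2 = chkO D 0))) ∨
    ((¬ ∃ w : Fin k → BSet D, l = List.ofFn w) ∧ p.1 = ⊤ ∧ p.2 = chkO D 0)}

theorem rHen_dense (S : SymSys D) (k : ℕ) (φ : Fml (k + 1)) (l : List (BSet D)) :
    (⨆ p : {p // p ∈ rHen S k φ l}, p.1.1) = ⊤ := by
  by_cases h : ∃ w : Fin k → BSet D, l = List.ofFn w
  · obtain ⟨w, rfl⟩ := h
    rw [eq_top_iff]
    have h1 : (⊤ : D) = tvS S (.ex φ) w ⊔ (tvS S (.ex φ) w)ᶜ := sup_compl_eq_top.symm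
    rw [h1]
    refine sup_le ?_ ?_
    · rw [tvS]
      refine iSup_le fun x => ?_
      exact le_iSup (fun p : {p // p ∈ rHen S k φ (List.ofFn w)} => p.1.1)
        ⟨(tvS S φ (Fin.cons x.1 w), x.1), Or.inl ⟨w, rfl, Or.inl ⟨x.2, rfl⟩⟩⟩
    · exact le_iSup (fun p : {p // p ∈ rHen S k φ (List.ofFn w)} => p.1.1)
        ⟨((tvS S (.ex φ) w)ᶜ, chkO D 0), Or.inl ⟨w, rfl, Or.inr ⟨rfl, rfl⟩⟩⟩
  · exact ge_top_of_mem (Or.inr ⟨h, rfl, rfl⟩)

theorem rHen_good (S : SymSys D) (k : ℕ) (φ : Fml (k + 1)) (l : List (BSet D)) :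
    ∀ p ∈ rHen S k φ l, S.HS p.2 := by
  rintro p (⟨w, -, ⟨hp, -⟩ | ⟨-, hp⟩⟩ | ⟨-, -, hp⟩)
  · exact hp
  · rw [hp]
    exact HS_chkO 0
  · rw [hp]
    exact HS_chkO 0

/-- the requests of a child -/
def rChd (x y : BSet D) : Set (D × BSet D) :=
  {p | (∃ b : y.ty, p = (y.wt b ⊓ beq x (y.fn b), y.fn b)) ∨ p = ((bmem x y)ᶜ, x)}

theorem rChd_dense (x y : BSet D) : (⨆ p : {p // p ∈ rChd x y}, p.1.1) = ⊤ := by
  rw [eq_top_iff]
  have h1 : (⊤ : D) = bmem x y ⊔ (bmem x y)ᶜ := sup_compl_eq_top.symm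
  rw [h1]
  refine sup_le ?_ ?_
  · rw [bmem]
    refine iSup_le fun b => ?_
    exact le_iSup (fun p : {p // p ∈ rChd x y} => p.1.1)
      ⟨(y.wt b ⊓ beq x (y.fn b), y.fn b), Or.inl ⟨b, rfl⟩⟩
  · exact le_iSup (fun p : {p // p ∈ rChd x y} => p.1.1) ⟨((bmem x y)ᶜ, x), Or.inr rfl⟩

open Classical in
/-- an enumeration of the children of a name with countable index type -/
noncomputable def enm (x : BSet D) (n : ℕ) : BSet D :=
  if h : ∃ f : ℕ → x.ty, Function.Surjective f then x.fn (h.choose n) else x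

theorem HS_enm {S : SymSys D} {x : BSet D} (hx : S.HS x) (n : ℕ) : S.HS (enm x n) := by
  unfold enm
  split_ifs with h
  · exact ((HS_def S x).1 hx).2 _
  · exact hx

omit [CompleteBooleanAlgebra D] in
theorem exists_enm (x : BSet D) (hx : Countable x.ty) (b : x.ty) : ∃ n, enm x n = x.fn b := by
  have hne : Nonempty x.ty := ⟨b⟩
  have h : ∃ f : ℕ → x.ty, Function.Surjective f := exists_surjective_nat x.ty
  obtain ⟨n, hn⟩ := h.choose_spec b
  refine ⟨n, ?_⟩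
  unfold enm
  rw [dif_pos h, hn]

/-- the index type of the requests -/
inductive RI : Type
  | hen (k : ℕ) (φ : Fml (k + 1))
  | cl (n : ℕ)
  | chd
  | rk
  | pr
  | bd

instance : Countable RI := by
  have h1 : ∀ k, Countable (Fml (k + 1)) := fun k => countable_fml (k + 1)
  let f : RI → (Σ k : ℕ, Fml (k + 1)) ⊕ (ℕ ⊕ Fin 4) := fun r =>
    match r with
    | .hen k φ => Sum.inl ⟨k, φ⟩
    | .cl n => Sum.inr (Sum.inl n)
    | .chd => Sum.inr (Sum.inr 0)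
    | .rk => Sum.inr (Sum.inr 1)
    | .pr => Sum.inr (Sum.inr 2)
    | .bd => Sum.inr (Sum.inr 3)
  refine Function.Injective.countable (f := f) ?_
  intro a b hab
  cases a <;> cases b <;> simp_all [f]

/-- all requests -/
noncomputable def rAll (S : SymSys D) : RI → List (BSet D) → Set (D × BSet D)
  | .hen k φ => rHen S k φ
  | .cl n => r1 fun x => {((⊤ : D), enm x n)}
  | .chd => r2 rChd
  | .rk => r1 fun x => {p | ∃ o : Ordinal.{u}, p = (rkEq x o, x)}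
  | .pr => r2 fun x y => {((⊤ : D), prB x y)}
  | .bd => r1 fun x => {((⊤ : D), chkO D (bnd x))}

theorem rAll_dense (S : SymSys D) (i : RI) (l : List (BSet D)) (hl : ∀ x ∈ l, S.HS x) :
    (⨆ p : {p // p ∈ rAll S i l}, p.1.1) = ⊤ := by
  cases i with
  | hen k φ => exact rHen_dense S k φ l
  | cl n =>
    exact r1_dense (F := fun x => {((⊤ : D), enm x n)})
      (fun x _ => ge_top_of_mem (Set.mem_singleton _)) l hl
  | chd => exact r2_dense (fun x y _ _ => rChd_dense x y) l hl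
  | rk =>
    refine r1_dense (fun x _ => ?_) l hl
    rw [eq_top_iff, ← BVM.sSup_rkEq x]
    refine sSup_le ?_
    rintro d ⟨o, rfl⟩
    exact le_iSup (fun p : {p // p ∈ {p : D × BSet D | ∃ o : Ordinal.{u}, p = (rkEq x o, x)}} =>
      p.1.1) ⟨(rkEq x o, x), ⟨o, rfl⟩⟩
  | pr =>
    exact r2_dense (F := fun x y => {((⊤ : D), prB x y)})
      (fun x y _ _ => ge_top_of_mem (Set.mem_singleton _)) l hl
  | bd =>
    exact r1_dense (F := fun x => {((⊤ : D), chkO D (bnd x))})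
      (fun x _ => ge_top_of_mem (Set.mem_singleton _)) l hl

theorem rAll_good (S : SymSys D) (i : RI) (l : List (BSet D)) (hl : ∀ x ∈ l, S.HS x) :
    ∀ p ∈ rAll S i l, S.HS p.2 := by
  cases i with
  | hen k φ => exact rHen_good S k φ l
  | cl n =>
    refine r1_good (fun x hx p hp => ?_) l hl
    rw [Set.mem_singleton_iff.1 hp]
    exact HS_enm hx n
  | chd =>
    refine r2_good (fun x y hx hy p hp => ?_) l hl
    rcases hp with ⟨b, rfl⟩ | rfl
    · exact ((HS_def S y).1 hy).2 b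
    · exact hx
  | rk =>
    refine r1_good (fun x hx p hp => ?_) l hl
    obtain ⟨o, rfl⟩ := hp
    exact hx
  | pr =>
    refine r2_good (fun x y hx hy p hp => ?_) l hl
    rw [Set.mem_singleton_iff.1 hp]
    exact HS_prB hx hy
  | bd =>
    refine r1_good (fun x hx p hp => ?_) l hl
    rw [Set.mem_singleton_iff.1 hp]
    exact HS_chkO _

/-- Generic models exist: below any nonzero element, containing any countable set of symmetric names.
(`exists_req` for the following requests: `hen`: `R = {(tvS φ (x::w), x)} ∪ {((tvS (ex φ) w)ᶜ, x0)}`;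
`chd`: `{(y.wt b ⊓ beq x (y.fn b), y.fn b)} ∪ {((bmem x y)ᶜ, x)}`; `rk`: `{(rkEq x o, x)}`, dense by `BVM.sSup_rkEq`;
`cl` for the `n`-th element of a countable `x.ty`: `{(⊤, x.fn b_n)}`; `pr`: `{(⊤, prB x y)}`; `bd`: `{(⊤, chkO (bnd x))}`.) -/
theorem exists_gen (S : SymSys D) {a : D} (ha : a ≠ ⊥) (N0 : Set (BSet D)) (hc : N0.Countable)
    (h0 : ∀ x ∈ N0, S.HS x) : ∃ G : Gen S, G.lam a ∧ N0 ⊆ Set.range G.e := by
  obtain ⟨N, lam, hNc, hN0, hNg, hl, hla, hreq⟩ := exists_req S.HS (rAll S) (rAll_dense S)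
    (rAll_good S) ha N0 hc h0
  have hNne : N.Nonempty := by
    obtain ⟨p, -, -, hp⟩ := hreq .bd [] (fun x hx => absurd hx List.not_mem_nil)
    exact ⟨p.2, hp⟩
  obtain ⟨e, rfl⟩ := hNc.exists_eq_range hNne
  have h1 : ∀ x ∈ Set.range e, ∀ z ∈ [x], z ∈ Set.range e := by
    intro x hx z hz
    rw [List.mem_singleton.1 hz]
    exact hx
  have h2 : ∀ x ∈ Set.range e, ∀ y ∈ Set.range e, ∀ z ∈ [x, y], z ∈ Set.range e := by
    intro x hx y hy z hz
    rcases List.mem_cons.1 hz with rfl | hz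
    · exact hx
    · rw [List.mem_singleton.1 hz]
      exact hy
  refine ⟨⟨e, lam, hl, fun n => hNg _ ⟨n, rfl⟩, ?_, ?_, ?_, ?_, ?_, ?_⟩, hla, hN0⟩
  · intro k φ w hw hlam
    obtain ⟨p, hp, hp1, hp2⟩ := hreq (.hen k φ) (List.ofFn w) (by
      intro x hx
      obtain ⟨i, rfl⟩ := List.mem_ofFn.1 hx
      exact hw i)
    rcases hp with ⟨w', hw', ⟨-, hp3⟩ | ⟨hp3, -⟩⟩ | ⟨h, -, -⟩
    · have h3 : w = w' := List.ofFn_injective hw'
      subst h3
      exact ⟨p.2, hp2, hp3 ▸ hp1⟩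
    · have h3 : w = w' := List.ofFn_injective hw'
      subst h3
      rw [hp3, hl.compl_iff] at hp1
      exact absurd hlam hp1
    · exact absurd ⟨w, rfl⟩ h
  · intro x hx y hy hlam
    obtain ⟨p, hp, hp1, hp2⟩ := hreq .chd [x, y] (h2 x hx y hy)
    rcases mem_r2 hp with ⟨b, rfl⟩ | rfl
    · obtain ⟨h3, h4⟩ := hl.inf_iff.1 hp1
      exact ⟨b, hp2, h3, h4⟩
    · rw [hl.compl_iff] at hp1
      exact absurd hlam hp1
  · intro x hx
    obtain ⟨p, hp, hp1, hp2⟩ := hreq .rk [x] (h1 x hx)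
    obtain ⟨o, rfl⟩ := mem_r1 hp
    exact ⟨o, hp1⟩
  · intro x hx hcx b
    obtain ⟨n, hn⟩ := exists_enm x hcx b
    obtain ⟨p, hp, hp1, hp2⟩ := hreq (.cl n) [x] (h1 x hx)
    have h3 := Set.mem_singleton_iff.1 (mem_r1 hp)
    rw [h3] at hp2
    rw [← hn]
    exact hp2
  · intro x hx y hy
    obtain ⟨p, hp, hp1, hp2⟩ := hreq .pr [x, y] (h2 x hx y hy)
    have h3 := Set.mem_singleton_iff.1 (mem_r2 hp)
    rw [h3] at hp2
    exact hp2
  · intro x hx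
    obtain ⟨p, hp, hp1, hp2⟩ := hreq .bd [x] (h1 x hx)
    have h3 := Set.mem_singleton_iff.1 (mem_r1 hp)
    rw [h3] at hp2
    exact hp2

end SYM
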