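import Pool.Agent.W_MP_790ce2_lc.Chk

/-!
# MP_790ce2_lc : names of pairs, subsets of ordinals, relations between ordinals
-/

universe u v

namespace SYM

open IM (BSet)
open IM.BSet

variable {D : Type u} [CompleteBooleanAlgebra D]

theorem Nam_trans {a : D} {x y z : BSet D} (h1 : a ≤ beq x y) (h2 : a ≤ beq y z) :
    a ≤ beq x z :=
  (le_inf h1 h2).trans (beq_trans x y z)

/-! ### Pairs -/

/-- unordered pair -/
def upB (a b : BSet D) : BSet D := .mk (ULift.{u} Bool) (fun c => cond c.down a b) fun _ => ⊤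

theorem bmem_upB (a b x : BSet D) : bmem x (upB a b) = beq x a ⊔ beq x b := by
  have h : bmem x (upB a b) = ⨆ c : ULift.{u} Bool, ⊤ ⊓ beq x (cond c.down a b) := rfl
  rw [h]
  apply le_antisymm
  · refine iSup_le fun c => ?_
    rw [top_inf_eq]
    rcases c with ⟨_ | _⟩
    · exact le_sup_right
    · exact le_sup_left
  · refine sup_le ?_ ?_
    · refine le_trans ?_ (le_iSup (fun c : ULift.{u} Bool => ⊤ ⊓ beq x (cond c.down a b)) ⟨true⟩)
      rw [top_inf_eq]
      exact le_rfl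
    · refine le_trans ?_ (le_iSup (fun c : ULift.{u} Bool => ⊤ ⊓ beq x (cond c.down a b)) ⟨false⟩)
      rw [top_inf_eq]
      exact le_rfl

/-- ordered pair -/
def prB (a b : BSet D) : BSet D := upB (upB a a) (upB a b)

theorem beq_upB_le (a b c d : BSet D) : beq a c ⊓ beq b d ≤ beq (upB a b) (upB c d) := by
  rw [le_beq_iff]
  refine ⟨fun z => ?_, fun z => ?_⟩
  · rw [bmem_upB, bmem_upB, inf_sup_left]
    refine sup_le_sup ?_ ?_
    · exact Nam_trans inf_le_right (inf_le_left.trans inf_le_left)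
    · exact Nam_trans inf_le_right (inf_le_left.trans inf_le_right)
  · rw [bmem_upB, bmem_upB, inf_sup_left, beq_symm a c, beq_symm b d]
    refine sup_le_sup ?_ ?_
    · exact Nam_trans inf_le_right (inf_le_left.trans inf_le_left)
    · exact Nam_trans inf_le_right (inf_le_left.trans inf_le_right)

theorem beq_prB_le (a b c d : BSet D) : beq a c ⊓ beq b d ≤ beq (prB a b) (prB c d) := by
  refine le_trans (le_inf ?_ ?_) (beq_upB_le (upB a a) (upB a b) (upB c c) (upB c d))
  · exact (le_inf inf_le_left inf_le_left).trans (beq_upB_le a a c c)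
  · exact beq_upB_le a b c d

/-! ### Subsets of ordinals and relations between ordinals -/

/-- the name of a subset of `α` -/
noncomputable def subN (α : Ordinal.{u}) (b : Ordinal.{u} → D) : BSet D :=
  .mk α.ToType (fun i => chkO D (tp i)) fun i => b (tp i)

/-- the name of a subset of `α × β` -/
noncomputable def relN (α β : Ordinal.{u}) (w : Ordinal.{u} → Ordinal.{u} → D) : BSet D :=
  .mk (α.ToType × β.ToType) (fun p => prB (chkO D (tp p.1)) (chkO D (tp p.2))) fun p => w (tp p.1) (tp p.2)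

theorem bmem_subN (x : BSet D) (α : Ordinal.{u}) (b : Ordinal.{u} → D) :
    bmem x (subN α b) = ⨆ ξ : Set.Iio α, b ξ.1 ⊓ beq x (chkO D ξ.1) :=
  iSup_tp fun ξ => b ξ ⊓ beq x (chkO D ξ)

theorem bmem_chkO_subN {ξ α : Ordinal.{u}} (h : ξ < α) (b : Ordinal.{u} → D) :
    bmem (chkO D ξ) (subN α b) = b ξ := by
  rw [bmem_subN]
  apply le_antisymm
  · refine iSup_le fun η => ?_
    by_cases hη : ξ = η.1
    · rw [← hη]
      exact inf_le_left
    · rw [beq_chkO hη, inf_bot_eq]
      exact bot_le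
  · refine le_trans ?_ (le_iSup (fun η : Set.Iio α => b η.1 ⊓ beq (chkO D ξ) (chkO D η.1)) ⟨ξ, h⟩)
    rw [beq_refl, inf_top_eq]

/-- names of subsets of `α` with the same truth values below `a` are equal below `a` -/
theorem le_beq_subN {a : D} {α : Ordinal.{u}} {b b' : Ordinal.{u} → D} (h : ∀ ξ < α, a ⊓ b ξ = a ⊓ b' ξ) :
    a ≤ beq (subN α b) (subN α b') := by
  rw [le_beq_iff]
  refine ⟨fun z => ?_, fun z => ?_⟩
  · rw [bmem_subN, bmem_subN, inf_iSup_eq]
    refine iSup_mono fun ξ => ?_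
    rw [← inf_assoc, h ξ.1 ξ.2]
    exact inf_le_inf_right _ inf_le_right
  · rw [bmem_subN, bmem_subN, inf_iSup_eq]
    refine iSup_mono fun ξ => ?_
    rw [← inf_assoc, ← h ξ.1 ξ.2]
    exact inf_le_inf_right _ inf_le_right

/-! ### Symmetry -/

variable {S : SymSys D}

theorem Nam_ac_mk (g : S.G) (α : Type u) (A : α → BSet D) (B : α → D) :
    S.ac g (.mk α A B) = .mk α (fun a => S.ac g (A a)) fun a => S.act g (B a) := rfl

theorem ac_upB (g : S.G) (x y : BSet D) : S.ac g (upB x y) = upB (S.ac g x) (S.ac g y) := by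
  unfold upB
  rw [Nam_ac_mk]
  have h1 : (fun a : ULift.{u} Bool => S.ac g (cond a.down x y)) =
      fun a => cond a.down (S.ac g x) (S.ac g y) := by
    funext a
    rcases a with ⟨_ | _⟩ <;> rfl
  have h2 : (fun _ : ULift.{u} Bool => S.act g (⊤ : D)) = fun _ => ⊤ := by
    funext _
    exact OrderIso.map_top _
  rw [h1, h2]

theorem ac_prB (g : S.G) (x y : BSet D) : S.ac g (prB x y) = prB (S.ac g x) (S.ac g y) := by
  unfold prB
  rw [ac_upB, ac_upB, ac_upB]

theorem ac_subN (g : S.G) (α : Ordinal.{u}) (b : Ordinal.{u} → D) :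
    S.ac g (subN α b) = subN α fun ξ => S.act g (b ξ) := by
  unfold subN
  rw [Nam_ac_mk]
  have h1 : (fun a : α.ToType => S.ac g (chkO D (tp a))) = fun a => chkO D (tp a) := by
    funext a
    exact ac_chkO g _
  rw [h1]

theorem Nam_sup_upB {i : S.ι} {x y : BSet D} (hx : S.Sup i x) (hy : S.Sup i y) :
    S.Sup i (upB x y) := by
  intro g hg
  rw [ac_upB, eq_top_iff]
  refine le_trans ?_ (beq_upB_le _ _ _ _)
  rw [hx g hg, hy g hg, inf_top_eq]

theorem sup_prB {i : S.ι} {x y : BSet D} (hx : S.Sup i x) (hy : S.Sup i y) : S.Sup i (prB x y) :=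
  Nam_sup_upB (Nam_sup_upB hx hx) (Nam_sup_upB hx hy)

theorem HS_upB {x y : BSet D} (hx : S.HS x) (hy : S.HS y) : S.HS (upB x y) := by
  rw [HS_def]
  constructor
  · obtain ⟨⟨i, hi⟩, -⟩ := (HS_def S x).1 hx
    obtain ⟨⟨j, hj⟩, -⟩ := (HS_def S y).1 hy
    obtain ⟨k, h1, h2⟩ := S.dir i j
    exact ⟨k, Nam_sup_upB (Sup.mono hi h1) (Sup.mono hj h2)⟩
  · intro a
    rcases a with ⟨_ | _⟩
    · exact hy
    · exact hx

theorem HS_prB {x y : BSet D} (hx : S.HS x) (hy : S.HS y) : S.HS (prB x y) :=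
  HS_upB (HS_upB hx hx) (HS_upB hx hy)

theorem sup_subN {i : S.ι} (α : Ordinal.{u}) {b : Ordinal.{u} → D} (h : ∀ ξ < α, S.Fix i (b ξ)) :
    S.Sup i (subN α b) := by
  intro g hg
  rw [ac_subN, eq_top_iff]
  refine le_beq_subN fun ξ hξ => ?_
  rw [h ξ hξ g hg]

theorem HS_subN {i : S.ι} (α : Ordinal.{u}) {b : Ordinal.{u} → D} (h : ∀ ξ < α, S.Fix i (b ξ)) :
    S.HS (subN α b) := by
  rw [HS_def]
  exact ⟨⟨i, sup_subN α h⟩, fun a => HS_chkO _⟩

theorem sup_relN {i : S.ι} (α β : Ordinal.{u}) {w : Ordinal.{u} → Ordinal.{u} → D}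
    (h : ∀ ξ < α, ∀ η < β, S.Fix i (w ξ η)) : S.Sup i (relN α β w) := by
  intro g hg
  have h0 : S.ac g (relN α β w) = relN α β w := by
    unfold relN
    rw [Nam_ac_mk]
    have h1 : (fun a : α.ToType × β.ToType =>
        S.ac g (prB (chkO D (tp a.1)) (chkO D (tp a.2)))) =
        fun a => prB (chkO D (tp a.1)) (chkO D (tp a.2)) := by
      funext a
      rw [ac_prB, ac_chkO, ac_chkO]
    have h2 : (fun a : α.ToType × β.ToType => S.act g (w (tp a.1) (tp a.2))) =
        fun a => w (tp a.1) (tp a.2) := by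
      funext a
      exact h _ (tp_lt a.1) _ (tp_lt a.2) g hg
    rw [h1, h2]
  rw [h0]
  exact beq_refl _

theorem HS_relN {i : S.ι} (α β : Ordinal.{u}) {w : Ordinal.{u} → Ordinal.{u} → D}
    (h : ∀ ξ < α, ∀ η < β, S.Fix i (w ξ η)) : S.HS (relN α β w) := by
  rw [HS_def]
  exact ⟨⟨i, sup_relN α β h⟩, fun a => HS_prB (HS_chkO _) (HS_chkO _)⟩

end SYM
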