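import Pool.Agent.W_MP_790ce2_lc.ZBasic

/-!
# MP_790ce2_lc (copied from W_MP_83aea7_lc) : ordinals and natural numbers in a model of ZF
-/

namespace ZFM
universe u
variable {N : Type u} {E : N → N → Prop}

theorem IsOrd.trans {a x y : N} (h : IsOrd E a) (hy : E y a) (hx : E x y) : E x a := h.1 y hy x hx

theorem IsOrd.mem {a x : N} (h : IsOrd E a) (hx : E x a) : IsOrd E x :=
  ⟨h.2 x hx, fun y hy => h.2 y (h.trans hx hy)⟩

section
variable (hZ : IsZF E)
include hZ

/-- least element principle for definable properties of ordinals -/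
theorem IsOrd.least {P : N → Prop} (hP : Def1 E P) {α : N} (hα : IsOrd E α) (h : P α) :
    ∃ β, IsOrd E β ∧ P β ∧ ∀ γ, E γ β → ¬ P γ := by
  obtain ⟨s, hs⟩ := hZ.exSucc α
  obtain ⟨x, hx, hPx, hmin⟩ := hZ.minOf hP (a := s) ⟨α, (hs α).2 (Or.inr rfl), h⟩
  have hxo : IsOrd E x := by
    rcases (hs x).1 hx with h1 | rfl
    · exact hα.mem h1
    · exact hα
  refine ⟨x, hxo, hPx, fun γ hγ => hmin γ hγ ((hs γ).2 ?_)⟩
  rcases (hs x).1 hx with h1 | rfl
  · exact Or.inl (hα.trans h1 hγ)
  · exact Or.inl hγ

/-- induction on ordinals for definable properties -/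
theorem IsOrd.ind {P : N → Prop} (hP : Def1 E P) (h : ∀ α, IsOrd E α → (∀ β, E β α → P β) → P α) :
    ∀ α, IsOrd E α → P α := by
  intro α hα
  by_contra hn
  obtain ⟨β, hβ, hPβ, hmin⟩ := hα.least hZ (P := fun x => ¬ P x) hP.not hn
  exact hPβ (h β hβ fun γ hγ => by simpa using hmin γ hγ)

theorem IsOrd.tri {a b : N} (ha : IsOrd E a) (hb : IsOrd E b) : E a b ∨ a = b ∨ E b a := by
  by_contra hn
  obtain ⟨α, hα, ⟨β', hβ', hn'⟩, hmin⟩ := ha.least hZ
    (P := fun a => ∃ b, IsOrd E b ∧ ¬ (E a b ∨ a = b ∨ E b a)) (by (repeat' (first | assumption | (apply DefFun.comp; assumption) | apply IsNum.df | apply CarriesUniform.df | apply IsUltra.df | apply IsBij.df | apply IsCofOmega.df | apply IsAleph.df | apply IsAlephFun.df | apply IsReg.df | apply IsSuccCard.df | apply IsInfCard.df | apply IsCard.df | apply Maps.df | apply IsFun.df | apply App.df | apply IsOmega.df | apply IsNat.df | apply IsZS.df | apply IsOrd.df | apply IsTr.df | apply IsSucc.df | apply IsPair.df | apply IsUPair.df | apply IsEmp.df | apply Sub.df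 | exact DefFun.var _ | exact DefFun.const _ | apply Def.eq | apply Def.mem | apply Def.not | apply Def.and | apply Def.or | apply Def.iff | apply Def.imp | apply Def.exU | apply Def.ex | apply Def.all))) ⟨b, hb, hn⟩
  obtain ⟨β, hβ, hn2, hmin2⟩ := hβ'.least hZ (P := fun b => ¬ (E α b ∨ α = b ∨ E b α)) (by (repeat' (first | assumption | (apply DefFun.comp; assumption) | apply IsNum.df | apply CarriesUniform.df | apply IsUltra.df | apply IsBij.df | apply IsCofOmega.df | apply IsAleph.df | apply IsAlephFun.df | apply IsReg.df | apply IsSuccCard.df | apply IsInfCard.df | apply IsCard.df | apply Maps.df | apply IsFun.df | apply App.df | apply IsOmega.df | apply IsNat.df | apply IsZS.df | apply IsOrd.df | apply IsTr.df | apply IsSucc.df | apply IsPair.df | apply IsUPair.df | apply IsEmp.df | apply Sub.df | exact DefFun.var _ | exact DefFun.const _ | apply Def.eq | apply Def.mem | apply Def.not | apply Def.and | apply Def.or | apply Def.iff | apply Def.imp | apply Def.exU | apply Def.ex | apply Def.all))) hn'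
  apply hn2
  right; left
  refine hZ.ext _ _ fun γ => ⟨fun hγ => ?_, fun hγ => ?_⟩
  · have h1 := hmin γ hγ
    push Not at h1
    by_contra h2
    by_cases h3 : γ = β
    · subst h3
      exact hn2 (Or.inr (Or.inr hγ))
    · by_cases h4 : E β γ
      · exact hn2 (Or.inr (Or.inr (hα.trans hγ h4)))
      · have := h1 β hβ
        tauto
  · have h1 := hmin2 γ hγ
    push Not at h1
    rcases h1 with h1 | rfl | h1
    · exact (hn2 (Or.inl (hβ.trans hγ h1))).elim
    · exact (hn2 (Or.inl hγ)).elim
    · exact h1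

theorem IsOrd.sub_iff {a b : N} (ha : IsOrd E a) (hb : IsOrd E b) : Sub E a b ↔ E a b ∨ a = b := by
  constructor
  · intro h
    rcases ha.tri hZ hb with h1 | h1 | h1
    · exact Or.inl h1
    · exact Or.inr h1
    · exact (hZ.irrefl b (h b h1)).elim
  · rintro (h | rfl)
    · exact fun x hx => hb.trans h hx
    · exact fun x hx => hx

omit hZ in
theorem IsSucc.ord {a b : N} (h : IsOrd E a) (hs : IsSucc E b a) : IsOrd E b := by
  constructor
  · intro y hy z hz
    rcases (hs y).1 hy with h1 | rfl
    · exact (hs z).2 (Or.inl (h.trans h1 hz))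
    · exact (hs z).2 (Or.inl hz)
  · intro y hy
    rcases (hs y).1 hy with h1 | rfl
    · exact h.2 y h1
    · exact h.1

/-- the union of a set of ordinals is an ordinal -/
theorem IsZF.ordUnion {a : N} (ha : ∀ x, E x a → IsOrd E x) : ∃ b, IsOrd E b ∧ ∀ x, E x b ↔ ∃ y, E y a ∧ E x y := by
  obtain ⟨b, hb⟩ := hZ.union a
  refine ⟨b, ⟨fun y hy z hz => ?_, fun y hy => ?_⟩, hb⟩
  · obtain ⟨w, hw, hy'⟩ := (hb y).1 hy
    exact (hb z).2 ⟨w, hw, (ha w hw).trans hy' hz⟩
  · obtain ⟨w, hw, hy'⟩ := (hb y).1 hy
    exact (ha w hw).2 y hy'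

/-- a set of ordinals has a strict upper bound which is an ordinal -/
theorem IsZF.ordBound {a : N} (ha : ∀ x, E x a → IsOrd E x) : ∃ β, IsOrd E β ∧ ∀ x, E x a → E x β := by
  obtain ⟨b, hb, hb'⟩ := hZ.ordUnion ha
  obtain ⟨s, hs⟩ := hZ.exSucc b
  refine ⟨s, hs.ord hb, fun x hx => (hs x).2 ?_⟩
  exact ((ha x hx).sub_iff hZ hb).1 fun y hy => (hb' y).2 ⟨x, hx, hy⟩

/-- there is no set containing all ordinals -/
theorem IsZF.noOrd : ¬ ∃ a, ∀ x, IsOrd E x → E x a := by
  rintro ⟨a, ha⟩
  obtain ⟨b, hb⟩ := hZ.sep1 (P := fun x => IsOrd E x) (by (repeat' (first | assumption | (apply DefFun.comp; assumption) | apply IsNum.df | apply CarriesUniform.df | apply IsUltra.df | apply IsBij.df | apply IsCofOmega.df | apply IsAleph.df | apply IsAlephFun.df | apply IsReg.df | apply IsSuccCard.df | apply IsInfCard.df | apply IsCard.df | apply Maps.df | apply IsFun.df | apply App.df | apply IsOmega.df | apply IsNat.df | apply IsZS.df | apply IsOrd.df | apply IsTr.df | apply IsSucc.df | apply IsPair.df | apply IsUPair.df | apply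 IsEmp.df | apply Sub.df | exact DefFun.var _ | exact DefFun.const _ | apply Def.eq | apply Def.mem | apply Def.not | apply Def.and | apply Def.or | apply Def.iff | apply Def.imp | apply Def.exU | apply Def.ex | apply Def.all))) a
  obtain ⟨β, hβ, hlt⟩ := hZ.ordBound (a := b) fun x hx => ((hb x).1 hx).2
  exact hZ.irrefl β (hlt β ((hb β).2 ⟨ha β hβ, hβ⟩))

omit hZ in
theorem IsEmp.ord {z : N} (h : IsEmp E z) : IsOrd E z :=
  ⟨fun y hy => (h y hy).elim, fun y hy => (h y hy).elim⟩

omit hZ in
theorem IsNat.mem {n m : N} (h : IsNat E n) (hm : E m n) : IsNat E m :=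
  ⟨h.1.mem hm, h.2.2 m hm, fun x hx => h.2.2 x (h.1.trans hm hx)⟩

omit hZ in
theorem IsEmp.nat {z : N} (h : IsEmp E z) : IsNat E z :=
  ⟨h.ord, Or.inl h, fun m hm => (h m hm).elim⟩

omit hZ in
theorem IsSucc.nat {n m : N} (hs : IsSucc E m n) (h : IsNat E n) : IsNat E m := by
  refine ⟨hs.ord h.1, Or.inr ⟨n, hs⟩, fun x hx => ?_⟩
  rcases (hs x).1 hx with h1 | rfl
  · exact h.2.2 x h1
  · exact h.2.1

omit hZ in
theorem IsSucc.self {n m : N} (hs : IsSucc E m n) : E n m := (hs n).2 (Or.inr rfl)

/-- induction on natural numbers for definable properties -/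
theorem IsNat.ind {P : N → Prop} (hP : Def1 E P) (h0 : ∀ z, IsEmp E z → P z)
    (hs : ∀ n m, IsNat E n → IsSucc E m n → P n → P m) : ∀ n, IsNat E n → P n := by
  intro n hn
  refine IsOrd.ind hZ (P := fun n => IsNat E n → P n) (by (repeat' (first | assumption | (apply DefFun.comp; assumption) | apply IsNum.df | apply CarriesUniform.df | apply IsUltra.df | apply IsBij.df | apply IsCofOmega.df | apply IsAleph.df | apply IsAlephFun.df | apply IsReg.df | apply IsSuccCard.df | apply IsInfCard.df | apply IsCard.df | apply Maps.df | apply IsFun.df | apply App.df | apply IsOmega.df | apply IsNat.df | apply IsZS.df | apply IsOrd.df | apply IsTr.df | apply IsSucc.df | apply IsPair.df | apply IsUPair.df | apply IsEmp.df | apply Sub.df | exact DefFun.var _ | exact DefFun.const _ | apply Def.eq | apply Def.mem | apply Def.not | apply Def.and | apply Def.or | apply Def.iff | apply Def.imp | apply Def.exU | apply Def.ex | apply Def.all))) ?_ n hn.1 hn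
  intro α _ ih hα
  rcases hα.2.1 with h | ⟨y, hy⟩
  · exact h0 α h
  · exact hs y α (hα.mem hy.self) hy (ih y hy.self (hα.mem hy.self))

/-- strong induction on natural numbers -/
theorem IsNat.sind {P : N → Prop} (hP : Def1 E P) (h : ∀ n, IsNat E n → (∀ m, E m n → P m) → P n) :
    ∀ n, IsNat E n → P n := by
  intro n hn
  exact IsOrd.ind hZ (P := fun n => IsNat E n → P n) (by (repeat' (first | assumption | (apply DefFun.comp; assumption) | apply IsNum.df | apply CarriesUniform.df | apply IsUltra.df | apply IsBij.df | apply IsCofOmega.df | apply IsAleph.df | apply IsAlephFun.df | apply IsReg.df | apply IsSuccCard.df | apply IsInfCard.df | apply IsCard.df | apply Maps.df | apply IsFun.df | apply App.df | apply IsOmega.df | apply IsNat.df | apply IsZS.df | apply IsOrd.df | apply IsTr.df | apply IsSucc.df | apply IsPair.df | apply IsUPair.df | apply IsEmp.df | apply Sub.df | exact DefFun.var _ | exact DefFun.const _ | apply Def.eq | apply Def.mem | apply Def.not | apply Def.and | apply Def.or | apply Def.iff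 | apply Def.imp | apply Def.exU | apply Def.ex | apply Def.all)))
    (fun α _ ih hα => h α hα fun m hm => ih m hm (hα.mem hm)) n hn.1 hn

theorem IsOmega.mem_iff {w : N} (h : IsOmega E w) {n : N} : E n w ↔ IsNat E n := by
  constructor
  · intro hn
    exact ⟨h.1.mem hn, h.2.2.2 n hn, fun m hm => h.2.2.2 m (h.1.trans hn hm)⟩
  · intro hn
    refine IsNat.ind hZ (P := fun n => E n w) (by (repeat' (first | assumption | (apply DefFun.comp; assumption) | apply IsNum.df | apply CarriesUniform.df | apply IsUltra.df | apply IsBij.df | apply IsCofOmega.df | apply IsAleph.df | apply IsAlephFun.df | apply IsReg.df | apply IsSuccCard.df | apply IsInfCard.df | apply IsCard.df | apply Maps.df | apply IsFun.df | apply App.df | apply IsOmega.df | apply IsNat.df | apply IsZS.df | apply IsOrd.df | apply IsTr.df | apply IsSucc.df | apply IsPair.df | apply IsUPair.df | apply IsEmp.df | apply Sub.df | exact DefFun.var _ | exact DefFun.const _ | apply Def.eq | apply Def.mem | apply Def.not | apply Def.and | apply Def.or | apply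 Def.iff | apply Def.imp | apply Def.exU | apply Def.ex | apply Def.all))) ?_ ?_ n hn
    · intro z hz
      obtain ⟨x, hx⟩ := h.2.1
      have hzo := hz.ord
      rcases hzo.tri hZ (h.1.mem hx) with h1 | rfl | h1
      · exact h.1.trans hx h1
      · exact hx
      · exact (hz x h1).elim
    · intro n m _ hs hn
      obtain ⟨y, hy, hy'⟩ := h.2.2.1 n hn
      rwa [IsSucc.uniq hZ hs hy']

theorem IsOmega.uniq {w w' : N} (h : IsOmega E w) (h' : IsOmega E w') : w = w' :=
  hZ.ext _ _ fun n => (h.mem_iff hZ).trans (h'.mem_iff hZ).symm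

theorem IsZF.exOmega : ∃ w, IsOmega E w := by
  obtain ⟨a, ⟨z, hz, hza⟩, hs⟩ := hZ.inf
  obtain ⟨w, hw⟩ := hZ.sep1 (P := fun n => IsNat E n) (by (repeat' (first | assumption | (apply DefFun.comp; assumption) | apply IsNum.df | apply CarriesUniform.df | apply IsUltra.df | apply IsBij.df | apply IsCofOmega.df | apply IsAleph.df | apply IsAlephFun.df | apply IsReg.df | apply IsSuccCard.df | apply IsInfCard.df | apply IsCard.df | apply Maps.df | apply IsFun.df | apply App.df | apply IsOmega.df | apply IsNat.df | apply IsZS.df | apply IsOrd.df | apply IsTr.df | apply IsSucc.df | apply IsPair.df | apply IsUPair.df | apply IsEmp.df | apply Sub.df | exact DefFun.var _ | exact DefFun.const _ | apply Def.eq | apply Def.mem | apply Def.not | apply Def.and | apply Def.or | apply Def.iff | apply Def.imp | apply Def.exU | apply Def.ex | apply Def.all))) a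
  have hmem : ∀ n, E n w ↔ IsNat E n := by
    intro n
    rw [hw]
    refine ⟨fun h => h.2, fun h => ⟨?_, h⟩⟩
    refine IsNat.ind hZ (P := fun m => E m a) (by (repeat' (first | assumption | (apply DefFun.comp; assumption) | apply IsNum.df | apply CarriesUniform.df | apply IsUltra.df | apply IsBij.df | apply IsCofOmega.df | apply IsAleph.df | apply IsAlephFun.df | apply IsReg.df | apply IsSuccCard.df | apply IsInfCard.df | apply IsCard.df | apply Maps.df | apply IsFun.df | apply App.df | apply IsOmega.df | apply IsNat.df | apply IsZS.df | apply IsOrd.df | apply IsTr.df | apply IsSucc.df | apply IsPair.df | apply IsUPair.df | apply IsEmp.df | apply Sub.df | exact DefFun.var _ | exact DefFun.const _ | apply Def.eq | apply Def.mem | apply Def.not | apply Def.and | apply Def.or | apply Def.iff | apply Def.imp | apply Def.exU | apply Def.ex | apply Def.all))) ?_ ?_ n h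
    · intro z' hz'
      rwa [IsEmp.uniq hZ hz' hz]
    · intro n m _ hm hn
      obtain ⟨y, hy, hya⟩ := hs n hn
      rwa [IsSucc.uniq hZ hm hy]
  refine ⟨w, ⟨fun y hy x hx => ?_, fun y hy => ((hmem y).1 hy).1.1⟩, ⟨z, (hmem z).2 (IsEmp.nat hz)⟩, ?_, ?_⟩
  · exact (hmem x).2 (((hmem y).1 hy).mem hx)
  · intro x hx
    obtain ⟨y, hy⟩ := hZ.exSucc x
    exact ⟨y, (hmem y).2 (hy.nat ((hmem x).1 hx)), hy⟩
  · intro x hx
    exact ((hmem x).1 hx).2.1

omit hZ in
theorem IsNum.nat {n : ℕ} {x : N} (h : IsNum E n x) : IsNat E x := by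
  induction n generalizing x with
  | zero => exact IsEmp.nat h
  | succ n ih =>
    obtain ⟨y, hy, hs⟩ := h
    exact hs.nat (ih hy)

theorem IsNum.uniq {n : ℕ} {x y : N} (h : IsNum E n x) (h' : IsNum E n y) : x = y := by
  induction n generalizing x y with
  | zero => exact IsEmp.uniq hZ h h'
  | succ n ih =>
    obtain ⟨x', hx, hs⟩ := h
    obtain ⟨y', hy, hs'⟩ := h'
    obtain rfl := ih hx hy
    exact IsSucc.uniq hZ hs hs'

theorem IsSucc.inj {a b c : N} (h : IsSucc E c a) (h' : IsSucc E c b) : a = b := by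
  rcases (h' a).1 h.self with h1 | h1
  · rcases (h b).1 h'.self with h2 | h2
    · exact (hZ.asymm h1 h2).elim
    · exact h2.symm
  · exact h1

theorem IsNum.inj {n m : ℕ} {x : N} (h : IsNum E n x) (h' : IsNum E m x) : n = m := by
  induction n generalizing m x with
  | zero =>
    cases m with
    | zero => rfl
    | succ m =>
      obtain ⟨y, _, hs⟩ := h'
      exact (h y hs.self).elim
  | succ n ih =>
    cases m with
    | zero =>
      obtain ⟨y, _, hs⟩ := h
      exact (h' y hs.self).elim
    | succ m =>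
      obtain ⟨y, hy, hs⟩ := h
      obtain ⟨y', hy', hs'⟩ := h'
      obtain rfl := IsSucc.inj hZ hs hs'
      rw [ih hy hy']

theorem IsZF.exNum (n : ℕ) : ∃ x, IsNum E n x := by
  induction n with
  | zero => exact hZ.exEmp
  | succ n ih =>
    obtain ⟨x, hx⟩ := ih
    obtain ⟨y, hy⟩ := hZ.exSucc x
    exact ⟨y, x, hx, hy⟩

end

end ZFM
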