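import Pool.Agent.W_MP_790ce2_lc.ZFd
import Pool.Agent.W_MP_790ce2_lc.ZOrd

/-!
# MP_790ce2_lc : ordinals, pairs, subsets of ordinals and relations between ordinals in the generic models

`G.O α` : the canonical name of `α` belongs to the model. Every ordinal of the model is `G.ord α` for exactly one `α`
with `G.O α`. Note that `G.O β` and `α < β` do not imply `G.O α`; use `Gen.extend` / `Gen.pull` to add names.
-/

universe u v

namespace SYM

open IM (BSet)
open IM.BSet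
open BVM (IsUF rkEq)
open ZFM

variable {D : Type u} [CompleteBooleanAlgebra D] {S : SymSys D}

namespace Gen

/-- the name of the ordinal `α` belongs to the model -/
def O (G : Gen S) (α : Ordinal.{u}) : Prop := chkO D α ∈ G.N

/-- the ordinal of the model given by `α` -/
noncomputable def ord (G : Gen S) (α : Ordinal.{u}) : G.M := G.val (chkO D α)

variable {G : Gen S}

theorem E_ord {α β : Ordinal.{u}} (hα : G.O α) (hβ : G.O β) : G.E (G.ord α) (G.ord β) ↔ α < β := by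
  unfold ord
  rw [E_val hα hβ]
  constructor
  · intro h
    by_contra hn
    rw [bmem_chkO_of_le (not_lt.1 hn)] at h
    exact G.uf.bot h
  · intro h
    rw [bmem_chkO_of_lt h]
    exact G.uf.top

theorem ord_inj {α β : Ordinal.{u}} (hα : G.O α) (hβ : G.O β) : G.ord α = G.ord β ↔ α = β := by
  constructor
  · intro h
    by_contra hn
    unfold ord at h
    rw [val_eq hα hβ, beq_chkO hn] at h
    exact G.uf.bot h
  · intro h
    rw [h]

theorem mem_ord {β : Ordinal.{u}} (hβ : G.O β) {z : G.M} : G.E z (G.ord β) ↔ ∃ α < β, G.O α ∧ z = G.ord α := by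
  constructor
  · intro h
    have h1 : ∀ y : BSet D, y = chkO D β → y ∈ G.N → G.E z (G.val y) →
        ∃ α < β, G.O α ∧ z = G.ord α := by
      intro y hy hyN hz
      rw [chkO_eq] at hy
      subst hy
      obtain ⟨b, hb, hzb, -⟩ := (mem_iff hyN).1 hz
      exact ⟨tp b, tp_lt b, hb, hzb⟩
    exact h1 _ rfl hβ h
  · rintro ⟨α, hαβ, hα, rfl⟩
    exact (E_ord hα hβ).2 hαβ

theorem isOrd_ord {α : Ordinal.{u}} (hα : G.O α) : IsOrd G.E (G.ord α) := by
  have key : ∀ {β : Ordinal.{u}}, G.O β → IsTr G.E (G.ord β) := by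
    intro β hβ y hy z hz
    obtain ⟨ξ, hξβ, hξ, rfl⟩ := (mem_ord hβ).1 hy
    obtain ⟨η, hηξ, hη, rfl⟩ := (mem_ord hξ).1 hz
    exact (E_ord hη hβ).2 (hηξ.trans hξβ)
  refine ⟨key hα, fun y hy => ?_⟩
  obtain ⟨ξ, -, hξ, rfl⟩ := (mem_ord hα).1 hy
  exact key hξ

/-- Every ordinal of the model is given by an ordinal. Let `x` be an ordinal of the model, `x = G.val x'`. The name of
`β = bnd x'` belongs to the model (`Gen.bd`). By trichotomy (`ZFM.IsOrd.tri`) `x ∈ β̌`, then `mem_ord`, or `x = β̌` or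
`β̌ ∈ x`, which is impossible as the rank of `x'` is less than `β` and the rank of `β̌` is `β`
(`exists_rkLe_bnd`, `rkEq_chkO`, `BVM.rkEq_lt`). -/
theorem isOrd_iff {x : G.M} : IsOrd G.E x ↔ ∃ α, G.O α ∧ x = G.ord α := by
  constructor
  · intro hx
    obtain ⟨x', hx', rfl⟩ := exists_name x
    have hβ : G.O (bnd x') := G.bd x' hx'
    rcases IsOrd.tri G.zf hx (isOrd_ord hβ) with h | h | h
    · obtain ⟨α, -, hα, h1⟩ := (mem_ord hβ).1 h
      exact ⟨α, hα, h1⟩
    · exact ⟨bnd x', hβ, h⟩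
    · exfalso
      unfold ord at h
      rw [E_val hβ hx'] at h
      obtain ⟨q, hq⟩ := G.rk x' hx'
      have h1 : G.lam (rkEq (chkO D (bnd x')) (bnd x')) := by
        rw [rkEq_chkO]
        exact G.uf.top
      have h2 : bnd x' < q := BVM.rkEq_lt G.uf h1 hq h
      obtain ⟨o, ho, ho2⟩ := exists_rkLe_bnd x'
      have h3 := (G.uf.inf_iff.1 hq).2
      rw [G.uf.compl_iff] at h3
      apply h3
      refine G.uf.mono (a := ⊤) ?_ G.uf.top
      rw [← ho2]
      exact le_iSup (fun k : Set.Iio q => BVM.rkLe x' k.1) ⟨o, ho.trans h2⟩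
  · rintro ⟨α, hα, rfl⟩
    exact isOrd_ord hα

/-- transfer of a statement about ordinals to a model which contains one more ordinal -/
theorem og_extend {k : ℕ} {R : ∀ (T : Type) (_ : T → T → Prop), (Fin k → T) → Prop} (hR : ZFM.FO R)
    {a : Fin k → Ordinal.{u}} (ha : ∀ i, G.O (a i)) (h : R G.M G.E fun i => G.ord (a i))
    (β : Ordinal.{u}) :
    ∃ G' : Gen S, (∀ i, G'.O (a i)) ∧ G'.O β ∧ R G'.M G'.E fun i => G'.ord (a i) := by
  obtain ⟨G', h1, h2, -, h4⟩ := extend (G := G) hR (w := fun i => chkO D (a i)) ha h G.uf.top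
    {chkO D β} (Set.countable_singleton _) (by
      intro x hx
      rw [Set.mem_singleton_iff.1 hx]
      exact HS_chkO β)
  exact ⟨G', h1, h2 (Set.mem_singleton _), h4⟩

theorem og_succ {α β : Ordinal.{u}} (hα : G.O α) (hβ : G.O β) (h : IsSucc G.E (G.ord β) (G.ord α)) :
    β = Order.succ α := by
  have h1 : α < β := (E_ord hα hβ).1 ((h _).2 (Or.inr rfl))
  have h2 : Order.succ α ≤ β := Order.succ_le_of_lt h1
  by_contra hne
  have h3 : Order.succ α < β := lt_of_le_of_ne h2 (Ne.symm hne)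
  obtain ⟨G', ha, hs, hR⟩ := og_extend (G := G) (R := fun T E v => IsSucc E (v 1) (v 0))
    (IsSucc.fo 1 0) (a := ![α, β]) (by
      intro i
      refine Fin.cases ?_ (fun j => ?_) i
      · exact hα
      · refine Fin.cases ?_ (fun j => j.elim0) j
        exact hβ) h (Order.succ α)
  have hα' : G'.O α := ha 0
  have hβ' : G'.O β := ha 1
  have h4 : G'.E (G'.ord (Order.succ α)) (G'.ord β) := (E_ord hs hβ').2 h3
  rcases (hR (G'.ord (Order.succ α))).1 h4 with h5 | h5
  · exact absurd ((E_ord hs hα').1 h5) (not_lt.2 (Order.le_succ α))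
  · exact absurd ((ord_inj hs hα').1 h5) (ne_of_gt (Order.lt_succ α))

theorem O_succ {α : Ordinal.{u}} (hα : G.O α) : G.O (Order.succ α) := by
  obtain ⟨s, hs⟩ := G.zf.exSucc (G.ord α)
  obtain ⟨γ, hγ, rfl⟩ := isOrd_iff.1 (IsSucc.ord (isOrd_ord hα) hs)
  rw [← og_succ hα hγ hs]
  exact hγ

theorem O_zero : G.O 0 := by
  obtain ⟨e, he⟩ := G.zf.exEmp
  obtain ⟨γ, hγ, rfl⟩ := isOrd_iff.1 (IsEmp.ord he)
  by_cases h0 : γ = 0
  · rw [← h0]
    exact hγ
  exfalso
  obtain ⟨G', ha, hs, hR⟩ := og_extend (G := G) (R := fun T E v => IsEmp E (v 0))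
    (IsEmp.fo 0) (a := fun _ : Fin 1 => γ) (fun _ => hγ) he 0
  exact hR _ ((E_ord hs (ha 0)).2 (pos_iff_ne_zero.2 h0))

theorem O_natCast (n : ℕ) : G.O n := by
  induction n with
  | zero =>
    rw [Nat.cast_zero]
    exact O_zero
  | succ n ih =>
    have h := O_succ ih
    rw [Order.succ_eq_add_one] at h
    rw [Nat.cast_succ]
    exact h

theorem og_omega {γ : Ordinal.{u}} (hγ : G.O γ) (h : IsOmega G.E (G.ord γ)) :
    γ = Ordinal.omega0 := by
  have hnat : ∀ n : ℕ, (n : Ordinal.{u}) < γ := by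
    intro n
    induction n with
    | zero =>
      obtain ⟨z, hz⟩ := h.2.1
      obtain ⟨ξ, hξ, -, -⟩ := (mem_ord hγ).1 hz
      rw [Nat.cast_zero]
      exact lt_of_le_of_lt (zero_le (a := ξ)) hξ
    | succ n ih =>
      obtain ⟨y, hy, hys⟩ := h.2.2.1 (G.ord n) ((E_ord (O_natCast n) hγ).2 ih)
      obtain ⟨η, hηγ, hη, rfl⟩ := (mem_ord hγ).1 hy
      have h1 := og_succ (O_natCast n) hη hys
      rw [Nat.cast_succ, ← Order.succ_eq_add_one, ← h1]
      exact hηγ
  have hle : Ordinal.omega0 ≤ γ := Ordinal.omega0_le.2 fun n => (hnat n).le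
  by_contra hne
  have hlt : Ordinal.omega0 < γ := lt_of_le_of_ne hle (Ne.symm hne)
  obtain ⟨G', ha, hs, hR⟩ := og_extend (G := G) (R := fun T E v => IsOmega E (v 0))
    (IsOmega.fo 0) (a := fun _ : Fin 1 => γ) (fun _ => hγ) h Ordinal.omega0
  have h1 : G'.E (G'.ord Ordinal.omega0) (G'.ord γ) := (E_ord hs (ha 0)).2 hlt
  rcases hR.2.2.2 _ h1 with h2 | ⟨y, hy⟩
  · exact h2 _ ((E_ord (O_natCast 0) hs).2 (Ordinal.natCast_lt_omega0 0))
  · obtain ⟨η, hηω, hη, rfl⟩ := (mem_ord hs).1 ((hy y).2 (Or.inr rfl))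
    obtain ⟨n, rfl⟩ := Ordinal.lt_omega0.1 hηω
    have h3 := og_succ hη hs hy
    have h4 : ((n + 1 : ℕ) : Ordinal.{u}) < Ordinal.omega0 := Ordinal.natCast_lt_omega0 (n + 1)
    rw [Nat.cast_succ, ← Order.succ_eq_add_one, ← h3] at h4
    exact lt_irrefl _ h4

theorem O_omega0 : G.O Ordinal.omega0 := by
  obtain ⟨w, hw⟩ := G.zf.exOmega
  obtain ⟨γ, hγ, rfl⟩ := isOrd_iff.1 hw.1
  rw [← og_omega hγ hw]
  exact hγ

theorem isSucc_ord {α β : Ordinal.{u}} (hα : G.O α) (hβ : G.O β) :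
    IsSucc G.E (G.ord β) (G.ord α) ↔ β = Order.succ α := by
  constructor
  · exact og_succ hα hβ
  · rintro rfl
    obtain ⟨s, hs⟩ := G.zf.exSucc (G.ord α)
    obtain ⟨γ, hγ, rfl⟩ := isOrd_iff.1 (IsSucc.ord (isOrd_ord hα) hs)
    rw [← og_succ hα hγ hs]
    exact hs

theorem isOmega_iff {w : G.M} : IsOmega G.E w ↔ w = G.ord Ordinal.omega0 := by
  constructor
  · intro hw
    obtain ⟨γ, hγ, rfl⟩ := isOrd_iff.1 hw.1
    rw [og_omega hγ hw]
  · rintro rfl
    obtain ⟨w, hw⟩ := G.zf.exOmega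
    obtain ⟨γ, hγ, rfl⟩ := isOrd_iff.1 hw.1
    rw [← og_omega hγ hw]
    exact hw

end Gen

end SYM
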