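import Pool.Agent.W_MP_0bf392_lc.RO
import Pool.Agent.W_MP_790ce2_lc.Sym

/-!
# MP_790ce2_lc : partial functions with small domains, the action of the product of the symmetric groups
-/

universe u v

namespace SYM

open Cardinal Order
open scoped Cardinal

/-- index type, types of values, an ideal of small subsets of the index type -/
structure PF where
  X : Type u
  Y : X → Type u
  sm : Set X → Prop
  mono : ∀ s t, s ⊆ t → sm t → sm s
  union : ∀ s t, sm s → sm t → sm (s ∪ t)
  one : ∀ x, sm {x}
  emp : sm ∅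

namespace PF

variable (F : PF.{u})

/-- conditions: partial functions with small domains -/
def C : Type u := {p : ∀ x, Option (F.Y x) // F.sm {x | p x ≠ none}}

/-- stronger conditions are extensions -/
instance : PartialOrder F.C where
  le q p := ∀ x y, p.1 x = some y → q.1 x = some y
  le_refl p x y h := h
  le_trans p q r h1 h2 x y h := h1 x y (h2 x y h)
  le_antisymm p q h1 h2 := by
    apply Subtype.ext
    funext x
    rcases hp : p.1 x with _ | y
    · rcases hq : q.1 x with _ | y
      · rfl
      · rw [h1 x y hq] at hp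
        exact absurd hp (by simp)
    · exact (h2 x y hp).symm

variable {F}

theorem le_def (q p : F.C) : q ≤ p ↔ ∀ x y, p.1 x = some y → q.1 x = some y := Iff.rfl

/-- the domain -/
def dom (p : F.C) : Set F.X := {x | p.1 x ≠ none}

/-- compatible conditions -/
def Comp (p q : F.C) : Prop := ∀ x y z, p.1 x = some y → q.1 x = some z → y = z

open Classical in
/-- the union of two conditions (meaningful if they are compatible) -/
noncomputable def uni (p q : F.C) : F.C :=
  ⟨fun x => if p.1 x = none then q.1 x else p.1 x, F.mono _ _ (fun x hx => by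
    by_cases h : p.1 x = none
    · right
      simpa [h] using hx
    · left
      exact h) (F.union _ _ p.2 q.2)⟩

theorem uni_le_left (p q : F.C) : uni p q ≤ p := by
  intro x y h
  have h1 : p.1 x ≠ none := by rw [h]; exact Option.some_ne_none y
  change (if p.1 x = none then q.1 x else p.1 x) = some y
  rw [if_neg h1, h]

theorem uni_le_right {p q : F.C} (h : Comp p q) : uni p q ≤ q := by
  intro x y hq
  change (if p.1 x = none then q.1 x else p.1 x) = some y
  by_cases hp : p.1 x = none
  · rw [if_pos hp, hq]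
  · rw [if_neg hp]
    obtain ⟨z, hz⟩ := Option.ne_none_iff_exists'.1 hp
    rw [hz, h x z y hz hq]

theorem comp_of_le {p q r : F.C} (hp : r ≤ p) (hq : r ≤ q) : Comp p q := by
  intro x y z h1 h2
  have h3 := hp x y h1
  rw [hq x z h2] at h3
  exact (Option.some_injective _ h3).symm

open Classical in
/-- restriction of a condition -/
noncomputable def res (p : F.C) (s : Set F.X) : F.C :=
  ⟨fun x => if x ∈ s then p.1 x else none, F.mono _ {x | p.1 x ≠ none} (fun x hx => by
    intro h
    apply hx
    simp only [h, ite_self]) p.2⟩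

theorem le_res (p : F.C) (s : Set F.X) : p ≤ res p s := by
  classical
  intro x y h
  change (if x ∈ s then p.1 x else none) = some y at h
  by_cases hx : x ∈ s
  · rwa [if_pos hx] at h
  · rw [if_neg hx] at h
    exact absurd h (by simp)

open Classical in
/-- the condition with one value -/
noncomputable def sgl (x : F.X) (y : F.Y x) : F.C :=
  ⟨fun x' => if h : x' = x then some (h ▸ y) else none, F.mono _ _ (fun x' hx => by
    by_contra h
    exact hx (dif_neg h)) (F.one x)⟩

theorem sgl_self (x : F.X) (y : F.Y x) : (sgl x y).1 x = some y := by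
  unfold sgl
  exact dif_pos rfl

theorem le_sgl {x : F.X} {y : F.Y x} {p : F.C} : p ≤ sgl x y ↔ p.1 x = some y := by
  constructor
  · intro h
    exact h x y (sgl_self x y)
  · intro h x' y' h'
    by_cases hx : x' = x
    · subst hx
      rw [sgl_self] at h'
      rw [h, h']
    · have h2 : (sgl x y).1 x' = none := by
        unfold sgl
        exact dif_neg hx
      rw [h2] at h'
      exact absurd h' (by simp)

variable (F) in
/-- the group -/
abbrev Gr : Type u := ∀ x, Equiv.Perm (F.Y x)

/-- the action on conditions -/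
def gp (g : F.Gr) (p : F.C) : F.C := ⟨fun x => (p.1 x).map (g x), F.mono _ {x | p.1 x ≠ none} (fun x hx => by
    intro h
    apply hx
    simp only [h, Option.map_none]) p.2⟩

theorem gp_one (p : F.C) : gp 1 p = p := by
  apply Subtype.ext
  funext x
  change (p.1 x).map (fun y => y) = p.1 x
  cases p.1 x <;> rfl

theorem gp_mul (g h : F.Gr) (p : F.C) : gp (g * h) p = gp g (gp h p) := by
  apply Subtype.ext
  funext x
  change (p.1 x).map (fun y => g x (h x y)) = ((p.1 x).map (h x)).map (g x)
  rw [Option.map_map]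
  rfl

theorem PF_gp_mono (g : F.Gr) {p q : F.C} (h : p ≤ q) : gp g p ≤ gp g q := by
  intro x y hy
  change (q.1 x).map (g x) = some y at hy
  obtain ⟨z, hz, rfl⟩ := Option.map_eq_some_iff.1 hy
  change (p.1 x).map (g x) = some (g x z)
  rw [h x z hz]
  rfl

theorem PF_gp_inv_gp (g : F.Gr) (p : F.C) : gp g⁻¹ (gp g p) = p := by
  rw [← gp_mul, inv_mul_cancel, gp_one]

theorem PF_gp_gp_inv (g : F.Gr) (p : F.C) : gp g (gp g⁻¹ p) = p := by
  rw [← gp_mul, mul_inv_cancel, gp_one]

theorem gp_le {g : F.Gr} {p q : F.C} : gp g p ≤ gp g q ↔ p ≤ q := by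
  constructor
  · intro h
    have h1 := PF_gp_mono g⁻¹ h
    rwa [PF_gp_inv_gp, PF_gp_inv_gp] at h1
  · exact PF_gp_mono g

/-! ### The regular open algebra -/

/-- the value of a condition in the regular open algebra -/
noncomputable def em (p : F.C) : IM.RO F.C := IM.RO.cl {p}

theorem mem_em {p q : F.C} : q ∈ (em p).1 ↔ ∀ r ≤ q, Comp r p := by
  unfold em
  rw [IM.RO.mem_cl]
  constructor
  · intro h r hr
    obtain ⟨t, ht, t', ht', htt⟩ := h r hr
    rw [Set.mem_singleton_iff.1 ht'] at htt
    exact comp_of_le ht htt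
  · intro h r hr
    exact ⟨uni r p, uni_le_left r p, p, rfl, uni_le_right (h r hr)⟩

theorem PF_self_mem_em (p : F.C) : p ∈ (em p).1 :=
  mem_em.2 fun _ hr => comp_of_le (le_refl _) hr

theorem em_le {p : F.C} {u : IM.RO F.C} : em p ≤ u ↔ p ∈ u.1 := by
  constructor
  · intro h
    exact h (PF_self_mem_em p)
  · intro h q hq
    refine IM.RO.mem_of_dense fun r hr => ?_
    have hc : Comp r p := mem_em.1 hq r hr
    exact ⟨uni r p, uni_le_left r p, IM.RO.mem_lower h (uni_le_right hc)⟩

theorem em_ne_bot (p : F.C) : em p ≠ ⊥ := by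
  intro h
  have h1 := PF_self_mem_em p
  rw [h] at h1
  exact IM.RO.mem_bot p h1

theorem exists_em_le {u : IM.RO F.C} (h : u ≠ ⊥) : ∃ p, em p ≤ u := by
  by_contra hc
  apply h
  rw [← le_bot_iff]
  intro p hp
  exact absurd ⟨p, em_le.2 hp⟩ hc

/-- the action on the regular open algebra -/
def gu (g : F.Gr) (u : IM.RO F.C) : IM.RO F.C := ⟨{p | gp g⁻¹ p ∈ u.1}, by
  intro p
  constructor
  · intro h q hq
    exact ⟨q, le_refl q, IM.RO.mem_lower h (PF_gp_mono g⁻¹ hq)⟩
  · intro h
    refine IM.RO.mem_of_dense fun q hq => ?_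
    have h1 : gp g q ≤ p := by
      have h2 := PF_gp_mono g hq
      rwa [PF_gp_gp_inv] at h2
    obtain ⟨r, hr, hr'⟩ := h (gp g q) h1
    refine ⟨gp g⁻¹ r, ?_, hr'⟩
    have h3 := PF_gp_mono g⁻¹ hr
    rwa [PF_gp_inv_gp] at h3⟩

/-- the action as an automorphism -/
def ga (g : F.Gr) : IM.RO F.C ≃o IM.RO F.C where
  toFun := gu g
  invFun := gu g⁻¹
  left_inv u := by
    apply Subtype.ext
    ext p
    change gp g⁻¹ (gp g⁻¹⁻¹ p) ∈ u.1 ↔ p ∈ u.1
    rw [inv_inv, PF_gp_inv_gp]
  right_inv u := by
    apply Subtype.ext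
    ext p
    change gp g⁻¹⁻¹ (gp g⁻¹ p) ∈ u.1 ↔ p ∈ u.1
    rw [inv_inv, PF_gp_gp_inv]
  map_rel_iff' {u v} := by
    constructor
    · intro h p hp
      have h1 : gp g p ∈ (gu g u).1 := by
        change gp g⁻¹ (gp g p) ∈ u.1
        rwa [PF_gp_inv_gp]
      have h2 : gp g⁻¹ (gp g p) ∈ v.1 := h h1
      rwa [PF_gp_inv_gp] at h2
    · intro h p hp
      exact h hp

theorem mem_ga {g : F.Gr} {u : IM.RO F.C} {p : F.C} : p ∈ (ga g u).1 ↔ gp g⁻¹ p ∈ u.1 := Iff.rfl

theorem ga_em (g : F.Gr) (p : F.C) : ga g (em p) = em (gp g p) := by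
  apply Subtype.ext
  ext q
  rw [mem_ga, mem_em, mem_em]
  have key : ∀ r : F.C, Comp (gp g⁻¹ r) p ↔ Comp r (gp g p) := by
    intro r
    constructor
    · intro h
      have h1 := uni_le_left (gp g⁻¹ r) p
      have h2 := uni_le_right h
      have h3 := PF_gp_mono g h1
      rw [PF_gp_gp_inv] at h3
      exact comp_of_le h3 (PF_gp_mono g h2)
    · intro h
      have h1 := uni_le_left r (gp g p)
      have h2 := PF_gp_mono g⁻¹ (uni_le_right h)
      rw [PF_gp_inv_gp] at h2
      exact comp_of_le (PF_gp_mono g⁻¹ h1) h2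
  constructor
  · intro h r hr
    exact (key r).1 (h _ (PF_gp_mono g⁻¹ hr))
  · intro h r hr
    have h1 : gp g r ≤ q := by
      have h2 := PF_gp_mono g hr
      rwa [PF_gp_gp_inv] at h2
    have h3 := (key (gp g r)).2 (h _ h1)
    rwa [PF_gp_inv_gp] at h3

end PF

end SYM
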