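import Pool.Agent.W_MP_790ce2_lc.PF

/-!
# MP_790ce2_lc : the symmetric system of a system of partial functions
-/

universe u v

namespace SYM

open Cardinal Order
open scoped Cardinal

namespace PF

variable {F : PF.{u}}

/-- the symmetric system given by a directed family of subsets of the index type -/
def sys (F : PF.{u}) (ι : Type u) (ne : Nonempty ι) (sp : ι → Set F.X)
    (dir : ∀ i j, ∃ k, sp i ⊆ sp k ∧ sp j ⊆ sp k) : SymSys (IM.RO F.C) where
  G := F.Gr
  grp := inferInstance
  act := ga
  act_one := by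
    intro d
    apply Subtype.ext
    apply Set.ext
    intro p
    show gp (1 : F.Gr)⁻¹ p ∈ d.1 ↔ p ∈ d.1
    rw [inv_one, gp_one]
  act_mul := by
    intro g h d
    apply Subtype.ext
    apply Set.ext
    intro p
    show gp (g * h)⁻¹ p ∈ d.1 ↔ gp h⁻¹ (gp g⁻¹ p) ∈ d.1
    rw [mul_inv_rev, gp_mul]
  ι := ι
  ne := ne
  K i := {g | ∀ x ∈ sp i, g x = 1}
  one_mem i x hx := rfl
  mul_mem := by
    intro i g h hg hh x hx
    show g x * h x = 1
    rw [hg x hx, hh x hx, one_mul]
  inv_mem := by
    intro i g hg x hx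
    show (g x)⁻¹ = 1
    rw [hg x hx, inv_one]
  norm := by
    intro i g h hh x hx
    show g x * h x * (g x)⁻¹ = 1
    rw [hh x hx, mul_one, mul_inv_cancel]
  dir := by
    intro i j
    obtain ⟨k, h1, h2⟩ := dir i j
    exact ⟨k, fun g hg x hx => hg x (h1 hx), fun g hg x hx => hg x (h2 hx)⟩

variable {ι : Type u} {ne : Nonempty ι} {sp : ι → Set F.X} {dir : ∀ i j, ∃ k, sp i ⊆ sp k ∧ sp j ⊆ sp k}

open Classical in
/-- the permutation exchanging the values of `q` and `r` outside `s` -/
noncomputable def swp (s : Set F.X) (q r : F.C) : F.Gr := fun x =>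
  if x ∈ s then 1 else
    if h : q.1 x ≠ none ∧ r.1 x ≠ none then
      Equiv.swap ((q.1 x).get (Option.isSome_iff_ne_none.2 h.1))
        ((r.1 x).get (Option.isSome_iff_ne_none.2 h.2)) else 1

open Classical in
theorem swp_mem (s : Set F.X) (q r : F.C) {x : F.X} (hx : x ∈ s) : swp s q r x = 1 := by
  unfold swp
  rw [if_pos hx]

open Classical in
theorem swp_apply (s : Set F.X) (q r : F.C) {x : F.X} (hx : x ∉ s) {a b : F.Y x}
    (ha : q.1 x = some a) (hb : r.1 x = some b) : swp s q r x a = b := by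
  have h : q.1 x ≠ none ∧ r.1 x ≠ none := by
    rw [ha, hb]; exact ⟨by simp, by simp⟩
  unfold swp
  rw [if_neg hx, dif_pos h]
  have h1 : (q.1 x).get (Option.isSome_iff_ne_none.2 h.1) = a := by
    simp only [ha, Option.get_some]
  have h2 : (r.1 x).get (Option.isSome_iff_ne_none.2 h.2) = b := by
    simp only [hb, Option.get_some]
  rw [h1, h2, Equiv.swap_apply_left]

open Classical in
theorem res_apply_mem (q : F.C) {s : Set F.X} {x : F.X} (hx : x ∈ s) : (res q s).1 x = q.1 x := by
  show (if x ∈ s then q.1 x else none) = q.1 x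
  rw [if_pos hx]

open Classical in
theorem dom_res (q : F.C) (s : Set F.X) : dom (res q s) ⊆ s := by
  intro x hx
  by_contra h
  apply hx
  show (if x ∈ s then q.1 x else none) = none
  rw [if_neg h]

theorem gp_inv_gp (g : F.Gr) (q : F.C) : gp g⁻¹ (gp g q) = q := by
  rw [← gp_mul, inv_mul_cancel, gp_one]

/-- An element of the algebra which is fixed by the permutations which are the identity on `s = sp i` is determined by
the conditions with domain contained in `s`.

PROOF.  Let `q ∈ d` and suppose `res q s ∉ d`. Then there is `r ≤ res q s` with `r ∈ dᶜ` (`d` is regular open). Let `g x` be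
the transposition of `q x` and `r x` for `x ∉ s` in the domains of `q` and `r`, and the identity otherwise. Then
`gp g q ∈ ga g d = d` and `gp g q` is compatible with `r`, a contradiction. -/
theorem res_mem {i : ι} {d : IM.RO F.C} (hd : (sys F ι ne sp dir).Fix i d) {q : F.C} (hq : q ∈ d.1) :
    res q (sp i) ∈ d.1 := by
  by_contra hcon
  have h1 : ∃ r ≤ res q (sp i), ∀ t ≤ r, t ∉ d.1 := by
    by_contra h
    push Not at h
    exact hcon (IM.RO.mem_of_dense h)
  obtain ⟨r, hr, hrt⟩ := h1
  have hg : ∀ x ∈ sp i, swp (sp i) q r x = 1 := fun x hx => swp_mem _ _ _ hx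
  have h2 : ga (swp (sp i) q r) d = d := hd _ hg
  have h3 : gp (swp (sp i) q r) q ∈ d.1 := by
    rw [← h2, mem_ga, gp_inv_gp]
    exact hq
  have h4 : Comp (gp (swp (sp i) q r) q) r := by
    intro x y z hy hz
    have hy' : (q.1 x).map (swp (sp i) q r x) = some y := hy
    rw [Option.map_eq_some_iff] at hy'
    obtain ⟨a, ha, hay⟩ := hy'
    by_cases hx : x ∈ sp i
    · rw [swp_mem _ _ _ hx] at hay
      have h5 := hr x a (by rw [res_apply_mem q hx, ha])
      rw [hz] at h5
      have h6 : a = y := hay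
      rw [← h6]
      exact (Option.some.inj h5).symm
    · rw [swp_apply _ _ _ hx ha hz] at hay
      exact hay.symm
  exact hrt _ (uni_le_right h4) (IM.RO.mem_lower h3 (uni_le_left _ _))

theorem card_fix (i : ι) :
    #{d : IM.RO F.C // (sys F ι ne sp dir).Fix i d} ≤ 2 ^ #{p : F.C // dom p ⊆ sp i} := by
  rw [← Cardinal.mk_set]
  refine Cardinal.mk_le_of_injective (f := fun d : {d : IM.RO F.C // (sys F ι ne sp dir).Fix i d} =>
    {p : {p : F.C // dom p ⊆ sp i} | p.1 ∈ d.1.1}) ?_
  have key : ∀ d e : {d : IM.RO F.C // (sys F ι ne sp dir).Fix i d},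
      {p : {p : F.C // dom p ⊆ sp i} | p.1 ∈ d.1.1} = {p : {p : F.C // dom p ⊆ sp i} | p.1 ∈ e.1.1} →
      ∀ q, q ∈ d.1.1 → q ∈ e.1.1 := by
    intro d e hde q hq
    have h1 := res_mem d.2 hq
    have h2 : (⟨res q (sp i), dom_res q (sp i)⟩ : {p : F.C // dom p ⊆ sp i})
        ∈ {p : {p : F.C // dom p ⊆ sp i} | p.1 ∈ d.1.1} := h1
    rw [hde] at h2
    exact IM.RO.mem_lower h2 (le_res q (sp i))
  intro d e hde
  apply Subtype.ext
  apply Subtype.ext
  apply Set.ext
  intro q
  exact ⟨key d e hde q, key e d hde.symm q⟩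

/-- a condition with domain contained in `sp i` gives a fixed element -/
theorem fix_em {i : ι} {p : F.C} (hp : dom p ⊆ sp i) : (sys F ι ne sp dir).Fix i (em p) := by
  intro g hg
  show ga g (em p) = em p
  rw [ga_em]
  congr 1
  apply Subtype.ext
  funext x
  show (p.1 x).map (g x) = p.1 x
  rcases hpx : p.1 x with _ | y
  · rfl
  · have hx : x ∈ dom p := by
      show p.1 x ≠ none
      rw [hpx]; simp
    rw [hg x (hp hx)]
    rfl

end PF

end SYM
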