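import Pool.Agent.W_MP_790ce2_lc.OrdG

/-!
# MP_790ce2_lc : pairs, subsets of ordinals and relations between ordinals in the generic models
-/

universe u v

namespace SYM

open IM (BSet)
open IM.BSet
open BVM (IsUF rkEq)
open ZFM

variable {D : Type u} [CompleteBooleanAlgebra D] {S : SymSys D}

namespace Gen

variable {G : Gen S}

/-! ### Pairs, subsets of ordinals, relations -/

theorem upB_memN {a b : BSet D} (h : prB a b ∈ G.N) : upB a a ∈ G.N ∧ upB a b ∈ G.N := by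
  have hc : Countable (prB a b).ty := inferInstanceAs (Countable (ULift.{u} Bool))
  exact ⟨G.cl _ h hc (ULift.up true), G.cl _ h hc (ULift.up false)⟩

theorem mem_of_upB {a b : BSet D} (h : upB a b ∈ G.N) : a ∈ G.N ∧ b ∈ G.N := by
  have hc : Countable (upB a b).ty := inferInstanceAs (Countable (ULift.{u} Bool))
  exact ⟨G.cl _ h hc (ULift.up true), G.cl _ h hc (ULift.up false)⟩

theorem isUPair_val {a b : BSet D} (h : upB a b ∈ G.N) :
    IsUPair G.E (G.val (upB a b)) (G.val a) (G.val b) := by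
  obtain ⟨ha, hb⟩ := mem_of_upB h
  intro z
  rw [mem_iff h]
  constructor
  · rintro ⟨c, hc1, hc2, -⟩
    rcases c with ⟨c⟩
    cases c with
    | true => exact Or.inl hc2
    | false => exact Or.inr hc2
  · rintro (rfl | rfl)
    · exact ⟨ULift.up true, ha, rfl, G.uf.top⟩
    · exact ⟨ULift.up false, hb, rfl, G.uf.top⟩

theorem isPair_val {x y : BSet D} (hx : x ∈ G.N) (hy : y ∈ G.N) :
    IsPair G.E (G.val (prB x y)) (G.val x) (G.val y) := by
  have h : prB x y ∈ G.N := G.pr x hx y hy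
  obtain ⟨h1, h2⟩ := upB_memN h
  exact ⟨_, _, isUPair_val h1, isUPair_val h2, isUPair_val h⟩

theorem mem_subN {α : Ordinal.{u}} {b : Ordinal.{u} → D} (h : subN α b ∈ G.N) {z : G.M} :
    G.E z (G.val (subN α b)) ↔ ∃ ξ < α, G.O ξ ∧ z = G.ord ξ ∧ G.lam (b ξ) := by
  rw [mem_iff h]
  constructor
  · rintro ⟨i, h1, h2, h3⟩
    exact ⟨tp i, tp_lt i, h1, h2, h3⟩
  · rintro ⟨ξ, hξ, h1, h2, h3⟩
    obtain ⟨i, rfl⟩ := exists_tp hξ
    exact ⟨i, h1, h2, h3⟩

theorem app_relN {α β : Ordinal.{u}} {w : Ordinal.{u} → Ordinal.{u} → D} (h : relN α β w ∈ G.N) {x y : G.M} :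
    App G.E (G.val (relN α β w)) x y ↔
      ∃ ξ < α, ∃ η < β, G.O ξ ∧ G.O η ∧ x = G.ord ξ ∧ y = G.ord η ∧ G.lam (w ξ η) := by
  constructor
  · rintro ⟨p, hp, hxy⟩
    obtain ⟨⟨i, j⟩, h1, h2, h3⟩ := (mem_iff h).1 hp
    have h1' : prB (chkO D (tp i)) (chkO D (tp j)) ∈ G.N := h1
    obtain ⟨h4, h5⟩ := mem_of_upB (upB_memN h1').2
    have h6 : IsPair G.E p (G.ord (tp i)) (G.ord (tp j)) := by
      rw [h2]
      exact isPair_val h4 h5
    obtain ⟨e1, e2⟩ := IsPair.inj G.zf hxy h6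
    exact ⟨tp i, tp_lt i, tp j, tp_lt j, h4, h5, e1, e2, h3⟩
  · rintro ⟨ξ, hξ, η, hη, h1, h2, rfl, rfl, h3⟩
    obtain ⟨i, rfl⟩ := exists_tp hξ
    obtain ⟨j, rfl⟩ := exists_tp hη
    refine ⟨G.val (prB (chkO D (tp i)) (chkO D (tp j))), (mem_iff h).2 ⟨(i, j), ?_, rfl, h3⟩, ?_⟩
    · exact G.pr _ h1 _ h2
    · exact isPair_val h1 h2

/-- Henkin witnesses for suprema over ordinals: if `⨆ ξ < α, b ξ` belongs to `lam` and the name `subN α b` to the model,
then some `ξ` with `G.O ξ` and `b ξ ∈ lam` exists. (The formula `∃ z, z ∈ subN α b`.) -/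
theorem exists_of_iSup {α : Ordinal.{u}} {b : Ordinal.{u} → D} (h : subN α b ∈ G.N)
    (hl : G.lam (⨆ ξ : Set.Iio α, b ξ.1)) : ∃ ξ < α, G.O ξ ∧ G.lam (b ξ) := by
  have h1 : G.lam (tvS S (.ex (.mem 0 1)) ![subN α b]) := by
    refine G.uf.mono (iSup_le fun ξ => ?_) hl
    refine le_trans (le_of_eq ?_) (le_iSup (fun x : {x : BSet D // S.HS x} =>
      tvS S (.mem 0 1) (Fin.cons x.1 ![subN α b])) ⟨chkO D ξ.1, HS_chkO ξ.1⟩)
    exact (bmem_chkO_subN ξ.2 b).symm
  have h2 := (los (.ex (.mem 0 1)) ![subN α b] (by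
    intro i
    refine Fin.cases ?_ (fun i => i.elim0) i
    exact h)).2 h1
  obtain ⟨z, hz⟩ := h2
  have hz' : G.E z (G.val (subN α b)) := hz
  obtain ⟨ξ, hξ, h3, -, h4⟩ := (mem_subN h).1 hz'
  exact ⟨ξ, hξ, h3, h4⟩

/-- Henkin witnesses for uniformly first-order statements: a lower bound of the truth values of the instances
in the ultrafilter gives a witness in the model. -/
theorem exists_wit {k : ℕ} {R : ∀ (T : Type) (_ : T → T → Prop), (Fin (k + 1) → T) → Prop} (hR : ZFM.FO R)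
    {w : Fin k → BSet D} (hw : ∀ i, w i ∈ G.N) {J : Type u} (d : J → D) (x : J → BSet D) (hx : ∀ j, S.HS (x j))
    (h : ∀ j, ∀ G' : Gen S, (∀ i, w i ∈ G'.N) → x j ∈ G'.N → G'.lam (d j) →
      R G'.M G'.E fun i => G'.val ((Fin.cons (x j) w : Fin (k + 1) → BSet D) i))
    (hl : G.lam (⨆ j, d j)) : ∃ z : G.M, R G.M G.E (Fin.cons z fun i => G.val (w i)) := by
  obtain ⟨φ, hφ⟩ := hR
  have h1 : G.lam (tvS S (.ex φ) w) := by
    refine G.uf.mono (iSup_le fun j => ?_) hl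
    refine le_trans ?_ (le_iSup (fun x : {x : BSet D // S.HS x} => tvS S φ (Fin.cons x.1 w)) ⟨x j, hx j⟩)
    rw [le_tvS_iff φ (Fin.cons (x j) w) (by
      intro i
      refine Fin.cases ?_ (fun i => ?_) i
      · exact hx j
      · exact hsN (hw i)) ∅ Set.countable_empty (fun y hy => hy.elim)]
    intro G' hG' _ hd
    refine (hφ _ _ _).1 (h j G' (fun i => ?_) ?_ hd)
    · exact hG' i.succ
    · exact hG' 0
  obtain ⟨z, hz⟩ := (los (.ex φ) w hw).2 h1
  exact ⟨z, (hφ _ _ _).2 hz⟩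

/-- The same for a row of a relation. -/
theorem exists_of_iSup_relN {α β : Ordinal.{u}} {w : Ordinal.{u} → Ordinal.{u} → D} (h : relN α β w ∈ G.N)
    {ξ : Ordinal.{u}} (hξ : ξ < α) (ho : G.O ξ) (hl : G.lam (⨆ η : Set.Iio β, w ξ η.1)) :
    ∃ η < β, G.O η ∧ G.lam (w ξ η) := by
  rw [← iSup_tp fun η => w ξ η] at hl
  obtain ⟨z, hz⟩ := exists_wit (G := G) (k := 2) (R := fun _ E v => App E (v 1) (v 2) (v 0)) (App.fo 1 2 0)
    (w := ![relN α β w, chkO D ξ]) (by
      intro i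
      refine Fin.cases ?_ (fun i => ?_) i
      · exact h
      · refine Fin.cases ?_ (fun i => i.elim0) i
        exact ho) (fun j : β.ToType => w ξ (tp j)) (fun j => chkO D (tp j)) (fun j => HS_chkO _) (by
      intro j G' hw hx hd
      exact (app_relN (hw 0)).2 ⟨ξ, hξ, tp j, tp_lt j, hw 1, hx, rfl, rfl, hd⟩) hl
  have hz' : App G.E (G.val (relN α β w)) (G.ord ξ) z := hz
  obtain ⟨ξ', -, η, hη, h1, h2, h3, -, h4⟩ := (app_relN h).1 hz'
  obtain rfl := (ord_inj ho h1).1 h3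
  exact ⟨η, hη, h2, h4⟩

/-- The same for a column of a relation. -/
theorem exists_of_iSup_relN' {α β : Ordinal.{u}} {w : Ordinal.{u} → Ordinal.{u} → D} (h : relN α β w ∈ G.N)
    {η : Ordinal.{u}} (hη : η < β) (ho : G.O η) (hl : G.lam (⨆ ξ : Set.Iio α, w ξ.1 η)) :
    ∃ ξ < α, G.O ξ ∧ G.lam (w ξ η) := by
  rw [← iSup_tp fun ξ => w ξ η] at hl
  obtain ⟨z, hz⟩ := exists_wit (G := G) (k := 2) (R := fun _ E v => App E (v 1) (v 0) (v 2)) (App.fo 1 0 2)
    (w := ![relN α β w, chkO D η]) (by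
      intro i
      refine Fin.cases ?_ (fun i => ?_) i
      · exact h
      · refine Fin.cases ?_ (fun i => i.elim0) i
        exact ho) (fun j : α.ToType => w (tp j) η) (fun j => chkO D (tp j)) (fun j => HS_chkO _) (by
      intro j G' hw hx hd
      exact (app_relN (hw 0)).2 ⟨tp j, tp_lt j, η, hη, hx, hw 1, rfl, rfl, hd⟩) hl
  have hz' : App G.E (G.val (relN α β w)) z (G.ord η) := hz
  obtain ⟨ξ, hξ, η', -, h1, h2, -, h3, h4⟩ := (app_relN h).1 hz'
  obtain rfl := (ord_inj ho h2).1 h3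
  exact ⟨ξ, hξ, h1, h4⟩

end Gen

/-! ### Truth values of membership and application -/

variable (S) in
/-- the formula `App f x y` -/
noncomputable def appF : Fml 3 := (App.fo.{0} (k := 3) 0 1 2).choose

variable (S) in
/-- the truth value of `f(x) = y` -/
noncomputable def appD (f x y : BSet D) : D := tvS S appF ![f, x, y]

theorem Gen.app_iff {G : Gen S} {f x y : BSet D} (hf : f ∈ G.N) (hx : x ∈ G.N) (hy : y ∈ G.N) :
    App G.E (G.val f) (G.val x) (G.val y) ↔ G.lam (appD S f x y) := by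
  have h1 := (App.fo.{0} (k := 3) 0 1 2).choose_spec G.M G.E fun i => G.val ((![f, x, y] : Fin 3 → BSet D) i)
  have h2 := los appF ![f, x, y] (by
    intro i
    refine Fin.cases hf (fun i => ?_) i
    refine Fin.cases hx (fun i => ?_) i
    exact Fin.cases hy (fun i => i.elim0) i)
  exact h1.trans h2

theorem fix_appD {i : S.ι} {f : BSet D} (hf : S.Sup i f) (ξ η : Ordinal.{u}) :
    S.Fix i (appD S f (chkO D ξ) (chkO D η)) := by
  refine fix_tvS _ _ fun j => ?_
  refine Fin.cases hf (fun j => ?_) j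
  refine Fin.cases (sup_chkO i ξ) (fun j => ?_) j
  exact Fin.cases (sup_chkO i η) (fun j => j.elim0) j

theorem act_appD (g : S.G) (f x y : BSet D) : S.act g (appD S f x y) = appD S (S.ac g f) (S.ac g x) (S.ac g y) := by
  unfold appD
  rw [act_tvS]
  congr 1
  funext i
  refine Fin.cases rfl (fun i => ?_) i
  refine Fin.cases rfl (fun i => ?_) i
  exact Fin.cases rfl (fun i => i.elim0) i

end SYM
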