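import Pool.Agent.W_MP_790ce2_lc.MCb
import Pool.Agent.W_MP_790ce2_lc.Defs

/-!
# MP_790ce2_lc : uniform `κ`-complete ultrafilters from a strongly compact cardinal
-/

set_option autoImplicit false

universe u v

namespace SYM

open ZFM
open Cardinal Ordinal Order
open scoped Cardinal Ordinal

/-- Extend the filter of the sets `s` with `#(sᶜ) < #A`; it is `κ`-complete and proper as `#A` is regular. -/
theorem exists_unif {κ : Cardinal.{u}} (hκ : IsStronglyCompact κ) (A : Type u) (hA : (#A).IsRegular) (h : κ ≤ #A) :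
    ∃ W : Ultrafilter A, IsComplete κ (W : Filter A) ∧ ∀ s ∈ W, #s = #A := by
  have hne : (Filter.cocardinal A hA).NeBot := by
    rw [← Filter.empty_mem_iff_bot.not.trans Filter.neBot_iff.symm, Filter.mem_cocardinal,
      Set.compl_empty, mk_univ]
    exact lt_irrefl _
  have hc : IsComplete κ (Filter.cocardinal A hA) := fun T hT hTs =>
    CardinalInterFilter.cardinal_sInter_mem T (hT.trans_le h) hTs
  obtain ⟨W, hW, hWc⟩ := hκ.2 A (Filter.cocardinal A hA) hne hc
  refine ⟨W, hWc, fun s hs => le_antisymm (mk_set_le s) ?_⟩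
  by_contra hlt
  push Not at hlt
  have h1 : sᶜ ∈ W := hW (Filter.compl_mem_cocardinal_of_card_lt hlt)
  exact (Ultrafilter.compl_mem_iff_notMem.1 h1) hs

/-- the ultrafilters `W n` -/
structure Ufs (κ : Cardinal.{u}) where
  W : ∀ n, Ultrafilter (lnO κ n).ToType
  compl : ∀ n, IsComplete κ (W n : Filter (lnO κ n).ToType)
  unif : ∀ n, ∀ s ∈ W n, #s = #(lnO κ n).ToType

theorem exists_ufs {κ : Cardinal.{u}} (hκ : IsStronglyCompact κ) : Nonempty (Ufs κ) := by
  have h1 : ∀ n, ∃ W : Ultrafilter (lnO κ n).ToType, IsComplete κ (W : Filter (lnO κ n).ToType) ∧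
      ∀ s ∈ W, #s = #(lnO κ n).ToType := by
    intro n
    have h2 : #(lnO κ n).ToType = (lnO κ n).card := mk_toType _
    refine exists_unif hκ _ ?_ ?_
    · rw [h2]
      exact (lnO_card κ n).2
    · rw [h2]
      exact le_lnO_card hκ.1 n
  choose W h2 h3 using h1
  exact ⟨⟨W, h2, h3⟩⟩

end SYM
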