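import Pool.Agent.W_MP_790ce2_lc.CorA
import Pool.Agent.W_MP_790ce2_lc.SC

/-!
# MP_790ce2_lc : the ultrafilter on `λ`, native part

`W n` is a `κ`-complete ultrafilter on `λ_n = lnO κ n` all of whose elements have cardinality `λ_n`. A family
`b : Ordinal → D` of elements fixed by a group `K i` is constant on a set in `W n` (there are fewer than `κ` values);
`cst W n b` is this value. `uD W b = ⨆_{I ∈ hyperfilter ℕ} ⨅_{n ∈ I} cst W n b` is the truth value of
''the set `{ξ : b ξ}` belongs to the ultrafilter''.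
-/

universe u v

namespace SYM

open ZFM
open Cardinal Ordinal Order
open scoped Cardinal Ordinal

variable {D : Type u} [CompleteBooleanAlgebra D] {κ : Cardinal.{u}} {S : SymSys D}

open Classical in
/-- the value of `b` on a large set -/
noncomputable def cst (W : Ufs κ) (n : ℕ) (b : Ordinal.{u} → D) : D :=
  if h : ∃ c, {i | b (tp i) = c} ∈ W.W n then h.choose else ⊥

/-- the truth value of ''the set given by `b` belongs to the ultrafilter'' -/
noncomputable def uD (W : Ufs κ) (b : Ordinal.{u} → D) : D :=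
  ⨆ I : {I : Set ℕ // I ∈ Filter.hyperfilter ℕ}, ⨅ n : I.1, cst W n b

variable (W : Ufs κ)

/-- A family of elements of `Fix i` is constant on a large set. (Fewer than `κ` sets `{ξ | b ξ = c}` cover `λ_n`.) -/
theorem cst_mem (C : Core κ S) {i : S.ι} {b : Ordinal.{u} → D} (hb : ∀ ξ, S.Fix i (b ξ)) (n : ℕ) :
    {j | b (tp j) = cst W n b} ∈ W.W n := by
  have hex : ∃ c, {j | b (tp j) = c} ∈ W.W n := by
    by_contra hno
    push Not at hno
    have h1 : ⋂₀ Set.range (fun c : {d : D // S.Fix i d} => {j | b (tp j) = c.1}ᶜ) ∈ W.W n := by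
      refine W.compl n _ (lt_of_le_of_lt Cardinal.mk_range_le (C.small i)) ?_
      rintro s ⟨c, rfl⟩
      exact Ultrafilter.compl_mem_iff_notMem.2 (hno c.1)
    obtain ⟨j, hj⟩ := Ultrafilter.nonempty_of_mem h1
    exact hj _ ⟨⟨b (tp j), hb _⟩, rfl⟩ rfl
  unfold cst
  rw [dif_pos hex]
  exact hex.choose_spec

theorem cst_eq {b : Ordinal.{u} → D} {n : ℕ} {c : D} (h : {j | b (tp j) = c} ∈ W.W n) : cst W n b = c := by
  have hex : ∃ c, {j | b (tp j) = c} ∈ W.W n := ⟨c, h⟩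
  unfold cst
  rw [dif_pos hex]
  obtain ⟨j, hj1, hj2⟩ := Ultrafilter.nonempty_of_mem (Filter.inter_mem hex.choose_spec h)
  exact hj1.symm.trans hj2

/-- two families have their values at a common place -/
theorem ufd_common (C : Core κ S) {i : S.ι} {b b' : Ordinal.{u} → D} (hb : ∀ ξ, S.Fix i (b ξ))
    (hb' : ∀ ξ, S.Fix i (b' ξ)) (n : ℕ) : ∃ ξ < lO κ, b ξ = cst W n b ∧ b' ξ = cst W n b' := by
  obtain ⟨j, hj1, hj2⟩ := Ultrafilter.nonempty_of_mem
    (Filter.inter_mem (cst_mem W C hb n) (cst_mem W C hb' n))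
  exact ⟨tp j, (tp_lt j).trans (lnO_lt κ n), hj1, hj2⟩

theorem fix_uD (C : Core κ S) {i : S.ι} {b : Ordinal.{u} → D} (hb : ∀ ξ, S.Fix i (b ξ)) : S.Fix i (uD W b) := by
  unfold uD
  refine Fix.iSup fun I => Fix.iInf fun n => ?_
  obtain ⟨ξ, -, h1, -⟩ := ufd_common W C hb hb n
  rw [← h1]
  exact hb ξ

theorem act_uD (C : Core κ S) {i : S.ι} {b : Ordinal.{u} → D} (hb : ∀ ξ, S.Fix i (b ξ)) (g : S.G) :
    S.act g (uD W b) = uD W fun ξ => S.act g (b ξ) := by
  unfold uD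
  rw [OrderIso.map_iSup]
  refine iSup_congr fun I => ?_
  rw [OrderIso.map_iInf]
  refine iInf_congr fun n => ?_
  symm
  apply cst_eq
  refine Filter.mem_of_superset (cst_mem W C hb n) fun j hj => ?_
  change S.act g (b (tp j)) = S.act g (cst W n b)
  rw [show b (tp j) = cst W n b from hj]

theorem uD_mono (C : Core κ S) {i : S.ι} {a : D} {b b' : Ordinal.{u} → D} (hb : ∀ ξ, S.Fix i (b ξ))
    (hb' : ∀ ξ, S.Fix i (b' ξ)) (h : ∀ ξ < lO κ, a ⊓ b ξ ≤ b' ξ) : a ⊓ uD W b ≤ uD W b' := by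
  unfold uD
  rw [inf_iSup_eq]
  refine iSup_mono fun I => le_iInf fun n => ?_
  obtain ⟨ξ, hξ, h1, h2⟩ := ufd_common W C hb hb' n
  rw [← h2]
  refine le_trans (inf_le_inf_left a ((iInf_le _ n).trans (le_of_eq h1.symm))) (h ξ hξ)

theorem uD_inf (C : Core κ S) {i : S.ι} {b b' : Ordinal.{u} → D} (hb : ∀ ξ, S.Fix i (b ξ))
    (hb' : ∀ ξ, S.Fix i (b' ξ)) : uD W b ⊓ uD W b' ≤ uD W fun ξ => b ξ ⊓ b' ξ := by
  unfold uD
  rw [iSup_inf_iSup]
  refine iSup_le fun q => ?_
  refine le_trans ?_ (le_iSup (fun I : {I : Set ℕ // I ∈ Filter.hyperfilter ℕ} =>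
    ⨅ n : I.1, cst W n fun ξ => b ξ ⊓ b' ξ) ⟨q.1.1 ∩ q.2.1, Filter.inter_mem q.1.2 q.2.2⟩)
  refine le_iInf fun n => ?_
  have h1 : cst W n (fun ξ => b ξ ⊓ b' ξ) = cst W n b ⊓ cst W n b' := by
    apply cst_eq
    refine Filter.mem_of_superset (Filter.inter_mem (cst_mem W C hb n) (cst_mem W C hb' n)) ?_
    rintro j ⟨hj1, hj2⟩
    change b (tp j) ⊓ b' (tp j) = _
    rw [show b (tp j) = cst W n b from hj1, show b' (tp j) = cst W n b' from hj2]
  rw [h1]
  exact inf_le_inf (iInf_le (fun m : q.1.1 => cst W m b) ⟨n.1, n.2.1⟩)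
    (iInf_le (fun m : q.2.1 => cst W m b') ⟨n.1, n.2.2⟩)

/-- uses `Core.dist` for the countably many partitions `{cst W n b, (cst W n b)ᶜ}` -/
theorem uD_compl (C : Core κ S) {i : S.ι} {b : Ordinal.{u} → D} (hb : ∀ ξ, S.Fix i (b ξ)) :
    uD W b ⊔ uD W (fun ξ => (b ξ)ᶜ) = ⊤ := by
  classical
  have hc : ∀ n, cst W n (fun ξ => (b ξ)ᶜ) = (cst W n b)ᶜ := by
    intro n
    apply cst_eq
    refine Filter.mem_of_superset (cst_mem W C hb n) fun j hj => ?_
    change (b (tp j))ᶜ = (cst W n b)ᶜ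
    rw [show b (tp j) = cst W n b from hj]
  by_contra hne
  have ha : (uD W b ⊔ uD W (fun ξ => (b ξ)ᶜ))ᶜ ≠ ⊥ := fun h => hne (compl_eq_bot.1 h)
  obtain ⟨a', ha', hne', g, hg⟩ := C.dist (J := ULift.{u + 1} Bool)
    (fun n j => if j.down then cst W n b else (cst W n b)ᶜ) _ ha (by
      intro n
      have h1 : (⨆ j : ULift.{u + 1} Bool, if j.down then cst W n b else (cst W n b)ᶜ) = ⊤ := by
        rw [eq_top_iff, ← sup_compl_eq_top (x := cst W n b)]
        exact sup_le (le_iSup (fun j : ULift.{u + 1} Bool =>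
          if j.down then cst W n b else (cst W n b)ᶜ) ⟨true⟩)
          (le_iSup (fun j : ULift.{u + 1} Bool =>
          if j.down then cst W n b else (cst W n b)ᶜ) ⟨false⟩)
      rw [h1]
      exact le_top)
  have hA : a' ≤ uD W b ⊔ uD W (fun ξ => (b ξ)ᶜ) := by
    by_cases hI : {n | (g n).down = true} ∈ Filter.hyperfilter ℕ
    · refine le_sup_of_le_left (le_trans ?_ (le_iSup (fun I : {I : Set ℕ //
        I ∈ Filter.hyperfilter ℕ} => ⨅ n : I.1, cst W n b) ⟨_, hI⟩))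
      refine le_iInf fun n => ?_
      have h2 := hg n.1
      have h4 : (g n.1).down = true := n.2
      rwa [if_pos h4] at h2
    · have hI' : {n | (g n).down = true}ᶜ ∈ Filter.hyperfilter ℕ :=
        Ultrafilter.compl_mem_iff_notMem.2 hI
      refine le_sup_of_le_right (le_trans ?_ (le_iSup (fun I : {I : Set ℕ //
        I ∈ Filter.hyperfilter ℕ} => ⨅ n : I.1, cst W n fun ξ => (b ξ)ᶜ) ⟨_, hI'⟩))
      refine le_iInf fun n => ?_
      have h2 := hg n.1
      have h4 : ¬ (g n.1).down = true := n.2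
      rw [if_neg h4] at h2
      rw [hc]
      exact h2
  apply hne'
  have h3 := le_inf hA ha'
  rw [inf_compl_eq_bot] at h3
  exact le_bot_iff.1 h3

theorem uD_bot (C : Core κ S) : uD W (fun _ => (⊥ : D)) = ⊥ := by
  unfold uD
  rw [iSup_eq_bot]
  intro I
  obtain ⟨n, hn⟩ := Ultrafilter.nonempty_of_mem I.2
  rw [eq_bot_iff]
  refine (iInf_le _ (⟨n, hn⟩ : I.1)).trans (le_of_eq ?_)
  apply cst_eq
  refine Filter.mem_of_superset Filter.univ_mem fun j _ => rfl

theorem uD_top (C : Core κ S) : uD W (fun _ => (⊤ : D)) = ⊤ := by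
  unfold uD
  rw [eq_top_iff]
  refine le_trans ?_ (le_iSup (fun I : {I : Set ℕ // I ∈ Filter.hyperfilter ℕ} =>
    ⨅ n : I.1, cst W n fun _ => (⊤ : D)) ⟨Set.univ, Filter.univ_mem⟩)
  refine le_iInf fun n => le_of_eq ?_
  symm
  apply cst_eq
  refine Filter.mem_of_superset Filter.univ_mem fun j _ => rfl

end SYM
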