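import Pool.Agent.W_MP_790ce2_lc.UFD

/-!
# MP_790ce2_lc : large sets contain sets of the universe of size `λ`
-/

universe u v

namespace SYM

open ZFM
open Cardinal Ordinal Order
open scoped Cardinal Ordinal

variable {D : Type u} [CompleteBooleanAlgebra D] {κ : Cardinal.{u}} {S : SymSys D} (W : Ufs κ)

theorem lO_card_ord' (κ : Cardinal.{u}) : (lO κ).card.ord = lO κ := by
  rw [lO, card_omega, ord_aleph]

/-- A subset of `lO κ` which is as large as `lnO κ n` for infinitely many `n` is as large as `lO κ`. -/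
theorem le_mk_of_frequently' {κ : Cardinal.{u}} (B : Set (lO κ).ToType) (I : Set ℕ) (hI : I.Infinite)
    (h : ∀ n ∈ I, (lnO κ n).card ≤ #B) : #(lO κ).ToType ≤ #B := by
  rw [mk_toType]
  by_contra hlt
  push Not at hlt
  have h1 : (#B).ord < lO κ := (ord_lt_ord.2 hlt).trans_le (lO_card_ord' κ).le
  obtain ⟨n, hn⟩ := lnO_cofinal h1
  obtain ⟨m, hm, hnm⟩ := hI.exists_gt n
  have h2 : (#B).ord < lnO κ m := hn.trans (lnO_strictMono κ hnm)
  rw [← (lnO_card κ m).1] at h2
  exact absurd (h m hm) (not_le.2 (ord_lt_ord.1 h2))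

/-- a set in the ultrafilter contains a set of the universe of size `λ`: the union of the sets
`{ξ | b ξ = cst W n b}`, `n ∈ I`, `I ∈ hyperfilter ℕ` infinite -/
theorem uD_le (C : Core κ S) {i : S.ι} {b : Ordinal.{u} → D} (hb : ∀ ξ, S.Fix i (b ξ)) :
    uD W b ≤ ⨆ h : {h : Ordinal.{u} → Ordinal.{u} // Set.InjOn h (Set.Iio (lO κ)) ∧ ∀ ξ < lO κ, h ξ < lO κ},
      ⨅ ξ : Set.Iio (lO κ), b (h.1 ξ.1) := by
  classical
  refine iSup_le fun I => ?_
  have hI : I.1.Infinite := by
    intro hfin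
    exact Filter.notMem_hyperfilter_of_finite hfin I.2
  let B : Set (lO κ).ToType := {j | ∃ n ∈ I.1, b (tp j) = cst W n b ∧ tp j < lnO κ n}
  have hB : ∀ n ∈ I.1, (lnO κ n).card ≤ #B := by
    intro n hn
    have h1 := W.unif n _ (cst_mem W C hb n)
    rw [mk_toType] at h1
    rw [← h1]
    have hlt : ∀ j : (lnO κ n).ToType, tp j < lO κ := fun j => (tp_lt j).trans (lnO_lt κ n)
    refine mk_le_of_injective (f := fun j : {j : (lnO κ n).ToType | b (tp j) = cst W n b} =>
      (⟨(exists_tp (hlt j.1)).choose, n, hn, by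
        rw [(exists_tp (hlt j.1)).choose_spec]; exact j.2, by
        rw [(exists_tp (hlt j.1)).choose_spec]; exact tp_lt _⟩ : B)) ?_
    intro j j' hjj
    have h2 := congrArg (fun x : B => tp x.1) hjj
    simp only at h2
    rw [(exists_tp (hlt j.1)).choose_spec, (exists_tp (hlt j'.1)).choose_spec] at h2
    exact Subtype.ext (tp_inj h2)
  obtain ⟨f⟩ := le_mk_of_frequently' B I.1 hI hB
  let g : Ordinal.{u} → Ordinal.{u} := fun ξ =>
    if h : ξ < lO κ then tp (f (exists_tp h).choose).1 else 0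
  have hg : ∀ ξ, (h : ξ < lO κ) → g ξ = tp (f (exists_tp h).choose).1 := fun ξ h => dif_pos h
  have hinj : Set.InjOn g (Set.Iio (lO κ)) := by
    intro ξ hξ η hη h
    rw [hg ξ hξ, hg η hη] at h
    have h1 := f.injective (Subtype.ext (tp_inj h))
    rw [← (exists_tp hξ).choose_spec, ← (exists_tp hη).choose_spec, h1]
  refine le_trans ?_ (le_iSup _ ⟨g, hinj, fun ξ hξ => ?_⟩)
  · refine le_iInf fun ξ => ?_
    simp only
    rw [hg ξ.1 ξ.2]
    obtain ⟨n, hn, h1, -⟩ := (f (exists_tp ξ.2).choose).2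
    rw [h1]
    exact iInf_le (fun n : I.1 => cst W n b) ⟨n, hn⟩
  · rw [hg ξ hξ]
    exact tp_lt _

end SYM
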