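import Pool.Agent.W_MP_790ce2_lc.UFE
import Pool.Agent.W_MP_790ce2_lc.CBG

/-!
# MP_790ce2_lc : `λ = ℵ_{ω_ω}` of the model carries a uniform ultrafilter
-/

universe u v

namespace SYM

open IM (BSet)
open IM.BSet
open ZFM
open Cardinal Ordinal Order
open scoped Cardinal Ordinal

variable {D : Type u} [CompleteBooleanAlgebra D] {κ : Cardinal.{u}} {S : SymSys D}

/-- The name of the ultrafilter: the names `subN λ b` of all subsets of `λ` with `b ξ ∈ Fix i` for some `i`, with the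
weight `uD W b`. -/
noncomputable def ufN (S : SymSys D) (W : Ufs κ) : BSet D :=
  .mk {b : (lO κ).ToType → D // ∃ i, ∀ j, S.Fix i (b j)}
    (fun b => subN (lO κ) fun ξ => if h : ξ < lO κ then b.1 (Ordinal.ToType.mk ⟨ξ, h⟩) else ⊥)
    fun b => uD W fun ξ => if h : ξ < lO κ then b.1 (Ordinal.ToType.mk ⟨ξ, h⟩) else ⊥

/-- translates of fixed elements are fixed -/
theorem Fix.act {i : S.ι} {d : D} (h : S.Fix i d) (g : S.G) : S.Fix i (S.act g d) := by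
  intro k hk
  have h1 := S.norm i g⁻¹ k hk
  rw [inv_inv] at h1
  have h2 := h _ h1
  rw [S.act_mul, S.act_mul] at h2
  have h3 := congrArg (S.act g) h2
  rwa [act_act_inv] at h3

theorem fix_dite {i : S.ι} {l : Ordinal.{u}} {b : l.ToType → D} (hb : ∀ j, S.Fix i (b j)) (ξ : Ordinal.{u}) :
    S.Fix i (if h : ξ < l then b (Ordinal.ToType.mk ⟨ξ, h⟩) else ⊥) := by
  by_cases h : ξ < l
  · rw [dif_pos h]
    exact hb _
  · rw [dif_neg h]
    exact Fix.bot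

theorem HS_ufN (C : Core κ S) (W : Ufs κ) : S.HS (ufN S W) := by
  rw [HS_def]
  constructor
  · obtain ⟨i⟩ := S.ne
    refine ⟨i, sup_of_bmem fun g _ z => ?_⟩
    rw [ac_def]
    refine iSup_le ?_
    intro b
    obtain ⟨b, j, hb⟩ := b
    refine le_iSup_of_le (⟨fun k => S.act g (b k), j, fun k => Fix.act (hb k) g⟩ :
      {b : (lO κ).ToType → D // ∃ i, ∀ j, S.Fix i (b j)}) ?_
    have h1 : (fun ξ => S.act g (if h : ξ < lO κ then b (Ordinal.ToType.mk ⟨ξ, h⟩) else ⊥)) =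
        fun ξ => if h : ξ < lO κ then S.act g (b (Ordinal.ToType.mk ⟨ξ, h⟩)) else ⊥ := by
      funext ξ
      by_cases h : ξ < lO κ
      · simp only [dif_pos h]
      · simp only [dif_neg h, map_bot]
    refine inf_le_inf ?_ ?_
    · change S.act g (uD W fun ξ => if h : ξ < lO κ then b (Ordinal.ToType.mk ⟨ξ, h⟩) else ⊥) ≤
        uD W fun ξ => if h : ξ < lO κ then S.act g (b (Ordinal.ToType.mk ⟨ξ, h⟩)) else ⊥
      rw [act_uD W C (fix_dite hb) g, h1]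
    · change beq z (S.ac g (subN (lO κ) fun ξ => if h : ξ < lO κ then b (Ordinal.ToType.mk ⟨ξ, h⟩) else ⊥)) ≤
        beq z (subN (lO κ) fun ξ => if h : ξ < lO κ then S.act g (b (Ordinal.ToType.mk ⟨ξ, h⟩)) else ⊥)
      rw [ac_subN, h1]
  · rintro ⟨b, j, hb⟩
    exact HS_subN (i := j) _ fun ξ _ => fix_dite hb ξ

/-- an element below which an implication between families of truth values holds -/
theorem Gen.exists_below {G : Gen S} {k : ℕ} {R : ∀ (T : Type) (_ : T → T → Prop), (Fin k → T) → Prop}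
    (hR : ZFM.FO R) {w : Fin k → BSet D} (hw : ∀ i, w i ∈ G.N) (h : R G.M G.E fun i => G.val (w i))
    {l : Ordinal.{u}} {b b' : Ordinal.{u} → D} {i : S.ι} (hb : ∀ ξ, S.Fix i (b ξ)) (hb' : ∀ ξ, S.Fix i (b' ξ))
    (H : ∀ G' : Gen S, (∀ i, w i ∈ G'.N) → R G'.M G'.E (fun i => G'.val (w i)) → ∀ ξ < l, G'.O ξ →
      G'.lam (b ξ) → G'.lam (b' ξ)) : ∃ a, G.lam a ∧ ∀ ξ < l, a ⊓ b ξ ≤ b' ξ := by
  have hfix : ∀ ξ, S.Fix i (b ξ ⊓ (b' ξ)ᶜ) := fun ξ => Fix.inf (hb ξ) (Fix.compl (hb' ξ))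
  refine ⟨(⨆ ξ : Set.Iio l, b ξ.1 ⊓ (b' ξ.1)ᶜ)ᶜ, ?_, ?_⟩
  · rw [G.uf.compl_iff]
    intro hc
    obtain ⟨G', hw', hN, hd, hR'⟩ := Gen.extend hR hw h hc {subN l fun ξ => b ξ ⊓ (b' ξ)ᶜ}
      (Set.countable_singleton _) (by
        intro x hx
        rw [Set.mem_singleton_iff] at hx
        rw [hx]
        exact HS_subN (i := i) _ fun ξ _ => hfix ξ)
    obtain ⟨ξ, hξ, hO, hlam⟩ := Gen.exists_of_iSup (hN (Set.mem_singleton _)) hd
    obtain ⟨h1, h2⟩ := G'.uf.inf_iff.1 hlam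
    exact G'.uf.compl_iff.1 h2 (H G' hw' hR' ξ hξ hO h1)
  · intro ξ hξ
    rw [← disjoint_compl_right_iff, disjoint_iff, eq_bot_iff]
    have h1 : b ξ ⊓ (b' ξ)ᶜ ≤ ⨆ ξ : Set.Iio l, b ξ.1 ⊓ (b' ξ.1)ᶜ :=
      le_iSup (fun ξ : Set.Iio l => b ξ.1 ⊓ (b' ξ.1)ᶜ) ⟨ξ, hξ⟩
    calc (⨆ ξ : Set.Iio l, b ξ.1 ⊓ (b' ξ.1)ᶜ)ᶜ ⊓ b ξ ⊓ (b' ξ)ᶜ
        = (⨆ ξ : Set.Iio l, b ξ.1 ⊓ (b' ξ.1)ᶜ)ᶜ ⊓ (b ξ ⊓ (b' ξ)ᶜ) := inf_assoc _ _ _
      _ ≤ (⨆ ξ : Set.Iio l, b ξ.1 ⊓ (b' ξ.1)ᶜ)ᶜ ⊓ ⨆ ξ : Set.Iio l, b ξ.1 ⊓ (b' ξ.1)ᶜ := inf_le_inf_left _ h1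
      _ ≤ ⊥ := by rw [compl_inf_eq_bot]

theorem Gen.uD_of {G : Gen S} (C : Core κ S) (W : Ufs κ) {k : ℕ}
    {R : ∀ (T : Type) (_ : T → T → Prop), (Fin k → T) → Prop}
    (hR : ZFM.FO R) {w : Fin k → BSet D} (hw : ∀ i, w i ∈ G.N) (h : R G.M G.E fun i => G.val (w i))
    {b b' : Ordinal.{u} → D} {i j : S.ι} (hb : ∀ ξ, S.Fix i (b ξ)) (hb' : ∀ ξ, S.Fix j (b' ξ))
    (H : ∀ G' : Gen S, (∀ i, w i ∈ G'.N) → R G'.M G'.E (fun i => G'.val (w i)) → ∀ ξ < lO κ, G'.O ξ →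
      G'.lam (b ξ) → G'.lam (b' ξ)) (hl : G.lam (uD W b)) : G.lam (uD W b') := by
  obtain ⟨k, h1, h2⟩ := S.dir i j
  have hb1 : ∀ ξ, S.Fix k (b ξ) := fun ξ => Fix.mono (hb ξ) h1
  have hb2 : ∀ ξ, S.Fix k (b' ξ) := fun ξ => Fix.mono (hb' ξ) h2
  obtain ⟨a, ha, hab⟩ := Gen.exists_below hR hw h hb1 hb2 H
  exact G.uf.mono (uD_mono W C hb1 hb2 hab) (G.uf.inf ha hl)

/-- the truth values of the elements of a symmetric name are fixed -/
theorem exists_fix_bmem {X : BSet D} (hX : S.HS X) : ∃ i, ∀ ξ, S.Fix i (bmem (chkO D ξ) X) := by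
  obtain ⟨⟨i, hi⟩, -⟩ := (HS_def S X).1 hX
  exact ⟨i, fun ξ => fix_bmem (sup_chkO i ξ) hi⟩

/-- Membership in the ultrafilter. (From left to right: `Gen.mem_iff` and `uD_mono` below the truth value of
`X = subN λ b`. From right to left: the weight of the name `subN λ (fun ξ => ⟦ξ̌ ∈ X⟧)`, which is equal to `X` below the
truth value of `X ⊆ λ̌`.) -/
theorem mem_ufN (C : Core κ S) (W : Ufs κ) {G : Gen S} (hU : ufN S W ∈ G.N) (hl : G.O (lO κ)) {X : BSet D}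
    (hX : X ∈ G.N) :
    G.E (G.val X) (G.val (ufN S W)) ↔
      Sub G.E (G.val X) (G.ord (lO κ)) ∧ G.lam (uD W fun ξ => bmem (chkO D ξ) X) := by
  obtain ⟨iX, hiX⟩ := exists_fix_bmem (Gen.hsN hX)
  constructor
  · intro h
    obtain ⟨⟨b, j, hb⟩, h1, h2, h3⟩ := (Gen.mem_iff hU).1 h
    have h1' : subN (lO κ) (fun ξ => if h : ξ < lO κ then b (Ordinal.ToType.mk ⟨ξ, h⟩) else ⊥) ∈ G.N := h1
    have h2' : G.val X = G.val (subN (lO κ) fun ξ => if h : ξ < lO κ then b (Ordinal.ToType.mk ⟨ξ, h⟩) else ⊥) := h2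
    have h3' : G.lam (uD W fun ξ => if h : ξ < lO κ then b (Ordinal.ToType.mk ⟨ξ, h⟩) else ⊥) := h3
    constructor
    · intro z hz
      rw [h2'] at hz
      obtain ⟨ξ, hξ, hO, rfl, -⟩ := (Gen.mem_subN h1').1 hz
      exact (Gen.E_ord hO hl).2 hξ
    · obtain ⟨k, hk1, hk2⟩ := S.dir iX j
      have ha := (Gen.val_eq hX h1').1 h2'
      refine G.uf.mono (uD_mono W C (i := k) (fun ξ => Fix.mono (fix_dite hb ξ) hk2) (fun ξ => Fix.mono (hiX ξ) hk1) ?_)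
        (G.uf.inf ha h3')
      intro ξ hξ
      have h4 := bmem_congr_right (chkO D ξ) (subN (lO κ) fun ξ => if h : ξ < lO κ then
        b (Ordinal.ToType.mk ⟨ξ, h⟩) else ⊥) X
      rw [bmem_chkO_subN hξ, beq_symm] at h4
      exact h4
  · rintro ⟨hs, hlam⟩
    have e1 : (fun ξ => if h : ξ < lO κ then (fun k : (lO κ).ToType => bmem (chkO D (tp k)) X)
        (Ordinal.ToType.mk ⟨ξ, h⟩) else ⊥) = fun ξ => if ξ < lO κ then bmem (chkO D ξ) X else ⊥ := by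
      funext ξ
      by_cases h : ξ < lO κ
      · simp only [dif_pos h, if_pos h]
        have : tp (Ordinal.ToType.mk ⟨ξ, h⟩ : (lO κ).ToType) = ξ := by
          simp [tp]
        rw [this]
      · simp only [dif_neg h, if_neg h]
    have hfix : ∀ ξ, S.Fix iX (if ξ < lO κ then bmem (chkO D ξ) X else ⊥) := by
      intro ξ
      by_cases h : ξ < lO κ
      · rw [if_pos h]
        exact hiX ξ
      · rw [if_neg h]
        exact Fix.bot
    rw [Gen.E_val hX hU]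
    have h1 : G.lam (beq X (subN (lO κ) fun ξ => if ξ < lO κ then bmem (chkO D ξ) X else ⊥)) := by
      by_contra hc
      rw [← G.uf.compl_iff] at hc
      obtain ⟨G', hw', hN, hd, hR'⟩ := Gen.extend (R := fun _ E v => Sub E (v 0) (v 1)) (Sub.fo 0 1)
        (w := ![X, chkO D (lO κ)]) (G := G) (by
          intro i
          refine Fin.cases ?_ (fun i => ?_) i
          · exact hX
          · rw [Subsingleton.elim i 0]
            exact hl) hs hc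
        {subN (lO κ) fun ξ => if ξ < lO κ then bmem (chkO D ξ) X else ⊥} (Set.countable_singleton _) (by
          intro x hx
          rw [Set.mem_singleton_iff] at hx
          rw [hx]
          exact HS_subN (i := iX) _ fun ξ _ => hfix ξ)
      have hX' : X ∈ G'.N := hw' 0
      have hl' : G'.O (lO κ) := hw' 1
      have hn' := hN (Set.mem_singleton _)
      have hs' : Sub G'.E (G'.val X) (G'.ord (lO κ)) := hR'
      refine G'.uf.compl_iff.1 hd ((Gen.val_eq hX' hn').1 (G'.zf.ext _ _ fun z => ⟨fun hz => ?_, fun hz => ?_⟩))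
      · obtain ⟨ξ, hξ, hO, rfl⟩ := (Gen.mem_ord hl').1 (hs' z hz)
        refine (Gen.mem_subN hn').2 ⟨ξ, hξ, hO, rfl, ?_⟩
        rw [if_pos hξ]
        exact (Gen.E_val hO hX').1 hz
      · obtain ⟨ξ, hξ, hO, rfl, h⟩ := (Gen.mem_subN hn').1 hz
        rw [if_pos hξ] at h
        exact (Gen.E_val hO hX').2 h
    refine G.uf.mono (le_iSup (fun p : (ufN S W).ty => (ufN S W).wt p ⊓ beq X ((ufN S W).fn p))
      (⟨fun k => bmem (chkO D (tp k)) X, iX, fun k => hiX _⟩ : {b : (lO κ).ToType → D // ∃ i, ∀ j, S.Fix i (b j)})) ?_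
    refine G.uf.inf ?_ ?_
    · change G.lam (uD W fun ξ => if h : ξ < lO κ then (fun k : (lO κ).ToType => bmem (chkO D (tp k)) X)
        (Ordinal.ToType.mk ⟨ξ, h⟩) else ⊥)
      rw [e1]
      refine G.uf.mono (uD_mono W C (i := iX) (a := ⊤) hiX hfix ?_) (G.uf.inf G.uf.top hlam)
      intro ξ hξ
      rw [if_pos hξ, top_inf_eq]
    · change G.lam (beq X (subN (lO κ) fun ξ => if h : ξ < lO κ then
        (fun k : (lO κ).ToType => bmem (chkO D (tp k)) X) (Ordinal.ToType.mk ⟨ξ, h⟩) else ⊥))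
      rw [e1]
      exact h1

/-- From an assignment of length two. -/
theorem forall_fin2 {P : BSet D → Prop} {x y : BSet D} (hx : P x) (hy : P y) : ∀ i : Fin 2, P ((![x, y] : Fin 2 → BSet D) i) := by
  intro i
  refine Fin.cases ?_ (fun i => ?_) i
  · exact hx
  · rw [Subsingleton.elim i 0]
    exact hy

theorem forall_fin3 {P : BSet D → Prop} {x y z : BSet D} (hx : P x) (hy : P y) (hz : P z) :
    ∀ i : Fin 3, P ((![x, y, z] : Fin 3 → BSet D) i) := by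
  intro i
  refine Fin.cases ?_ (fun i => ?_) i
  · exact hx
  · exact forall_fin2 hy hz i

/-- the ultrafilter in a model containing its name -/
theorem Gen.isUltra_ufN (C : Core κ S) (W : Ufs κ) {G : Gen S} (hU : ufN S W ∈ G.N) (hl : G.O (lO κ)) :
    IsUltra G.E (G.val (ufN S W)) (G.ord (lO κ)) := by
  refine ⟨?_, ?_, ?_, ?_, ?_, ?_⟩
  · intro X hX
    obtain ⟨X, hXN, rfl⟩ := Gen.exists_name X
    exact ((mem_ufN C W hU hl hXN).1 hX).1
  · refine (mem_ufN C W hU hl hl).2 ⟨fun z hz => hz, ?_⟩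
    obtain ⟨i, hi⟩ := exists_fix_bmem (Gen.hsN hl)
    refine G.uf.mono (uD_mono W C (i := i) (a := ⊤) (b := fun _ => ⊤) (fun ξ => Fix.top) hi ?_) ?_
    · intro ξ hξ
      rw [bmem_chkO_of_lt hξ]
      exact le_top
    · rw [uD_top W C, top_inf_eq]
      exact G.uf.top
  · intro X hX hXU
    obtain ⟨X, hXN, rfl⟩ := Gen.exists_name X
    obtain ⟨-, h1⟩ := (mem_ufN C W hU hl hXN).1 hXU
    obtain ⟨i, hi⟩ := exists_fix_bmem (Gen.hsN hXN)
    have h2 : G.lam (uD W fun _ => (⊥ : D)) := by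
      refine Gen.uD_of C W (R := fun _ E v => IsEmp E (v 0)) (IsEmp.fo 0) (w := ![X]) (fun j => ?_) hX hi
        (fun ξ => Fix.bot (i := i)) ?_ h1
      · rw [Subsingleton.elim j 0]
        exact hXN
      · intro G' hw hR ξ hξ hO hlam
        exact (hR (G'.ord ξ) ((Gen.E_val hO (hw 0)).2 hlam)).elim
    rw [uD_bot W C] at h2
    exact G.uf.bot h2
  · intro X Y hXU hXY hY
    obtain ⟨X, hXN, rfl⟩ := Gen.exists_name X
    obtain ⟨Y, hYN, rfl⟩ := Gen.exists_name Y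
    obtain ⟨-, h1⟩ := (mem_ufN C W hU hl hXN).1 hXU
    obtain ⟨i, hi⟩ := exists_fix_bmem (Gen.hsN hXN)
    obtain ⟨j, hj⟩ := exists_fix_bmem (Gen.hsN hYN)
    refine (mem_ufN C W hU hl hYN).2 ⟨hY, ?_⟩
    refine Gen.uD_of C W (R := fun _ E v => Sub E (v 0) (v 1)) (Sub.fo 0 1) (w := ![X, Y])
      (forall_fin2 (P := fun x => x ∈ G.N) hXN hYN) hXY hi hj ?_ h1
    intro G' hw hR ξ hξ hO hlam
    exact (Gen.E_val hO (hw 1)).1 (hR (G'.ord ξ) ((Gen.E_val hO (hw 0)).2 hlam))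
  · intro X Y Z hXU hYU hZ
    obtain ⟨X, hXN, rfl⟩ := Gen.exists_name X
    obtain ⟨Y, hYN, rfl⟩ := Gen.exists_name Y
    obtain ⟨Z, hZN, rfl⟩ := Gen.exists_name Z
    obtain ⟨h0, h1⟩ := (mem_ufN C W hU hl hXN).1 hXU
    obtain ⟨-, h2⟩ := (mem_ufN C W hU hl hYN).1 hYU
    obtain ⟨i, hi⟩ := exists_fix_bmem (Gen.hsN hXN)
    obtain ⟨j, hj⟩ := exists_fix_bmem (Gen.hsN hYN)
    obtain ⟨m, hm⟩ := exists_fix_bmem (Gen.hsN hZN)
    obtain ⟨k, hk1, hk2⟩ := S.dir i j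
    refine (mem_ufN C W hU hl hZN).2 ⟨fun z hz => h0 z ((hZ z).1 hz).1, ?_⟩
    have h3 := G.uf.mono (uD_inf W C (i := k) (fun ξ => Fix.mono (hi ξ) hk1) (fun ξ => Fix.mono (hj ξ) hk2))
      (G.uf.inf h1 h2)
    refine Gen.uD_of C W (R := fun _ E v => ∀ z, E z (v 2) ↔ E z (v 0) ∧ E z (v 1)) ?_ (w := ![X, Y, Z])
      (forall_fin3 (P := fun x => x ∈ G.N) hXN hYN hZN) hZ
      (fun ξ => Fix.inf (Fix.mono (hi ξ) hk1) (Fix.mono (hj ξ) hk2)) hm ?_ h3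
    · exact FO.all (R := fun _ E z v => E z (v 2) ↔ E z (v 0) ∧ E z (v 1))
        (FO.iff (FO.mem _ _) (FO.and (FO.mem _ _) (FO.mem _ _)))
    · intro G' hw hR ξ hξ hO hlam
      obtain ⟨h4, h5⟩ := G'.uf.inf_iff.1 hlam
      exact (Gen.E_val hO (hw 2)).1 ((hR (G'.ord ξ)).2 ⟨(Gen.E_val hO (hw 0)).2 h4, (Gen.E_val hO (hw 1)).2 h5⟩)
  · intro X Y hX hY
    obtain ⟨X, hXN, rfl⟩ := Gen.exists_name X
    obtain ⟨Y, hYN, rfl⟩ := Gen.exists_name Y
    obtain ⟨i, hi⟩ := exists_fix_bmem (Gen.hsN hXN)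
    obtain ⟨j, hj⟩ := exists_fix_bmem (Gen.hsN hYN)
    have h1 : G.lam (uD W (fun ξ => bmem (chkO D ξ) X) ⊔ uD W fun ξ => (bmem (chkO D ξ) X)ᶜ) := by
      rw [uD_compl W C hi]
      exact G.uf.top
    rcases G.uf.sup_iff.1 h1 with h2 | h2
    · exact Or.inl ((mem_ufN C W hU hl hXN).2 ⟨hX, h2⟩)
    · refine Or.inr ((mem_ufN C W hU hl hYN).2 ⟨fun z hz => ((hY z).1 hz).1, ?_⟩)
      refine Gen.uD_of C W (R := fun _ E v => ∀ z, E z (v 1) ↔ E z (v 2) ∧ ¬ E z (v 0)) ?_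
        (w := ![X, Y, chkO D (lO κ)])
        (forall_fin3 (P := fun x => x ∈ G.N) hXN hYN hl) hY (fun ξ => Fix.compl (hi ξ)) hj ?_ h2
      · exact FO.all (R := fun _ E z v => E z (v 1) ↔ E z (v 2) ∧ ¬ E z (v 0))
          (FO.iff (FO.mem _ _) (FO.and (FO.mem _ _) (FO.not (FO.mem _ _))))
      · intro G' hw hR ξ hξ hO hlam
        have hl' : G'.O (lO κ) := hw 2
        refine (Gen.E_val hO (hw 1)).1 ((hR (G'.ord ξ)).2 ⟨(Gen.E_ord hO hl').2 hξ, fun h3 => ?_⟩)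
        exact G'.uf.compl_iff.1 hlam ((Gen.E_val hO (hw 0)).1 h3)

/-- the elements of the ultrafilter have size `λ` -/
theorem Gen.uniform_ufN (C : Core κ S) (W : Ufs κ) {G : Gen S} (hU : ufN S W ∈ G.N) (hl : G.O (lO κ)) {X : BSet D}
    (hX : X ∈ G.N) (h : G.E (G.val X) (G.val (ufN S W))) : ∃ f, IsBij G.E f (G.val X) (G.ord (lO κ)) := by
  obtain ⟨hs, hlam⟩ := (mem_ufN C W hU hl hX).1 h
  obtain ⟨i, hi⟩ := exists_fix_bmem (Gen.hsN hX)
  have hR : FO.{0} (k := 2) fun _ E v => Sub E (v 0) (v 1) → ∃ f, IsBij E f (v 0) (v 1) :=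
    FO.imp (Sub.fo _ _) (FO.ex (R := fun _ E f v => IsBij E f (v 0) (v 1)) (IsBij.fo _ _ _))
  obtain ⟨φ, hφ⟩ := hR
  have h1 : uD W (fun ξ => bmem (chkO D ξ) X) ≤ tvS S φ ![X, chkO D (lO κ)] := by
    refine (uD_le W C hi).trans (iSup_le fun g => ?_)
    refine (Gen.le_tvS_iff φ ![X, chkO D (lO κ)] (forall_fin2 (P := fun x => S.HS x) (Gen.hsN hX) (HS_chkO _)) ∅
      Set.countable_empty (fun x hx => absurd hx (Set.notMem_empty x))).2 ?_
    intro G' hw _ hd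
    rw [← hφ]
    intro hs'
    exact Gen.exists_bij (hw 0) (hw 1) hs' g.1 g.2.1 g.2.2 hd
  have h2 := (Gen.los (G := G) φ ![X, chkO D (lO κ)] (forall_fin2 (P := fun x => x ∈ G.N) hX hl)).2 (G.uf.mono h1 hlam)
  rw [← hφ] at h2
  exact h2 hs

/-- PROOF.  By `Gen.pull` we may assume that the name `ufN S W` is in the model. The clauses of `IsUltra` follow from
`mem_ufN` and `uD_top`, `uD_bot`, `uD_mono`, `uD_inf`, `uD_compl` (elements of the model are given by names with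
supports, `Gen.exists_name`, `Gen.hsN`, `exists_sup`; below the truth values of `X ⊆ Y`, `Z = X ∩ Y`, `Y = λ ∖ X` the
inequalities between `⟦ξ̌ ∈ X⟧` etc. hold by `Gen.le_iff`).
Uniform: by `uD_le` and `Gen.exists_bij`: the truth value of ''there is a bijection from `X` to `λ̌`'' is above
`⨅ ξ, ⟦h(ξ)ˇ ∈ X⟧` for every `h` (`Gen.le_tvS_iff`), hence above `uD`. -/
theorem Core.yesUF (C : Core κ S) (hκ : IsStronglyCompact κ) {G : Gen S} (h : G.O (lO κ)) :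
    CarriesUniform G.E (G.ord (lO κ)) := by
  obtain ⟨W⟩ := exists_ufs hκ
  refine Gen.pull (R := fun _ E v => CarriesUniform E (v 0)) (CarriesUniform.fo 0) (w := ![chkO D (lO κ)]) (G := G)
    (fun i => by
      rw [Subsingleton.elim i 0]
      exact h) G.uf.top {ufN S W} (Set.countable_singleton _) (fun x hx => by
      rw [Set.mem_singleton_iff] at hx
      rw [hx]
      exact HS_ufN C W) ?_
  intro G' hw hN _
  have hU := hN (Set.mem_singleton _)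
  refine ⟨G'.val (ufN S W), Gen.isUltra_ufN C W hU (hw 0), fun X hX => ?_⟩
  obtain ⟨X, hXN, rfl⟩ := Gen.exists_name X
  exact Gen.uniform_ufN C W hU (hw 0) hXN hX

end SYM
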