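import Pool.Agent.W_MP_790ce2_lc.Notions

/-!
# MP_790ce2_lc (copied from W_MP_83aea7_lc) : elementary set theory in a model of ZF
-/

namespace ZFM
universe u
variable {N : Type u} {E : N → N → Prop}

section pairs
variable (hZ : IsZF E)
include hZ

theorem IsZF.sub_antisymm {a b : N} (h : Sub E a b) (h' : Sub E b a) : a = b :=
  hZ.ext a b fun x => ⟨h x, h' x⟩

theorem IsUPair.uniq {c c' a b : N} (h : IsUPair E c a b) (h' : IsUPair E c' a b) : c = c' :=
  hZ.ext _ _ fun x => (h x).trans (h' x).symm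

theorem IsEmp.uniq {c c' : N} (h : IsEmp E c) (h' : IsEmp E c') : c = c' :=
  hZ.ext _ _ fun x => ⟨fun hx => (h x hx).elim, fun hx => (h' x hx).elim⟩

theorem IsSucc.uniq {c c' a : N} (h : IsSucc E c a) (h' : IsSucc E c' a) : c = c' :=
  hZ.ext _ _ fun x => (h x).trans (h' x).symm

theorem IsPair.uniq {p p' a b : N} (h : IsPair E p a b) (h' : IsPair E p' a b) : p = p' := by
  obtain ⟨s, d, h1, h2, h3⟩ := h
  obtain ⟨s', d', h1', h2', h3'⟩ := h'
  obtain rfl := IsUPair.uniq hZ h1 h1'
  obtain rfl := IsUPair.uniq hZ h2 h2'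
  exact IsUPair.uniq hZ h3 h3'

theorem IsPair.inj {p a b a' b' : N} (h : IsPair E p a b) (h' : IsPair E p a' b') : a = a' ∧ b = b' := by
  obtain ⟨s, d, h1, h2, h3⟩ := h
  obtain ⟨s', d', h1', h2', h3'⟩ := h'
  have hs : s = s' ∨ s = d' := (h3' s).1 ((h3 s).2 (Or.inl rfl))
  have hd : d = s' ∨ d = d' := (h3' d).1 ((h3 d).2 (Or.inr rfl))
  have hs' : s' = s ∨ s' = d := (h3 s').1 ((h3' s').2 (Or.inl rfl))
  have hd' : d' = s ∨ d' = d := (h3 d').1 ((h3' d').2 (Or.inr rfl))
  have ha : a = a' := by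
    rcases hs with rfl | rfl
    · exact (((h1' a).1 ((h1 a).2 (Or.inl rfl)))).elim id id
    · have h4 := (h1 a').1 ((h2' a').2 (Or.inl rfl))
      exact (h4.elim id id).symm
  subst ha
  obtain rfl := IsUPair.uniq hZ h1 h1'
  refine ⟨rfl, ?_⟩
  rcases hd with rfl | rfl
  · -- `d = {a}`, so `b = a`; then `d' = {a}` too
    have hb : b = a := ((h1 b).1 ((h2 b).2 (Or.inr rfl))).elim id id
    subst hb
    rcases hd' with rfl | rfl
    · exact (((h1 b').1 ((h2' b').2 (Or.inr rfl))).elim id id).symm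
    · exact (((h1 b').1 ((h2' b').2 (Or.inr rfl))).elim id id).symm
  · rcases (h2' b).1 ((h2 b).2 (Or.inr rfl)) with rfl | rfl
    · rcases (h2 b').1 ((h2' b').2 (Or.inr rfl)) with h5 | h5 <;> exact h5.symm
    · rfl

theorem IsZF.exUPair (a b : N) : ∃ c, IsUPair E c a b := hZ.pair a b

theorem IsZF.exPair (a b : N) : ∃ p, IsPair E p a b := by
  obtain ⟨s, hs⟩ := hZ.pair a a
  obtain ⟨d, hd⟩ := hZ.pair a b
  obtain ⟨p, hp⟩ := hZ.pair s d
  exact ⟨p, s, d, hs, hd, hp⟩

theorem IsZF.exEmp : ∃ e, IsEmp E e := by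
  obtain ⟨a, ⟨z, hz, _⟩, _⟩ := hZ.inf
  exact ⟨z, hz⟩

theorem IsZF.exUnion2 (a b : N) : ∃ c, ∀ x, E x c ↔ E x a ∨ E x b := by
  obtain ⟨d, hd⟩ := hZ.pair a b
  obtain ⟨c, hc⟩ := hZ.union d
  refine ⟨c, fun x => ?_⟩
  rw [hc]
  constructor
  · rintro ⟨y, hy, hx⟩
    rcases (hd y).1 hy with rfl | rfl
    · exact Or.inl hx
    · exact Or.inr hx
  · rintro (hx | hx)
    · exact ⟨a, (hd a).2 (Or.inl rfl), hx⟩
    · exact ⟨b, (hd b).2 (Or.inr rfl), hx⟩

/-- `a ∪ {b}` -/
theorem IsZF.exInsert (a b : N) : ∃ c, ∀ x, E x c ↔ E x a ∨ x = b := by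
  obtain ⟨s, hs⟩ := hZ.pair b b
  obtain ⟨c, hc⟩ := hZ.exUnion2 a s
  exact ⟨c, fun x => by rw [hc, hs]; tauto⟩

theorem IsZF.exSucc (a : N) : ∃ c, IsSucc E c a := hZ.exInsert a a

theorem IsZF.exPow (a : N) : ∃ b, ∀ x, E x b ↔ Sub E x a := hZ.power a

theorem IsZF.irrefl (a : N) : ¬ E a a := by
  intro h
  obtain ⟨s, hs⟩ := hZ.pair a a
  obtain ⟨x, hx, hx'⟩ := hZ.found s ⟨a, (hs a).2 (Or.inl rfl)⟩
  have : x = a := ((hs x).1 hx).elim id id
  subst this
  exact hx' x h hx

theorem IsZF.asymm {a b : N} (h : E a b) (h' : E b a) : False := by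
  obtain ⟨s, hs⟩ := hZ.pair a b
  obtain ⟨x, hx, hx'⟩ := hZ.found s ⟨a, (hs a).2 (Or.inl rfl)⟩
  rcases (hs x).1 hx with rfl | rfl
  · exact hx' b h' ((hs b).2 (Or.inr rfl))
  · exact hx' a h ((hs a).2 (Or.inl rfl))

/-- every definable nonempty class which is a set has a foundation-minimal element: bounded version -/
theorem IsZF.minOf {P : N → Prop} (hP : Def1 E P) {a : N} (h : ∃ x, E x a ∧ P x) :
    ∃ x, E x a ∧ P x ∧ ∀ y, E y x → E y a → ¬ P y := by
  obtain ⟨b, hb⟩ := hZ.sep1 hP a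
  obtain ⟨x, hx, hP'⟩ := h
  obtain ⟨z, hz, hz'⟩ := hZ.found b ⟨x, (hb x).2 ⟨hx, hP'⟩⟩
  have h1 := (hb z).1 hz
  exact ⟨z, h1.1, h1.2, fun y hy hya hPy => hz' y hy ((hb y).2 ⟨hya, hPy⟩)⟩

end pairs

section functions
variable (hZ : IsZF E)
include hZ

theorem IsFun.dom {f a x y : N} (hf : IsFun E f a) (h : App E f x y) : E x a := by
  obtain ⟨p, hp, hxy⟩ := h
  obtain ⟨x', y', hx', hp'⟩ := hf.1 p hp
  obtain ⟨rfl, rfl⟩ := IsPair.inj hZ hxy hp'
  exact hx'

theorem IsFun.val {f a x y y' : N} (hf : IsFun E f a) (h : App E f x y) (h' : App E f x y') : y = y' :=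
  (hf.2 x (hf.dom hZ h)).unique h h'

omit hZ in
theorem IsFun.ex {f a x : N} (hf : IsFun E f a) (hx : E x a) : ∃ y, App E f x y := (hf.2 x hx).exists

/-- functions with the same values are equal -/
theorem IsFun.ext {f g a : N} (hf : IsFun E f a) (hg : IsFun E g a) (h : ∀ x y, App E f x y → App E g x y) : f = g := by
  refine hZ.ext f g fun p => ⟨fun hp => ?_, fun hp => ?_⟩
  · obtain ⟨x, y, hx, hp'⟩ := hf.1 p hp
    obtain ⟨p', hp1, hp2⟩ := h x y ⟨p, hp, hp'⟩
    rwa [IsPair.uniq hZ hp' hp2]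
  · obtain ⟨x, y, hx, hp'⟩ := hg.1 p hp
    obtain ⟨y', hy'⟩ := hf.ex hx
    have : y' = y := hg.val hZ (h x y' hy') ⟨p, hp, hp'⟩
    subst this
    obtain ⟨p', hp1, hp2⟩ := hy'
    rwa [IsPair.uniq hZ hp' hp2]

/-- the domain is determined by the function -/
theorem IsFun.dom_uniq {f a b : N} (hf : IsFun E f a) (hf' : IsFun E f b) : a = b := by
  refine hZ.ext a b fun x => ⟨fun hx => ?_, fun hx => ?_⟩
  · obtain ⟨y, hy⟩ := hf.ex hx
    exact hf'.dom hZ hy
  · obtain ⟨y, hy⟩ := hf'.ex hx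
    exact hf.dom hZ hy

/-- a definable functional relation on a set is a function -/
theorem IsZF.exFun {R : N → N → Prop} (hR : Def2 E R) (a : N) (h : ∀ x, E x a → ∃! y, R x y) :
    ∃ f, IsFun E f a ∧ ∀ x, E x a → ∀ y, App E f x y ↔ R x y := by
  -- the set of pairs `(x,y)` with `x ∈ a` and `R x y`
  have hd : Def2 E (fun x p => ∃ y, R x y ∧ IsPair E p x y) := by
    refine Def.ex ?_
    refine Def.and ?_ (by (repeat' (first | assumption | (apply DefFun.comp; assumption) | apply IsNum.df | apply CarriesUniform.df | apply IsUltra.df | apply IsBij.df | apply IsCofOmega.df | apply IsAleph.df | apply IsAlephFun.df | apply IsReg.df | apply IsSuccCard.df | apply IsInfCard.df | apply IsCard.df | apply Maps.df | apply IsFun.df | apply App.df | apply IsOmega.df | apply IsNat.df | apply IsZS.df | apply IsOrd.df | apply IsTr.df | apply IsSucc.df | apply IsPair.df | apply IsUPair.df | apply IsEmp.df | apply Sub.df | exact DefFun.var _ | exact DefFun.const _ | apply Def.eq |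 apply Def.mem | apply Def.not | apply Def.and | apply Def.or | apply Def.iff | apply Def.imp | apply Def.exU | apply Def.ex | apply Def.all)))
    exact (Def.rename hR ![1, 0]).congr fun v => by simp
  obtain ⟨f, hf⟩ := hZ.repl2 hd a (fun x hx p q h1 h2 => by
    obtain ⟨y, hy, hp⟩ := h1
    obtain ⟨z, hz, hq⟩ := h2
    obtain rfl := (h x hx).unique hy hz
    exact IsPair.uniq hZ hp hq)
  have happ : ∀ x, E x a → ∀ y, App E f x y ↔ R x y := by
    intro x hx y
    constructor
    · rintro ⟨p, hp, hxy⟩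
      obtain ⟨x', hx', y', hy', hp'⟩ := (hf p).1 hp
      obtain ⟨rfl, rfl⟩ := IsPair.inj hZ hxy hp'
      exact hy'
    · intro hy
      obtain ⟨p, hp⟩ := hZ.exPair x y
      exact ⟨p, (hf p).2 ⟨x, hx, y, hy, hp⟩, hp⟩
  refine ⟨f, ⟨fun p hp => ?_, fun x hx => ?_⟩, happ⟩
  · obtain ⟨x, hx, y, hy, hp'⟩ := (hf p).1 hp
    exact ⟨x, y, hx, hp'⟩
  · obtain ⟨y, hy, hu⟩ := h x hx
    exact ⟨y, (happ x hx y).2 hy, fun z hz => hu z ((happ x hx z).1 hz)⟩

/-- restriction of a function -/
theorem IsZF.exRestr {f a : N} (hf : IsFun E f a) {b : N} (hb : Sub E b a) :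
    ∃ g, IsFun E g b ∧ ∀ x, E x b → ∀ y, App E g x y ↔ App E f x y :=
  hZ.exFun (R := fun x y => App E f x y) (by (repeat' (first | assumption | (apply DefFun.comp; assumption) | apply IsNum.df | apply CarriesUniform.df | apply IsUltra.df | apply IsBij.df | apply IsCofOmega.df | apply IsAleph.df | apply IsAlephFun.df | apply IsReg.df | apply IsSuccCard.df | apply IsInfCard.df | apply IsCard.df | apply Maps.df | apply IsFun.df | apply App.df | apply IsOmega.df | apply IsNat.df | apply IsZS.df | apply IsOrd.df | apply IsTr.df | apply IsSucc.df | apply IsPair.df | apply IsUPair.df | apply IsEmp.df | apply Sub.df | exact DefFun.var _ | exact DefFun.const _ | apply Def.eq | apply Def.mem | apply Def.not | apply Def.and | apply Def.or | apply Def.iff | apply Def.imp | apply Def.exU | apply Def.ex | apply Def.all))) b fun x hx => hf.2 x (hb x hx)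

/-- range of a function -/
theorem IsZF.exRange {f a : N} (hf : IsFun E f a) : ∃ r, ∀ y, E y r ↔ ∃ x, App E f x y := by
  obtain ⟨r, hr⟩ := hZ.repl2 (R := fun x y => App E f x y) (by (repeat' (first | assumption | (apply DefFun.comp; assumption) | apply IsNum.df | apply CarriesUniform.df | apply IsUltra.df | apply IsBij.df | apply IsCofOmega.df | apply IsAleph.df | apply IsAlephFun.df | apply IsReg.df | apply IsSuccCard.df | apply IsInfCard.df | apply IsCard.df | apply Maps.df | apply IsFun.df | apply App.df | apply IsOmega.df | apply IsNat.df | apply IsZS.df | apply IsOrd.df | apply IsTr.df | apply IsSucc.df | apply IsPair.df | apply IsUPair.df | apply IsEmp.df | apply Sub.df | exact DefFun.var _ | exact DefFun.const _ | apply Def.eq | apply Def.mem | apply Def.not | apply Def.and | apply Def.or | apply Def.iff | apply Def.imp | apply Def.exU | apply Def.ex | apply Def.all))) a (fun x _ y z h1 h2 => hf.val hZ h1 h2)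
  exact ⟨r, fun y => (hr y).trans ⟨fun ⟨x, _, h⟩ => ⟨x, h⟩, fun ⟨x, h⟩ => ⟨x, hf.dom hZ h, h⟩⟩⟩

/-- composition -/
theorem IsZF.exComp {f a g b : N} (hf : Maps E f a b) (hg : IsFun E g b) :
    ∃ h, IsFun E h a ∧ ∀ x y z, App E f x y → App E g y z → App E h x z := by
  obtain ⟨h, hh, happ⟩ := hZ.exFun (R := fun x z => ∃ y, App E f x y ∧ App E g y z) (by (repeat' (first | assumption | (apply DefFun.comp; assumption) | apply IsNum.df | apply CarriesUniform.df | apply IsUltra.df | apply IsBij.df | apply IsCofOmega.df | apply IsAleph.df | apply IsAlephFun.df | apply IsReg.df | apply IsSuccCard.df | apply IsInfCard.df | apply IsCard.df | apply Maps.df | apply IsFun.df | apply App.df | apply IsOmega.df | apply IsNat.df | apply IsZS.df | apply IsOrd.df | apply IsTr.df | apply IsSucc.df | apply IsPair.df | apply IsUPair.df | apply IsEmp.df | apply Sub.df | exact DefFun.var _ | exact DefFun.const _ | apply Def.eq | apply Def.mem | apply Def.not | apply Def.and | apply Def.or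 | apply Def.iff | apply Def.imp | apply Def.exU | apply Def.ex | apply Def.all))) a (fun x hx => by
    obtain ⟨y, hy⟩ := hf.1.ex hx
    obtain ⟨z, hz⟩ := hg.ex (hf.2 x y hy)
    refine ⟨z, ⟨y, hy, hz⟩, ?_⟩
    rintro z' ⟨y', hy', hz'⟩
    obtain rfl := hf.1.val hZ hy hy'
    exact hg.val hZ hz' hz)
  exact ⟨h, hh, fun x y z h1 h2 => (happ x (hf.1.dom hZ h1) z).2 ⟨y, h1, h2⟩⟩

/-- the identity function -/
theorem IsZF.exId (a : N) : ∃ f, IsFun E f a ∧ ∀ x, E x a → ∀ y, App E f x y ↔ y = x :=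
  hZ.exFun (R := fun x y => y = x) (by (repeat' (first | assumption | (apply DefFun.comp; assumption) | apply IsNum.df | apply CarriesUniform.df | apply IsUltra.df | apply IsBij.df | apply IsCofOmega.df | apply IsAleph.df | apply IsAlephFun.df | apply IsReg.df | apply IsSuccCard.df | apply IsInfCard.df | apply IsCard.df | apply Maps.df | apply IsFun.df | apply App.df | apply IsOmega.df | apply IsNat.df | apply IsZS.df | apply IsOrd.df | apply IsTr.df | apply IsSucc.df | apply IsPair.df | apply IsUPair.df | apply IsEmp.df | apply Sub.df | exact DefFun.var _ | exact DefFun.const _ | apply Def.eq | apply Def.mem | apply Def.not | apply Def.and | apply Def.or | apply Def.iff | apply Def.imp | apply Def.exU | apply Def.ex | apply Def.all))) a fun x _ => ⟨x, rfl, fun _ h => h⟩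

/-- cartesian product -/
theorem IsZF.exProd (a b : N) : ∃ c, ∀ p, E p c ↔ ∃ x y, E x a ∧ E y b ∧ IsPair E p x y := by
  -- for each `x`, the set `{x} × b`
  have h1 : ∀ x, ∃! c, ∀ p, E p c ↔ ∃ y, E y b ∧ IsPair E p x y := by
    intro x
    obtain ⟨c, hc⟩ := hZ.repl2 (R := fun y p => IsPair E p x y) (by (repeat' (first | assumption | (apply DefFun.comp; assumption) | apply IsNum.df | apply CarriesUniform.df | apply IsUltra.df | apply IsBij.df | apply IsCofOmega.df | apply IsAleph.df | apply IsAlephFun.df | apply IsReg.df | apply IsSuccCard.df | apply IsInfCard.df | apply IsCard.df | apply Maps.df | apply IsFun.df | apply App.df | apply IsOmega.df | apply IsNat.df | apply IsZS.df | apply IsOrd.df | apply IsTr.df | apply IsSucc.df | apply IsPair.df | apply IsUPair.df | apply IsEmp.df | apply Sub.df | exact DefFun.var _ | exact DefFun.const _ | apply Def.eq | apply Def.mem | apply Def.not | apply Def.and | apply Def.or | apply Def.iff | apply Def.imp | apply Def.exU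 | apply Def.ex | apply Def.all))) b (fun y _ p q h1 h2 => IsPair.uniq hZ h1 h2)
    exact ⟨c, hc, fun c' hc' => hZ.ext _ _ fun p => (hc' p).trans (hc p).symm⟩
  obtain ⟨d, hd⟩ := hZ.repl2 (R := fun x c => ∀ p, E p c ↔ ∃ y, E y b ∧ IsPair E p x y) (by (repeat' (first | assumption | (apply DefFun.comp; assumption) | apply IsNum.df | apply CarriesUniform.df | apply IsUltra.df | apply IsBij.df | apply IsCofOmega.df | apply IsAleph.df | apply IsAlephFun.df | apply IsReg.df | apply IsSuccCard.df | apply IsInfCard.df | apply IsCard.df | apply Maps.df | apply IsFun.df | apply App.df | apply IsOmega.df | apply IsNat.df | apply IsZS.df | apply IsOrd.df | apply IsTr.df | apply IsSucc.df | apply IsPair.df | apply IsUPair.df | apply IsEmp.df | apply Sub.df | exact DefFun.var _ | exact DefFun.const _ | apply Def.eq | apply Def.mem | apply Def.not | apply Def.and | apply Def.or | apply Def.iff | apply Def.imp | apply Def.exU | apply Def.ex | apply Def.all))) a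
    (fun x _ y z h2 h3 => (h1 x).unique h2 h3)
  obtain ⟨c, hc⟩ := hZ.union d
  refine ⟨c, fun p => ?_⟩
  rw [hc]
  constructor
  · rintro ⟨w, hw, hp⟩
    obtain ⟨x, hx, hx'⟩ := (hd w).1 hw
    obtain ⟨y, hy, hp'⟩ := (hx' p).1 hp
    exact ⟨x, y, hx, hy, hp'⟩
  · rintro ⟨x, y, hx, hy, hp⟩
    obtain ⟨w, hw, _⟩ := h1 x
    exact ⟨w, (hd w).2 ⟨x, hx, hw⟩, (hw p).2 ⟨y, hy, hp⟩⟩

end functions

end ZFM
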