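import Pool.Agent.W_MP_790ce2_lc.Gen

/-!
# MP_790ce2_lc : the generic models satisfy the axioms of ZF, part 1

For an existence axiom with parameters in `G.N` use `Gen.pull` (the axiom is a first-order statement about its
parameters; `FO` lemmas in `Fml.lean`, `Notions.lean`) to assume that the name of the required set belongs to the model,
and check the equivalence with `Gen.E_val`, `Gen.val_eq` and the computation of `bmem _ name` (compare
`Pool/Agent/BVM_h40/ZFC.lean`, `ax_ext`, `ax_pairing`, `ax_union`, `ax_separation`).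
Foundation: `Gen.wf`. Infinity: the name `chkO D ω`.
-/

universe u v

namespace SYM

open IM (BSet)
open IM.BSet
open BVM (IsUF)
open ZFM (Fml Sat)

variable {D : Type u} [CompleteBooleanAlgebra D] {S : SymSys D} (G : Gen S)

namespace Gen

/-- `φ = (0 ∈ 1) ∧ ¬ (0 ∈ 2)` -/
theorem zf_ext_aux {x y : BSet D} (hx : x ∈ G.N) (hy : y ∈ G.N)
    (h : ¬ G.lam (⨅ a : x.ty, (x.wt a)ᶜ ⊔ bmem (x.fn a) y)) :
    ∃ z : G.M, G.E z (G.val x) ∧ ¬ G.E z (G.val y) := by
  rw [← G.uf.compl_iff] at h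
  have he : (⨅ a : x.ty, (x.wt a)ᶜ ⊔ bmem (x.fn a) y)ᶜ =
      ⨆ a : x.ty, x.wt a ⊓ (bmem (x.fn a) y)ᶜ := by
    rw [compl_iInf]
    refine iSup_congr fun a => ?_
    rw [compl_sup, compl_compl]
  rw [he] at h
  have hw : ∀ i, (![x, y] : Fin 2 → BSet D) i ∈ Set.range G.e := by
    intro i
    fin_cases i
    · exact hx
    · exact hy
  have h1 : G.lam (tvS S (.ex (.and (.mem 0 1) (.neg (.mem 0 2)))) ![x, y]) := by
    refine G.uf.mono (iSup_le fun a => ?_) h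
    refine le_iSup_of_le (⟨x.fn a, ((HS_def S x).1 (hsN hx)).2 a⟩ : {x : BSet D // S.HS x}) ?_
    exact inf_le_inf_right _ (wt_le_bmem x a)
  obtain ⟨z, hz, hlz⟩ := G.hen 2 _ _ hw h1
  have h2 := G.uf.inf_iff.1 hlz
  refine ⟨G.val z, (E_val hz hx).2 h2.1, fun h3 => ?_⟩
  exact G.uf.compl_iff.1 h2.2 ((E_val hz hy).1 h3)

theorem ax_ext (a b : G.M) (h : ∀ x, G.E x a ↔ G.E x b) : a = b := by
  obtain ⟨x, hx, rfl⟩ := exists_name a
  obtain ⟨y, hy, rfl⟩ := exists_name b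
  rw [val_eq hx hy, beq_def, G.uf.inf_iff]
  constructor
  · by_contra hc
    obtain ⟨z, h1, h2⟩ := zf_ext_aux G hx hy hc
    exact h2 ((h z).1 h1)
  · by_contra hc
    obtain ⟨z, h1, h2⟩ := zf_ext_aux G hy hx hc
    exact h2 ((h z).2 h1)

theorem ax_found (a : G.M) (h : ∃ x, G.E x a) : ∃ x, G.E x a ∧ ∀ y, G.E y x → ¬ G.E y a := by
  obtain ⟨m, hm, hmin⟩ := G.wf.has_min {x | G.E x a} h
  exact ⟨m, hm, fun y hy hya => hmin y hya hy⟩

/-- A name whose membership function is invariant is symmetric. -/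
theorem zf_sup_of_val {i : S.ι} {x : BSet D} (F : BSet D → D) (hx : ∀ z, bmem z x = F z)
    (hF : ∀ g ∈ S.K i, ∀ z, S.act g (F (S.ac g⁻¹ z)) ≤ F z) : S.Sup i x := by
  refine sup_of_bmem fun g hg z => ?_
  have h1 := hF g hg z
  rwa [← hx, ← hx, act_bmem, sy_ac_inv] at h1

theorem ax_pair (a b : G.M) : ∃ c, ∀ x, G.E x c ↔ x = a ∨ x = b := by
  obtain ⟨x, hx, rfl⟩ := exists_name a
  obtain ⟨y, hy, rfl⟩ := exists_name b
  have hR : ZFM.FO.{0} (fun T E (v : Fin 2 → T) => ∃ c, ∀ x, E x c ↔ x = v 0 ∨ x = v 1) := by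
    apply ZFM.FO.ex
    apply ZFM.FO.all
    exact (ZFM.FO.mem _ _).iff ((ZFM.FO.eq _ _).or (ZFM.FO.eq _ _))
  have hw : ∀ i, (![x, y] : Fin 2 → BSet D) i ∈ G.N := by
    intro i
    fin_cases i
    · exact hx
    · exact hy
  refine pull hR hw G.uf.top {upB x y} (Set.countable_singleton _) ?_ ?_
  · rintro _ rfl
    exact HS_upB (hsN hx) (hsN hy)
  · intro G' hw' hN' _
    have hx' : x ∈ G'.N := hw' 0
    have hy' : y ∈ G'.N := hw' 1
    have hp : upB x y ∈ G'.N := hN' rfl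
    refine ⟨G'.val (upB x y), fun z => ?_⟩
    obtain ⟨z, hz, rfl⟩ := exists_name z
    change G'.E _ _ ↔ G'.val z = G'.val x ∨ G'.val z = G'.val y
    rw [E_val hz hp, val_eq hz hx', val_eq hz hy', bmem_upB, G'.uf.sup_iff]

/-- the name of the union of `a` -/
def zfUn (a : BSet D) : BSet D :=
  .mk (Σ i : a.ty, (a.fn i).ty) (fun p => (a.fn p.1).fn p.2) fun p => a.wt p.1 ⊓ (a.fn p.1).wt p.2

theorem zf_bmem_un (a x : BSet D) : bmem x (zfUn a) = ⨆ y, bmem y a ⊓ bmem x y := by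
  have h1 : bmem x (zfUn a) = ⨆ i : a.ty, a.wt i ⊓ bmem x (a.fn i) := by
    simp only [zfUn, bmem, fn, wt, ty]
    rw [iSup_sigma]
    refine iSup_congr fun i => ?_
    rw [inf_iSup_eq]
    exact iSup_congr fun k => inf_assoc _ _ _
  rw [h1]
  exact BVM.iSup_wt_eq a fun y y' => bmem_congr_right x y y'

theorem zf_HS_un {a : BSet D} (ha : S.HS a) : S.HS (zfUn a) := by
  obtain ⟨⟨i, hi⟩, hA⟩ := (HS_def S a).1 ha
  rw [HS_def]
  refine ⟨⟨i, ?_⟩, fun p => ((HS_def S _).1 (hA p.1)).2 p.2⟩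
  refine zf_sup_of_val _ (zf_bmem_un a) fun g hg z => ?_
  rw [OrderIso.map_iSup]
  refine iSup_le fun y => ?_
  refine le_iSup_of_le (S.ac g y) ?_
  rw [map_inf, act_bmem, act_bmem, sy_ac_inv]
  refine inf_le_inf_right _ (le_of_eq ?_)
  exact sy_bmem_congr (beq_refl _) (hi g hg)

theorem ax_union (a : G.M) : ∃ b, ∀ x, G.E x b ↔ ∃ y, G.E y a ∧ G.E x y := by
  obtain ⟨x, hx, rfl⟩ := exists_name a
  have hR : ZFM.FO.{0} (fun T E (v : Fin 1 → T) => ∃ b, ∀ x, E x b ↔ ∃ y, E y (v 0) ∧ E x y) := by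
    apply ZFM.FO.ex
    apply ZFM.FO.all
    refine (ZFM.FO.mem _ _).iff ?_
    apply ZFM.FO.ex
    exact (ZFM.FO.mem _ _).and (ZFM.FO.mem _ _)
  have hw : ∀ i, (![x] : Fin 1 → BSet D) i ∈ G.N := by
    intro i
    fin_cases i
    exact hx
  refine pull hR hw G.uf.top {zfUn x} (Set.countable_singleton _) ?_ ?_
  · rintro _ rfl
    exact zf_HS_un (hsN hx)
  · intro G' hw' hN' _
    have hx' : x ∈ G'.N := hw' 0
    have hp : zfUn x ∈ G'.N := hN' rfl
    refine ⟨G'.val (zfUn x), fun z => ?_⟩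
    obtain ⟨z, hz, rfl⟩ := exists_name z
    change G'.E _ _ ↔ ∃ y, G'.E y (G'.val x) ∧ G'.E (G'.val z) y
    rw [E_val hz hp]
    constructor
    · intro h
      have hww : ∀ i, (![z, x] : Fin 2 → BSet D) i ∈ Set.range G'.e := by
        intro i
        fin_cases i
        · exact hz
        · exact hx'
      have h1 : G'.lam (tvS S (.ex (.and (.mem 0 2) (.mem 1 0))) ![z, x]) := by
        refine G'.uf.mono ?_ h
        rw [zf_bmem_un, ← BVM.iSup_wt_eq x (fun y y' => bmem_congr_right z y y')]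
        refine iSup_le fun a => ?_
        refine le_iSup_of_le (⟨x.fn a, ((HS_def S x).1 (hsN hx')).2 a⟩ : {x : BSet D // S.HS x}) ?_
        exact inf_le_inf_right _ (wt_le_bmem x a)
      obtain ⟨y, hy, hly⟩ := G'.hen 2 _ _ hww h1
      have h2 := G'.uf.inf_iff.1 hly
      exact ⟨G'.val y, (E_val hy hx').2 h2.1, (E_val hz hy).2 h2.2⟩
    · rintro ⟨y, hy1, hy2⟩
      obtain ⟨y, hy, rfl⟩ := exists_name y
      rw [zf_bmem_un]
      exact G'.uf.mono (le_iSup (fun y => bmem y x ⊓ bmem z y) y)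
        (G'.uf.inf ((E_val hy hx').1 hy1) ((E_val hz hy).1 hy2))

theorem ax_inf : ∃ a, (∃ z, (∀ y, ¬ G.E y z) ∧ G.E z a) ∧
    ∀ x, G.E x a → ∃ y, (∀ z, G.E z y ↔ G.E z x ∨ z = x) ∧ G.E y a := by
  have hR : ZFM.FO.{0} (fun T E (_ : Fin 0 → T) => ∃ a, (∃ z, (∀ y, ¬ E y z) ∧ E z a) ∧
    ∀ x, E x a → ∃ y, (∀ z, E z y ↔ E z x ∨ z = x) ∧ E y a) := by
    apply ZFM.FO.ex
    apply ZFM.FO.and
    · apply ZFM.FO.ex
      exact (ZFM.FO.all (ZFM.FO.mem _ _).not).and (ZFM.FO.mem _ _)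
    · apply ZFM.FO.all
      refine (ZFM.FO.mem _ _).imp ?_
      apply ZFM.FO.ex
      exact (ZFM.FO.all ((ZFM.FO.mem _ _).iff ((ZFM.FO.mem _ _).or (ZFM.FO.eq _ _)))).and
        (ZFM.FO.mem _ _)
  refine pull (G := G) (w := Fin.elim0) hR (fun i => i.elim0) G.uf.top
    {chkO D Ordinal.omega0.{u}} (Set.countable_singleton _) ?_ ?_
  · rintro _ rfl
    exact HS_chkO _
  · intro G' _ hN' _
    have hp : chkO D Ordinal.omega0.{u} ∈ G'.N := hN' rfl
    have hcl := G'.cl _ hp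
    rw [chkO_eq] at hcl
    have hc : Countable (Ordinal.omega0.{u}).ToType := by
      rw [← Cardinal.mk_le_aleph0_iff, Cardinal.mk_toType, Ordinal.card_omega0]
    have hn : ∀ ξ < Ordinal.omega0.{u}, chkO D ξ ∈ G'.N := by
      intro ξ hξ
      obtain ⟨i, rfl⟩ := exists_tp hξ
      exact hcl hc i
    have hE : ∀ ξ < Ordinal.omega0.{u}, G'.E (G'.val (chkO D ξ)) (G'.val (chkO D Ordinal.omega0.{u})) := by
      intro ξ hξ
      rw [E_val (hn ξ hξ) hp, bmem_chkO_of_lt hξ]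
      exact G'.uf.top
    refine ⟨G'.val (chkO D Ordinal.omega0.{u}), ⟨G'.val (chkO D 0), ?_, hE 0 Ordinal.omega0_pos⟩, ?_⟩
    · intro y hy
      obtain ⟨y, hy', rfl⟩ := exists_name y
      rw [E_val hy' (hn 0 Ordinal.omega0_pos), bmem_chkO] at hy
      refine G'.uf.bot (G'.uf.mono (iSup_le fun ξ => ?_) hy)
      exact absurd (Set.mem_Iio.1 ξ.2) (not_lt.2 bot_le)
    · intro x hx
      rw [mem_iff hp] at hx
      obtain ⟨b, hb⟩ := hx
      have hb' : ∃ ξ < Ordinal.omega0.{u}, x = G'.val (chkO D ξ) := by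
        revert b
        rw [chkO_eq]
        rintro b ⟨_, hb, _⟩
        exact ⟨tp b, tp_lt b, hb⟩
      obtain ⟨ξ, hξ, rfl⟩ := hb'
      have hs : Order.succ ξ < Ordinal.omega0.{u} :=
        Ordinal.isSuccLimit_omega0.succ_lt hξ
      refine ⟨G'.val (chkO D (Order.succ ξ)), fun z => ?_, hE _ hs⟩
      obtain ⟨z, hz, rfl⟩ := exists_name z
      rw [E_val hz (hn _ hs), E_val hz (hn _ hξ), val_eq hz (hn _ hξ), ← G'.uf.sup_iff]
      have : bmem z (chkO D (Order.succ ξ)) = bmem z (chkO D ξ) ⊔ beq z (chkO D ξ) := by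
        rw [bmem_chkO, bmem_chkO]
        apply le_antisymm
        · refine iSup_le fun η => ?_
          rcases (Order.lt_succ_iff.1 (Set.mem_Iio.1 η.2)).lt_or_eq with h | h
          · exact le_sup_of_le_left (le_iSup_of_le (⟨η.1, h⟩ : Set.Iio ξ) le_rfl)
          · refine le_sup_of_le_right (le_of_eq ?_)
            rw [h]
        · refine sup_le (iSup_le fun η => ?_) ?_
          · exact le_iSup_of_le (⟨η.1, lt_trans η.2 (Order.lt_succ ξ)⟩ : Set.Iio (Order.succ ξ)) le_rfl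
          · exact le_iSup_of_le (⟨ξ, Order.lt_succ ξ⟩ : Set.Iio (Order.succ ξ)) le_rfl
      rw [this]

/-- the name `{x ∈ a : φ(x, w)}` -/
noncomputable def sepN (S : SymSys D) {k : ℕ} (φ : Fml (k + 1)) (w : Fin k → BSet D) (a : BSet D) : BSet D :=
  .mk a.ty a.fn fun i => a.wt i ⊓ tvS S φ (Fin.cons (a.fn i) w)

theorem zf_bmem_sepN {k : ℕ} (φ : Fml (k + 1)) (w : Fin k → BSet D) (a x : BSet D) :
    bmem x (sepN S φ w a) = bmem x a ⊓ tvS S φ (Fin.cons x w) := by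
  rw [IM.bf_bmem_inf x a (ext1_tvS φ w)]
  rfl

theorem HS_sepN {k : ℕ} (φ : Fml (k + 1)) {w : Fin k → BSet D} (hw : ∀ i, S.HS (w i)) {a : BSet D} (ha : S.HS a) :
    S.HS (sepN S φ w a) := by
  rw [HS_def]
  refine ⟨?_, fun i => ((HS_def S a).1 ha).2 i⟩
  obtain ⟨i, hi⟩ := exists_sup (Fin.cons a w : Fin (k + 1) → BSet D) (by
    intro j
    refine Fin.cases ?_ (fun j => ?_) j
    · exact ha
    · exact hw j)
  have hi0 : S.Sup i a := hi 0
  have hi1 : ∀ j, S.Sup i (w j) := fun j => hi j.succ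
  refine ⟨i, zf_sup_of_val _ (zf_bmem_sepN φ w a) fun g hg z => ?_⟩
  rw [map_inf, act_bmem, act_tvS, sy_ac_inv]
  refine inf_le_inf (le_of_eq (sy_bmem_congr (beq_refl _) (hi0 g hg))) ?_
  refine le_trans (le_inf ?_ le_rfl) (tvS_ext φ _ _)
  refine le_iInf fun j => ?_
  refine Fin.cases ?_ (fun j => ?_) j
  · simp only [Fin.cons_zero, sy_ac_inv, beq_refl]
    exact le_top
  · simp only [Fin.cons_succ]
    rw [hi1 j g hg]
    exact le_top

theorem bmem_sepN {k : ℕ} (φ : Fml (k + 1)) (w : Fin k → BSet D) (a x : BSet D) :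
    bmem x (sepN S φ w a) = bmem x a ⊓ tvS S φ (Fin.cons x w) := zf_bmem_sepN φ w a x

theorem ax_sep (k : ℕ) (φ : Fml (k + 1)) (v : Fin k → G.M) (a : G.M) :
    ∃ b, ∀ x, G.E x b ↔ G.E x a ∧ Sat G.E φ (Fin.cons x v) := by
  obtain ⟨x, hx, rfl⟩ := exists_name a
  obtain ⟨w, hw, rfl⟩ := exists_names v
  have hR : ZFM.FO.{0} (fun T E (v : Fin (k + 1) → T) =>
      ∃ b, ∀ x, E x b ↔ E x (v 0) ∧ Sat E φ (Fin.cons x fun i => v i.succ)) := by
    apply ZFM.FO.ex
    apply ZFM.FO.all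
    refine (ZFM.FO.mem _ _).iff ((ZFM.FO.mem _ _).and ?_)
    refine (ZFM.FO.sat φ (Fin.cons 0 fun i => i.succ.succ.succ)).congr fun T E v => ?_
    refine iff_of_eq (congrArg _ ?_)
    funext i
    refine Fin.cases ?_ (fun i => ?_) i
    · rfl
    · rfl
  have hww : ∀ i, (Fin.cons x w : Fin (k + 1) → BSet D) i ∈ G.N := by
    intro i
    refine Fin.cases ?_ (fun i => ?_) i
    · exact hx
    · exact hw i
  refine pull hR hww G.uf.top {sepN S φ w x} (Set.countable_singleton _) ?_ ?_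
  · rintro _ rfl
    exact HS_sepN φ (fun i => hsN (hw i)) (hsN hx)
  · intro G' hw' hN' _
    have hx' : x ∈ G'.N := hw' 0
    have hwN : ∀ i, w i ∈ G'.N := fun i => hw' i.succ
    have hp : sepN S φ w x ∈ G'.N := hN' rfl
    refine ⟨G'.val (sepN S φ w x), fun z => ?_⟩
    obtain ⟨z, hz, rfl⟩ := exists_name z
    change G'.E _ _ ↔ G'.E (G'.val z) (G'.val x) ∧
      Sat G'.E φ (Fin.cons (G'.val z) fun i => G'.val (w i))
    have h1 := los (G := G') φ (Fin.cons z w) (by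
      intro i
      refine Fin.cases ?_ (fun i => ?_) i
      · exact hz
      · exact hwN i)
    have h2 : (fun i => G'.val ((Fin.cons z w : Fin (k + 1) → BSet D) i)) =
        Fin.cons (G'.val z) fun i => G'.val (w i) := by
      funext i
      refine Fin.cases ?_ (fun i => ?_) i
      · rfl
      · rfl
    rw [h2] at h1
    rw [h1, E_val hz hp, E_val hz hx', bmem_sepN, G'.uf.inf_iff]

end Gen

end SYM
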