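import Pool.Agent.W_MP_790ce2_lc.Gen

/-!
# MP_790ce2_lc : the generic models satisfy the power set axiom

Name of the power set of `a ∈ HS`: index type `{f : a.ty → D // S.HS (mk a.ty a.fn f)}`, elements `mk a.ty a.fn f`,
weights `⟦mk a.ty a.fn f ⊆ a⟧ = ⨅ i, (f i)ᶜ ⊔ bmem (a.fn i) a`. For `x ∈ HS` the name
`x ∩ a = mk a.ty a.fn (fun i => a.wt i ⊓ bmem (a.fn i) x)` is in `HS` (a common support of `a` and `x`) and
`⟦x ⊆ a⟧ ≤ ⟦x = x ∩ a⟧`. Symmetry of the power name under `g ∈ K i`, `i` a support of `a`: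
`g` maps `y = mk a.ty a.fn f` to a name in `HS` with `⟦g y ⊆ a⟧ = g ⟦y ⊆ a⟧`, which therefore belongs to the power
name with this truth value. Compare `BVM.ax_powerset`.
-/

universe u v

namespace SYM

open IM (BSet)
open IM.BSet
open BVM (IsUF)
open ZFM (Fml Sat)

variable {D : Type u} [CompleteBooleanAlgebra D] {S : SymSys D}

/-- the truth value of `x ⊆ a` -/
def bsub (x a : BSet D) : D := ⨅ i : x.ty, (x.wt i)ᶜ ⊔ bmem (x.fn i) a

variable (S) in
/-- the name of the power set -/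
noncomputable def powN (a : BSet D) : BSet D :=
  .mk {f : a.ty → D // S.HS (.mk a.ty a.fn f)} (fun f => .mk a.ty a.fn f.1) fun f => bsub (.mk a.ty a.fn f.1) a

theorem zb_bsub_bmem (x a z : BSet D) : bsub x a ⊓ bmem z x ≤ bmem z a := by
  rw [bmem, inf_iSup_eq]
  refine iSup_le fun k => ?_
  have h3 : bsub x a ⊓ x.wt k ≤ bmem (x.fn k) a := by
    rw [← le_compl_sup_iff]
    exact iInf_le _ k
  have h4 := bmem_congr_left (x.fn k) z a
  rw [beq_symm] at h4
  refine le_trans (le_inf (inf_le_right.trans inf_le_right) ?_) h4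
  exact (inf_le_inf_left _ inf_le_left).trans h3

theorem zb_le_bsub {x a : BSet D} {d : D} (h : ∀ z, d ⊓ bmem z x ≤ bmem z a) : d ≤ bsub x a := by
  refine le_iInf fun i => ?_
  rw [le_compl_sup_iff]
  exact (inf_le_inf_left _ (wt_le_bmem x i)).trans (h _)

theorem zb_congr (x x' a : BSet D) : beq x x' ⊓ bsub x a ≤ bsub x' a := by
  refine zb_le_bsub fun z => ?_
  have h1 : beq x x' ⊓ bmem z x' ≤ bmem z x := by
    rw [beq_symm]
    exact bmem_congr_right _ _ _
  refine le_trans (le_inf (inf_le_left.trans inf_le_right) ?_) (zb_bsub_bmem x a z)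
  exact (inf_le_inf_right _ inf_le_left).trans h1

theorem zb_congr_right {a a' : BSet D} (h : beq a a' = ⊤) (x : BSet D) : bsub x a = bsub x a' := by
  have h1 : ∀ z, bmem z a = bmem z a' := fun z => sy_bmem_congr (beq_refl z) h
  unfold bsub
  simp only [h1]

theorem zb_act (g : S.G) (x a : BSet D) : S.act g (bsub x a) = bsub (S.ac g x) (S.ac g a) := by
  rw [ac_def g x]
  unfold bsub
  rw [OrderIso.map_iInf]
  refine iInf_congr fun i => ?_
  rw [map_sup, map_compl', act_bmem]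
  rfl

/-- the name of `x ∩ a` -/
noncomputable def zb_inter (x a : BSet D) : BSet D := .mk a.ty a.fn fun i => a.wt i ⊓ bmem (a.fn i) x

theorem zb_bmem_inter (x a z : BSet D) : bmem z (zb_inter x a) = bmem z a ⊓ bmem z x := by
  have h0 : bmem z (zb_inter x a) = ⨆ i : a.ty, (a.wt i ⊓ bmem (a.fn i) x) ⊓ beq z (a.fn i) := rfl
  have h1 : bmem z a = ⨆ i : a.ty, a.wt i ⊓ beq z (a.fn i) := rfl
  rw [h0, h1, iSup_inf_eq]
  refine iSup_congr fun i => ?_
  apply le_antisymm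
  · refine le_inf (inf_le_inf_right _ inf_le_left) ?_
    have h2 := bmem_congr_left (a.fn i) z x
    rw [beq_symm] at h2
    exact le_trans (le_inf inf_le_right (inf_le_left.trans inf_le_right)) h2
  · refine le_inf (le_inf (inf_le_left.trans inf_le_left) ?_) (inf_le_left.trans inf_le_right)
    exact le_trans (inf_le_inf_right _ inf_le_right) (bmem_congr_left z (a.fn i) x)

theorem zb_le_inter (x a : BSet D) : bsub x a ≤ beq x (zb_inter x a) := by
  rw [le_beq_iff]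
  refine ⟨fun z => ?_, fun z => ?_⟩
  · rw [zb_bmem_inter]
    exact le_inf (zb_bsub_bmem x a z) inf_le_right
  · rw [zb_bmem_inter]
    exact inf_le_right.trans inf_le_right

theorem zb_HS_inter {x a : BSet D} (ha : S.HS a) (hx : S.HS x) : S.HS (zb_inter x a) := by
  rw [HS_def]
  refine ⟨?_, fun i => ((HS_def S a).1 ha).2 i⟩
  obtain ⟨i, hi⟩ := exists_sup (S := S) ![a, x] (by
    intro j
    fin_cases j
    · exact ha
    · exact hx)
  refine ⟨i, sup_of_bmem fun g hg z => ?_⟩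
  have h1 : bmem z (S.ac g (zb_inter x a)) = bmem z (S.ac g a) ⊓ bmem z (S.ac g x) := by
    have h2 : S.act g (bmem (S.ac g⁻¹ z) (zb_inter x a)) =
        S.act g (bmem (S.ac g⁻¹ z) a ⊓ bmem (S.ac g⁻¹ z) x) := by
      rw [zb_bmem_inter]
    rw [map_inf, act_bmem, act_bmem, act_bmem, sy_ac_inv] at h2
    exact h2
  rw [h1, zb_bmem_inter]
  have ha1 : beq (S.ac g a) a = ⊤ := hi 0 g hg
  have hx1 : beq (S.ac g x) x = ⊤ := hi 1 g hg
  rw [sy_bmem_congr (beq_refl z) ha1, sy_bmem_congr (beq_refl z) hx1]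

theorem zb_bmem_powN {a x : BSet D} (ha : S.HS a) (hx : S.HS x) : bmem x (powN S a) = bsub x a := by
  have h0 : bmem x (powN S a) = ⨆ f : {f : a.ty → D // S.HS (.mk a.ty a.fn f)},
      bsub (.mk a.ty a.fn f.1) a ⊓ beq x (.mk a.ty a.fn f.1) := rfl
  rw [h0]
  apply le_antisymm
  · refine iSup_le fun f => ?_
    rw [inf_comm, beq_symm]
    exact zb_congr _ _ _
  · refine le_iSup_of_le ⟨fun i => a.wt i ⊓ bmem (a.fn i) x, zb_HS_inter ha hx⟩ ?_
    have h2 := zb_le_inter x a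
    exact le_inf ((le_inf h2 le_rfl).trans (zb_congr x (zb_inter x a) a)) h2

theorem HS_powN {a : BSet D} (ha : S.HS a) : S.HS (powN S a) := by
  rw [HS_def]
  refine ⟨?_, fun f => f.2⟩
  obtain ⟨⟨i, hi⟩, -⟩ := (HS_def S a).1 ha
  refine ⟨i, sup_of_bmem fun g hg z => ?_⟩
  have h0 : bmem z (S.ac g (powN S a)) = ⨆ f : {f : a.ty → D // S.HS (.mk a.ty a.fn f)},
      S.act g (bsub (.mk a.ty a.fn f.1) a) ⊓ beq z (S.ac g (.mk a.ty a.fn f.1)) := by
    rw [ac_def]
    rfl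
  rw [h0]
  refine iSup_le fun f => ?_
  have h1 : S.act g (bsub (.mk a.ty a.fn f.1) a) = bmem (S.ac g (.mk a.ty a.fn f.1)) (powN S a) := by
    rw [zb_bmem_powN ha (HS.ac f.2 g), zb_act]
    exact zb_congr_right (hi g hg) _
  rw [h1, inf_comm, beq_symm]
  exact bmem_congr_left _ _ _

theorem bmem_powN {a x : BSet D} (ha : S.HS a) (hx : S.HS x) : bmem x (powN S a) = bsub x a :=
  zb_bmem_powN ha hx

theorem Gen.bsub_iff {G : Gen S} {x a : BSet D} (hx : x ∈ G.N) (ha : a ∈ G.N) :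
    G.lam (bsub x a) ↔ ∀ z, G.E z (G.val x) → G.E z (G.val a) := by
  constructor
  · intro h z hz
    obtain ⟨z, hzN, rfl⟩ := Gen.exists_name z
    rw [Gen.E_val hzN hx] at hz
    rw [Gen.E_val hzN ha]
    exact G.uf.mono (zb_bsub_bmem x a z) (G.uf.inf h hz)
  · intro h
    by_contra hc
    rw [← G.uf.compl_iff] at hc
    have hw : ∀ i, (![x, a] : Fin 2 → BSet D) i ∈ Set.range G.e := by
      intro i
      fin_cases i
      · exact hx
      · exact ha
    have h1 : (bsub x a)ᶜ ≤ tvS S (.ex (.and (.mem 0 1) (.neg (.mem 0 2)))) ![x, a] := by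
      have he : (bsub x a)ᶜ = ⨆ i : x.ty, x.wt i ⊓ (bmem (x.fn i) a)ᶜ := by
        rw [bsub, compl_iInf]
        refine iSup_congr fun i => ?_
        rw [compl_sup, compl_compl]
      rw [he]
      refine iSup_le fun i => ?_
      have hi : S.HS (x.fn i) := ((HS_def S x).1 (Gen.hsN hx)).2 i
      have h2 : tvS S (.ex (.and (.mem 0 1) (.neg (.mem 0 2)))) ![x, a] =
          ⨆ z : {z : BSet D // S.HS z}, bmem z.1 x ⊓ (bmem z.1 a)ᶜ := rfl
      rw [h2]
      refine le_iSup_of_le ⟨x.fn i, hi⟩ ?_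
      exact inf_le_inf_right _ (wt_le_bmem x i)
    obtain ⟨z, hzN, hz⟩ := G.hen 2 (.and (.mem 0 1) (.neg (.mem 0 2))) ![x, a] hw (G.uf.mono h1 hc)
    have h3 : G.lam (bmem z x ⊓ (bmem z a)ᶜ) := hz
    rw [G.uf.inf_iff, G.uf.compl_iff] at h3
    have h4 := h (G.val z) ((Gen.E_val hzN hx).2 h3.1)
    exact h3.2 ((Gen.E_val hzN ha).1 h4)

theorem Gen.ax_power (G : Gen S) (a : G.M) : ∃ b, ∀ x, G.E x b ↔ ∀ y, G.E y x → G.E y a := by
  obtain ⟨a, haN, rfl⟩ := Gen.exists_name a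
  have hfo : ZFM.FO (k := 1) (fun (T : Type) (E : T → T → Prop) (v : Fin 1 → T) =>
      ∃ b, ∀ x, E x b ↔ ∀ y, E y x → E y (v 0)) := by
    (repeat' (first | exact ZFM.FO.eq _ _ | exact ZFM.FO.mem _ _ | apply ZFM.FO.not | apply ZFM.FO.and | apply ZFM.FO.or | apply ZFM.FO.iff | apply ZFM.FO.imp | apply ZFM.FO.exU | apply ZFM.FO.ex | apply ZFM.FO.all))
  refine Gen.pull (G := G) hfo (w := fun _ => a) (fun _ => haN) (d := ⊤) G.uf.top {powN S a}
    (Set.countable_singleton _) (fun x hx => ?_) (fun G' hw hN _ => ?_)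
  · rw [Set.mem_singleton_iff.1 hx]
    exact HS_powN (Gen.hsN haN)
  · have hp : powN S a ∈ G'.N := hN rfl
    have ha' : a ∈ G'.N := hw 0
    refine ⟨G'.val (powN S a), fun x => ?_⟩
    obtain ⟨x, hxN, rfl⟩ := Gen.exists_name x
    rw [Gen.E_val hxN hp, bmem_powN (Gen.hsN ha') (Gen.hsN hxN)]
    exact Gen.bsub_iff hxN ha'

end SYM
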