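import Pool.Agent.W_MP_790ce2_lc.ZFa

/-!
# MP_790ce2_lc : the generic models satisfy the axiom scheme of replacement

Collection: let `a, w ∈ HS`. For every `i : a.ty` and every value `d : D` of `y ↦ tvS φ (a.fn i, y, w)` on `HS` choose a
witness `y ∈ HS`; this is a family `W : J → BSet D` with `J : Type u` (subtype of `a.ty × D`) such that
`⨆ y : HS, tvS φ (a.fn i, y, w) = ⨆ j, tvS φ (a.fn i, W j, w)` for all `i`. The name
`colN W = mk (S.G × J) (fun p => S.ac p.1 (W p.2)) ⊤` is in `HS` (it is invariant under the whole group) and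
`bmem x a ⊓ tvS φ (x, y, w) ≤ ⨆ z : HS, bmem z (colN W) ⊓ tvS φ (x, z, w)`.
Replacement follows: in a model containing the name, separate `{y ∈ colN W : ∃ x ∈ a, φ(x, y, w)}` (`ax_sep`).
Compare `BVM.zfc` in `Pool/Agent/BVM_h40/Los.lean`.
-/

universe u v

namespace SYM

open IM (BSet)
open IM.BSet
open BVM (IsUF)
open ZFM (Fml Sat)

variable {D : Type u} [CompleteBooleanAlgebra D] {S : SymSys D}

/-- the name of the set of all translates of the names `W j` -/
def colN (S : SymSys D) {J : Type u} (W : J → BSet D) : BSet D :=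
  .mk (S.G × J) (fun p => S.ac p.1 (W p.2)) fun _ => ⊤

theorem bmem_colN {J : Type u} (W : J → BSet D) (z : BSet D) :
    bmem z (colN S W) = ⨆ p : S.G × J, beq z (S.ac p.1 (W p.2)) := by
  rw [colN, bmem]
  exact iSup_congr fun p => top_inf_eq _

theorem HS_colN {J : Type u} {W : J → BSet D} (hW : ∀ j, S.HS (W j)) : S.HS (colN S W) := by
  rw [HS_def]
  refine ⟨⟨Classical.choice S.ne, sup_of_bmem fun g _ z => ?_⟩, fun p => HS.ac (hW p.2) p.1⟩
  rw [ac_def, bmem_colN, bmem]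
  refine iSup_le fun p => ?_
  change S.act g ⊤ ⊓ beq z (S.ac g (S.ac p.1 (W p.2))) ≤ _
  rw [← ac_mul]
  exact inf_le_right.trans (le_iSup (fun q : S.G × J => beq z (S.ac q.1 (W q.2))) (g * p.1, p.2))

theorem top_le_bmem_colN {J : Type u} (W : J → BSet D) (j : J) : bmem (W j) (colN S W) = ⊤ := by
  rw [eq_top_iff, bmem_colN]
  refine le_iSup_of_le (1, j) ?_
  change ⊤ ≤ beq (W j) (S.ac 1 (W j))
  rw [ac_one, beq_refl]

/-- collection -/
theorem exists_colN {k : ℕ} (φ : Fml (k + 2)) (w : Fin k → BSet D) (a : BSet D) :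
    ∃ (J : Type u) (W : J → BSet D), (∀ j, S.HS (W j)) ∧ ∀ x y, S.HS y →
      bmem x a ⊓ tvS S φ (Fin.cons x (Fin.cons y w)) ≤
        ⨆ z : {z // S.HS z}, bmem z.1 (colN S W) ⊓ tvS S φ (Fin.cons x (Fin.cons z.1 w)) := by
  let J : Type u := {p : a.ty × D // ∃ y, S.HS y ∧ tvS S φ (Fin.cons (a.fn p.1) (Fin.cons y w)) = p.2}
  choose W hW1 hW2 using fun j : J => j.2
  refine ⟨J, W, hW1, fun x y hy => ?_⟩
  have hR1 : ∀ y : BSet D, Ext1 fun x => tvS S φ (Fin.cons x (Fin.cons y w)) := fun y =>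
    ext1_tvS φ _
  rw [bmem, iSup_inf_eq]
  refine iSup_le fun i => ?_
  let j : J := ⟨(i, tvS S φ (Fin.cons (a.fn i) (Fin.cons y w))), y, hy, rfl⟩
  have hj : tvS S φ (Fin.cons (a.fn i) (Fin.cons (W j) w)) = tvS S φ (Fin.cons (a.fn i) (Fin.cons y w)) :=
    hW2 j
  refine le_iSup_of_le ⟨W j, hW1 j⟩ ?_
  change _ ≤ bmem (W j) (colN S W) ⊓ tvS S φ (Fin.cons x (Fin.cons (W j) w))
  rw [top_le_bmem_colN, top_inf_eq]
  have h1 : a.wt i ⊓ beq x (a.fn i) ⊓ tvS S φ (Fin.cons x (Fin.cons y w)) ≤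
      tvS S φ (Fin.cons (a.fn i) (Fin.cons (W j) w)) := by
    rw [hj]
    exact le_trans (le_inf (inf_le_left.trans inf_le_right) inf_le_right) (hR1 y x (a.fn i))
  have h6 := hR1 (W j) (a.fn i) x
  rw [beq_symm] at h6
  exact le_trans (le_inf (inf_le_left.trans inf_le_right) h1) h6

theorem tvS_rename {k m : ℕ} (ρ : Fin k → Fin m) (φ : Fml k) (v : Fin m → BSet D) :
    tvS S (φ.rename ρ) v = tvS S φ fun i => v (ρ i) := by
  induction φ generalizing m with
  | mem i j => rfl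
  | eq i j => rfl
  | neg φ ih => simp only [Fml.rename, tvS, ih]
  | and φ ψ ih1 ih2 => simp only [Fml.rename, tvS, ih1, ih2]
  | ex φ ih =>
    simp only [Fml.rename, tvS]
    refine iSup_congr fun x => ?_
    rw [ih]
    refine congrArg _ ?_
    funext i
    refine Fin.cases ?_ (fun i => ?_) i <;> simp

theorem zc_fo_sat2 {k m : ℕ} (φ : Fml (k + 2)) (a b : Fin m) (σ : Fin k → Fin m) :
    ZFM.FO.{v} (fun _ E w => Sat E φ (Fin.cons (w a) (Fin.cons (w b) fun i => w (σ i)))) :=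
  (ZFM.FO.sat φ (Fin.cons a (Fin.cons b σ))).congr fun T E w => by
    refine iff_of_eq (congrArg _ ?_)
    funext i
    refine Fin.cases ?_ (fun i => ?_) i
    · simp
    · refine Fin.cases ?_ (fun i => ?_) i <;> simp

/-- replacement for one formula, as a statement about `(a, v)` -/
def ReplAt {k : ℕ} (φ : Fml (k + 2)) (T : Type) (E : T → T → Prop) (u : Fin (k + 1) → T) : Prop :=
  (∀ x, E x (u 0) → ∀ y z, Sat E φ (Fin.cons x (Fin.cons y fun i => u i.succ)) →
    Sat E φ (Fin.cons x (Fin.cons z fun i => u i.succ)) → y = z) →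
  ∃ b, ∀ y, E y b ↔ ∃ x, E x (u 0) ∧ Sat E φ (Fin.cons x (Fin.cons y fun i => u i.succ))

theorem ReplAt.fo {k : ℕ} (φ : Fml (k + 2)) : ZFM.FO.{0} (ReplAt φ) := by
  unfold ReplAt
  refine ZFM.FO.imp (ZFM.FO.all (ZFM.FO.imp (ZFM.FO.mem _ _) (ZFM.FO.all (ZFM.FO.all
    (ZFM.FO.imp ?_ (ZFM.FO.imp ?_ (ZFM.FO.eq _ _))))))) (ZFM.FO.ex (ZFM.FO.all (ZFM.FO.iff (ZFM.FO.mem _ _)
      (ZFM.FO.ex (ZFM.FO.and (ZFM.FO.mem _ _) ?_)))))
  · exact zc_fo_sat2 φ _ _ _
  · exact zc_fo_sat2 φ _ _ _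
  · exact zc_fo_sat2 φ _ _ _

theorem Gen.zc_val_cons (G : Gen S) {k : ℕ} (x : BSet D) (w : Fin k → BSet D) :
    (fun i => G.val ((Fin.cons x w : Fin (k + 1) → BSet D) i)) =
      (Fin.cons (G.val x) (fun i => G.val (w i)) : Fin (k + 1) → G.M) := by
  funext i
  refine Fin.cases ?_ (fun i => ?_) i <;> simp

theorem Gen.zc_mem_cons {G : Gen S} {k : ℕ} {x : BSet D} {w : Fin k → BSet D} (hx : x ∈ G.N)
    (hw : ∀ i, w i ∈ G.N) : ∀ i, (Fin.cons x w : Fin (k + 1) → BSet D) i ∈ G.N := by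
  intro i
  refine Fin.cases ?_ (fun i => ?_) i
  · simpa using hx
  · simpa using hw i

theorem Gen.ax_repl (G : Gen S) (k : ℕ) (φ : Fml (k + 2)) (v : Fin k → G.M) (a : G.M)
    (h : ∀ x, G.E x a → ∀ y z, Sat G.E φ (Fin.cons x (Fin.cons y v)) → Sat G.E φ (Fin.cons x (Fin.cons z v)) → y = z) :
    ∃ b, ∀ y, G.E y b ↔ ∃ x, G.E x a ∧ Sat G.E φ (Fin.cons x (Fin.cons y v)) := by
  obtain ⟨a, ha, rfl⟩ := G.exists_name a
  obtain ⟨w, hw, rfl⟩ := G.exists_names v
  obtain ⟨J, W, hW, hcol⟩ := exists_colN (S := S) φ w a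
  have key : ReplAt φ G.M G.E fun i => G.val ((Fin.cons a w : Fin (k + 1) → BSet D) i) := by
    refine Gen.pull (ReplAt.fo φ) (Gen.zc_mem_cons ha hw) (d := ⊤) G.uf.top {colN S W}
      (Set.countable_singleton _) (by
        intro x hx
        rw [Set.mem_singleton_iff.1 hx]
        exact HS_colN hW) ?_
    intro G' hG' hN0 _ hf
    have ha' : a ∈ G'.N := by simpa using hG' 0
    have hw' : ∀ i, w i ∈ G'.N := fun i => by simpa using hG' i.succ
    have hc : colN S W ∈ G'.N := hN0 rfl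
    simp only [Fin.cons_zero, Fin.cons_succ] at hf ⊢
    -- the formula for the separation
    obtain ⟨ψ, hψ⟩ : ZFM.FO.{0} (fun (T : Type) E (u : Fin (k + 2) → T) => ∃ x, E x (u 1) ∧
        Sat E φ (Fin.cons x (Fin.cons (u 0) fun i => u i.succ.succ))) :=
      ZFM.FO.ex (ZFM.FO.and (ZFM.FO.mem _ _) (zc_fo_sat2 φ _ _ _))
    obtain ⟨b, hb⟩ := G'.ax_sep (k + 1) ψ (Fin.cons (G'.val a) fun i => G'.val (w i)) (G'.val (colN S W))
    refine ⟨b, fun y => ?_⟩
    rw [hb, ← hψ]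
    simp only [Fin.cons_zero, Fin.cons_succ, show (1 : Fin (k + 2)) = Fin.succ 0 from rfl]
    refine ⟨fun hy => hy.2, fun hy => ⟨?_, hy⟩⟩
    obtain ⟨x, hx, hxy⟩ := hy
    obtain ⟨x, hx', rfl⟩ := G'.exists_name x
    obtain ⟨y, hy', rfl⟩ := G'.exists_name y
    -- the witness
    let θ : Fml (k + 2) := .ex (.and (.mem 0 2) (φ.rename (Fin.cons 1 (Fin.cons 0 fun i => i.succ.succ.succ))))
    have hθ : ∀ z : BSet D, (fun i : Fin (k + 2) => (Fin.cons z (Fin.cons x (Fin.cons (colN S W) w)) :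
        Fin (k + 3) → BSet D) ((Fin.cons 1 (Fin.cons 0 fun i => i.succ.succ.succ) : Fin (k + 2) → Fin (k + 3)) i)) =
        (Fin.cons x (Fin.cons z w) : Fin (k + 2) → BSet D) := by
      intro z
      funext i
      refine Fin.cases ?_ (fun i => ?_) i
      · rfl
      · refine Fin.cases ?_ (fun i => ?_) i
        · rfl
        · rfl
    have h1 : bmem x a ⊓ tvS S φ (Fin.cons x (Fin.cons y w)) ≤
        tvS S θ (Fin.cons x (Fin.cons (colN S W) w)) := by
      refine (hcol x y (G'.hsN hy')).trans (le_of_eq ?_)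
      simp only [θ, tvS]
      refine iSup_congr fun z => ?_
      rw [tvS_rename, hθ]
      rfl
    have h2 : G'.lam (tvS S θ (Fin.cons x (Fin.cons (colN S W) w))) := by
      refine G'.uf.mono h1 (G'.uf.inf ((Gen.E_val hx' ha').1 hx) ?_)
      have h3 := (Gen.los φ (Fin.cons x (Fin.cons y w)) (Gen.zc_mem_cons hx' (Gen.zc_mem_cons hy' hw'))).1
      rw [Gen.zc_val_cons, Gen.zc_val_cons] at h3
      exact h3 hxy
    have h3 := (Gen.los θ (Fin.cons x (Fin.cons (colN S W) w))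
      (Gen.zc_mem_cons hx' (Gen.zc_mem_cons hc hw'))).2 h2
    rw [Gen.zc_val_cons, Gen.zc_val_cons] at h3
    obtain ⟨z, hz1, hz2⟩ := h3
    have h4 : Sat G'.E φ (Fin.cons (G'.val x) (Fin.cons z fun i => G'.val (w i))) := by
      have h5 := (ZFM.sat_rename _ _ _ _).1 hz2
      refine (iff_of_eq (congrArg _ ?_)).1 h5
      funext i
      refine Fin.cases ?_ (fun i => ?_) i
      · rfl
      · refine Fin.cases ?_ (fun i => ?_) i
        · rfl
        · rfl
    have h5 := hf _ hx _ _ hxy h4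
    rw [h5]
    exact hz1
  have h' := key
  unfold ReplAt at h'
  simp only [Fin.cons_zero, Fin.cons_succ] at h'
  exact h' h

end SYM
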