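import Pool.Agent.W_MP_790ce2_lc.ZFb
import Pool.Agent.W_MP_790ce2_lc.ZFc

/-!
# MP_790ce2_lc : the generic models satisfy ZF
-/

universe u v

namespace SYM

variable {D : Type u} [CompleteBooleanAlgebra D] {S : SymSys D}

theorem Gen.zf (G : Gen S) : ZFM.IsZF G.E where
  ext := G.ax_ext
  found := G.ax_found
  pair := G.ax_pair
  union := G.ax_union
  power := G.ax_power
  inf := G.ax_inf
  sep := G.ax_sep
  repl := G.ax_repl

end SYM
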